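import Pool.Agent.Helper54.CL.Good

/-!
# CL-13: transvections; elements `E x a t` with `a` not isotropic, symmetric case

PROOF.  In both cases: `hR : RN k (zpowers u) R`, `R = π.range`, by `rn_sl2`.  `M = MN k (zpowers u) GG` contains `JN ≥ R` and all elements of
`UU x`, because they commute with `u` (`mem_mn_of_commute`, `UU_le_GG`).  `R` contains `g = π !![0,1;-1,0]`, and `g x = c y`, `c ≠ 0`, so
`UU y ≤ M` (`UU_le_conj`, `UU_smul`), `GG ≤ M` by `GG_le_two`.  Conclude by `rn_crit`: the normal closure of `u` in `GG` is everything by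
`ncl_top`: if `K` contains `u` and is normalized by `GG` then `R ≤ K` (`rn_le_normal`), so `τ = π (diag 2 2⁻¹) ∈ K` and
`τ g τ⁻¹ g⁻¹ ∈ K` for `g ∈ GG`; `ncl_torus` with `l = 2`, or `l = 4` in the symmetric case.
* `case_transv`: `κ = t` in `exists_pi2` (`t ≠ 0` because `u ≠ 1`); `u = π !![1,1;0,1]`.  `E x a s` and `E x 0 t` commute (`E_E`).
* `case_O3`: symmetric case, `e = a / 2`, `exists_pi3`: `u = E x a t = π !![1,1;0,1]` (`2 t = - B a a`); `UU x` is commutative (`UU_comm`).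
  `finrank ≥ 3` because `x, y, a` are linearly independent.
-/

set_option autoImplicit false
open scoped Pointwise
open Pool.Agent.Helper54.PW Pool.Agent.Helper54.RT

namespace Pool.Agent.Helper54.CL

namespace HF
section
variable {p : ℕ} [Fact p.Prime] {k : Type} [Field k] [IsAlgClosed k] [CharP k p]
  {F V : Type} [Field F] [Finite F] [CharP F p] [AddCommGroup V] [Module F V] [Finite V]
  (h : HF F V)

private theorem ca_pgroup {A : Type} [Group A] {u : A} (hu : u ^ p = 1) :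
    IsPGroup p (Subgroup.zpowers u) := by
  rintro ⟨g, hg⟩
  obtain ⟨i, rfl⟩ := Subgroup.mem_zpowers_iff.mp hg
  refine ⟨1, ?_⟩
  apply Subtype.ext
  show (u ^ i) ^ (p ^ 1) = 1
  rw [pow_one, ← zpow_natCast, ← zpow_mul, mul_comm, zpow_mul, zpow_natCast, hu, one_zpow]

private theorem ca_common (hp5 : 5 ≤ p) {x y : V} (hp : h.Pair x y) {u : V ≃ₗ[F] V}
    (huU : u ∈ h.UU x) (hu1 : u ≠ 1) (hcomm : ∀ w ∈ h.UU x, w * u = u * w)
    (π : Matrix.SpecialLinearGroup (Fin 2) h.F0 →* (V ≃ₗ[F] V)) (hπ : π.range ≤ h.GG p)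
    (s : Matrix.SpecialLinearGroup (Fin 2) h.F0) (hs : π s = u) {g : V ≃ₗ[F] V}
    (hg : g ∈ π.range) {c : F} (hc : c ≠ 0) (hgx : g x = c • y)
    (hb : h.IsO → 3 ≤ Module.finrank F V) {l : F} (hl : l ≠ 0) (hσ : h.σ l = l) (hl1 : l ≠ 1)
    (hl2 : h.IsO ∨ l ^ 2 ≠ 1 ∨ 3 ≤ Module.finrank F V) {τ : V ≃ₗ[F] V} (hτR : τ ∈ π.range)
    (hx : τ x = l • x) (hy : τ y = l⁻¹ • y) (hv : ∀ v, h.B x v = 0 → h.B y v = 0 → τ v = v) :
    RN k (Subgroup.zpowers u) (h.GG p) := by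
  have hp3 : 3 ≤ p := by omega
  have hup : u ^ p = 1 := h.UU_pow hp3 hp huU
  have huG : u ∈ h.GG p := h.UU_le_GG hp3 hp huU
  have hR : RN k (Subgroup.zpowers u) π.range := by
    have := rn_sl2 (p := p) (k := k) hp5 π s (by rw [hs]; exact hup) (by rw [hs]; exact hu1)
    rwa [hs] at this
  have hRM : π.range ≤ MN k (Subgroup.zpowers u) (h.GG p) := (le_jn hR hπ).trans jn_le_mn
  have hxM : h.UU x ≤ MN k (Subgroup.zpowers u) (h.GG p) := fun w hw =>
    mem_mn_of_commute (h.UU_le_GG hp3 hp hw) (hcomm w hw)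
  have hyM : h.UU y ≤ MN k (Subgroup.zpowers u) (h.GG p) := by
    have h1 := h.UU_le_conj (hRM hg) (h.GG_le p (hπ hg)) hxM
    rw [hgx, h.UU_smul hc] at h1
    exact h1
  have hGM : h.GG p ≤ MN k (Subgroup.zpowers u) (h.GG p) :=
    h.GG_le_two hp3 hp.xx hp.yy (by rw [hp.xy]; exact one_ne_zero) hxM hyM
  have hPX : Subgroup.zpowers u ≤ h.GG p := by
    rw [Subgroup.zpowers_le]; exact huG
  refine rn_crit (ca_pgroup hup) hPX hGM (ncl_top huG ?_)
  intro K hKX huK hnK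
  have hRK : π.range ≤ K := by
    refine rn_le_normal hR ?_ fun g hg w hw => hnK g (hπ hg) w hw
    rw [Subgroup.zpowers_le]; exact huK
  refine h.ncl_torus hp5 hb hnK hp hl hσ hl1 hl2 hx hy hv fun w hw => ?_
  have h1 : τ ∈ K := hRK hτR
  have h2 : w * τ⁻¹ * w⁻¹ ∈ K := hnK w (h.UU_le_GG hp3 hp hw) _ (K.inv_mem h1)
  have h3 := K.mul_mem h1 h2
  rwa [← mul_assoc, ← mul_assoc] at h3

private theorem ca_mem_UU {x a : V} {t : F} (hx : h.B x x = 0) (ha : h.B x a = 0)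
    (ht : h.Adm a t) {u : V ≃ₗ[F] V} (hu : ∀ v, u v = h.E x a t v) : u ∈ h.UU x := by
  obtain ⟨g, hg, hg'⟩ := h.exists_E hx ha ht
  have : u = g := LinearEquiv.ext fun v => by rw [hu, hg']
  rw [this]; exact hg

private theorem ca_nat_ne (hp5 : 5 ≤ p) (n : ℕ) (hn0 : 0 < n) (hn : n < 5) : (n : F) ≠ 0 := by
  intro h0
  have := (CharP.cast_eq_zero_iff F p n).mp h0
  exact absurd (Nat.le_of_dvd hn0 this) (by omega)

theorem case_transv (hp5 : 5 ≤ p) (hO : ¬ h.IsO) {x y : V} (hp : h.Pair x y)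
    {u : V ≃ₗ[F] V} (hu1 : u ≠ 1) {t : F} (ht : h.Adm 0 t) (hu : ∀ v, u v = h.E x 0 t v) :
    RN k (Subgroup.zpowers u) (h.GG p) := by
  have hp3 : 3 ≤ p := by omega
  have h2 : (2 : F) ≠ 0 := by exact_mod_cast ca_nat_ne (F := F) hp5 2 (by norm_num) (by norm_num)
  have h3 : (3 : F) ≠ 0 := by exact_mod_cast ca_nat_ne (F := F) hp5 3 (by norm_num) (by norm_num)
  have hu' : ∀ v, u v = v + (t * h.B x v) • x := by
    intro v
    rw [hu]
    unfold HF.E
    rw [h.zero_left, mul_zero, zero_smul, smul_zero, add_zero, sub_zero]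
  have ht0 : t ≠ 0 := by
    rintro rfl
    apply hu1
    refine LinearEquiv.ext fun v => ?_
    rw [hu', zero_mul, zero_smul, add_zero]
    rfl
  have htκ : h.ε * t + h.σ t = 0 := by
    have := ht
    unfold HF.Adm at this
    rwa [h.zero_left, neg_zero] at this
  have huU : u ∈ h.UU x := h.ca_mem_UU hp.xx (h.zero_right x) ht hu
  obtain ⟨π, hπ, hf, -⟩ := h.exists_pi2 hp3 hp ht0 htκ
  have h20 : (2 : h.F0) ≠ 0 := by
    intro h0
    apply h2
    have h5 : ((2 : h.F0) : F) = ((0 : h.F0) : F) := congrArg (fun z : h.F0 => (z : F)) h0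
    exact h5
  let s : Matrix.SpecialLinearGroup (Fin 2) h.F0 := ⟨!![1, 1; 0, 1], by simp [Matrix.det_fin_two_of]⟩
  let w : Matrix.SpecialLinearGroup (Fin 2) h.F0 := ⟨!![0, 1; -1, 0], by simp [Matrix.det_fin_two_of]⟩
  let d : Matrix.SpecialLinearGroup (Fin 2) h.F0 :=
    ⟨!![2, 0; 0, 2⁻¹], by rw [Matrix.det_fin_two_of, mul_zero, sub_zero, mul_inv_cancel₀ h20]⟩
  have hs : π s = u := by
    refine LinearEquiv.ext fun v => ?_
    rw [hf, hu']
    have e1 : (s : Matrix (Fin 2) (Fin 2) h.F0) 0 0 = 1 := rfl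
    have e2 : (s : Matrix (Fin 2) (Fin 2) h.F0) 0 1 = 1 := rfl
    have e3 : (s : Matrix (Fin 2) (Fin 2) h.F0) 1 0 = 0 := rfl
    have e4 : (s : Matrix (Fin 2) (Fin 2) h.F0) 1 1 = 1 := rfl
    rw [e1, e2, e3, e4]
    simp
  have hd : ∀ v, π d v = v + (h.ε * h.B y v) • x + ((2⁻¹ - 1) * h.B x v) • y := by
    intro v
    rw [hf]
    have e1 : (d : Matrix (Fin 2) (Fin 2) h.F0) 0 0 = 2 := rfl
    have e2 : (d : Matrix (Fin 2) (Fin 2) h.F0) 0 1 = 0 := rfl
    have e3 : (d : Matrix (Fin 2) (Fin 2) h.F0) 1 0 = 0 := rfl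
    have e4 : (d : Matrix (Fin 2) (Fin 2) h.F0) 1 1 = 2⁻¹ := rfl
    rw [e1, e2, e3, e4]
    have e5 : ((2 : h.F0) : F) = 2 := rfl
    have e6 : ((2⁻¹ : h.F0) : F) = 2⁻¹ := rfl
    have e7 : ((0 : h.F0) : F) = 0 := rfl
    have e8 : (2 : F) - 1 = 1 := by norm_num
    rw [e5, e6, e7, e8, zero_mul, zero_mul, add_zero, one_mul, zero_mul, zero_mul, zero_add]
  refine h.ca_common hp5 hp huU hu1 ?_ π hπ s hs (g := π w) ⟨w, rfl⟩ (c := -t⁻¹)
    (neg_ne_zero.mpr (inv_ne_zero ht0)) ?_ (fun hh => absurd hh hO) (l := 2) h2 (map_ofNat h.σ 2)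
    ?_ (Or.inr (Or.inl ?_)) (τ := π d) ⟨d, rfl⟩ ?_ ?_ ?_
  · intro w hw
    obtain ⟨b, r, hxb, -, -, hb⟩ := h.UU_form' hp hw
    refine LinearEquiv.ext fun v => ?_
    show w (u v) = u (w v)
    rw [hu, hb, hb, hu, h.E_E hp.xx hxb (h.zero_right x), h.E_E hp.xx (h.zero_right x) hxb,
      h.zero_left, h.zero_right, add_zero, zero_add, add_comm t r]
  · rw [hf]
    have e1 : (w : Matrix (Fin 2) (Fin 2) h.F0) 0 0 = 0 := rfl
    have e2 : (w : Matrix (Fin 2) (Fin 2) h.F0) 0 1 = 1 := rfl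
    have e3 : (w : Matrix (Fin 2) (Fin 2) h.F0) 1 0 = -1 := rfl
    have e4 : (w : Matrix (Fin 2) (Fin 2) h.F0) 1 1 = 0 := rfl
    have e5 : ((-1 : h.F0) : F) = -1 := rfl
    have e6 : ((1 : h.F0) : F) = 1 := rfl
    have e7 : ((0 : h.F0) : F) = 0 := rfl
    rw [e1, e2, e3, e4, e5, e6, e7, hp.yx, hp.xx, h.eps]
    simp
  · intro h0
    apply one_ne_zero (α := F)
    linear_combination h0
  · intro h0
    apply h3
    linear_combination h0
  · rw [hd, hp.yx, hp.xx, h.eps, mul_zero, zero_smul, add_zero, one_smul, two_smul]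
  · rw [hd, hp.yy, hp.xy, mul_zero, zero_smul, add_zero, mul_one, sub_smul, one_smul]
    abel
  · intro v hv1 hv2
    rw [hd, hv1, hv2, mul_zero, mul_zero, zero_smul, zero_smul, add_zero, add_zero]

theorem case_O3 (hp5 : 5 ≤ p) (hO : h.IsO) {x y : V} (hp : h.Pair x y) {u : V ≃ₗ[F] V}
    {a : V} (hxa : h.B x a = 0) (hya : h.B y a = 0) (haa : h.B a a ≠ 0) {t : F}
    (ht : h.Adm a t) (hu : ∀ v, u v = h.E x a t v) :
    RN k (Subgroup.zpowers u) (h.GG p) := by
  have hp3 : 3 ≤ p := by omega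
  have h2 : (2 : F) ≠ 0 := by exact_mod_cast ca_nat_ne (F := F) hp5 2 (by norm_num) (by norm_num)
  have h3 : (3 : F) ≠ 0 := by exact_mod_cast ca_nat_ne (F := F) hp5 3 (by norm_num) (by norm_num)
  have h4 : (4 : F) ≠ 0 := by exact_mod_cast ca_nat_ne (F := F) hp5 4 (by norm_num) (by norm_num)
  obtain ⟨hσ, hε⟩ := hO
  have ht2 : 2 * t = - h.B a a := by
    have := ht
    unfold HF.Adm at this
    rw [hε, hσ, one_mul] at this
    linear_combination this
  have ht0 : t ≠ 0 := by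
    rintro rfl
    apply haa
    linear_combination ht2
  have hu' : ∀ v, u v = v + h.B x v • a - h.B a v • x + (t * h.B x v) • x := by
    intro v
    rw [hu]
    unfold HF.E
    rw [hε, one_mul]
  have hax : h.B a x = 0 := h.B_symm_zero hxa
  have hay : h.B a y = 0 := h.B_symm_zero hya
  have huU : u ∈ h.UU x := h.ca_mem_UU hp.xx hxa ht hu
  have huI : u ∈ h.Iso := huU.1
  have hu1 : u ≠ 1 := by
    intro h1
    apply haa
    have e1 := hu' y
    rw [h1, hp.xy, hay, zero_smul, sub_zero, one_smul, mul_one] at e1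
    have e2 : a + t • x = 0 := by
      have : (1 : V ≃ₗ[F] V) y = y := rfl
      rw [this, add_assoc] at e1
      exact (add_eq_left.mp e1.symm)
    have e3 : h.B a (a + t • x) = 0 := by rw [e2, h.zero_right]
    rw [h.add_right, h.smul_right, hax, mul_zero, add_zero] at e3
    exact e3
  have hyx : h.B y x = 1 := by rw [hp.yx, hε]
  set e : V := (2⁻¹ : F) • a with he
  have h2e : (2 : F) • e = a := by rw [he, smul_smul, mul_inv_cancel₀ h2, one_smul]
  have hxe : h.B x e = 0 := by rw [he, h.smul_right, hxa, mul_zero]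
  have hye : h.B y e = 0 := by rw [he, h.smul_right, hya, mul_zero]
  have hex : h.B e x = 0 := h.B_symm_zero hxe
  have hey : h.B e y = 0 := h.B_symm_zero hye
  have hae : h.B a e = - t := by
    rw [he, h.smul_right]
    field_simp
    linear_combination ht2
  have hea : ∀ v, h.B a v = 2 * h.B e v := by
    intro v
    rw [he, h.smul_left, hσ, ← mul_assoc, mul_inv_cancel₀ h2, one_mul]
  have hee : 2 * h.B e e = - t := by rw [← hea, hae]
  have hee0 : h.B e e ≠ 0 := by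
    intro h0
    rw [h0, mul_zero] at hee
    apply ht0
    linear_combination hee
  have htt : 2 * h.B e e * t⁻¹ = - h.ε := by
    rw [hee, hε, neg_mul, mul_inv_cancel₀ ht0]
  obtain ⟨π, hπ, hf, hf'⟩ := h.exists_pi3 hp3 hp hxe hye hee0 htt
  rw [inv_inv] at hf
  have h20 : (2 : h.F0) ≠ 0 := by
    intro h0
    apply h2
    have h5 : ((2 : h.F0) : F) = ((0 : h.F0) : F) := congrArg (fun z : h.F0 => (z : F)) h0
    exact h5
  let s : Matrix.SpecialLinearGroup (Fin 2) h.F0 := ⟨!![1, 1; 0, 1], by simp [Matrix.det_fin_two_of]⟩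
  let w : Matrix.SpecialLinearGroup (Fin 2) h.F0 := ⟨!![0, 1; -1, 0], by simp [Matrix.det_fin_two_of]⟩
  let d : Matrix.SpecialLinearGroup (Fin 2) h.F0 :=
    ⟨!![2, 0; 0, 2⁻¹], by rw [Matrix.det_fin_two_of, mul_zero, sub_zero, mul_inv_cancel₀ h20]⟩
  have e0 : ((0 : h.F0) : F) = 0 := rfl
  have e1 : ((1 : h.F0) : F) = 1 := rfl
  have em1 : ((-1 : h.F0) : F) = -1 := rfl
  have e2 : ((2 : h.F0) : F) = 2 := rfl
  have e2i : ((2⁻¹ : h.F0) : F) = 2⁻¹ := rfl
  obtain ⟨s1, s2, s3⟩ := hf s 1 1 0 1 rfl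
  obtain ⟨w1, -, -⟩ := hf w 0 1 (-1) 0 rfl
  obtain ⟨d1, d2, d3⟩ := hf d 2 0 0 2⁻¹ rfl
  rw [e0, e1] at s1 s2
  rw [e1] at s3
  rw [e0, em1] at w1
  rw [e0, e2] at d1
  rw [e0, e2, e2i] at d2
  rw [e0, e2i] at d3
  -- decomposition
  have hdec : ∀ v : V, ∃ (α β γ : F) (v1 : V), h.B x v1 = 0 ∧ h.B y v1 = 0 ∧ h.B e v1 = 0 ∧
      v = v1 + α • x + β • y + γ • e ∧ α = h.B y v ∧ β = h.B x v := by
    intro v
    refine ⟨h.B y v, h.B x v, h.B e v / h.B e e,
      v - h.B y v • x - h.B x v • y - (h.B e v / h.B e e) • e, ?_, ?_, ?_, ?_, rfl, rfl⟩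
    · rw [h.sub_right, h.sub_right, h.sub_right, h.smul_right, h.smul_right, h.smul_right, hp.xx,
        hp.xy, hxe]
      ring
    · rw [h.sub_right, h.sub_right, h.sub_right, h.smul_right, h.smul_right, h.smul_right, hyx,
        hp.yy, hye]
      ring
    · rw [h.sub_right, h.sub_right, h.sub_right, h.smul_right, h.smul_right, h.smul_right, hex,
        hey, div_mul_cancel₀ _ hee0]
      ring
    · abel
  have ux : u x = x := by
    rw [hu', hp.xx, hax, zero_smul, zero_smul, mul_zero, zero_smul, add_zero, sub_zero, add_zero]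
  have uy : u y = y + a + t • x := by
    rw [hu', hp.xy, hay, zero_smul, one_smul, sub_zero, mul_one]
  have ue : u e = e + t • x := by
    rw [hu', hxe, hae, zero_smul, mul_zero, zero_smul, add_zero, add_zero, neg_smul, sub_neg_eq_add]
  have hs : π s = u := by
    refine LinearEquiv.ext fun v => ?_
    obtain ⟨α, β, γ, v1, hv1, hv2, hv3, hv, -, -⟩ := hdec v
    have p1 : π s v1 = v1 := hf' s v1 hv1 hv2 hv3
    have p2 : u v1 = v1 := by
      rw [hu', hv1, hea, hv3, mul_zero, mul_zero, zero_smul, zero_smul, add_zero,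
        sub_zero, add_zero]
    have p3 : π s x = x := by rw [s1]; simp
    have p4 : π s e = e + t • x := by rw [s2]; simp [add_comm]
    have p5 : π s y = y + a + t • x := by
      rw [s3, ← h2e]
      simp only [one_pow, one_mul, mul_one, one_smul]
      abel
    rw [hv]
    simp only [map_add, map_smul]
    rw [p1, p2, p3, p4, p5, ux, uy, ue]
  refine h.ca_common hp5 hp huU hu1 (fun w hw => h.UU_comm ⟨hσ, hε⟩ hp hw huU) π hπ s hs
    (g := π w) ⟨w, rfl⟩ (c := t⁻¹) (inv_ne_zero ht0) ?_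
    (fun _ => h.finrank_ge_three hp3 ⟨hσ, hε⟩ huI (n := 1)
      (by rw [pow_one]; exact h.UU_pow hp3 hp huU) hu1)
    (l := 4) h4 (hσ 4) ?_ (Or.inl ⟨hσ, hε⟩) (τ := π d) ⟨d, rfl⟩ ?_ ?_ ?_
  · rw [w1]
    simp
  · intro h0
    apply h3
    linear_combination h0
  · rw [d1]
    simp only [mul_zero, zero_mul, zero_smul, add_zero, ne_eq, OfNat.ofNat_ne_zero,
      not_false_eq_true, zero_pow]
    norm_num
  · rw [d3]
    have e5 : (2⁻¹ : F) ^ 2 = 4⁻¹ := by
      rw [inv_pow]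
      norm_num
    rw [e5]
    simp
  · intro v hv1 hv2
    obtain ⟨α, β, γ, v1, hw1, hw2, hw3, hv, hα, hβ⟩ := hdec v
    rw [hv2] at hα
    rw [hv1] at hβ
    rw [hα, hβ, zero_smul, zero_smul, add_zero, add_zero] at hv
    rw [hv, map_add, map_smul, hf' d v1 hw1 hw2 hw3, d2, mul_inv_cancel₀ h2]
    simp

end
end HF

end Pool.Agent.Helper54.CL
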