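import Pool.Agent.Helper54.CL.Ncl

/-!
# CL-14: generation of the unipotent radical in the unitary case

The form is not symmetric (`σ ≠ 1` or `ε = -1`; here `B e e ≠ 0` forces `σ ≠ 1`), `Pair x y`, `e ⊥ x, y`, `γ = B e e ≠ 0`.  `M` contains all
`E x 0 t`, `E y 0 t` and some `E x e t0`.  Claim: `M` contains `E x (λ e) t` for all `λ`, `t` (admissible).

PROOF.  Call an isotropic vector `z ≠ 0` nice if `M` contains all `E z 0 t`, `Adm 0 t`.  If `g ∈ M` is an isometry and `z` is nice then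
`g z` is nice (`g (E z 0 t) g⁻¹ = E (g z) 0 t`), and nonzero multiples of nice vectors are nice (`E (c z) 0 t = E z 0 (c σ(c) t)`).
(1) If `z, z'` are nice, `B z z' = 1`, then every isotropic vector `z' + s z` (i.e. `Adm 0 s`) is nice: it is the image of `z'` under
`E z 0 s`.  (2) Let `P λ τ = y + λ e + τ x` with `Adm (λ e) τ`; it is isotropic, `B x (P λ τ) = 1`, and `E x 0 s` maps
`P λ τ` to `P λ (τ + s)`.  So for given `λ` all `P λ τ` are nice or none; let `Λ` be the set of the `λ` for which they are.  `0 ∈ Λ`,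
`1 ∈ Λ` (`E x e t0` maps `y` to `P 1 t0`).  (3) Let `r` with `σ r ≠ r`.  Then `r ∈ Λ`: let
`s = ε ((γ/2)(r + σ r) - r σ(r) γ) / (r - σ r)`, `τ = -(ε/2) γ + s` (`σ γ = ε γ`, `ε s + σ s = 0`, so `Adm e τ`), and
`ε r τ + σ(r) σ(τ) = - r σ(r) γ`, so `z = (1 - r) y + r (P 1 τ) = y + r e + r τ x = P r (r τ)` is isotropic.  `B y (P 1 τ) = ε τ ≠ 0` (`τ = 0` would give
`γ = 0`), so by (1), applied to the nice vectors `y` and a multiple of `P 1 τ`, `z` is nice (`z` is in their span, not a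
multiple of one of them up to the trivial cases).  (4) Let `σ λ = λ`.  Choose `r` with `σ r ≠ r` and apply (3) with `e` replaced
by `r e`: `r ∈ Λ`, and `σ (λ r⁻¹) ≠ λ r⁻¹` if `λ ≠ 0`, so `λ = (λ r⁻¹) r ∈ Λ`.  So `Λ = F`.
(5) Let `g = E x (λ e) τ` be given, and `κ` as in `exists_kappa`, `π` from `exists_pi2` for `x, y`, `d = π (diag 2 2⁻¹)`.  `d ∈ M` by the last part of
`exists_pi2`.  `g d⁻¹ g⁻¹ ∈ M` because `g d g⁻¹` is the same element for the pair `x, g y = P λ τ` of nice vectors (conjugate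
the statement `d ∈ closure {E x 0 t, E y 0 t}` with `g`).  So `d g d⁻¹ g⁻¹ ∈ M`; it is `E (2 x) (λ e) τ (E x (λ e) τ)⁻¹ = E x (λ e) τ'` for some
`τ'`, and `E x (λ e) τ = E x 0 (τ - τ') ∘ E x (λ e) τ'`.
-/

set_option autoImplicit false

namespace Pool.Agent.Helper54.CL

namespace HF
section
variable {p : ℕ} [Fact p.Prime] {F V : Type} [Field F] [CharP F p] [AddCommGroup V] [Module F V]
  [FiniteDimensional F V] (h : HF F V)

omit [Fact p.Prime] [CharP F p] [FiniteDimensional F V] in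
private theorem u3_E0 (z : V) (t : F) (v : V) : h.E z 0 t v = v + (t * h.B z v) • z := by
  unfold E
  rw [h.zero_left, mul_zero, zero_smul, smul_zero, add_zero, sub_zero]

omit [Fact p.Prime] [CharP F p] [FiniteDimensional F V] in
private theorem u3_iso {x a : V} {t : F} (hx : h.B x x = 0) (ha : h.B x a = 0) (ht : h.Adm a t)
    {g : V ≃ₗ[F] V} (hg : ∀ v, g v = h.E x a t v) : g ∈ h.Iso := by
  obtain ⟨g', hg', hv⟩ := h.exists_E hx ha ht
  have h1 : g = g' := LinearEquiv.ext fun v => by rw [hg, hv]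
  rw [h1]
  exact hg'.1

/-- an isotropic vector all of whose transvections are in `M` -/
private def Nice (M : Subgroup (V ≃ₗ[F] V)) (z : V) : Prop :=
  h.B z z = 0 ∧ ∀ (g : V ≃ₗ[F] V) (t : F), h.Adm 0 t → (∀ v, g v = h.E z 0 t v) → g ∈ M

omit [Fact p.Prime] [CharP F p] [FiniteDimensional F V] in
private theorem u3_map {M : Subgroup (V ≃ₗ[F] V)} {z : V} (hz : h.Nice M z) {g : V ≃ₗ[F] V}
    (hg : g ∈ M) (hgi : g ∈ h.Iso) : h.Nice M (g z) := by
  refine ⟨by rw [h.mem_Iso.1 hgi, hz.1], fun g' t ht hg' => ?_⟩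
  have h1 : g⁻¹ * g' * g ∈ M := by
    refine hz.2 _ t ht fun v => ?_
    have h2 : ∀ w, g⁻¹ (g w) = w := fun w => g.symm_apply_apply w
    show g⁻¹ (g' (g v)) = _
    rw [hg', u3_E0, h.mem_Iso.1 hgi, u3_E0, map_add, map_smul, h2, h2]
  have h3 : g' = g * (g⁻¹ * g' * g) * g⁻¹ := by group
  rw [h3]
  exact M.mul_mem (M.mul_mem hg h1) (M.inv_mem hg)

omit [Fact p.Prime] [CharP F p] [FiniteDimensional F V] in
private theorem u3_conj {M : Subgroup (V ≃ₗ[F] V)} {z : V} {g : V ≃ₗ[F] V} (hg : g ∈ h.Iso)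
    (hz : h.Nice M (g z)) {w : V ≃ₗ[F] V} {t : F} (ht : h.Adm 0 t)
    (hw : ∀ v, w v = h.E z 0 t v) : g * w * g⁻¹ ∈ M := by
  refine hz.2 _ t ht fun v => ?_
  have h2 : g (g⁻¹ v) = v := g.apply_symm_apply v
  show g (w (g⁻¹ v)) = _
  have h3 : h.B z (g⁻¹ v) = h.B (g z) v := by rw [← h.mem_Iso.1 hg, h2]
  rw [hw, u3_E0, u3_E0, map_add, map_smul, h2, h3]

omit [Fact p.Prime] [CharP F p] [FiniteDimensional F V] in
private theorem u3_smul {M : Subgroup (V ≃ₗ[F] V)} {z : V} (hz : h.Nice M z) (c : F) :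
    h.Nice M (c • z) := by
  refine ⟨by rw [h.smul_left, h.smul_right, hz.1, mul_zero, mul_zero], fun g' t ht hg' => ?_⟩
  refine hz.2 _ (t * (c * h.σ c)) ?_ fun v => ?_
  · unfold Adm at ht ⊢
    rw [h.zero_left] at ht ⊢
    rw [map_mul, map_mul, h.invol]
    linear_combination (c * h.σ c) * ht
  · rw [hg', u3_E0, u3_E0, h.smul_left, smul_smul]
    congr 2
    ring

omit [Fact p.Prime] [CharP F p] [FiniteDimensional F V] in
private theorem u3_add {M : Subgroup (V ≃ₗ[F] V)} {z z' : V} (hz : h.Nice M z) (hz' : h.Nice M z')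
    (hzz : h.B z z' = 1) {s : F} (hs : h.Adm 0 s) : h.Nice M (z' + s • z) := by
  obtain ⟨g, hg, hgv⟩ := h.exists_E hz.1 (h.zero_right z) hs
  have h1 := h.u3_map hz' (hz.2 g s hs hgv) hg.1
  rwa [hgv, u3_E0, hzz, mul_one] at h1

omit [Fact p.Prime] [CharP F p] [FiniteDimensional F V] in
private theorem u3_comb {M : Subgroup (V ≃ₗ[F] V)} {z w : V} (hz : h.Nice M z) (hw : h.Nice M w)
    (hzw : h.B z w ≠ 0) {a b : F} (hb : b ≠ 0)
    (h0 : h.B (a • z + b • w) (a • z + b • w) = 0) : h.Nice M (a • z + b • w) := by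
  set q := h.B z w with hq
  have hw' := h.u3_smul hw q⁻¹
  have h1 : h.B z (q⁻¹ • w) = 1 := by rw [h.smul_right, ← hq, inv_mul_cancel₀ hzw]
  have hbq : b * q ≠ 0 := mul_ne_zero hb hzw
  have h2 : a • z + b • w = (b * q) • (q⁻¹ • w + (a / (b * q)) • z) := by
    rw [smul_add, smul_smul, smul_smul, mul_assoc, mul_inv_cancel₀ hzw, mul_one,
      mul_div_cancel₀ _ hbq, add_comm]
  have h3 : h.B (q⁻¹ • w + (a / (b * q)) • z) (q⁻¹ • w + (a / (b * q)) • z) = 0 := by
    rw [h2, h.smul_left, h.smul_right] at h0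
    have h4 : h.σ (b * q) ≠ 0 := by
      rw [Ne, map_eq_zero]
      exact hbq
    exact (mul_eq_zero.1 ((mul_eq_zero.1 h0).resolve_left h4)).resolve_left hbq
  have h5 : h.B (q⁻¹ • w) z = h.ε := by rw [h.herm z (q⁻¹ • w), h1, map_one, mul_one]
  have h6 : h.Adm 0 (a / (b * q)) := by
    unfold Adm
    rw [h.add_left, h.add_right, h.add_right, hw'.1, h.smul_right (a / (b * q)), h5,
      h.smul_left (a / (b * q)), h1, h.smul_left (a / (b * q)), h.smul_right (a / (b * q)), hz.1]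
      at h3
    rw [h.zero_left]
    linear_combination h3
  rw [h2]
  exact h.u3_smul (h.u3_add hz hw' h1 h6) _

omit [Fact p.Prime] [CharP F p] [FiniteDimensional F V] in
private theorem u3_isoP {x y e : V} (hp : h.Pair x y) (hxe : h.B x e = 0) (hye : h.B y e = 0)
    {τ : F} (hτ : h.Adm e τ) : h.B (y + e + τ • x) (y + e + τ • x) = 0 := by
  have h1 := h.B_symm_zero hxe
  have h2 := h.B_symm_zero hye
  unfold Adm at hτ
  rw [h.add_left, h.add_left, h.add_right, h.add_right, h.add_right, h.add_right, h.add_right,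
    h.add_right, h.smul_right, h.smul_right, h.smul_right, h.smul_left, h.smul_left, h.smul_left,
    hp.yy, hp.xx, hp.xy, hp.yx, hxe, hye, h1, h2]
  linear_combination hτ

/-- `1 ∈ Λ` for the vector `e` -/
private def InL (M : Subgroup (V ≃ₗ[F] V)) (x y e : V) : Prop :=
  ∃ τ, h.Adm e τ ∧ h.Nice M (y + e + τ • x)

omit [Fact p.Prime] [CharP F p] [FiniteDimensional F V] in
private theorem u3_all {M : Subgroup (V ≃ₗ[F] V)} {x y e : V} (hp : h.Pair x y)
    (hxe : h.B x e = 0) (hx : h.Nice M x) (he : h.InL M x y e) {τ : F} (hτ : h.Adm e τ) :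
    h.Nice M (y + e + τ • x) := by
  obtain ⟨τ', hτ', hn⟩ := he
  have h1 : h.Adm 0 (τ - τ') := by
    unfold Adm at hτ hτ' ⊢
    rw [map_sub, h.zero_left]
    linear_combination hτ - hτ'
  have h2 : h.B x (y + e + τ' • x) = 1 := by
    rw [h.add_right, h.add_right, h.smul_right, hp.xy, hxe, hp.xx, mul_zero, add_zero, add_zero]
  have h3 := h.u3_add hx hn h2 h1
  have h4 : y + e + τ' • x + (τ - τ') • x = y + e + τ • x := by
    rw [sub_smul]; abel
  rwa [h4] at h3

omit [Fact p.Prime] [CharP F p] [FiniteDimensional F V] in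
private theorem u3_step {M : Subgroup (V ≃ₗ[F] V)} {x y e : V} (hp : h.Pair x y)
    (hxe : h.B x e = 0) (hye : h.B y e = 0) (hee : h.B e e ≠ 0) (hx : h.Nice M x)
    (hy : h.Nice M y) (he : h.InL M x y e) {r : F} (hr : h.σ r ≠ r) :
    h.InL M x y (r • e) := by
  have hD : r - h.σ r ≠ 0 := fun h0 => hr (sub_eq_zero.1 h0).symm
  have hD' : h.σ r - r ≠ 0 := fun h0 => hr (sub_eq_zero.1 h0)
  have hγ : h.σ (h.B e e) = h.ε * h.B e e := by
    have h1 := h.herm e e
    have h2 := h.eps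
    linear_combination (-h.ε) * h1 - h.σ (h.B e e) * h2
  have heps := h.eps
  set γ := h.B e e with hγd
  set s := h.σ r with hs
  have hss : h.σ s = r := by rw [hs, h.invol]
  have hr0 : r ≠ 0 := by
    rintro rfl
    exact hr (by rw [hs, map_zero])
  have hs0 : s ≠ 0 := by
    rw [hs, Ne, map_eq_zero]
    exact hr0
  have hr1 : 1 - r ≠ 0 := by
    intro h0
    have h1 : r = 1 := (sub_eq_zero.1 h0).symm
    exact hr (by rw [hs, h1, map_one])
  have hε := h.eps_ne
  set τ := h.ε * s * (1 - r) * γ / (r - s) with hτd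
  have hσ : h.σ τ = -(r * (1 - s) * γ / (r - s)) := by
    rw [hτd, map_div₀, map_mul, map_mul, map_mul, map_sub, map_sub, map_one, h.sig_eps, hss, hγ,
      ← hs]
    have h1 : s - r = -(r - s) := by ring
    rw [h1, div_neg]
    congr 2
    linear_combination (r * (1 - s) * γ) * heps
  have hA1 : h.Adm e τ := by
    unfold Adm
    rw [hσ, hτd, ← hγd]
    field_simp
    linear_combination (s * (1 - r)) * heps
  have hA2 : h.Adm (r • e) (r * τ) := by
    unfold Adm
    rw [map_mul, hσ, hτd, h.smul_left, h.smul_right, ← hγd, ← hs]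
    field_simp
    linear_combination ((1 - r)) * heps
  have hn := h.u3_all hp hxe hx he hA1
  have hBy : h.B y (y + e + τ • x) ≠ 0 := by
    rw [h.add_right, h.add_right, h.smul_right, hp.yy, hye, hp.yx, zero_add, zero_add]
    refine mul_ne_zero ?_ hε
    rw [hτd]
    exact div_ne_zero (mul_ne_zero (mul_ne_zero (mul_ne_zero hε hs0) hr1) hee) hD
  have hw : (1 - r) • y + r • (y + e + τ • x) = y + r • e + (r * τ) • x := by
    rw [smul_add, smul_add, smul_smul, sub_smul, one_smul]; abel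
  have hi := h.u3_isoP hp (e := r • e) (by rw [h.smul_right, hxe, mul_zero])
    (by rw [h.smul_right, hye, mul_zero]) hA2
  refine ⟨r * τ, hA2, ?_⟩
  rw [← hw] at hi ⊢
  exact h.u3_comb hy hn hBy hr0 hi

theorem uthree (hp5 : 5 ≤ p) (hO : ¬ h.IsO) {x y e : V} (hp : h.Pair x y) (hxe : h.B x e = 0)
    (hye : h.B y e = 0) (hee : h.B e e ≠ 0) {M : Subgroup (V ≃ₗ[F] V)}
    (hx : ∀ (g : V ≃ₗ[F] V) (t : F), h.Adm 0 t → (∀ v, g v = h.E x 0 t v) → g ∈ M)
    (hy : ∀ (g : V ≃ₗ[F] V) (t : F), h.Adm 0 t → (∀ v, g v = h.E y 0 t v) → g ∈ M)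
    {g0 : V ≃ₗ[F] V} {t0 : F} (ht0 : h.Adm e t0) (hg0 : ∀ v, g0 v = h.E x e t0 v) (hg0M : g0 ∈ M)
    {g : V ≃ₗ[F] V} {l t : F} (ht : h.Adm (l • e) t) (hg : ∀ v, g v = h.E x (l • e) t v) :
    g ∈ M := by
  have hNx : h.Nice M x := ⟨hp.xx, hx⟩
  have hNy : h.Nice M y := ⟨hp.yy, hy⟩
  have h2ne : (2 : F) ≠ 0 := two_ne (p := p) (by omega)
  have hσ : ∃ r, h.σ r ≠ r := by
    by_contra hcon
    push Not at hcon
    have hε : h.ε ≠ 1 := fun h1 => hO ⟨hcon, h1⟩
    have h1 := h.herm e e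
    rw [hcon] at h1
    have h2 : (1 - h.ε) * h.B e e = 0 := by linear_combination h1
    rcases mul_eq_zero.1 h2 with h3 | h3
    · exact hε (sub_eq_zero.1 h3).symm
    · exact hee h3
  obtain ⟨r, hr⟩ := hσ
  have hr0 : r ≠ 0 := by
    rintro rfl
    exact hr (map_zero _)
  have hL1 : h.InL M x y e := by
    refine ⟨t0, ht0, ?_⟩
    have h1 := h.u3_map hNy hg0M (h.u3_iso hp.xx hxe ht0 hg0)
    have h2 : g0 y = y + e + t0 • x := by
      rw [hg0]
      unfold E
      rw [hp.xy, h.B_symm_zero hye, mul_zero, zero_smul, sub_zero, one_smul, mul_one]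
    rwa [h2] at h1
  have hLr : h.InL M x y (r • e) := h.u3_step hp hxe hye hee hNx hNy hL1 hr
  have hL : h.InL M x y (l • e) := by
    by_cases hl0 : l = 0
    · refine ⟨0, ?_, ?_⟩
      · unfold Adm
        rw [hl0, zero_smul, h.zero_left, map_zero, mul_zero, add_zero, neg_zero]
      · rw [hl0, zero_smul, zero_smul, add_zero, add_zero]
        exact hNy
    by_cases hl : h.σ l = l
    · have h1 : h.σ (l * r⁻¹) ≠ l * r⁻¹ := by
        rw [map_mul, map_inv₀, hl]
        intro h2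
        exact hr (inv_injective (mul_left_cancel₀ hl0 h2))
      have h2 : h.B (r • e) (r • e) ≠ 0 := by
        rw [h.smul_left, h.smul_right]
        refine mul_ne_zero ?_ (mul_ne_zero hr0 hee)
        rw [Ne, map_eq_zero]
        exact hr0
      have h3 := h.u3_step hp (e := r • e) (by rw [h.smul_right, hxe, mul_zero])
        (by rw [h.smul_right, hye, mul_zero]) h2 hNx hNy hLr h1
      rwa [smul_smul, mul_assoc, inv_mul_cancel₀ hr0, mul_one] at h3
    · exact h.u3_step hp hxe hye hee hNx hNy hL1 hl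
  set a := l • e with ha
  clear_value a
  have hxa : h.B x a = 0 := by rw [ha, h.smul_right, hxe, mul_zero]
  have hya : h.B y a = 0 := by rw [ha, h.smul_right, hye, mul_zero]
  have hgi : g ∈ h.Iso := h.u3_iso hp.xx hxa ht hg
  have hgx : g x = x := by
    rw [hg]
    unfold E
    rw [hp.xx, h.B_symm_zero hxa, mul_zero, mul_zero, zero_smul, zero_smul, sub_zero, add_zero,
      add_zero]
  have hgy : g y = y + a + t • x := by
    rw [hg]
    unfold E
    rw [hp.xy, h.B_symm_zero hya, mul_zero, zero_smul, sub_zero, one_smul, mul_one]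
  have hNgy : h.Nice M (g y) := by
    rw [hgy]
    exact h.u3_all hp hxa hNx hL ht
  obtain ⟨κ, hκ, hκ'⟩ := h.exists_kappa (p := p) (by omega) hO
  obtain ⟨π, hπG, hπ, hπM⟩ := h.exists_pi2 (p := p) (by omega) hp hκ hκ'
  have h2ne' : (2 : h.F0) ≠ 0 := fun h0 => h2ne (congrArg (fun x : h.F0 => (x : F)) h0)
  let δ : Matrix.SpecialLinearGroup (Fin 2) h.F0 :=
    ⟨!![2, 0; 0, 2⁻¹], by rw [Matrix.det_fin_two_of, mul_zero, sub_zero, mul_inv_cancel₀ h2ne']⟩
  set d := π δ with hd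
  have hdv : ∀ v, d v = v + (h.ε * h.B y v) • x + (((2 : F)⁻¹ - 1) * h.B x v) • y := by
    intro v
    have e00 : (((δ : Matrix (Fin 2) (Fin 2) h.F0) 0 0 : h.F0) : F) = 2 := rfl
    have e01 : (((δ : Matrix (Fin 2) (Fin 2) h.F0) 0 1 : h.F0) : F) = 0 := rfl
    have e10 : (((δ : Matrix (Fin 2) (Fin 2) h.F0) 1 0 : h.F0) : F) = 0 := rfl
    have e11 : (((δ : Matrix (Fin 2) (Fin 2) h.F0) 1 1 : h.F0) : F) = (2 : F)⁻¹ := rfl
    rw [hd, hπ, e00, e01, e10, e11]
    congr 3
    · ring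
    · ring
  have hdx : d x = (2 : F) • x := by
    rw [hdv, hp.yx, h.eps, hp.xx, mul_zero, zero_smul, add_zero, one_smul, two_smul]
  have hda : d a = a := by
    rw [hdv, hya, hxa, mul_zero, mul_zero, zero_smul, zero_smul, add_zero, add_zero]
  have hdi : d ∈ h.Iso := h.GG_le p (hπG ⟨δ, rfl⟩)
  have hdM : d ∈ M := hπM M hx hy ⟨δ, rfl⟩
  have hNgx : h.Nice M (g x) := by rw [hgx]; exact hNx
  have hgdM : g * d * g⁻¹ ∈ M := by
    have h1 := hπM (M.comap (MulAut.conj g).toMonoidHom)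
      (fun w s hs hw => h.u3_conj hgi hNgx hs hw) (fun w s hs hw => h.u3_conj hgi hNgy hs hw)
    exact h1 ⟨δ, rfl⟩
  set c := d * (g * d * g⁻¹)⁻¹ with hc
  have hcM : c ∈ M := M.mul_mem hdM (M.inv_mem hgdM)
  have hcg : ∀ u, c (g u) = h.E x (a + a) (4 * t) u := by
    intro u
    have h1 : c (g u) = d (g (d⁻¹ u)) := by
      have h2 : c * g = d * g * d⁻¹ := by rw [hc]; group
      have h3 := congrArg (fun w : V ≃ₗ[F] V => w u) h2
      exact h3
    have h4 : d (d⁻¹ u) = u := d.apply_symm_apply u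
    have h5 : h.B x (d⁻¹ u) = 2 * h.B x u := by
      rw [← h.mem_Iso.1 hdi, h4, hdx, h.smul_left, map_ofNat]
    have h6 : h.B a (d⁻¹ u) = h.B a u := by
      rw [← h.mem_Iso.1 hdi, h4, hda]
    rw [h1, hg]
    unfold E
    rw [map_add, map_sub, map_add, map_smul, map_smul, map_smul, h4, h5, h6, hdx, hda,
      h.add_left, smul_smul, smul_smul, smul_add]
    module
  have hgg : ∀ u, g (g u) = h.E x (a + a) (t + t - h.ε * h.B a a) u := by
    intro u
    rw [hg, hg, h.E_E hp.xx hxa hxa]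
  have hBaa : h.σ (h.B a a) = h.ε * h.B a a := by
    have h1 := h.herm a a
    have h2 := h.eps
    linear_combination (-h.ε) * h1 - h.σ (h.B a a) * h2
  have hs : h.Adm 0 (-(2 * t) - h.ε * h.B a a) := by
    unfold Adm at ht ⊢
    rw [map_sub, map_neg, map_mul, map_mul, hBaa, h.sig_eps, map_ofNat, h.zero_left]
    have h2 := h.eps
    linear_combination (-2 : F) * ht - 2 * h.B a a * h2
  have hk : g * c⁻¹ ∈ M := by
    refine hx _ _ hs fun v => ?_
    have h1 : g (g⁻¹ (c⁻¹ v)) = c⁻¹ v := g.apply_symm_apply _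
    have h2 : c (c⁻¹ v) = v := c.apply_symm_apply v
    have h3 := hgg (g⁻¹ (c⁻¹ v))
    have h4 := hcg (g⁻¹ (c⁻¹ v))
    rw [h1] at h3 h4
    rw [h2] at h4
    show g (c⁻¹ v) = _
    have h5 : h.B x (a + a) = 0 := by rw [h.add_right, hxa, add_zero]
    generalize g⁻¹ (c⁻¹ v) = u at h3 h4
    rw [h3, h4, h.E_E hp.xx (h.zero_right x) h5, zero_add, h.zero_left]
    congr 1
    ring
  have h1 : g = g * c⁻¹ * c := by group
  rw [h1]
  exact M.mul_mem hk hcM

end
end HF

end Pool.Agent.Helper54.CL
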