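import Pool.Agent.Helper54.CL.Good
import Pool.Agent.Helper54.CL.UThree

/-!
# CL-15: elements `E x a t` with `a` not isotropic, when the form is not symmetric

PROOF.
* `std_pair`: `γ = B a a`, `σ γ = ε γ`, `Adm a t`.  Let `t = -(ε/2) γ + s`, so `ε s + σ s = 0`; `c = ε s / γ` satisfies `σ c = - c`.  Let
  `y' = E x b r y` with `b = ± (c/2) a` and any `r` (`Adm b r`, `adm_exists`), so `Pair x y'`.  With respect to the pair `x, y'` the
  element `u` is `E x a' t'`, `a' = p1 x y' a = a + (..) x`; since `E x a t = g (E x a' t'') g⁻¹`-computation: for `g = E x b r`,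
  `g⁻¹ (E x a t) g = E x a (t + (ε B(a,b) - ε B(b,a)))` (up to the sign of `b`), and this is `E x a (-(ε/2) γ)` for the right choice
  of the sign.  Conjugate with `g`: `u = g (E x a (-(ε/2)γ)) g⁻¹ = E (g x) (g a) (-(ε/2)γ)`, `g x = x`, `g y = y'`,
  `a' = g a`, `B a' a' = γ`, `B x a' = 0`, `B y' a' = B y a = 0`.
* `case_U3`: by `std_pair` we may assume `t = -(ε/2) B a a`.  Let `e = a / 2`, `exists_pi3` with `t3⁻¹ = -2 ε B e e = -(ε/2) B a a`: `u = π !![1,1;0,1]`;
  `R = π.range`, `hR : RN k (zpowers u) R` by `rn_sl2`.  `M = MN k (zpowers u) GG`.  `M` contains `R`, all `E x 0 r` and all `E x c r` with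
  `c ⊥ x, y, a` (they commute with `u`, `mem_mn_of_commute`; `E_E`).  `g = π !![0,1;-1,0] ∈ R` maps `x` to `c y`, so `M` contains all `E y 0 r`.
  `u = E x a t ∈ M`.  By `uthree` (with `e = a`) all `E x (l a) r ∈ M`.  An element of `UU x` is `E x c r` (`UU_form'`) with
  `c = l a + c'`, `c' ⊥ x, y, a`, so it is a product of elements `E x (l a) r'`, `E x c' r''` and `E x 0 r'''`: `UU x ≤ M`.
  `UU y ≤ M` by `UU_le_conj` with `g`, `GG_le_two`.  Then `rn_crit`, `ncl_top`, `rn_le_normal` and `ncl_torus` (`l = 4`, `finrank ≥ 3` since `x, y, a` are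
  linearly independent) with `τ = π (diag 2 2⁻¹)` as in CaseA.lean.
-/

set_option autoImplicit false
open scoped Pointwise
open Pool.Agent.Helper54.PW Pool.Agent.Helper54.RT

namespace Pool.Agent.Helper54.CL

namespace HF

section
variable {F V : Type} [Field F] [AddCommGroup V] [Module F V] (h : HF F V)

private theorem cb_sig (a : V) : h.σ (h.B a a) = h.ε * h.B a a := by
  have h1 := h.herm a a
  calc h.σ (h.B a a) = (h.ε * h.ε) * h.σ (h.B a a) := by rw [h.eps, one_mul]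
    _ = h.ε * (h.ε * h.σ (h.B a a)) := by ring
    _ = h.ε * h.B a a := by rw [← h1]

private theorem cb_sig2 : h.σ 2 = 2 := map_ofNat h.σ 2

/-- scalars of a vector which is orthogonal to `x` and `y` and `a` -/
private theorem cb_decomp {x y : V} (hp : h.Pair x y) {a : V} (hxa : h.B x a = 0)
    (hya : h.B y a = 0) (haa : h.B a a ≠ 0) (v : V) :
    ∃ (α β l : F) (w : V), v = α • x + β • y + l • a + w ∧ h.B x w = 0 ∧ h.B y w = 0 ∧
      h.B a w = 0 := by
  have hax : h.B a x = 0 := h.B_symm_zero hxa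
  have hay : h.B a y = 0 := h.B_symm_zero hya
  refine ⟨h.ε * h.B y v, h.B x v, h.B a v / h.B a a,
    v - (h.ε * h.B y v) • x - h.B x v • y - (h.B a v / h.B a a) • a, ?_, ?_, ?_, ?_⟩
  · abel
  · rw [h.sub_right, h.sub_right, h.sub_right, h.smul_right, h.smul_right, h.smul_right, hp.xx,
      hp.xy, hxa]
    ring
  · rw [h.sub_right, h.sub_right, h.sub_right, h.smul_right, h.smul_right, h.smul_right, hp.yx,
      hp.yy, hya]
    linear_combination (-h.B y v) * h.eps
  · rw [h.sub_right, h.sub_right, h.sub_right, h.smul_right, h.smul_right, h.smul_right, hax, hay,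
      div_mul_cancel₀ _ haa]
    ring

/-- linear maps are determined by the values on `x`, `y`, `a` and on the orthogonal complement -/
private theorem cb_ext {x y : V} (hp : h.Pair x y) {a : V} (hxa : h.B x a = 0)
    (hya : h.B y a = 0) (haa : h.B a a ≠ 0) {f g : V ≃ₗ[F] V} (h1 : f x = g x) (h2 : f y = g y)
    (h3 : f a = g a) (h4 : ∀ w, h.B x w = 0 → h.B y w = 0 → h.B a w = 0 → f w = g w) : f = g := by
  ext v
  obtain ⟨α, β, l, w, hv, hw1, hw2, hw3⟩ := cb_decomp h hp hxa hya haa v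
  rw [hv]
  simp only [map_add, map_smul]
  rw [h1, h2, h3, h4 w hw1 hw2 hw3]

private theorem cb_E_conj {x y : V} {w : V ≃ₗ[F] V} (hw : w ∈ h.Iso) {c : F} (hc : c ≠ 0)
    (hwx : w x = c • y) {M : Subgroup (V ≃ₗ[F] V)} (hwM : w ∈ M)
    (hM : ∀ (g : V ≃ₗ[F] V) (t : F), h.Adm 0 t → (∀ v, g v = h.E x 0 t v) → g ∈ M)
    (g : V ≃ₗ[F] V) (t : F) (ht : h.Adm 0 t) (hg : ∀ v, g v = h.E y 0 t v) : g ∈ M := by
  have hσc : h.σ c ≠ 0 := by
    rw [map_ne_zero]
    exact hc
  have hy : y = c⁻¹ • w x := by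
    rw [hwx, smul_smul, inv_mul_cancel₀ hc, one_smul]
  have hw1 : ∀ v, w⁻¹ (w v) = v := fun v => w.symm_apply_apply v
  have hy2 : w⁻¹ y = c⁻¹ • x := by
    rw [hy, map_smul, hw1]
  have key : w⁻¹ * g * w ∈ M := by
    refine hM _ (t * h.σ c⁻¹ * c⁻¹) ?_ ?_
    · unfold Adm at ht ⊢
      rw [h.zero_left] at ht ⊢
      rw [map_mul, map_mul, h.invol]
      linear_combination (h.σ c⁻¹ * c⁻¹) * ht
    · intro v
      have e1 : (w⁻¹ * g * w) v = w⁻¹ (g (w v)) := rfl
      have e2 : h.B y (w v) = h.σ c⁻¹ * h.B x v := by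
        rw [hy, h.smul_left, (h.mem_Iso.1 hw) x v]
      rw [e1, hg]
      unfold E
      rw [e2, h.zero_left, h.zero_left]
      simp only [smul_zero, mul_zero, zero_smul, sub_zero, add_zero]
      rw [map_add, map_smul, hw1, hy2, smul_smul]
      congr 2
      ring
  have e3 : g = w * (w⁻¹ * g * w) * w⁻¹ := by group
  rw [e3]
  exact M.mul_mem (M.mul_mem hwM key) (M.inv_mem hwM)

end

section
variable {p : ℕ} [Fact p.Prime] {k : Type} [Field k] [IsAlgClosed k] [CharP k p]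
  {F V : Type} [Field F] [Finite F] [CharP F p] [AddCommGroup V] [Module F V] [Finite V]
  (h : HF F V)

omit [Finite F] [Finite V] in
theorem std_pair (hp3 : 3 ≤ p) {x y : V} (hp : h.Pair x y) {a : V} (hxa : h.B x a = 0)
    (hya : h.B y a = 0) (haa : h.B a a ≠ 0) {t : F} (ht : h.Adm a t) :
    ∃ (y' a' : V), h.Pair x y' ∧ h.B x a' = 0 ∧ h.B y' a' = 0 ∧ h.B a' a' = h.B a a ∧
      ∀ v, h.E x a t v = h.E x a' (-(h.ε / 2) * h.B a a) v := by
  have h2 : (2 : F) ≠ 0 := two_ne (p := p) hp3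
  have hax : h.B a x = 0 := h.B_symm_zero hxa
  have hay : h.B a y = 0 := h.B_symm_zero hya
  have hγ := cb_sig h a
  have hε := h.eps
  haveI : NeZero (2 : F) := ⟨h2⟩
  unfold Adm at ht
  obtain ⟨s, hs⟩ : ∃ s, s = t + h.ε / 2 * h.B a a := ⟨_, rfl⟩
  have hσ1 : h.σ (h.ε / 2) = h.ε / 2 := by
    rw [map_div₀, h.sig_eps, cb_sig2]
  have hss : h.σ s = -(h.ε * s) := by
    have h1 : h.σ s = h.σ t + h.ε / 2 * (h.ε * h.B a a) := by
      rw [hs, map_add, map_mul, hσ1, hγ]
    have h3 : (h.ε / 2) * (h.ε * h.B a a) = h.B a a / 2 := by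
      linear_combination (h.B a a / 2) * hε
    have h4 : h.ε * s = h.ε * t + h.B a a / 2 := by
      rw [hs]
      linear_combination (h.B a a / 2) * hε
    have h5 : h.B a a / 2 + h.B a a / 2 = h.B a a := add_halves _
    rw [h1, h3, h4]
    linear_combination ht + h5
  obtain ⟨m, hm⟩ : ∃ m, m = h.ε * s * (2 * h.B a a)⁻¹ := ⟨_, rfl⟩
  have hmγ : h.ε * (m * h.B a a) = s / 2 := by
    rw [hm, mul_inv]
    have h6 : h.ε * (h.ε * s * ((2 : F)⁻¹ * (h.B a a)⁻¹) * h.B a a) =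
        (h.ε * h.ε) * s * (2 : F)⁻¹ * ((h.B a a)⁻¹ * h.B a a) := by ring
    rw [h6, hε, inv_mul_cancel₀ haa]
    ring
  have hmσ : h.σ m = -m := by
    have h7 : h.σ m * (h.ε * h.B a a) = -(m * (h.ε * h.B a a)) := by
      have h8 : h.σ (h.ε * (m * h.B a a)) = h.σ (s / 2) := by rw [hmγ]
      rw [map_mul, map_mul, h.sig_eps, hγ, map_div₀, hss, cb_sig2] at h8
      have h9 : h.ε * (h.σ m * (h.ε * h.B a a)) = h.ε * (-(m * (h.ε * h.B a a))) := by
        rw [h8]
        linear_combination h.ε * hmγ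
      exact mul_left_cancel₀ h.eps_ne h9
    have h10 : h.ε * h.B a a ≠ 0 := mul_ne_zero h.eps_ne haa
    rw [← neg_mul] at h7
    exact mul_right_cancel₀ h10 h7
  obtain ⟨r, hr⟩ := h.adm_exists h2 (m • a)
  unfold Adm at hr
  rw [h.smul_left, h.smul_right, hmσ] at hr
  refine ⟨y + m • a + r • x, a + (s / 2) • x, ⟨hp.xx, ?_, ?_⟩, ?_, ?_, ?_, ?_⟩
  · simp only [h.add_left, h.add_right, h.smul_left, h.smul_right, hp.xx, hp.yy, hp.xy, hp.yx,
      hxa, hya, hax, hay, hmσ]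
    linear_combination hr
  · simp only [h.add_right, h.smul_right, hp.xx, hp.xy, hxa]
    ring
  · simp only [h.add_right, h.smul_right, hp.xx, hxa]
    ring
  · simp only [h.add_left, h.add_right, h.smul_left, h.smul_right, hp.xx, hp.yx,
      hxa, hya, hax, hmσ]
    linear_combination (-h.ε) * hmγ + (m * h.B a a) * hε
  · simp only [h.add_left, h.add_right, h.smul_left, h.smul_right, hp.xx, hxa, hax]
    ring
  · intro v
    unfold E
    rw [h.add_left, h.smul_left, map_div₀, hss, cb_sig2]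
    have key : t * h.B x v = (s / 2) * h.B x v - h.ε * (-(h.ε * s) / 2 * h.B x v) +
        -(h.ε / 2) * h.B a a * h.B x v := by
      have h11 : t = s - h.ε / 2 * h.B a a := by
        rw [hs]
        ring
      rw [h11]
      have h12 : s / 2 + s / 2 = s := add_halves _
      linear_combination (-h.B x v) * h12 - (s / 2 * h.B x v) * hε
    linear_combination (norm := module) key • x

private theorem cb_std (hp5 : 5 ≤ p) (hO : ¬ h.IsO) {x y : V} (hp : h.Pair x y) {u : V ≃ₗ[F] V}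
    {a : V} (hxa : h.B x a = 0) (hya : h.B y a = 0) (haa : h.B a a ≠ 0) {t : F}
    (htt : t = -(h.ε / 2) * h.B a a) (hu : ∀ v, u v = h.E x a t v) :
    RN k (Subgroup.zpowers u) (h.GG p) := by
  have hp3 : 3 ≤ p := by omega
  have h2 : (2 : F) ≠ 0 := two_ne (p := p) hp3
  haveI : NeZero (2 : F) := ⟨h2⟩
  have h4 : (4 : F) ≠ 0 := by
    have : (4 : F) = 2 * 2 := by norm_num
    rw [this]
    exact mul_ne_zero h2 h2
  have hax : h.B a x = 0 := h.B_symm_zero hxa
  have hay : h.B a y = 0 := h.B_symm_zero hya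
  have hε := h.eps
  have hγ := cb_sig h a
  have hσ1 : h.σ (h.ε / 2) = h.ε / 2 := by
    rw [map_div₀, h.sig_eps, cb_sig2]
  have htA : h.Adm a t := by
    unfold Adm
    rw [htt, map_mul, map_neg, hσ1, hγ]
    have h5 : h.B a a / 2 + h.B a a / 2 = h.B a a := add_halves _
    linear_combination (-(h.B a a / 2) - h.B a a / 2) * hε - h5
  have ht0 : t ≠ 0 := by
    rw [htt]
    refine mul_ne_zero (neg_ne_zero.2 (div_ne_zero h.eps_ne h2)) haa
  have ha0 : a ≠ 0 := by
    rintro rfl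
    exact haa (h.zero_left 0)
  -- the vector e
  obtain ⟨e, he⟩ : ∃ e : V, e = (2 : F)⁻¹ • a := ⟨_, rfl⟩
  have hae : a = (2 : F) • e := by
    rw [he, smul_smul, mul_inv_cancel₀ h2, one_smul]
  have hxe : h.B x e = 0 := by rw [he, h.smul_right, hxa, mul_zero]
  have hye : h.B y e = 0 := by rw [he, h.smul_right, hya, mul_zero]
  have hσ2 : h.σ (2 : F)⁻¹ = (2 : F)⁻¹ := by rw [map_inv₀, cb_sig2]
  have hee' : h.B e e = (4 : F)⁻¹ * h.B a a := by
    rw [he, h.smul_left, h.smul_right, hσ2]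
    have : (4 : F)⁻¹ = (2 : F)⁻¹ * (2 : F)⁻¹ := by
      rw [← mul_inv]
      norm_num
    rw [this]
    ring
  have hee : h.B e e ≠ 0 := by
    rw [hee']
    exact mul_ne_zero (inv_ne_zero h4) haa
  have ht3 : 2 * h.B e e * t⁻¹ = -h.ε := by
    have h6 : 2 * h.B e e = -h.ε * t := by
      rw [hee', htt]
      have h7 : (4 : F)⁻¹ = (2 : F)⁻¹ * (2 : F)⁻¹ := by
        rw [← mul_inv]
        norm_num
      have h8 : (2 : F) * ((4 : F)⁻¹ * h.B a a) = (2 : F)⁻¹ * h.B a a := by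
        have h9 : (2 : F) * ((2 : F)⁻¹ * (2 : F)⁻¹ * h.B a a) =
            ((2 : F) * (2 : F)⁻¹) * ((2 : F)⁻¹ * h.B a a) := by ring
        rw [h7, h9, mul_inv_cancel₀ h2, one_mul]
      rw [h8, div_eq_mul_inv]
      linear_combination (-((2 : F)⁻¹ * h.B a a)) * hε
    rw [h6, mul_assoc, mul_inv_cancel₀ ht0, mul_one]
  obtain ⟨π, hπG, hπ, hπ'⟩ := h.exists_pi3 hp3 hp hxe hye hee ht3
  have hu_x : u x = x := by
    rw [hu]
    unfold E
    rw [hp.xx, hax]
    simp
  have hu_y : u y = y + a + t • x := by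
    rw [hu]
    unfold E
    rw [hp.xy, hay]
    simp
  have hu_e : u e = e + t • x := by
    rw [hu]
    unfold E
    have h10 : h.B a e = (2 : F)⁻¹ * h.B a a := by rw [he, h.smul_right]
    rw [hxe, h10, htt, div_eq_mul_inv]
    module
  have hu_w : ∀ v, h.B x v = 0 → h.B y v = 0 → h.B e v = 0 → u v = v := by
    intro v hv1 hv2 hv3
    have h11 : h.B a v = 0 := by rw [hae, h.smul_left, hv3, mul_zero]
    rw [hu]
    unfold E
    rw [hv1, h11]
    simp
  -- the unipotent element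
  obtain ⟨s, hs⟩ : ∃ s : Matrix.SpecialLinearGroup (Fin 2) h.F0,
      (s : Matrix (Fin 2) (Fin 2) h.F0) = !![1, 1; 0, 1] :=
    ⟨⟨!![1, 1; 0, 1], by rw [Matrix.det_fin_two_of]; ring⟩, rfl⟩
  have hsu : π s = u := by
    obtain ⟨h12, h13, h14⟩ := hπ s 1 1 0 1 hs
    refine cb_ext h hp hxe hye hee ?_ ?_ ?_ ?_
    · rw [h12, hu_x]
      simp
    · rw [h14, hu_y, hae, inv_inv]
      simp only [OneMemClass.coe_one]
      module
    · rw [h13, hu_e, inv_inv]
      simp only [OneMemClass.coe_one, ZeroMemClass.coe_zero]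
      module
    · intro w hw1 hw2 hw3
      rw [hπ' s w hw1 hw2 hw3, hu_w w hw1 hw2 hw3]
  -- the Weyl element
  obtain ⟨ws, hws⟩ : ∃ s : Matrix.SpecialLinearGroup (Fin 2) h.F0,
      (s : Matrix (Fin 2) (Fin 2) h.F0) = !![0, 1; -1, 0] :=
    ⟨⟨!![0, 1; -1, 0], by rw [Matrix.det_fin_two_of]; ring⟩, rfl⟩
  have hwx : π ws x = t⁻¹ • y := by
    obtain ⟨h12, _, _⟩ := hπ ws 0 1 (-1) 0 hws
    rw [h12]
    simp
  -- the torus element
  have h2F : (2 : h.F0) ≠ 0 := by
    intro h0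
    exact h2 (congrArg (fun z : h.F0 => (z : F)) h0)
  obtain ⟨ts, hts⟩ : ∃ s : Matrix.SpecialLinearGroup (Fin 2) h.F0,
      (s : Matrix (Fin 2) (Fin 2) h.F0) = !![2, 0; 0, (2 : h.F0)⁻¹] :=
    ⟨⟨!![2, 0; 0, (2 : h.F0)⁻¹], by
      rw [Matrix.det_fin_two_of, mul_inv_cancel₀ h2F]; ring⟩, rfl⟩
  have c2 : ((2 : h.F0) : F) = 2 := rfl
  have hτx : π ts x = (4 : F) • x := by
    obtain ⟨h12, _, _⟩ := hπ ts 2 0 0 2⁻¹ hts
    rw [h12]
    simp only [ZeroMemClass.coe_zero, c2]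
    module
  have hτy : π ts y = (4 : F)⁻¹ • y := by
    obtain ⟨_, _, h14⟩ := hπ ts 2 0 0 2⁻¹ hts
    rw [h14]
    have c3 : (((2 : h.F0)⁻¹ : h.F0) : F) = (2 : F)⁻¹ := by
      rw [← c2]
      rfl
    have c4 : ((2 : F)⁻¹) ^ 2 = (4 : F)⁻¹ := by
      rw [inv_pow]
      norm_num
    simp only [ZeroMemClass.coe_zero]
    rw [c3, c4]
    module
  have hτe : π ts e = e := by
    obtain ⟨_, h13, _⟩ := hπ ts 2 0 0 2⁻¹ hts
    rw [h13]
    have c3 : (((2 : h.F0)⁻¹ : h.F0) : F) = (2 : F)⁻¹ := by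
      rw [← c2]
      rfl
    simp only [ZeroMemClass.coe_zero]
    rw [c2, c3, mul_inv_cancel₀ h2]
    module
  have hτv : ∀ v, h.B x v = 0 → h.B y v = 0 → π ts v = v := by
    intro v hv1 hv2
    obtain ⟨α, β, l, w, hv, hw1, hw2, hw3⟩ := cb_decomp h hp hxe hye hee v
    have hα : β = 0 := by
      rw [hv, h.add_right, h.add_right, h.add_right, h.smul_right, h.smul_right, h.smul_right,
        hp.xx, hp.xy, hxe, hw1] at hv1
      linear_combination hv1
    have hβ : α = 0 := by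
      rw [hv, h.add_right, h.add_right, h.add_right, h.smul_right, h.smul_right, h.smul_right,
        hp.yx, hp.yy, hye, hw2] at hv2
      have h15 : α * h.ε = 0 := by linear_combination hv2
      exact (mul_eq_zero.1 h15).resolve_right h.eps_ne
    rw [hv, hα, hβ]
    simp only [map_add, map_smul]
    rw [hτe, hπ' ts w hw1 hw2 hw3]
    simp
  -- RN for the range of π
  have hπI : ∀ g, π g ∈ h.GG p := fun g => hπG ⟨g, rfl⟩
  have huU : u ∈ h.UU x := by
    obtain ⟨g, hg1, hg2⟩ := h.exists_E hp.xx hxa htA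
    have : u = g := by
      ext v
      rw [hu, hg2]
    rw [this]
    exact hg1
  have huG : u ∈ h.GG p := h.UU_le_GG hp3 hp huU
  have hup : u ^ p = 1 := h.UU_pow hp3 hp huU
  have hu1 : u ≠ 1 := by
    intro h0
    have h16 : u y = y := by
      rw [h0]
      rfl
    rw [hu_y] at h16
    have h17 : a + t • x = 0 := by
      have h18 : y + (a + t • x) = y + 0 := by
        rw [← add_assoc, h16, add_zero]
      exact add_left_cancel h18
    have h19 : h.B a (a + t • x) = 0 := by rw [h17, h.zero_right]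
    rw [h.add_right, h.smul_right, hax, mul_zero, add_zero] at h19
    exact haa h19
  have hR : RN k (Subgroup.zpowers u) π.range := by
    have h20 := rn_sl2 (k := k) hp5 π s (by rw [hsu]; exact hup) (by rw [hsu]; exact hu1)
    rwa [hsu] at h20
  obtain ⟨M, hM⟩ : ∃ M, M = MN k (Subgroup.zpowers u) (h.GG p) := ⟨_, rfl⟩
  have hRM : π.range ≤ M := by
    rw [hM]
    exact (le_jn hR hπG).trans jn_le_mn
  have hcM : ∀ (g : V ≃ₗ[F] V) (c : V) (r : F), h.B x c = 0 → h.B a c = 0 → h.Adm c r →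
      (∀ v, g v = h.E x c r v) → g ∈ M := by
    intro g c r hxc hac hr hg
    have hca : h.B c a = 0 := h.B_symm_zero hac
    have hgU : g ∈ h.UU x := by
      obtain ⟨g', hg1, hg2⟩ := h.exists_E hp.xx hxc hr
      have : g = g' := by
        ext v
        rw [hg, hg2]
      rw [this]
      exact hg1
    rw [hM]
    refine mem_mn_of_commute (h.UU_le_GG hp3 hp hgU) ?_
    ext v
    have e1 : (g * u) v = g (u v) := rfl
    have e2 : (u * g) v = u (g v) := rfl
    rw [e1, e2, hu v, hg (h.E x a t v), h.E_E hp.xx hxc hxa, hg v, hu (h.E x c r v),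
      h.E_E hp.xx hxa hxc, hac, hca, mul_zero, sub_zero, sub_zero, add_comm c a, add_comm r t]
  have h0M : ∀ (g : V ≃ₗ[F] V) (r : F), h.Adm 0 r → (∀ v, g v = h.E x 0 r v) → g ∈ M := by
    intro g r hr hg
    exact hcM g 0 r (h.zero_right x) (h.zero_right a) hr hg
  have hwM : π ws ∈ M := hRM ⟨ws, rfl⟩
  have hwI : π ws ∈ h.Iso := h.GG_le p (hπI ws)
  have hyM : ∀ (g : V ≃ₗ[F] V) (r : F), h.Adm 0 r → (∀ v, g v = h.E y 0 r v) → g ∈ M :=
    cb_E_conj h hwI (inv_ne_zero ht0) hwx hwM h0M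
  have huM : u ∈ M := by
    rw [← hsu]
    exact hRM ⟨s, rfl⟩
  have hlM : ∀ (g : V ≃ₗ[F] V) (l r : F), h.Adm (l • a) r → (∀ v, g v = h.E x (l • a) r v) →
      g ∈ M := by
    intro g l r hr hg
    exact h.uthree hp5 hO hp hxa hya haa h0M hyM htA hu huM hr hg
  have hUM : h.UU x ≤ M := by
    intro g hg
    obtain ⟨c, t', hxc, hyc, htc, hgc⟩ := h.UU_form' hp hg
    obtain ⟨l, hl⟩ : ∃ l, l = h.B a c / h.B a a := ⟨_, rfl⟩
    obtain ⟨c', hc'⟩ : ∃ c' : V, c' = c - l • a := ⟨_, rfl⟩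
    have hac' : h.B a c' = 0 := by
      rw [hc', h.sub_right, h.smul_right, hl, div_mul_cancel₀ _ haa, sub_self]
    have hxc' : h.B x c' = 0 := by
      rw [hc', h.sub_right, h.smul_right, hxc, hxa, mul_zero, sub_zero]
    have hxl : h.B x (l • a) = 0 := by rw [h.smul_right, hxa, mul_zero]
    have hlc : h.B (l • a) c' = 0 := by rw [h.smul_left, hac', mul_zero]
    obtain ⟨r1, hr1⟩ := h.adm_exists h2 (l • a)
    obtain ⟨r2, hr2⟩ := h.adm_exists h2 c'
    obtain ⟨g1, hg1, hg1'⟩ := h.exists_E hp.xx hxl hr1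
    obtain ⟨g2, hg2, hg2'⟩ := h.exists_E hp.xx hxc' hr2
    have hsum := h.adm_add hr1 hr2
    have hcc : l • a + c' = c := by
      rw [hc']
      abel
    rw [hlc, mul_zero, sub_zero, hcc] at hsum
    have hr3 : h.Adm 0 (t' - (r1 + r2)) := by
      unfold Adm at htc hsum ⊢
      rw [h.zero_left, map_sub]
      linear_combination htc - hsum
    obtain ⟨g3, hg3, hg3'⟩ := h.exists_E hp.xx (h.zero_right x) hr3
    have e1 : g = g3 * (g1 * g2) := by
      ext v
      have e2 : (g3 * (g1 * g2)) v = g3 (g1 (g2 v)) := rfl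
      rw [e2, hg2' v, hg1', h.E_E hp.xx hxl hxc', hg3', h.E_E hp.xx (h.zero_right x)
        (by rw [hcc]; exact hxc), hgc v, hlc, hcc, h.zero_left, zero_add, mul_zero, sub_zero,
        sub_zero]
      congr 1
      ring
    rw [e1]
    exact M.mul_mem (h0M g3 _ hr3 hg3') (M.mul_mem (hlM g1 l r1 hr1 hg1')
      (hcM g2 c' r2 hxc' hac' hr2 hg2'))
  have hUyM : h.UU y ≤ M := by
    have h21 := h.UU_le_conj hwM hwI hUM
    rwa [hwx, h.UU_smul (inv_ne_zero ht0)] at h21
  have hGM : h.GG p ≤ M := h.GG_le_two hp3 hp.xx hp.yy (by rw [hp.xy]; exact one_ne_zero) hUM hUyM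
  have hpu : IsPGroup p (Subgroup.zpowers u) := by
    intro g
    refine ⟨1, ?_⟩
    obtain ⟨g, n, rfl⟩ := g
    apply Subtype.ext
    show (u ^ n) ^ p ^ 1 = 1
    rw [pow_one, ← zpow_natCast, ← zpow_mul, mul_comm, zpow_mul, zpow_natCast, hup, one_zpow]
  have hfin : 3 ≤ Module.finrank F V := by
    rw [h.finrank_perp2 hp]
    have h22 : 0 < Module.finrank F (h.perp2 x y) := by
      rw [Module.finrank_pos_iff_exists_ne_zero]
      exact ⟨⟨a, hxa, hya⟩, fun h0 => ha0 (congrArg Subtype.val h0)⟩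
    omega
  refine rn_crit hpu ((Subgroup.zpowers_le).2 huG) (by rw [← hM]; exact hGM) ?_
  refine ncl_top huG ?_
  intro K hKG huK hK
  have hRK : π.range ≤ K := by
    refine rn_le_normal hR ((Subgroup.zpowers_le).2 huK) ?_
    intro g hg z hz
    exact hK g (hπG hg) z hz
  have hτK : π ts ∈ K := hRK ⟨ts, rfl⟩
  have h3 : (4 : F) ≠ 1 := by
    intro h0
    have h23 : ((3 : ℕ) : F) = 0 := by
      push_cast
      linear_combination h0
    rw [CharP.cast_eq_zero_iff F p] at h23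
    have := Nat.le_of_dvd (by norm_num) h23
    omega
  refine h.ncl_torus hp5 (fun h0 => absurd h0 hO) hK hp h4 (map_ofNat h.σ 4) h3
    (Or.inr (Or.inr hfin)) hτx hτy hτv ?_
  intro g hg
  have h24 : π ts * g * (π ts)⁻¹ * g⁻¹ = π ts * (g * (π ts)⁻¹ * g⁻¹) := by group
  rw [h24]
  exact K.mul_mem hτK (hK g (h.UU_le_GG hp3 hp hg) _ (K.inv_mem hτK))

theorem case_U3 (hp5 : 5 ≤ p) (hO : ¬ h.IsO) {x y : V} (hp : h.Pair x y) {u : V ≃ₗ[F] V}
    {a : V} (hxa : h.B x a = 0) (hya : h.B y a = 0) (haa : h.B a a ≠ 0) {t : F}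
    (ht : h.Adm a t) (hu : ∀ v, u v = h.E x a t v) :
    RN k (Subgroup.zpowers u) (h.GG p) := by
  obtain ⟨y', a', hp', hxa', hya', haa', hE⟩ := h.std_pair (p := p) (by omega) hp hxa hya haa ht
  refine cb_std h hp5 hO hp' hxa' hya' (by rw [haa']; exact haa)
    (t := -(h.ε / 2) * h.B a' a') rfl ?_
  intro v
  rw [hu, hE, haa']

end
end HF

end Pool.Agent.Helper54.CL
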