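import Pool.Agent.Helper54.CL.TwoGood

/-!
# CL-19: elements `E x a s` with `a` isotropic, when the form is not symmetric

PROOF.  We may assume `a ⊥ y` as well.  For `δ ∈ F` let `z = a + δ x`: isotropic, `z ≠ 0`, `u z = z`; for different `δ` they are
linearly independent.  Claim: `u ∉ UU z` if `δ - ε σ δ ≠ s`.  For `v ⊥ z`: `B a v = - σ δ B x v`, so `u v - v = B x v (a + (s + ε σ δ) x)`.  There is
`v ⊥ z` with `B x v = 1` (`v = y + β b` where `B a b = 1`, `b ⊥ x, y`: `exists_partner_perp`).  If `u ∈ UU z` then `a + (s + ε σ δ) x` is a multiple of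
`a + δ x`, so `s + ε σ δ = δ`.  Let `κ` be as in `exists_kappa`; for `δ = n κ / 2`, `n = 0, 1, 2`: `δ - ε σ δ = n κ`, three different values
(`p ≥ 5`), so for at least two of them it is not `s`.  `Adq` (the last condition is empty) and `two_good`.
-/

set_option autoImplicit false
open scoped Pointwise
open Pool.Agent.Helper54.PW Pool.Agent.Helper54.RT

namespace Pool.Agent.Helper54.CL

namespace HF
section
variable {p : ℕ} [Fact p.Prime] {k : Type} [Field k] [IsAlgClosed k] [CharP k p]
  {F V : Type} [Field F] [Finite F] [CharP F p] [AddCommGroup V] [Module F V] [Finite V]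
  (h : HF F V)

theorem case_S2 (hp5 : 5 ≤ p) (hO : ¬ h.IsO)
    (ih : ∀ (V' : Type) [AddCommGroup V'] [Module F V'] [Finite V'] (h' : HF F V'),
      Module.finrank F V' < Module.finrank F V → h'.TT p k)
    {u : V ≃ₗ[F] V} (hu : u ∈ h.GG p) (hup : u ^ p = 1) {x y a : V} (hp : h.Pair x y)
    (hxa : h.B x a = 0) (hya : h.B y a = 0) (haa : h.B a a = 0) (ha0 : a ≠ 0) {s : F}
    (hs : h.Adm a s) (hua : ∀ v, u v = h.E x a s v) :
    RN k (Subgroup.zpowers u) (h.GG p) := by
  have h2 : (2 : F) ≠ 0 := two_ne (p := p) (by omega)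
  have hax : h.B a x = 0 := h.B_symm_zero hxa
  have hay : h.B a y = 0 := h.B_symm_zero hya
  have hyx : h.B y x = h.ε := hp.yx
  obtain ⟨b, hab, hxb, hyb⟩ := h.exists_partner_perp h2 hp ha0 haa hxa hya
  have hba : h.B b a = h.ε := hab.yx
  have hbx : h.B b x = 0 := h.B_symm_zero hxb
  have hux : ∀ δ : F, u (a + δ • x) = a + δ • x := by
    intro δ
    rw [hua, HF.E, h.add_right, h.add_right, h.smul_right, h.smul_right, hxa, hax, hp.xx, haa]
    simp
  have good : ∀ δ : F, δ - h.ε * h.σ δ ≠ s → h.Adq u (a + δ • x) := by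
    intro δ hδ
    refine ⟨hux δ, ?_, ?_, ?_, fun hh => absurd hh hO⟩
    · rw [h.add_left, h.add_right, h.add_right, h.smul_left, h.smul_left, h.smul_right,
        h.smul_right, haa, hax, hxa, hp.xx]
      simp
    · intro h0
      have h1 : h.B b (a + δ • x) = 0 := by rw [h0, h.zero_right]
      rw [h.add_right, h.smul_right, hba, hbx, mul_zero, add_zero] at h1
      exact h.eps_ne h1
    · intro hU
      obtain ⟨-, -, h3⟩ := hU
      have e1 : h.B x (y - h.σ δ • b) = 1 := by
        rw [h.sub_right, h.smul_right, hp.xy, hxb, mul_zero, sub_zero]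
      have e2 : h.B a (y - h.σ δ • b) = - h.σ δ := by
        rw [h.sub_right, h.smul_right, hay, hab.xy]; ring
      have hv : h.B (a + δ • x) (y - h.σ δ • b) = 0 := by
        rw [h.add_left, h.smul_left, e1, e2]; ring
      obtain ⟨c, hc⟩ := h3 _ hv
      rw [hua, HF.E, e1, e2] at hc
      replace hc : a + (h.ε * h.σ δ + s) • x = c • (a + δ • x) := by
        rw [← sub_eq_zero, ← sub_eq_zero.2 hc]
        module
      have h4 := congrArg (h.B b) hc
      have h5 := congrArg (h.B y) hc
      simp only [h.add_right, h.sub_right, h.smul_right, hba, hbx, hya, hyx] at h4 h5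
      have hc1 : c = 1 := by
        have h6 : h.ε * (c - 1) = 0 := by linear_combination -h4
        rcases mul_eq_zero.1 h6 with h7 | h7
        · exact absurd h7 h.eps_ne
        · exact sub_eq_zero.1 h7
      rw [hc1] at h5
      apply hδ
      have h8 : h.ε * (δ - h.ε * h.σ δ - s) = 0 := by linear_combination -h5
      rcases mul_eq_zero.1 h8 with h7 | h7
      · exact absurd h7 h.eps_ne
      · exact sub_eq_zero.1 h7
  have hind : ∀ δ δ' : F, δ ≠ δ' → ∀ c : F, a + δ' • x ≠ c • (a + δ • x) := by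
    intro δ δ' hne c hc
    have h4 := congrArg (h.B b) hc
    have h5 := congrArg (h.B y) hc
    simp only [h.add_right, h.smul_right, hba, hbx, hya, hyx] at h4 h5
    have hc1 : c = 1 := by
      have h6 : h.ε * (c - 1) = 0 := by linear_combination -h4
      rcases mul_eq_zero.1 h6 with h7 | h7
      · exact absurd h7 h.eps_ne
      · exact sub_eq_zero.1 h7
    rw [hc1] at h5
    apply hne
    have h8 : h.ε * (δ - δ') = 0 := by linear_combination -h5
    rcases mul_eq_zero.1 h8 with h7 | h7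
    · exact absurd h7 h.eps_ne
    · exact sub_eq_zero.1 h7
  have main : ∀ δ δ' : F, δ ≠ δ' → δ - h.ε * h.σ δ ≠ s → δ' - h.ε * h.σ δ' ≠ s →
      RN k (Subgroup.zpowers u) (h.GG p) := fun δ δ' h1 h3 h4 =>
    h.two_good hp5 ih hu hup (good δ h3) (good δ' h4) (hind δ δ' h1)
  obtain ⟨κ, hκ0, hκ⟩ := h.exists_kappa (p := p) (by omega) hO
  have hσκ : h.σ κ = - h.ε * κ := by linear_combination hκ
  have hσ2 : h.σ (2⁻¹ : F) = 2⁻¹ := by rw [map_inv₀, map_ofNat]
  have v0 : (0 : F) - h.ε * h.σ 0 = 0 := by rw [map_zero]; ring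
  have v1 : (2⁻¹ * κ : F) - h.ε * h.σ (2⁻¹ * κ) = κ := by
    rw [map_mul, hσ2, hσκ]
    have e := h.eps
    field_simp
    linear_combination e
  have v2 : κ - h.ε * h.σ κ = 2 * κ := by
    rw [hσκ]
    linear_combination κ * h.eps
  have n1 : (0 : F) ≠ 2⁻¹ * κ := fun h0 => by
    rcases mul_eq_zero.1 h0.symm with h7 | h7
    · exact h2 (inv_eq_zero.1 h7)
    · exact hκ0 h7
  have n2 : (2⁻¹ * κ : F) ≠ κ := fun h0 => by
    apply hκ0
    have h3 : κ = 2 * (2⁻¹ * κ) := by field_simp
    rw [h0] at h3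
    linear_combination -h3
  by_cases hs0 : s = 0
  · refine main _ _ n2 ?_ ?_
    · rw [v1, hs0]; exact hκ0
    · rw [v2, hs0]; exact mul_ne_zero h2 hκ0
  · by_cases hs1 : s = κ
    · refine main 0 κ hκ0.symm ?_ ?_
      · rw [v0]; exact fun h0 => hs0 h0.symm
      · rw [v2, hs1]
        intro h0
        apply hκ0
        linear_combination h0
    · refine main 0 (2⁻¹ * κ) n1 ?_ ?_
      · rw [v0]; exact fun h0 => hs0 h0.symm
      · rw [v1]; exact fun h0 => hs1 h0.symm

end
end HF

end Pool.Agent.Helper54.CL
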