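import Pool.Agent.Helper54.CL.Eich

/-!
# CL-26: common zeros of quadratic forms; invariant totally isotropic subspaces

PROOF.
* `common_zero`: choose a basis of `U` (`Module.finBasis`), write `b j v v` as a polynomial of degree `≤ 2` in the coordinates
  (`∑ i, ∑ i', C (b j e_i e_i') * X i * X i'`); Chevalley-Warning
  (`char_dvd_card_solutions_of_fintype_sum_lt`): the number of common zeros is divisible by the characteristic; `0` is one of them.
* `exists_inv_ti`: `K = h.F0`, `U = V`, `finrank K V = [F : K] finrank F V`, and `[F : K] ≤ 2` (`[F : K] = 1` if `σ = 1`, otherwise `2`: `F0` is the fixed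
  field of an involution; `Subfield`, or Artin's theorem `IntermediateField.finrank_fixedField_eq_card`, or directly: for `κ` with
  `σ κ = -κ ≠ 0`, `F = K ⊕ K κ`).  For `i = 0, ..., (p - 1)/2` consider `v ↦ B v (g^i v)`, with values in `F`; compose with `[F : K]` linear
  functionals `F → K` which separate the elements of `F`: bilinear forms over `K`, `[F : K] (p + 1)/2` of them, and
  `2 [F : K] (p + 1)/2 = [F : K] (p + 1) < [F : K] (p + 2) ≤ finrank K V`.  So there is `v ≠ 0` with `B v (g^i v) = 0` for these `i`.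
  Also for `i` with `(p + 1)/2 ≤ i ≤ p`: `B v (g^i v) = B (g^(-i) v) v = B (c⁻¹ g^(p-i) v) v`, zero by `herm`; `W` = span of all `g^i v`,
  `B (g^i v) (g^j v) = B v (g^(j-i) v) = 0`.
-/

set_option autoImplicit false

namespace Pool.Agent.Helper54.CL

theorem common_zero {K U : Type} [Field K] [Finite K] [AddCommGroup U] [Module K U]
    [FiniteDimensional K U] {J : Type} [Fintype J] (b : J → U →ₗ[K] U →ₗ[K] K)
    (hJ : 2 * Fintype.card J < Module.finrank K U) : ∃ v, v ≠ 0 ∧ ∀ j, b j v v = 0 := by
  classical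
  haveI : Fintype K := Fintype.ofFinite K
  let e : Module.Basis (Fin (Module.finrank K U)) K U := Module.finBasis K U
  let f : J → MvPolynomial (Fin (Module.finrank K U)) K := fun j =>
    ∑ i, ∑ i', MvPolynomial.C (b j (e i) (e i')) * (MvPolynomial.X i * MvPolynomial.X i')
  have hdeg : ∀ j, (f j).totalDegree ≤ 2 := by
    intro j
    refine MvPolynomial.totalDegree_finsetSum_le ?_
    intro i _
    refine MvPolynomial.totalDegree_finsetSum_le ?_
    intro i' _
    refine (MvPolynomial.totalDegree_mul _ _).trans ?_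
    rw [MvPolynomial.totalDegree_C, zero_add]
    refine (MvPolynomial.totalDegree_mul _ _).trans ?_
    rw [MvPolynomial.totalDegree_X, MvPolynomial.totalDegree_X]
  have heval : ∀ (x : Fin (Module.finrank K U) → K) j,
      MvPolynomial.eval x (f j) = b j (∑ i, x i • e i) (∑ i, x i • e i) := by
    intro x j
    simp only [f, map_sum, map_mul, MvPolynomial.eval_C, MvPolynomial.eval_X, map_smul,
      LinearMap.sum_apply, LinearMap.smul_apply, smul_eq_mul, Finset.mul_sum]
    rw [Finset.sum_comm]
    refine Finset.sum_congr rfl (fun i _ => Finset.sum_congr rfl (fun i' _ => ?_))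
    ring
  obtain ⟨p, hp⟩ := CharP.exists K
  have hpp : p.Prime := CharP.char_is_prime K p
  have h1 : ∑ j, (f j).totalDegree < Fintype.card (Fin (Module.finrank K U)) := by
    calc ∑ j, (f j).totalDegree ≤ ∑ _j : J, 2 := Finset.sum_le_sum (fun j _ => hdeg j)
      _ = 2 * Fintype.card J := by simp [mul_comm]
      _ < Module.finrank K U := hJ
      _ = _ := by simp
  have h2 := char_dvd_card_solutions_of_fintype_sum_lt p h1
  have h0 : ∀ j, MvPolynomial.eval (0 : Fin (Module.finrank K U) → K) (f j) = 0 := by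
    intro j
    rw [heval]
    simp
  have h3 : 1 < Fintype.card {x : Fin (Module.finrank K U) → K //
      ∀ j, MvPolynomial.eval x (f j) = 0} := by
    have h4 : 0 < Fintype.card {x : Fin (Module.finrank K U) → K //
      ∀ j, MvPolynomial.eval x (f j) = 0} := Fintype.card_pos_iff.2 ⟨⟨0, h0⟩⟩
    exact lt_of_lt_of_le hpp.one_lt (Nat.le_of_dvd h4 h2)
  obtain ⟨⟨x, hx⟩, hne⟩ := Fintype.exists_ne_of_one_lt_card h3 ⟨0, h0⟩
  refine ⟨∑ i, x i • e i, ?_, fun j => ?_⟩
  · intro hz
    apply hne
    have h5 : x = 0 := by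
      have h6 := Fintype.linearIndependent_iff.1 e.linearIndependent x hz
      funext i
      exact h6 i
    exact Subtype.ext h5
  · rw [← heval]
    exact hx j

namespace HF

theorem exists_inv_ti {F V : Type} [Field F] [Finite F] [AddCommGroup V] [Module F V] [Finite V]
    (h : HF F V) {p : ℕ} (hp : p.Prime) (hp3 : 3 ≤ p) {g : V ≃ₗ[F] V} (hg : g ∈ h.Iso)
    {c : F} (hgp : ∀ v, (g ^ p) v = c • v) (hdim : p + 2 ≤ Module.finrank F V)
    (h2 : (2 : F) ≠ 0) :
    ∃ W : Submodule F V, W ≠ ⊥ ∧ (∀ v ∈ W, ∀ w ∈ W, h.B v w = 0) ∧ ∀ v ∈ W, g v ∈ W := by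
  classical
  haveI : FiniteDimensional F V := Module.Finite.of_finite
  haveI : FiniteDimensional h.F0 F := Module.Finite.of_finite
  haveI : FiniteDimensional h.F0 V := Module.Finite.of_finite
  have hodd : p % 2 = 1 := by
    rcases hp.eq_two_or_odd with h | h
    · omega
    · exact h
  let e := Module.finBasis h.F0 F
  let b : Fin (Module.finrank h.F0 F) × Fin ((p + 1) / 2) → V →ₗ[h.F0] V →ₗ[h.F0] h.F0 :=
    fun j => LinearMap.mk₂ h.F0 (fun v w => e.coord j.1 (h.B v ((g ^ (j.2 : ℕ)) w)))
      (fun v v' w => by rw [h.add_left, map_add])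
      (fun r v w => by
        have hr : h.σ (r : F) = r := r.2
        have h3 : h.B (r • v) ((g ^ (j.2 : ℕ)) w) = r • h.B v ((g ^ (j.2 : ℕ)) w) := by
          have h4 := h.smul_left (r : F) v ((g ^ (j.2 : ℕ)) w)
          rw [hr] at h4
          exact h4
        rw [h3, map_smul])
      (fun v w w' => by rw [map_add, h.add_right, map_add])
      (fun r v w => by
        have h3 : h.B v ((g ^ (j.2 : ℕ)) (r • w)) = r • h.B v ((g ^ (j.2 : ℕ)) w) := by
          have h5 : (g ^ (j.2 : ℕ)) (r • w) = (r : F) • (g ^ (j.2 : ℕ)) w := map_smul _ (r : F) w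
          rw [h5, h.smul_right]
          rfl
        rw [h3, map_smul])
  have hcard : 2 * Fintype.card (Fin (Module.finrank h.F0 F) × Fin ((p + 1) / 2)) <
      Module.finrank h.F0 V := by
    rw [← Module.finrank_mul_finrank h.F0 F V, Fintype.card_prod, Fintype.card_fin,
      Fintype.card_fin]
    have hpos : 0 < Module.finrank h.F0 F := Module.finrank_pos
    have h3 : 2 * ((p + 1) / 2) = p + 1 := by omega
    calc 2 * (Module.finrank h.F0 F * ((p + 1) / 2)) =
        Module.finrank h.F0 F * (2 * ((p + 1) / 2)) := by ring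
      _ = Module.finrank h.F0 F * (p + 1) := by rw [h3]
      _ < Module.finrank h.F0 F * (p + 2) := by
          exact Nat.mul_lt_mul_of_pos_left (by omega) hpos
      _ ≤ _ := Nat.mul_le_mul_left _ hdim
  obtain ⟨v, hv0, hv⟩ := common_zero b hcard
  have hsmall : ∀ i, i < (p + 1) / 2 → h.B v ((g ^ i) v) = 0 := by
    intro i hi
    apply e.ext_elem
    intro k
    have h3 := hv (k, ⟨i, hi⟩)
    rw [map_zero]
    exact h3
  have hiso : ∀ (i : ℕ) x y, h.B ((g ^ i) x) ((g ^ i) y) = h.B x y := by
    intro i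
    exact (h.Iso.pow_mem hg i)
  have hadd : ∀ (i j : ℕ) x, (g ^ (i + j)) x = (g ^ i) ((g ^ j) x) := by
    intro i j x
    rw [pow_add]
    rfl
  have hlt : ∀ i, i < p → h.B v ((g ^ i) v) = 0 := by
    intro i hi
    by_cases hi' : i < (p + 1) / 2
    · exact hsmall i hi'
    · have h3 : h.B v ((g ^ (p - i)) v) = 0 := hsmall _ (by omega)
      have h4 := hiso (p - i) v ((g ^ i) v)
      rw [← hadd, Nat.sub_add_cancel hi.le, hgp, h.smul_right, h.B_symm_zero h3, mul_zero] at h4
      exact h4.symm
  have hmul : ∀ n : ℕ, ∃ d : F, ∀ x, (g ^ (p * n)) x = d • x := by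
    intro n
    induction n with
    | zero => exact ⟨1, fun x => by rw [mul_zero, pow_zero, one_smul]; rfl⟩
    | succ n ih =>
      obtain ⟨d, hd⟩ := ih
      refine ⟨d * c, fun x => ?_⟩
      rw [Nat.mul_succ, hadd, hgp, hd, smul_smul]
  have hall : ∀ n : ℕ, h.B v ((g ^ n) v) = 0 := by
    intro n
    obtain ⟨d, hd⟩ := hmul (n / p)
    have h3 : n = p * (n / p) + n % p := (Nat.div_add_mod n p).symm
    rw [h3, hadd, hd, h.smul_right, hlt _ (Nat.mod_lt _ hp.pos), mul_zero]
  have hle : ∀ m n : ℕ, m ≤ n → h.B ((g ^ m) v) ((g ^ n) v) = 0 := by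
    intro m n hmn
    have h3 : n = m + (n - m) := by omega
    rw [h3, hadd, hiso, hall]
  have hmn : ∀ m n : ℕ, h.B ((g ^ m) v) ((g ^ n) v) = 0 := by
    intro m n
    rcases le_total m n with h3 | h3
    · exact hle m n h3
    · exact h.B_symm_zero (hle n m h3)
  refine ⟨Submodule.span F (Set.range fun n : ℕ => (g ^ n) v), ?_, ?_, ?_⟩
  · intro hbot
    apply hv0
    have h3 : v ∈ Submodule.span F (Set.range fun n : ℕ => (g ^ n) v) :=
      Submodule.subset_span ⟨0, rfl⟩
    rw [hbot, Submodule.mem_bot] at h3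
    exact h3
  · intro x hx y hy
    induction hx using Submodule.span_induction with
    | mem x hx =>
      obtain ⟨m, rfl⟩ := hx
      induction hy using Submodule.span_induction with
      | mem y hy =>
        obtain ⟨n, rfl⟩ := hy
        exact hmn m n
      | zero => exact h.zero_right _
      | add y y' _ _ h3 h4 => rw [h.add_right, h3, h4, add_zero]
      | smul r y _ h3 => rw [h.smul_right, h3, mul_zero]
    | zero => exact h.zero_left _
    | add x x' _ _ h3 h4 => rw [h.add_left, h3, h4, add_zero]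
    | smul r x _ h3 => rw [h.smul_left, h3, mul_zero]
  · intro x hx
    induction hx using Submodule.span_induction with
    | mem x hx =>
      obtain ⟨m, rfl⟩ := hx
      refine Submodule.subset_span ⟨m + 1, ?_⟩
      show (g ^ (m + 1)) v = g ((g ^ m) v)
      rw [add_comm, hadd, pow_one]
    | zero => rw [map_zero]; exact Submodule.zero_mem _
    | add x x' _ _ h3 h4 => rw [map_add]; exact Submodule.add_mem _ h3 h4
    | smul r x _ h3 => rw [map_smul]; exact Submodule.smul_mem _ _ h3

end HF

end Pool.Agent.Helper54.CL
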