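import Mathlib

/-!
# CL-01: classical groups: forms, isometries, the group generated by the isometries of p-power order

`HF F V`: a nondegenerate form `B` on `V`, linear in the second variable, semilinear (for `σ`, `σ² = 1`) in the first one, with
`B y x = ε σ (B x y)`, `ε² = 1`.  So `σ = 1, ε = -1`: alternating (characteristic not 2), `σ = 1, ε = 1`: symmetric,
`σ ≠ 1`: (skew-)hermitian.
-/

set_option autoImplicit false

namespace Pool.Agent.Helper54.CL

instance finite_linearEquiv {F V : Type} [Field F] [AddCommGroup V] [Module F V] [Finite V] :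
    Finite (V ≃ₗ[F] V) :=
  Finite.of_injective (fun g : V ≃ₗ[F] V => (g : V → V)) DFunLike.coe_injective

structure HF (F V : Type) [Field F] [AddCommGroup V] [Module F V] where
  σ : F →+* F
  ε : F
  B : V → V → F
  invol : ∀ c, σ (σ c) = c
  eps : ε * ε = 1
  sig_eps : σ ε = ε
  add_right : ∀ x y z, B x (y + z) = B x y + B x z
  smul_right : ∀ (c : F) (x y : V), B x (c • y) = c * B x y
  herm : ∀ x y, B y x = ε * σ (B x y)
  nondeg : ∀ x, (∀ y, B x y = 0) → x = 0

namespace HF
variable {F V : Type} [Field F] [AddCommGroup V] [Module F V] (h : HF F V)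

theorem add_left (x y z : V) : h.B (x + y) z = h.B x z + h.B y z := by
  rw [h.herm z (x + y), h.herm z x, h.herm z y, h.add_right, map_add, mul_add]

theorem smul_left (c : F) (x y : V) : h.B (c • x) y = h.σ c * h.B x y := by
  rw [h.herm y (c • x), h.herm y x, h.smul_right, map_mul]; ring

theorem zero_right (x : V) : h.B x 0 = 0 := by
  have := h.smul_right 0 x 0
  simpa using this

theorem zero_left (x : V) : h.B 0 x = 0 := by
  have := h.smul_left 0 0 x
  simpa using this

theorem neg_right (x y : V) : h.B x (-y) = - h.B x y := by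
  have := h.smul_right (-1) x y
  simpa using this

theorem neg_left (x y : V) : h.B (-x) y = - h.B x y := by
  have := h.smul_left (-1) x y
  simpa using this

theorem sub_right (x y z : V) : h.B x (y - z) = h.B x y - h.B x z := by
  rw [sub_eq_add_neg, h.add_right, h.neg_right, ← sub_eq_add_neg]

theorem sub_left (x y z : V) : h.B (x - y) z = h.B x z - h.B y z := by
  rw [sub_eq_add_neg, h.add_left, h.neg_left, ← sub_eq_add_neg]

theorem eps_ne : h.ε ≠ 0 := fun h0 => by
  have := h.eps
  rw [h0, mul_zero] at this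
  exact zero_ne_one this

theorem B_symm_zero {x y : V} (hxy : h.B x y = 0) : h.B y x = 0 := by
  rw [h.herm, hxy, map_zero, mul_zero]

theorem B_zero_iff (x y : V) : h.B x y = 0 ↔ h.B y x = 0 :=
  ⟨h.B_symm_zero, h.B_symm_zero⟩

/-- the form is symmetric bilinear -/
def IsO : Prop := (∀ c, h.σ c = c) ∧ h.ε = 1

/-- there are isotropic vectors, and a symmetric form has dimension 3 or at least 5 -/
def Ok : Prop := (∃ x : V, x ≠ 0 ∧ h.B x x = 0) ∧
  (h.IsO → Module.finrank F V = 3 ∨ 5 ≤ Module.finrank F V)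

/-- the isometries -/
def Iso : Subgroup (V ≃ₗ[F] V) where
  carrier := {g | ∀ x y, h.B (g x) (g y) = h.B x y}
  mul_mem' := by
    intro a b ha hb x y
    show h.B (a (b x)) (a (b y)) = _
    rw [ha, hb]
  one_mem' := fun _ _ => rfl
  inv_mem' := by
    intro a ha x y
    have h1 := ha (a⁻¹ x) (a⁻¹ y)
    have h2 : ∀ z, a (a⁻¹ z) = z := fun z => a.apply_symm_apply z
    rw [h2, h2] at h1
    exact h1.symm

theorem mem_Iso {g : V ≃ₗ[F] V} : g ∈ h.Iso ↔ ∀ x y, h.B (g x) (g y) = h.B x y := Iff.rfl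

/-- the group generated by the isometries whose order is a power of `p`; for finite fields of characteristic `p` these
are the groups `Sp`, `SU`, `Ω` -/
def GG (p : ℕ) : Subgroup (V ≃ₗ[F] V) :=
  Subgroup.closure {g | g ∈ h.Iso ∧ ∃ n : ℕ, g ^ (p ^ n) = 1}

theorem GG_le (p : ℕ) : h.GG p ≤ h.Iso := by
  rw [GG, Subgroup.closure_le]
  exact fun g hg => hg.1

/-- the isometries which fix `x` and act trivially on `x^⊥/⟨x⟩` -/
def UU (x : V) : Subgroup (V ≃ₗ[F] V) where
  carrier := {g | g ∈ h.Iso ∧ g x = x ∧ ∀ v, h.B x v = 0 → ∃ c : F, g v = v + c • x}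
  mul_mem' := by
    rintro a b ⟨ha, hax, ha'⟩ ⟨hb, hbx, hb'⟩
    refine ⟨h.Iso.mul_mem ha hb, ?_, ?_⟩
    · show a (b x) = x
      rw [hbx, hax]
    · intro v hv
      obtain ⟨c, hc⟩ := hb' v hv
      obtain ⟨d, hd⟩ := ha' v hv
      refine ⟨d + c, ?_⟩
      show a (b v) = _
      rw [hc, map_add, map_smul, hax, hd, add_smul]
      abel
  one_mem' := ⟨h.Iso.one_mem, rfl, fun v _ => ⟨0, by simp⟩⟩
  inv_mem' := by
    rintro a ⟨ha, hax, ha'⟩
    have h2 : ∀ z, a⁻¹ (a z) = z := fun z => a.symm_apply_apply z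
    refine ⟨h.Iso.inv_mem ha, ?_, ?_⟩
    · have := h2 x
      rwa [hax] at this
    · intro v hv
      obtain ⟨c, hc⟩ := ha' v hv
      refine ⟨-c, ?_⟩
      have h3 := h2 v
      have h4 := h2 x
      rw [hax] at h4
      rw [hc, map_add, map_smul, h4] at h3
      rw [neg_smul, ← sub_eq_add_neg, eq_sub_iff_add_eq]
      exact h3

theorem mem_UU {x : V} {g : V ≃ₗ[F] V} : g ∈ h.UU x ↔
    g ∈ h.Iso ∧ g x = x ∧ ∀ v, h.B x v = 0 → ∃ c : F, g v = v + c • x := Iff.rfl

/-- the Eichler transformations `v ↦ v + B(x,v) a - ε B(a,v) x + t B(x,v) x` -/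
def E (x a : V) (t : F) (v : V) : V :=
  v + h.B x v • a - (h.ε * h.B a v) • x + (t * h.B x v) • x

/-- `E x a t` is an isometry if `x` is isotropic, `a ⊥ x` and this holds -/
def Adm (a : V) (t : F) : Prop := h.ε * t + h.σ t = - h.B a a

/-- the fixed field of `σ` -/
def F0 : Subfield F where
  carrier := {c | h.σ c = c}
  mul_mem' := by
    intro a b ha hb
    show h.σ (a * b) = a * b
    rw [map_mul, ha, hb]
  one_mem' := map_one _
  add_mem' := by
    intro a b ha hb
    show h.σ (a + b) = a + b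
    rw [map_add, ha, hb]
  zero_mem' := map_zero _
  neg_mem' := by
    intro a ha
    show h.σ (-a) = -a
    rw [map_neg, ha]
  inv_mem' := by
    intro a ha
    show h.σ a⁻¹ = a⁻¹
    rw [map_inv₀, ha]

theorem mem_F0 {c : F} : c ∈ h.F0 ↔ h.σ c = c := Iff.rfl

/-- a hyperbolic pair -/
structure Pair (x y : V) : Prop where
  xx : h.B x x = 0
  yy : h.B y y = 0
  xy : h.B x y = 1

variable {h}

theorem Pair.yx {x y : V} (hp : h.Pair x y) : h.B y x = h.ε := by
  rw [h.herm, hp.xy, map_one, mul_one]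

theorem Pair.x_ne {x y : V} (hp : h.Pair x y) : x ≠ 0 := by
  rintro rfl
  have := hp.xy
  rw [h.zero_left] at this
  exact zero_ne_one this

end HF

end Pool.Agent.Helper54.CL
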