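import Pool.Agent.Helper54.CL.Eich

/-!
# CL-27: invariant dual of an invariant totally isotropic subspace

`g^p = c`, `p ≠ 0` in `F`, `2 ≠ 0` in `F`.

PROOF.  `c ≠ 0` (`g` is bijective, unless `V = 0`).  `W^⊥ = {v | ∀ w ∈ W, B w v = 0}` is invariant under `g` and `g⁻¹` (`g W = W` by dimension).
Maschke: let `P : V → W^⊥` be a linear projection (`Submodule.exists_isCompl` or `exists_leftInverse`), and
`P' = p⁻¹ ∑_{i < p} g^i P g^(-i)`; because `g^p` is a scalar, `P'` commutes with `g`; it is a projection onto `W^⊥`.  `W1 = ker P'` is an invariant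
complement of `W^⊥`.  The form gives a perfect pairing of `W` and `W1` (`w ∈ W`, `B w W1 = 0` implies `B w V = 0`; `v ∈ W1`,
`B W v = 0` implies `v ∈ W^⊥ ⊓ W1 = 0`; so the dimensions agree).  For `v ∈ W1` let `θ v ∈ W` be the unique element with
`B u (θ v) = -(1/2) B u v` for all `u ∈ W1`; `θ` is linear and commutes with `g` (uniqueness).  `W' = {v + θ v | v ∈ W1}`: invariant,
`B (u + θ u) (v + θ v) = B u v + B u (θ v) + B (θ u) v = B u v - (1/2) B u v - (1/2) B u v = 0` (`B (θ u) v = ε σ (B v (θ u)) = -(1/2) ε σ (B v u)`),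
and `B w (v + θ v) = B w v` for `w ∈ W`.
-/

set_option autoImplicit false

namespace Pool.Agent.Helper54.CL

namespace HF

/-- totally isotropic subspaces in duality -/
structure Dual {F V : Type} [Field F] [AddCommGroup V] [Module F V] (h : HF F V)
    (W W' : Submodule F V) : Prop where
  ti : ∀ v ∈ W, ∀ w ∈ W, h.B v w = 0
  ti' : ∀ v ∈ W', ∀ w ∈ W', h.B v w = 0
  nd : ∀ w ∈ W, (∀ w' ∈ W', h.B w w' = 0) → w = 0
  nd' : ∀ w' ∈ W', (∀ w ∈ W, h.B w w' = 0) → w' = 0

/-- the vectors orthogonal to `W` -/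
def perpS {F V : Type} [Field F] [AddCommGroup V] [Module F V] (h : HF F V)
    (W : Submodule F V) : Submodule F V where
  carrier := {v | ∀ w ∈ W, h.B w v = 0}
  add_mem' := by
    intro a b ha hb w hw
    rw [h.add_right, ha w hw, hb w hw, add_zero]
  zero_mem' := fun w _ => h.zero_right w
  smul_mem' := by
    intro c a ha w hw
    rw [h.smul_right, ha w hw, mul_zero]

theorem mem_perpS {F V : Type} [Field F] [AddCommGroup V] [Module F V] (h : HF F V)
    (W : Submodule F V) (v : V) : v ∈ h.perpS W ↔ ∀ w ∈ W, h.B w v = 0 := Iff.rfl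

/-- Maschke: an invariant subspace has an invariant complement, if `g ^ p` is a scalar. -/
theorem exists_inv_compl {F V : Type} [Field F] [AddCommGroup V] [Module F V]
    {p : ℕ} (hpF : (p : F) ≠ 0) {g : V ≃ₗ[F] V} {c : F} (hc : c ≠ 0)
    (hgp : ∀ v, (g ^ p) v = c • v) (U : Submodule F V) (hU : ∀ v ∈ U, g v ∈ U)
    (hU' : ∀ v ∈ U, g⁻¹ v ∈ U) :
    ∃ W1 : Submodule F V, (∀ v ∈ W1, g v ∈ W1) ∧ (∀ v ∈ W1, g⁻¹ v ∈ W1) ∧
      (∀ v ∈ U, v ∈ W1 → v = 0) ∧ ∀ v : V, ∃ u ∈ U, ∃ w ∈ W1, v = u + w := by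
  classical
  obtain ⟨q, hq⟩ := U.exists_isCompl
  have hPm : ∀ x, U.projection q hq x ∈ U := fun x => Submodule.projection_apply_mem hq x
  have hPe : ∀ x ∈ U, U.projection q hq x = x := fun x hx =>
    Submodule.projection_apply_of_mem_left hq hx
  generalize U.projection q hq = P at hPm hPe
  have hgg : ∀ z, g⁻¹ (g z) = z := fun z => g.symm_apply_apply z
  have hgg' : ∀ z, g (g⁻¹ z) = z := fun z => g.apply_symm_apply z
  -- powers
  have hUp : ∀ i : ℕ, ∀ v ∈ U, (g ^ i) v ∈ U := by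
    intro i
    induction i with
    | zero => intro v hv; simpa using hv
    | succ n ih =>
      intro v hv
      have : (g ^ (n + 1)) v = g ((g ^ n) v) := by
        rw [pow_succ']; rfl
      rw [this]
      exact hU _ (ih v hv)
  have hUp' : ∀ i : ℕ, ∀ v ∈ U, (g⁻¹ ^ i) v ∈ U := by
    intro i
    induction i with
    | zero => intro v hv; simpa using hv
    | succ n ih =>
      intro v hv
      have : (g⁻¹ ^ (n + 1)) v = g⁻¹ ((g⁻¹ ^ n) v) := by
        rw [pow_succ']; rfl
      rw [this]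
      exact hU' _ (ih v hv)
  have hcancel : ∀ i : ℕ, ∀ v, (g ^ i) ((g⁻¹ ^ i) v) = v := by
    intro i v
    have : g ^ i * g⁻¹ ^ i = 1 := by
      rw [inv_pow, mul_inv_cancel]
    calc (g ^ i) ((g⁻¹ ^ i) v) = (g ^ i * g⁻¹ ^ i) v := rfl
      _ = v := by rw [this]; rfl
  -- the term
  let T : ℕ → V → V := fun i v => (g ^ i) (P ((g⁻¹ ^ i) v))
  let P' : V →ₗ[F] V :=
    { toFun := fun v => (p : F)⁻¹ • ∑ i ∈ Finset.range p, T i v
      map_add' := by
        intro x y
        rw [← smul_add, ← Finset.sum_add_distrib]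
        congr 1
        apply Finset.sum_congr rfl
        intro i _
        simp only [T, map_add]
      map_smul' := by
        intro a x
        simp only [T, map_smul, RingHom.id_apply]
        rw [← Finset.smul_sum, smul_comm] }
  have hP' : ∀ v, P' v = (p : F)⁻¹ • ∑ i ∈ Finset.range p, T i v := fun v => rfl
  have hmem : ∀ v, P' v ∈ U := by
    intro v
    rw [hP']
    apply U.smul_mem
    apply U.sum_mem
    intro i _
    exact hUp i _ (hPm _)
  have hid : ∀ v ∈ U, P' v = v := by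
    intro v hv
    rw [hP']
    have : ∑ i ∈ Finset.range p, T i v = ∑ i ∈ Finset.range p, v := by
      apply Finset.sum_congr rfl
      intro i _
      show (g ^ i) (P ((g⁻¹ ^ i) v)) = v
      rw [hPe _ (hUp' i v hv), hcancel]
    rw [this, Finset.sum_const, Finset.card_range, ← Nat.cast_smul_eq_nsmul F, smul_smul,
      inv_mul_cancel₀ hpF, one_smul]
  have hTs : ∀ i v, T (i + 1) (g v) = g (T i v) := by
    intro i v
    show (g ^ (i + 1)) (P ((g⁻¹ ^ (i + 1)) (g v))) = g ((g ^ i) (P ((g⁻¹ ^ i) v)))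
    have h1 : (g⁻¹ ^ (i + 1)) (g v) = (g⁻¹ ^ i) v := by
      rw [pow_succ]
      show (g⁻¹ ^ i) (g⁻¹ (g v)) = _
      rw [hgg]
    rw [h1, pow_succ']
    rfl
  have hTp : ∀ v, T p v = T 0 v := by
    intro v
    show (g ^ p) (P ((g⁻¹ ^ p) v)) = (g ^ 0) (P ((g⁻¹ ^ 0) v))
    have h1 : (g⁻¹ ^ p) v = c⁻¹ • v := by
      have h2 := hcancel p v
      rw [hgp] at h2
      rw [← h2, smul_smul, inv_mul_cancel₀ hc, one_smul, h2]
    rw [h1, map_smul, map_smul, hgp, smul_smul, inv_mul_cancel₀ hc, one_smul]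
    simp
  have hcomm : ∀ v, P' (g v) = g (P' v) := by
    intro v
    rw [hP', hP', map_smul, map_sum]
    congr 1
    have h1 : ∑ i ∈ Finset.range p, g (T i v) = ∑ i ∈ Finset.range p, T (i + 1) (g v) := by
      apply Finset.sum_congr rfl
      intro i _
      rw [hTs]
    rw [h1]
    have h2 := Finset.sum_range_succ (fun i => T i (g v)) p
    have h3 := Finset.sum_range_succ' (fun i => T i (g v)) p
    rw [h2] at h3
    rw [hTp] at h3
    exact add_right_cancel h3
  have hcomm' : ∀ v, P' (g⁻¹ v) = g⁻¹ (P' v) := by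
    intro v
    have := hcomm (g⁻¹ v)
    rw [hgg'] at this
    rw [this, hgg]
  refine ⟨LinearMap.ker P', ?_, ?_, ?_, ?_⟩
  · intro v hv
    rw [LinearMap.mem_ker] at hv ⊢
    rw [hcomm, hv, map_zero]
  · intro v hv
    rw [LinearMap.mem_ker] at hv ⊢
    rw [hcomm', hv, map_zero]
  · intro v hv hv'
    rw [LinearMap.mem_ker, hid v hv] at hv'
    exact hv'
  · intro v
    refine ⟨P' v, hmem v, v - P' v, ?_, by abel⟩
    rw [LinearMap.mem_ker, map_sub, hid _ (hmem v), sub_self]

theorem exists_inv_dual {F V : Type} [Field F] [AddCommGroup V] [Module F V]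
    [FiniteDimensional F V] (h : HF F V) {p : ℕ} (hp : p.Prime) (hpF : (p : F) ≠ 0)
    (h2 : (2 : F) ≠ 0) {g : V ≃ₗ[F] V} (hg : g ∈ h.Iso) {c : F}
    (hgp : ∀ v, (g ^ p) v = c • v) {W : Submodule F V} (hW : ∀ v ∈ W, ∀ w ∈ W, h.B v w = 0)
    (hgW : ∀ v ∈ W, g v ∈ W) :
    ∃ W' : Submodule F V, h.Dual W W' ∧ ∀ v ∈ W', g v ∈ W' := by
  classical
  by_cases hc : c = 0
  · have hz : ∀ v : V, v = 0 := by
      intro v
      have h1 := hgp v
      rw [hc, zero_smul] at h1
      exact (g ^ p).map_eq_zero_iff.1 h1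
    exact ⟨⊥, ⟨hW, fun v hv w hw => by rw [hz v, h.zero_left], fun w _ _ => hz w,
      fun w _ _ => hz w⟩, fun v _ => by rw [hz (g v)]; exact zero_mem _⟩
  have hgg : ∀ z, g⁻¹ (g z) = z := fun z => g.symm_apply_apply z
  have hgg' : ∀ z, g (g⁻¹ z) = z := fun z => g.apply_symm_apply z
  have hgi : g⁻¹ ∈ h.Iso := h.Iso.inv_mem hg
  have hpow : ∀ i : ℕ, ∀ w ∈ W, (g ^ i) w ∈ W := by
    intro i
    induction i with
    | zero => intro v hv; simpa using hv
    | succ n ih =>
      intro v hv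
      have : (g ^ (n + 1)) v = g ((g ^ n) v) := by
        rw [pow_succ']; rfl
      rw [this]
      exact hgW _ (ih v hv)
  -- `g⁻¹` preserves `W`
  have hgW' : ∀ v ∈ W, g⁻¹ v ∈ W := by
    intro w hw
    have h1 : g⁻¹ w = c⁻¹ • (g ^ (p - 1)) w := by
      have h3 : (g ^ p) (g⁻¹ w) = (g ^ (p - 1)) w := by
        have h4 : g ^ p = g ^ (p - 1) * g := by
          rw [← pow_succ, Nat.sub_add_cancel hp.one_lt.le]
        rw [h4]
        show (g ^ (p - 1)) (g (g⁻¹ w)) = _
        rw [hgg']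
      rw [← h3, hgp, smul_smul, inv_mul_cancel₀ hc, one_smul]
    rw [h1]
    exact W.smul_mem _ (hpow _ _ hw)
  have hBg : ∀ x y, h.B (g x) y = h.B x (g⁻¹ y) := by
    intro x y
    have := hg x (g⁻¹ y)
    rw [hgg'] at this
    exact this
  have hBg' : ∀ x y, h.B x (g y) = h.B (g⁻¹ x) y := by
    intro x y
    have := hg (g⁻¹ x) y
    rw [hgg'] at this
    exact this
  obtain ⟨W1, hW1g, hW1g', hW1d, hW1s⟩ := exists_inv_compl hpF hc hgp (h.perpS W)
    (by
      intro v hv w hw
      rw [hBg']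
      exact hv _ (hgW' w hw))
    (by
      intro v hv w hw
      rw [← hBg]
      exact hv _ (hgW w hw))
  -- uniqueness
  have huniq : ∀ w ∈ W, (∀ u ∈ W1, h.B w u = 0) → w = 0 := by
    intro w hw hu
    apply h.nondeg
    intro y
    obtain ⟨a, ha, b, hb, rfl⟩ := hW1s y
    rw [h.add_right, ha w hw, hu b hb, add_zero]
  -- existence
  let R : Submodule F (Module.Dual F W1) :=
    { carrier := {φ | ∃ w ∈ W, ∀ u : W1, φ u = h.B w u}
      add_mem' := by
        rintro a b ⟨w, hw, ha⟩ ⟨w', hw', hb⟩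
        exact ⟨w + w', W.add_mem hw hw', fun u => by
          rw [LinearMap.add_apply, ha, hb, h.add_left]⟩
      zero_mem' := ⟨0, W.zero_mem, fun u => by rw [h.zero_left]; rfl⟩
      smul_mem' := by
        rintro a φ ⟨w, hw, ha⟩
        exact ⟨h.σ a • w, W.smul_mem _ hw, fun u => by
          rw [LinearMap.smul_apply, ha, h.smul_left, h.invol, smul_eq_mul]⟩ }
  have hR : R = ⊤ := by
    have h0 : R.dualCoannihilator = ⊥ := by
      rw [eq_bot_iff]
      intro u hu
      rw [Submodule.mem_dualCoannihilator] at hu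
      rw [Submodule.mem_bot]
      have hu' : ∀ w ∈ W, h.B w u = 0 := by
        intro w hw
        let φ : Module.Dual F W1 :=
          { toFun := fun x => h.B w x
            map_add' := fun x y => by
              show h.B w ((x : V) + y) = _
              rw [h.add_right]
            map_smul' := fun a x => by
              show h.B w (a • (x : V)) = _
              rw [h.smul_right]
              rfl }
        have := hu φ ⟨w, hw, fun _ => rfl⟩
        exact this
      exact Subtype.ext (hW1d u hu' u.2)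
    have h1 := Subspace.finrank_add_finrank_dualCoannihilator_eq R
    rw [h0, finrank_bot, add_zero] at h1
    apply Submodule.eq_top_of_finrank_eq
    rw [h1, Subspace.dual_finrank_eq]
  have hex : ∀ v ∈ W1, ∃ w ∈ W, ∀ u ∈ W1, h.B w u = -(2⁻¹ * h.B v u) := by
    intro v hv
    let φ : Module.Dual F W1 :=
      { toFun := fun x => -(2⁻¹ * h.B v x)
        map_add' := fun x y => by
          show -(2⁻¹ * h.B v ((x : V) + y)) = _
          rw [h.add_right]
          ring
        map_smul' := fun a x => by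
          show -(2⁻¹ * h.B v (a • (x : V))) = a * -(2⁻¹ * h.B v x)
          rw [h.smul_right]
          ring }
    have hφ : φ ∈ R := by rw [hR]; exact Submodule.mem_top
    obtain ⟨w, hw, hwu⟩ := hφ
    exact ⟨w, hw, fun u hu => (hwu ⟨u, hu⟩).symm⟩
  have hs2 : h.σ (2⁻¹ : F) = 2⁻¹ := by
    rw [map_inv₀, map_ofNat]
  let W' : Submodule F V :=
    { carrier := {x | ∃ v ∈ W1, ∃ w ∈ W, (∀ u ∈ W1, h.B w u = -(2⁻¹ * h.B v u)) ∧ x = v + w}
      add_mem' := by
        rintro a b ⟨v, hv, w, hw, hu, rfl⟩ ⟨v', hv', w', hw', hu', rfl⟩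
        refine ⟨v + v', W1.add_mem hv hv', w + w', W.add_mem hw hw', fun u hu1 => ?_, by abel⟩
        rw [h.add_left, h.add_left, hu u hu1, hu' u hu1]
        ring
      zero_mem' := ⟨0, W1.zero_mem, 0, W.zero_mem, fun u _ => by rw [h.zero_left]; ring,
        by rw [add_zero]⟩
      smul_mem' := by
        rintro a x ⟨v, hv, w, hw, hu, rfl⟩
        refine ⟨a • v, W1.smul_mem _ hv, a • w, W.smul_mem _ hw, fun u hu1 => ?_, smul_add _ _ _⟩
        rw [h.smul_left, h.smul_left, hu u hu1]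
        ring }
  refine ⟨W', ⟨hW, ?_, ?_, ?_⟩, ?_⟩
  · rintro x ⟨v, hv, w, hw, hu, rfl⟩ y ⟨v', hv', w', hw', hu', rfl⟩
    have e1 : h.B v w' = -(2⁻¹ * h.B v v') := by
      rw [h.herm w' v, hu' v hv, map_neg, map_mul, hs2]
      have := h.herm v' v
      rw [this]
      ring
    rw [h.add_left, h.add_right, h.add_right, e1, hu v' hv', hW w hw w' hw']
    have h3 : (2 : F) * 2⁻¹ = 1 := mul_inv_cancel₀ h2
    linear_combination (-(h.B v v')) * h3
  · intro w hw hx
    apply huniq w hw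
    intro v hv
    obtain ⟨w', hw', hu⟩ := hex v hv
    have h3 := hx (v + w') ⟨v, hv, w', hw', hu, rfl⟩
    rw [h.add_right, hW w hw w' hw', add_zero] at h3
    exact h3
  · rintro x ⟨v, hv, w, hw, hu, rfl⟩ hx
    have hv0 : v = 0 := by
      apply hW1d v _ hv
      intro w0 hw0
      have h3 := hx w0 hw0
      rw [h.add_right, hW w0 hw0 w hw, add_zero] at h3
      exact h3
    subst hv0
    have hw0 : w = 0 := by
      apply huniq w hw
      intro u hu1
      rw [hu u hu1, h.zero_left]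
      ring
    rw [hw0, add_zero]
  · rintro x ⟨v, hv, w, hw, hu, rfl⟩
    refine ⟨g v, hW1g v hv, g w, hgW w hw, fun u hu1 => ?_, map_add g v w⟩
    rw [hBg, hBg, hu _ (hW1g' u hu1)]

end HF

end Pool.Agent.Helper54.CL
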