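import Pool.Agent.Helper54.CL.Defs

/-!
# CL-02: Eichler transformations and hyperbolic pairs

PROOF (all direct computations; `ψ_a = B a v`, `φ = B x v`).
* `adm_exists`: `t = -(ε/2) B a a` (`σ (B a a) = ε B a a` by `herm`).
* `exists_partner`: there is `z` with `B x z ≠ 0`, scale to `B x z = 1`; `y = z - (ε/2) B(z,z) x`.
* `p1_*`: clear.  `exists_partner_perp`: let `w0` be a partner of `z`, `w1 = p1 x y w0` (`B z w1 = B z w0 = 1` since `z ⊥ x, y`),
  `w = w1 - (ε/2) B(w1,w1) z`.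
* `UU_form'`: write `g y = p1 (g y) + α x + β y`; `β = B x (g y) = B (g x) (g y) = 1`; `a = p1 x y (g y)`, `t = α`.  For
  `v ⊥ x, y`, `g v = v + c x`, and `0 = B v y = B (g v) (g y) = B v a + σ c` (`B x y = 1`), so `c = -σ (B v a) = -ε B a v`.
  `Adm`: `0 = B (g y) (g y) = B a a + ε t + σ t`.  Then compare `g v` and `E x a t v` for `v = x`, `v = y`, `v ⊥ x, y`.
* `UU_conj`: for `v ⊥ g x`, `g⁻¹ v ⊥ x`.
* `UU_pow`: `UU_form'`, and `g^n = E x (n a) (n t - (n(n-1)/2) ε B a a)` by induction (`E_E`); for `n = p` odd this is the identity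
  (`p = 0` in `F`, `p ∣ p(p-1)/2`).  `UU_le_GG`: `g^(p^1) = 1`.
* `UU_trans`: `z' = (B x z)⁻¹ z`, `a = p1 x y z'`, `z' = a + y + t x` with `Adm a t` since `B z' z' = 0`; `exists_E`, `E x a t y = z'`.
* `UU_comm`: by `UU_form`, `E_E` and `B a b = B b a`.
-/

set_option autoImplicit false

namespace Pool.Agent.Helper54.CL

namespace HF
section
variable {F V : Type} [Field F] [AddCommGroup V] [Module F V] (h : HF F V)

theorem E_E {x a b : V} {t s : F} (hx : h.B x x = 0) (ha : h.B x a = 0) (hb : h.B x b = 0)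
    (v : V) : h.E x a t (h.E x b s v) = h.E x (a + b) (t + s - h.ε * h.B a b) v := by
  have ha' : h.B a x = 0 := h.B_symm_zero ha
  have e1 : h.B x (h.E x b s v) = h.B x v := by
    simp only [E, h.add_right, h.sub_right, h.smul_right, hx, hb]; ring
  have e2 : h.B a (h.E x b s v) = h.B a v + h.B x v * h.B a b := by
    simp only [E, h.add_right, h.sub_right, h.smul_right, ha']; ring
  have e3 : h.E x a t (h.E x b s v) = h.E x b s v + h.B x (h.E x b s v) • a -
      (h.ε * h.B a (h.E x b s v)) • x + (t * h.B x (h.E x b s v)) • x := rfl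
  rw [e3, e1, e2]
  simp only [E, h.add_left]
  module

theorem adm_add {a b : V} {t s : F} (ha : h.Adm a t) (hb : h.Adm b s) :
    h.Adm (a + b) (t + s - h.ε * h.B a b) := by
  unfold Adm at *
  have h1 : h.B b a = h.ε * h.σ (h.B a b) := h.herm a b
  have h2 := h.eps
  simp only [h.add_left, h.add_right, map_add, map_sub, map_mul, h.sig_eps, h1]
  linear_combination ha + hb - h.B a b * h2

theorem B_E_E {x a : V} {t : F} (hx : h.B x x = 0) (ha : h.B x a = 0) (ht : h.Adm a t)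
    (v w : V) : h.B (h.E x a t v) (h.E x a t w) = h.B v w := by
  have ha' : h.B a x = 0 := h.B_symm_zero ha
  have e1 : h.B v x = h.ε * h.σ (h.B x v) := h.herm x v
  have e2 : h.B v a = h.ε * h.σ (h.B a v) := h.herm a v
  have h2 := h.eps
  unfold Adm at ht
  simp only [E, h.add_left, h.add_right, h.sub_left, h.sub_right, h.smul_left, h.smul_right, hx,
    ha, ha', e1, e2, map_mul, h.sig_eps]
  linear_combination (h.σ (h.B x v) * h.B x w) * ht - (h.B a w * h.σ (h.B x v)) * h2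

theorem E_zero (x v : V) : h.E x 0 0 v = v := by
  simp only [E, h.zero_left]; simp

/-- the Eichler transformation as a linear map -/
def EL (x a : V) (t : F) : V →ₗ[F] V where
  toFun := h.E x a t
  map_add' := by
    intro v w
    simp only [E, h.add_right]
    module
  map_smul' := by
    intro c v
    simp only [E, h.smul_right, RingHom.id_apply]
    module

theorem exists_E {x a : V} {t : F} (hx : h.B x x = 0) (ha : h.B x a = 0) (ht : h.Adm a t) :
    ∃ g ∈ h.UU x, ∀ v, g v = h.E x a t v := by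
  have ha' : h.B a x = 0 := h.B_symm_zero ha
  have hna : h.B x (-a) = 0 := by rw [h.neg_right, ha, neg_zero]
  refine ⟨LinearEquiv.ofLinear (h.EL x a t) (h.EL x (-a) (-t - h.ε * h.B a a)) ?_ ?_,
    ⟨?_, ?_, ?_⟩, fun v => rfl⟩
  · ext v
    show h.E x a t (h.E x (-a) (-t - h.ε * h.B a a) v) = v
    rw [h.E_E hx ha hna]
    have e1 : a + -a = 0 := by abel
    have e2 : t + (-t - h.ε * h.B a a) - h.ε * h.B a (-a) = 0 := by rw [h.neg_right]; ring
    rw [e1, e2, h.E_zero]
  · ext v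
    show h.E x (-a) (-t - h.ε * h.B a a) (h.E x a t v) = v
    rw [h.E_E hx hna ha]
    have e1 : -a + a = 0 := by abel
    have e2 : (-t - h.ε * h.B a a) + t - h.ε * h.B (-a) a = 0 := by rw [h.neg_left]; ring
    rw [e1, e2, h.E_zero]
  · exact fun v w => h.B_E_E hx ha ht v w
  · show h.E x a t x = x
    simp only [E, hx, ha']; simp
  · intro v hv
    refine ⟨-(h.ε * h.B a v), ?_⟩
    show h.E x a t v = _
    simp only [E, hv]
    module

theorem adm_exists (h2 : (2 : F) ≠ 0) (a : V) : ∃ t, h.Adm a t := by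
  refine ⟨-(h.ε / 2) * h.B a a, ?_⟩
  unfold Adm
  have e1 : h.B a a = h.ε * h.σ (h.B a a) := h.herm a a
  have e2 := h.eps
  have e3 : h.σ (2 : F) = 2 := map_ofNat _ _
  have e4 : h.ε * h.σ (h.B a a) = h.B a a := e1.symm
  simp only [map_mul, map_neg, map_div₀, h.sig_eps, e3]
  field_simp
  linear_combination (-h.B a a) * e2 - e4

/-- the projection to the orthogonal complement of a hyperbolic pair -/
def p1 (x y v : V) : V := v - (h.ε * h.B y v) • x - h.B x v • y

theorem p1_x {x y : V} (hp : h.Pair x y) (v : V) : h.B x (h.p1 x y v) = 0 := by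
  simp only [p1, h.sub_right, h.smul_right, hp.xx, hp.xy]; ring

theorem p1_y {x y : V} (hp : h.Pair x y) (v : V) : h.B y (h.p1 x y v) = 0 := by
  have e2 := h.eps
  simp only [p1, h.sub_right, h.smul_right, hp.yy, hp.yx]
  linear_combination (-h.B y v) * e2

/-- make a vector with `B x z = 1` isotropic -/
theorem iso_corr (h2 : (2 : F) ≠ 0) {x z : V} (hx : h.B x x = 0) (hxz : h.B x z = 1) :
    h.Pair x (z - (h.ε / 2 * h.B z z) • x) := by
  refine ⟨hx, ?_, ?_⟩
  · have e1 : h.B z z = h.ε * h.σ (h.B z z) := h.herm z z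
    have e2 := h.eps
    have e3 : h.σ (2 : F) = 2 := map_ofNat _ _
    have e4 : h.ε * h.σ (h.B z z) = h.B z z := e1.symm
    have e5 : h.B z x = h.ε := by rw [h.herm x z, hxz, map_one, mul_one]
    simp only [h.sub_left, h.sub_right, h.smul_left, h.smul_right, hx, hxz, e5, map_mul, map_div₀,
      h.sig_eps, e3]
    field_simp
    linear_combination (-2 * h.B z z) * e2 - 2 * e4
  · simp only [h.sub_right, h.smul_right, hx, hxz]; ring

theorem exists_partner (h2 : (2 : F) ≠ 0) {x : V} (hx0 : x ≠ 0) (hx : h.B x x = 0) :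
    ∃ y, h.Pair x y := by
  obtain ⟨z, hz⟩ : ∃ z, h.B x z ≠ 0 := by
    by_contra hcon
    push Not at hcon
    exact hx0 (h.nondeg x hcon)
  refine ⟨_, h.iso_corr h2 (z := (h.B x z)⁻¹ • z) hx ?_⟩
  rw [h.smul_right, inv_mul_cancel₀ hz]

theorem exists_partner_perp (h2 : (2 : F) ≠ 0) {x y z : V} (hp : h.Pair x y) (hz0 : z ≠ 0)
    (hz : h.B z z = 0) (hxz : h.B x z = 0) (hyz : h.B y z = 0) :
    ∃ w, h.Pair z w ∧ h.B x w = 0 ∧ h.B y w = 0 := by
  obtain ⟨w0, hw0⟩ := h.exists_partner h2 hz0 hz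
  have hzx : h.B z x = 0 := h.B_symm_zero hxz
  have hzy : h.B z y = 0 := h.B_symm_zero hyz
  have e1 : h.B z (h.p1 x y w0) = 1 := by
    simp only [p1, h.sub_right, h.smul_right, hzx, hzy, hw0.xy]; ring
  refine ⟨_, h.iso_corr h2 (z := h.p1 x y w0) hz e1, ?_, ?_⟩
  · simp only [h.sub_right, h.smul_right, h.p1_x hp, hxz]; ring
  · simp only [h.sub_right, h.smul_right, h.p1_y hp, hyz]; ring

/-- the admissibility of the parameters of an isotropic vector `z` with `B x z = 1` -/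
theorem adm_p1 {x y z : V} (hp : h.Pair x y) (hz : h.B z z = 0) (hxz : h.B x z = 1) :
    h.Adm (h.p1 x y z) (h.ε * h.B y z) ∧
      h.E x (h.p1 x y z) (h.ε * h.B y z) y = z := by
  have e2 := h.eps
  have ez : h.B z x = h.ε := by rw [h.herm x z, hxz, map_one, mul_one]
  have ey : h.B z y = h.ε * h.σ (h.B y z) := h.herm y z
  constructor
  · unfold Adm
    simp only [p1, h.sub_left, h.sub_right, h.smul_left, h.smul_right, hxz, hz, hp.xx, hp.yy,
      hp.xy, hp.yx, ez, ey, map_mul, map_one, h.sig_eps]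
    linear_combination h.B y z * e2
  · have e3 : h.B (h.p1 x y z) y = 0 := h.B_symm_zero (h.p1_y hp z)
    simp only [E, hp.xy, e3]
    simp only [p1, hxz]
    module

theorem UU_form' {x y : V} (hp : h.Pair x y) {g : V ≃ₗ[F] V} (hg : g ∈ h.UU x) :
    ∃ (a : V) (t : F), h.B x a = 0 ∧ h.B y a = 0 ∧ h.Adm a t ∧ ∀ v, g v = h.E x a t v := by
  obtain ⟨hiso, hgx, hgv⟩ := hg
  have hz : h.B (g y) (g y) = 0 := by rw [hiso, hp.yy]
  have hxz : h.B x (g y) = 1 := by
    have := hiso x y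
    rw [hgx, hp.xy] at this
    exact this
  obtain ⟨hadm, hEy⟩ := h.adm_p1 hp hz hxz
  refine ⟨h.p1 x y (g y), h.ε * h.B y (g y), h.p1_x hp _, h.p1_y hp _, hadm, ?_⟩
  obtain ⟨g', hg', hg''⟩ := h.exists_E hp.xx (h.p1_x hp (g y)) hadm
  intro v
  rw [← hg'']
  have hv : v = h.p1 x y v + (h.ε * h.B y v) • x + h.B x v • y := by
    unfold p1; module
  set w := h.p1 x y v with hw
  have hwx : h.B x w = 0 := h.p1_x hp v
  have hwy : h.B y w = 0 := h.p1_y hp v
  have hyy : g y = g' y := by rw [hg'', hEy]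
  have hxx : g x = g' x := by rw [hgx, hg'.2.1]
  have hww : g w = g' w := by
    obtain ⟨c, hc⟩ := hgv w hwx
    obtain ⟨c', hc'⟩ := hg'.2.2 w hwx
    have key : ∀ (k : V ≃ₗ[F] V) (d : F), k ∈ h.Iso → k w = w + d • x → k y = g y →
        h.σ d = - h.B w (g y) := by
      intro k d hk hd hky
      have h1 := hk w y
      rw [hd, hky, h.add_left, h.smul_left, hxz, h.B_symm_zero hwy] at h1
      linear_combination h1
    have h1 := key g c hiso hc rfl
    have h2 := key g' c' hg'.1 hc' hyy.symm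
    have h3 : c = c' := by
      rw [← h.invol c, ← h.invol c', h1, h2]
    rw [hc, hc', h3]
  rw [hv, map_add, map_add, map_smul, map_smul, map_add, map_add, map_smul, map_smul, hww, hxx,
    hyy]

theorem UU_smul {c : F} (hc : c ≠ 0) (x : V) : h.UU (c • x) = h.UU x := by
  have hsc : h.σ c ≠ 0 := (map_ne_zero h.σ).2 hc
  ext g
  rw [mem_UU, mem_UU]
  constructor
  · rintro ⟨h1, h2, h3⟩
    refine ⟨h1, ?_, ?_⟩
    · rw [map_smul] at h2
      exact smul_right_injective V hc h2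
    · intro v hv
      obtain ⟨d, hd⟩ := h3 v (by rw [h.smul_left, hv, mul_zero])
      exact ⟨d * c, by rw [hd, mul_smul]⟩
  · rintro ⟨h1, h2, h3⟩
    refine ⟨h1, by rw [map_smul, h2], ?_⟩
    intro v hv
    rw [h.smul_left] at hv
    obtain ⟨d, hd⟩ := h3 v ((mul_eq_zero.1 hv).resolve_left hsc)
    exact ⟨d * c⁻¹, by rw [hd, smul_smul, mul_assoc, inv_mul_cancel₀ hc, mul_one]⟩

theorem UU_conj {g : V ≃ₗ[F] V} (hg : g ∈ h.Iso) (x : V) {w : V ≃ₗ[F] V} (hw : w ∈ h.UU x) :
    g * w * g⁻¹ ∈ h.UU (g x) := by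
  have h1 : ∀ z, g⁻¹ (g z) = z := fun z => g.symm_apply_apply z
  have h2 : ∀ z, g (g⁻¹ z) = z := fun z => g.apply_symm_apply z
  refine ⟨h.Iso.mul_mem (h.Iso.mul_mem hg hw.1) (h.Iso.inv_mem hg), ?_, ?_⟩
  · show g (w (g⁻¹ (g x))) = g x
    rw [h1, hw.2.1]
  · intro v hv
    have h3 : h.B x (g⁻¹ v) = 0 := by
      rw [← hg x (g⁻¹ v), h2, hv]
    obtain ⟨c, hc⟩ := hw.2.2 _ h3
    refine ⟨c, ?_⟩
    show g (w (g⁻¹ v)) = _
    rw [hc, map_add, map_smul, h2]

theorem UU_trans {x y z : V} (hp : h.Pair x y) (hz : h.B z z = 0) (hxz : h.B x z ≠ 0) :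
    ∃ g ∈ h.UU x, ∃ c : F, c ≠ 0 ∧ g y = c • z := by
  have e1 : h.B ((h.B x z)⁻¹ • z) ((h.B x z)⁻¹ • z) = 0 := by
    rw [h.smul_left, h.smul_right, hz, mul_zero, mul_zero]
  have e2 : h.B x ((h.B x z)⁻¹ • z) = 1 := by rw [h.smul_right, inv_mul_cancel₀ hxz]
  obtain ⟨hadm, hE⟩ := h.adm_p1 hp e1 e2
  obtain ⟨g, hg, hg'⟩ := h.exists_E hp.xx (h.p1_x hp ((h.B x z)⁻¹ • z)) hadm
  exact ⟨g, hg, (h.B x z)⁻¹, inv_ne_zero hxz, by rw [hg', hE]⟩

theorem UU_comm (hO : h.IsO) {x y : V} (hp : h.Pair x y) {g g' : V ≃ₗ[F] V} (hg : g ∈ h.UU x)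
    (hg' : g' ∈ h.UU x) : g * g' = g' * g := by
  obtain ⟨a, t, ha, -, -, h1⟩ := h.UU_form' hp hg
  obtain ⟨b, s, hb, -, -, h2⟩ := h.UU_form' hp hg'
  ext v
  show g (g' v) = g' (g v)
  rw [h1, h2, h1 v, h2, h.E_E hp.xx ha hb, h.E_E hp.xx hb ha]
  have e1 : h.B b a = h.B a b := by rw [h.herm a b, hO.1, hO.2, one_mul]
  rw [e1, add_comm b a, add_comm s t]

end

section
variable {p : ℕ} [Fact p.Prime] {F V : Type} [Field F] [CharP F p] [AddCommGroup V] [Module F V]
  (h : HF F V)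

theorem two_ne (hp3 : 3 ≤ p) : (2 : F) ≠ 0 := by
  intro h2
  have h3 : ((2 : ℕ) : F) = 0 := by exact_mod_cast h2
  rw [CharP.cast_eq_zero_iff F p] at h3
  have := Nat.le_of_dvd (by norm_num) h3
  omega

theorem UU_pow (hp3 : 3 ≤ p) {x y : V} (hp : h.Pair x y) {g : V ≃ₗ[F] V} (hg : g ∈ h.UU x) :
    g ^ p = 1 := by
  obtain ⟨a, t, ha, -, -, h1⟩ := h.UU_form' hp hg
  have key : ∀ (n : ℕ) (v : V), (g ^ n) v =
      h.E x ((n : F) • a) (n * t - h.ε * h.B a a * (n.choose 2 : ℕ)) v := by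
    intro n
    induction n with
    | zero => intro v; simp [E_zero]
    | succ n ih =>
      intro v
      have hna : h.B x ((n : F) • a) = 0 := by rw [h.smul_right, ha, mul_zero]
      rw [pow_succ']
      show g ((g ^ n) v) = _
      rw [ih, h1, h.E_E hp.xx ha hna]
      have e1 : a + (n : F) • a = ((n + 1 : ℕ) : F) • a := by push_cast; module
      have e2 : (n + 1).choose 2 = n + n.choose 2 := by
        rw [Nat.choose_succ_succ' n 1, Nat.choose_one_right]
      have e3 : t + (n * t - h.ε * h.B a a * (n.choose 2 : ℕ)) - h.ε * h.B a ((n : F) • a) =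
          ((n + 1 : ℕ) : F) * t - h.ε * h.B a a * ((n + 1).choose 2 : ℕ) := by
        rw [e2, h.smul_right]; push_cast; ring
      rw [e1, e3]
  ext v
  rw [key]
  have e1 : (p : F) = 0 := CharP.cast_eq_zero F p
  have e2 : ((p.choose 2 : ℕ) : F) = 0 := by
    rw [CharP.cast_eq_zero_iff F p]
    exact (Fact.out : p.Prime).dvd_choose_self (by norm_num) (by omega)
  rw [e1, e2]
  simp [E_zero]

theorem UU_le_GG (hp3 : 3 ≤ p) {x y : V} (hp : h.Pair x y) : h.UU x ≤ h.GG p := by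
  intro g hg
  exact Subgroup.subset_closure ⟨hg.1, 1, by rw [pow_one]; exact h.UU_pow hp3 hp hg⟩

end
end HF

end Pool.Agent.Helper54.CL
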