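import Pool.Agent.Helper54.CL.Two

/-!
# CL-05: the group `GG` is generated by the groups `UU x`

PROOF.  Strong induction on `finrank F V`, for all forms.  Let `M` be the closure of the union of all `UU z`, `z` isotropic,
`z ≠ 0`.  Claim: every isometry `u` with `u^(p^n) = 1` is in `M`.  `u ≠ 1`: let `x` be as in `exists_fixed`, `Pair x y`.  `u` is in
`stabX x`, `u1 = psi u` is an isometry of `perp2 x y` with `u1^(p^n) = 1`, so by induction it is in the subgroup generated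
by the `UU z1`, `z1 ∈ perp2` isotropic; by `ext_UU`, `ext u1 ∈ M`.  `psi (u (ext u1)⁻¹) = 1`, so `u (ext u1)⁻¹ ∈ UU x ≤ M` (`psi_ker`).
* `GG_le_two`: `uu_two` and `GG_le`.
* `GG_conj`: `GG` is normalized by the isometries.
-/

set_option autoImplicit false

namespace Pool.Agent.Helper54.CL

namespace HF
section
variable {p : ℕ} [Fact p.Prime] {F V : Type} [Field F] [CharP F p] [AddCommGroup V] [Module F V]
  (h : HF F V)

private theorem gen_key {p : ℕ} [Fact p.Prime] {F : Type} [Field F] [CharP F p] (hp3 : 3 ≤ p)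
    (n : ℕ) : ∀ (V : Type) [AddCommGroup V] [Module F V] [FiniteDimensional F V] (h : HF F V),
      Module.finrank F V = n → ∀ (M : Subgroup (V ≃ₗ[F] V)),
      (∀ z : V, z ≠ 0 → h.B z z = 0 → h.UU z ≤ M) →
      ∀ u : V ≃ₗ[F] V, u ∈ h.Iso → ∀ m : ℕ, u ^ (p ^ m) = 1 → u ∈ M := by
  induction n using Nat.strong_induction_on with
  | _ n ih =>
    intro V _ _ _ h hn M hM u hu m hum
    by_cases h1 : u = 1
    · rw [h1]
      exact M.one_mem
    have h2 : (2 : F) ≠ 0 := HF.two_ne hp3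
    obtain ⟨x, -, hx0, hxx, hux, -⟩ := h.exists_fixed hu hum h1
    obtain ⟨y, hp⟩ := h.exists_partner h2 hx0 hxx
    have hus : u ∈ h.stabX x := ⟨hu, hux⟩
    have hu1I : h.psi hp ⟨u, hus⟩ ∈ (h.restr hp).Iso := h.psi_iso hp _
    have hu1p : h.psi hp ⟨u, hus⟩ ^ (p ^ m) = 1 := by
      rw [← map_pow]
      have : (⟨u, hus⟩ : h.stabX x) ^ (p ^ m) = 1 := Subtype.ext hum
      rw [this, map_one]
    have hfr := h.finrank_perp2 hp
    have hext : h.ext hp (h.psi hp ⟨u, hus⟩) ∈ M := by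
      have := ih (Module.finrank F (h.perp2 x y)) (by omega) (h.perp2 x y) (h.restr hp) rfl
        (M.comap (h.ext hp)) (fun z hz0 hz g hg => ?_) (h.psi hp ⟨u, hus⟩) hu1I m hu1p
      · exact this
      · refine hM (z : V) (fun h0 => hz0 (Subtype.ext h0)) hz (h.ext_UU hp hg)
    have hes := h.ext_stabX hp hu1I
    have hq : h.psi hp (⟨u, hus⟩ * (⟨h.ext hp (h.psi hp ⟨u, hus⟩), hes⟩ : h.stabX x)⁻¹) = 1 := by
      rw [map_mul, map_inv, h.psi_ext hp hu1I, mul_inv_cancel]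
    rw [h.psi_ker] at hq
    have h3 : u * (h.ext hp (h.psi hp ⟨u, hus⟩))⁻¹ ∈ M := hM x hx0 hxx hq
    have h4 := M.mul_mem h3 hext
    rwa [inv_mul_cancel_right] at h4

theorem GG_le_of_UU [FiniteDimensional F V] (hp3 : 3 ≤ p) {M : Subgroup (V ≃ₗ[F] V)}
    (hM : ∀ z : V, z ≠ 0 → h.B z z = 0 → h.UU z ≤ M) : h.GG p ≤ M := by
  rw [GG, Subgroup.closure_le]
  rintro u ⟨hu, m, hum⟩
  exact gen_key hp3 _ V h rfl M hM u hu m hum

theorem GG_le_two [FiniteDimensional F V] (hp3 : 3 ≤ p) {x y : V} (hx : h.B x x = 0)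
    (hy : h.B y y = 0) (hxy : h.B x y ≠ 0) {M : Subgroup (V ≃ₗ[F] V)} (hxM : h.UU x ≤ M)
    (hyM : h.UU y ≤ M) : h.GG p ≤ M :=
  h.GG_le_of_UU hp3 fun _ hz0 hz => h.uu_two (HF.two_ne hp3) hx hy hxy hxM hyM hz0 hz

end
end HF

end Pool.Agent.Helper54.CL
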