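import Pool.Agent.Helper54.RT.Core
import Pool.Agent.Helper54.PR.SLDef
import Pool.Agent.Helper54.PR.Product

/-!
# CL-10: joins of subgroups with covers, relative to a subgroup `X` of a finite group `A`

PROOF.
* `rn_jn`: `JJ`-like: `ra_jj` of RT/JJ.lean with the group `JN` (all the `H` are between `P` and `JN`; or apply the join theorem
  `realAct_join` of SJ (see the proof of `ra_jj`) in the group `JN k P X`).  The normal closure of `P` in `JN` contains `P` and every
  `H` (the normal closure of `P` in `H` is `H`), so it is everything.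
* `rn_crit`: `MN = X` (`MN ≤ X` since `P ≤ X`); `JN` is normalized by `JN` and by `N(P) ⊓ X` (`jn_conj`), so by `X`; so the normal
  closure of `P` in `X` is contained in `JN`: `JN = X`; `rn_jn`.
* `lp`: choose `K ≤ H` of minimal order with: `u ∈ K`, `ψ` maps `K` onto `Q`, and `K` contains all elements of `H` of order prime
  to `p`.  Let `K1` be the normal closure of `u` in `K`.  `ψ(K1)` is normal in `ψ(K) = Q` and contains `ψ u`, so it is `Q`.
  So `K = K1 (ψ.ker ⊓ K)` and `K / K1` is a `p`-group: an element of `K` of order prime to `p` is in `K1`.  By minimality `K1 = K`.  So the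
  normal closure of `u` in `K` is `K`.  `ψ : K → Q` is surjective and its kernel `N` is a `p`-group, so solvable
  (nilpotent); `K ⧸ N ≃* Q`; `ra_solvable_kernel` and `ra_iso` give `RN k (zpowers u) K`.
* `rn_sl2`: `realAct_product` with `ι = Unit`, `Y = π.range` (`sl_qs`, `win_sl_def`; `|F| ≥ p ≥ 5`); the normal closure of `π s` in the
  range is everything: its preimage in `SL_2(F)` is normal and contains `s`; it is not central: otherwise `s` is central, `s^2 = 1`
  (`s = ±1`, `Matrix.SpecialLinearGroup.mem_center_iff`), and `(π s)^2 = 1 = (π s)^p` gives `π s = 1`.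
-/

set_option autoImplicit false
open scoped Pointwise
open Pool.Agent.Helper54.PW Pool.Agent.Helper54.RT Pool.Agent.Helper54.PR

namespace Pool.Agent.Helper54.CL

/-- `H` is the normal closure of its subgroup `P`, and it has a cover with inertia group `P` -/
def RN (k : Type) [Field k] {A : Type} [Group A] (P H : Subgroup A) : Prop :=
  P ≤ H ∧ RealAct k (P.subgroupOf H) ∧
    Subgroup.normalClosure ((P.subgroupOf H : Subgroup H) : Set H) = ⊤

/-- the join of all subgroups `H` of `X` with `RN k P H` -/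
def JN (k : Type) [Field k] {A : Type} [Group A] (P X : Subgroup A) : Subgroup A :=
  P ⊔ sSup {H | H ≤ X ∧ RN k P H}

/-- the join of `JN` and the normalizer of `P` in `X` -/
def MN (k : Type) [Field k] {A : Type} [Group A] (P X : Subgroup A) : Subgroup A :=
  JN k P X ⊔ (Subgroup.normalizer (P : Set A) ⊓ X)

section
variable {k : Type} [Field k] {A : Type} [Group A] {P X H : Subgroup A}

theorem le_jn (h : RN k P H) (hH : H ≤ X) : H ≤ JN k P X :=
  le_sup_of_le_right (le_sSup ⟨hH, h⟩)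

theorem p_le_jn : P ≤ JN k P X := le_sup_left

theorem jn_le_mn : JN k P X ≤ MN k P X := le_sup_left

theorem jn_le (hP : P ≤ X) : JN k P X ≤ X :=
  sup_le hP (sSup_le fun _ h => h.1)

theorem mn_le (hP : P ≤ X) : MN k P X ≤ X := sup_le (jn_le hP) inf_le_right

theorem mem_mn_of_commute {u g : A} (hg : g ∈ X) (h : g * u = u * g) :
    g ∈ MN k (Subgroup.zpowers u) X := by
  have hc : Commute g u := h
  have h1 : g ∈ Subgroup.normalizer ((Subgroup.zpowers u : Subgroup A) : Set A) := by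
    refine Subgroup.mem_normalizer_iff.2 fun x => ?_
    constructor
    · intro hx
      obtain ⟨n, rfl⟩ := Subgroup.mem_zpowers_iff.1 hx
      have h2 : g * u ^ n * g⁻¹ = u ^ n := by
        rw [(hc.zpow_right n).eq, mul_inv_cancel_right]
      rw [h2]
      exact hx
    · intro hx
      obtain ⟨n, hn⟩ := Subgroup.mem_zpowers_iff.1 hx
      have h2 : x = u ^ n := by
        have h3 : x = g⁻¹ * (g * x * g⁻¹) * g := by group
        rw [h3, ← hn, mul_assoc, ← (hc.zpow_right n).eq, inv_mul_cancel_left]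
      rw [h2]
      exact Subgroup.mem_zpowers_iff.2 ⟨n, rfl⟩
  exact (le_sup_right : Subgroup.normalizer ((Subgroup.zpowers u : Subgroup A) : Set A) ⊓ X ≤
    MN k (Subgroup.zpowers u) X) ⟨h1, hg⟩

theorem ncl_map_iff {G G' : Type} [Group G] [Group G'] (e : G ≃* G') (P : Subgroup G) :
    Subgroup.normalClosure ((P.map e.toMonoidHom : Subgroup G') : Set G') = ⊤ ↔
      Subgroup.normalClosure (P : Set G) = ⊤ := by
  have h1 : Subgroup.normalClosure ((P.map e.toMonoidHom : Subgroup G') : Set G') =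
      (Subgroup.normalClosure (P : Set G)).map e.toMonoidHom := by
    rw [Subgroup.map_normalClosure _ _ e.surjective]
    rfl
  rw [h1]
  constructor
  · intro h
    rw [eq_top_iff]
    intro x _
    have h2 : e x ∈ (Subgroup.normalClosure (P : Set G)).map e.toMonoidHom := by
      rw [h]; trivial
    obtain ⟨y, hy, hyx⟩ := h2
    have h3 : y = x := e.injective hyx
    rw [← h3]
    exact hy
  · intro h
    rw [h, eq_top_iff]
    intro y _
    exact ⟨e.symm y, trivial, e.apply_symm_apply y⟩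

theorem rn_map {A' : Type} [Group A'] (f : A →* A') (hf : Function.Injective f) :
    RN k (P.map f) (H.map f) ↔ RN k P H := by
  unfold RN
  have h1 : (P.map f).subgroupOf (H.map f) =
      (P.subgroupOf H).map (H.equivMapOfInjective f hf).toMonoidHom := by
    ext ⟨y, hy⟩
    obtain ⟨x, hx, rfl⟩ := hy
    rw [Subgroup.mem_subgroupOf]
    constructor
    · rintro ⟨x', hx', hxx⟩
      have hxx' : f x' = f x := hxx
      have : x' = x := hf hxx'
      subst this
      exact ⟨⟨x', hx⟩, Subgroup.mem_subgroupOf.2 hx', Subtype.ext rfl⟩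
    · rintro ⟨x', hx', hxx⟩
      have h2 : f (x' : A) = f x := congrArg Subtype.val hxx
      refine ⟨x', Subgroup.mem_subgroupOf.1 hx', h2⟩
  rw [Subgroup.map_le_map_iff_of_injective hf, ra_rel_map f hf, h1, ncl_map_iff]

theorem jn_conj {g : A} (hg : g ∈ X) (hn : g ∈ Subgroup.normalizer (P : Set A)) {x : A}
    (hx : x ∈ JN k P X) : g * x * g⁻¹ ∈ JN k P X := by
  have key : JN k P X ≤ (JN k P X).comap (MulAut.conj g).toMonoidHom := by
    conv_lhs => unfold JN
    refine sup_le ?_ (sSup_le ?_)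
    · intro y hy
      have h1 : g * y * g⁻¹ ∈ P := (Subgroup.mem_normalizer_iff.1 hn y).1 hy
      exact p_le_jn h1
    · rintro H ⟨hHX, hH⟩ y hy
      have h1 : RN k (P.map (MulAut.conj g).toMonoidHom) (H.map (MulAut.conj g).toMonoidHom) :=
        (rn_map _ (MulAut.conj g).injective).2 hH
      have h2 : P.map (MulAut.conj g).toMonoidHom = P := by
        ext z
        constructor
        · rintro ⟨w, hw, rfl⟩
          exact (Subgroup.mem_normalizer_iff.1 hn w).1 hw
        · intro hz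
          refine ⟨g⁻¹ * z * g, ?_, ?_⟩
          · have h3 := (Subgroup.mem_normalizer_iff.1 hn (g⁻¹ * z * g)).2
            apply h3
            have h4 : g * (g⁻¹ * z * g) * g⁻¹ = z := by group
            rw [h4]
            exact hz
          · show g * (g⁻¹ * z * g) * g⁻¹ = z
            group
      rw [h2] at h1
      have h3 : H.map (MulAut.conj g).toMonoidHom ≤ X := by
        rintro _ ⟨w, hw, rfl⟩
        exact X.mul_mem (X.mul_mem hg (hHX hw)) (X.inv_mem hg)
      exact le_jn h1 h3 ⟨y, hy, rfl⟩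
  exact key hx

/-- the normal closure of `P` in `H` is `H` -/
theorem rn_le_normal {K : Subgroup A} (h : RN k P H) (hPK : P ≤ K)
    (hn : ∀ g ∈ H, ∀ x ∈ K, g * x * g⁻¹ ∈ K) : H ≤ K := by
  have h1 : (K.subgroupOf H).Normal := by
    refine ⟨fun x hx g => ?_⟩
    exact hn g g.2 x hx
  have h2 : Subgroup.normalClosure ((P.subgroupOf H : Subgroup H) : Set H) ≤ K.subgroupOf H := by
    apply Subgroup.normalClosure_le_normal
    intro x hx
    exact hPK hx
  rw [h.2.2] at h2
  intro x hx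
  exact h2 (Subgroup.mem_top (⟨x, hx⟩ : H))

theorem ncl_top {u : A} (hu : u ∈ X)
    (h : ∀ K : Subgroup A, K ≤ X → u ∈ K → (∀ g ∈ X, ∀ x ∈ K, g * x * g⁻¹ ∈ K) → X ≤ K) :
    Subgroup.normalClosure (((Subgroup.zpowers u).subgroupOf X : Subgroup X) : Set X) = ⊤ := by
  obtain ⟨N, hN⟩ : ∃ N, N = Subgroup.normalClosure
    (((Subgroup.zpowers u).subgroupOf X : Subgroup X) : Set X) := ⟨_, rfl⟩
  have hNn : N.Normal := hN ▸ Subgroup.normalClosure_normal
  rw [← hN]
  have h1 := h (N.map X.subtype) (Subgroup.map_subtype_le _) ?_ ?_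
  · rw [eq_top_iff]
    intro x _
    obtain ⟨y, hy, hyx⟩ := h1 x.2
    have h2 : y = x := Subtype.ext hyx
    rw [← h2]
    exact hy
  · refine ⟨⟨u, hu⟩, ?_, rfl⟩
    rw [hN]
    exact Subgroup.subset_normalClosure (Subgroup.mem_subgroupOf.2 (Subgroup.mem_zpowers u))
  · rintro g hg _ ⟨y, hy, rfl⟩
    exact ⟨⟨g, hg⟩ * y * ⟨g, hg⟩⁻¹, hNn.conj_mem y hy ⟨g, hg⟩, rfl⟩

/-- images of a group with a cover -/
theorem rn_range {S : Type} [Group S] (π : S →* A) {P' : Subgroup S} (h : RealAct k P')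
    (hn : Subgroup.normalClosure (P' : Set S) = ⊤) : RN k (P'.map π) π.range := by
  have h1 : (P'.map π).subgroupOf π.range = P'.map π.rangeRestrict := by
    ext ⟨y, hy⟩
    rw [Subgroup.mem_subgroupOf]
    constructor
    · rintro ⟨x, hx, hxy⟩
      exact ⟨x, hx, Subtype.ext hxy⟩
    · rintro ⟨x, hx, hxy⟩
      exact ⟨x, hx, congrArg Subtype.val hxy⟩
  refine ⟨?_, ?_, ?_⟩
  · rintro _ ⟨x, _, rfl⟩
    exact ⟨x, rfl⟩
  · rw [h1]
    exact ra_map _ π.rangeRestrict_surjective h
  · rw [h1]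
    have h2 : ((P'.map π.rangeRestrict : Subgroup π.range) : Set π.range) =
      π.rangeRestrict '' (P' : Set S) := rfl
    rw [h2, ← Subgroup.map_normalClosure _ _ π.rangeRestrict_surjective, hn,
      Subgroup.map_top_of_surjective _ π.rangeRestrict_surjective]

end

section
variable {p : ℕ} [Fact p.Prime] {k : Type} [Field k] [IsAlgClosed k] [CharP k p]
  {A : Type} [Group A] [Finite A] {P X H : Subgroup A}

theorem rn_jn (hP : IsPGroup p P) : RN k P (JN k P X) := by
  refine ⟨p_le_jn, ?_, ?_⟩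
  · have hP' : IsPGroup p (P.subgroupOf (JN k P X)) :=
      hP.comap_of_injective (JN k P X).subtype (JN k P X).subtype_injective
    refine Pool.Agent.Helper54.SJ.realAct_join hP' {H' | ∃ H : Subgroup A, H ≤ JN k P X ∧
      (∃ P1 ≤ P, RealAct k (P1.subgroupOf H)) ∧ H' = H.subgroupOf (JN k P X)} ?_ ?_ ?_
    · exact ⟨_, ⊥, bot_le, ⟨⊥, bot_le, ra_subsingleton _⟩, rfl⟩
    · rintro _ ⟨H, hHJ, ⟨P1, h1, h⟩, rfl⟩
      refine ⟨P1.subgroupOf (JN k P X), ?_, (ra_rel hHJ).mpr h⟩
      exact Subgroup.comap_mono h1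
    · rw [eq_top_iff]
      rintro ⟨x, hx⟩ _
      have key : JN k P X ≤ (P.subgroupOf (JN k P X) ⊔ sSup {H' | ∃ H : Subgroup A,
          H ≤ JN k P X ∧ (∃ P1 ≤ P, RealAct k (P1.subgroupOf H)) ∧
            H' = H.subgroupOf (JN k P X)}).map (JN k P X).subtype := by
        conv_lhs => unfold JN
        refine sup_le ?_ (sSup_le ?_)
        · intro y hy
          exact ⟨⟨y, p_le_jn hy⟩, Subgroup.mem_sup_left (Subgroup.mem_subgroupOf.mpr hy), rfl⟩
        · rintro H ⟨hHX, hH⟩ y hy
          refine ⟨⟨y, le_jn hH hHX hy⟩, Subgroup.mem_sup_right ?_, rfl⟩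
          have h3 : H.subgroupOf (JN k P X) ∈ {H' | ∃ H : Subgroup A, H ≤ JN k P X ∧
              (∃ P1 ≤ P, RealAct k (P1.subgroupOf H)) ∧ H' = H.subgroupOf (JN k P X)} :=
            ⟨H, le_jn hH hHX, ⟨P, le_rfl, hH.2.1⟩, rfl⟩
          exact le_sSup h3 (Subgroup.mem_subgroupOf.mpr hy)
      obtain ⟨y, hy, e⟩ := key hx
      have e' : y = ⟨x, hx⟩ := Subtype.ext e
      rw [← e']
      exact hy
  · obtain ⟨N, hN⟩ : ∃ N, N = Subgroup.normalClosure
      ((P.subgroupOf (JN k P X) : Subgroup (JN k P X)) : Set (JN k P X)) := ⟨_, rfl⟩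
    have hNn : N.Normal := hN ▸ Subgroup.normalClosure_normal
    rw [← hN]
    have hPN : P ≤ N.map (JN k P X).subtype := by
      intro y hy
      refine ⟨⟨y, p_le_jn hy⟩, ?_, rfl⟩
      rw [hN]
      exact Subgroup.subset_normalClosure (Subgroup.mem_subgroupOf.2 hy)
    have key : JN k P X ≤ N.map (JN k P X).subtype := by
      conv_lhs => unfold JN
      refine sup_le hPN (sSup_le ?_)
      rintro H ⟨hHX, hH⟩
      refine rn_le_normal hH hPN ?_
      rintro g hg _ ⟨y, hy, rfl⟩
      have hg' : g ∈ JN k P X := le_jn hH hHX hg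
      exact ⟨⟨g, hg'⟩ * y * ⟨g, hg'⟩⁻¹, hNn.conj_mem y hy ⟨g, hg'⟩, rfl⟩
    rw [eq_top_iff]
    intro x _
    obtain ⟨y, hy, hyx⟩ := key x.2
    have h2 : y = x := Subtype.ext hyx
    rw [← h2]
    exact hy

theorem rn_of_le (hP : IsPGroup p P) (hPX : P ≤ X) (h : X ≤ JN k P X) : RN k P X := by
  have h1 : JN k P X = X := le_antisymm (jn_le hPX) h
  have h2 := rn_jn (k := k) (X := X) hP
  rwa [h1] at h2

theorem rn_crit (hP : IsPGroup p P) (hPX : P ≤ X) (h : X ≤ MN k P X)
    (hn : Subgroup.normalClosure ((P.subgroupOf X : Subgroup X) : Set X) = ⊤) : RN k P X := by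
  apply rn_of_le hP hPX
  have h1 : Subgroup.normalizer (P : Set A) ⊓ X ≤
      Subgroup.normalizer ((JN k P X : Subgroup A) : Set A) := by
    rintro g ⟨hg1, hg2⟩
    refine Subgroup.mem_normalizer_iff.2 fun x => ⟨fun hx => jn_conj hg2 hg1 hx, fun hx => ?_⟩
    have h2 := jn_conj (X.inv_mem hg2) (Subgroup.inv_mem _ hg1) hx
    have h3 : g⁻¹ * (g * x * g⁻¹) * g⁻¹⁻¹ = x := by group
    rwa [h3] at h2
  have h2 : X ≤ Subgroup.normalizer ((JN k P X : Subgroup A) : Set A) :=
    h.trans (sup_le Subgroup.le_normalizer h1)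
  have h3 : ((JN k P X).subgroupOf X).Normal := by
    refine ⟨fun x hx g => ?_⟩
    exact (Subgroup.mem_normalizer_iff.1 (h2 g.2) x).1 hx
  have h4 : Subgroup.normalClosure ((P.subgroupOf X : Subgroup X) : Set X) ≤
      (JN k P X).subgroupOf X := by
    apply Subgroup.normalClosure_le_normal
    intro x hx
    exact p_le_jn hx
  rw [hn] at h4
  intro x hx
  exact h4 (Subgroup.mem_top (⟨x, hx⟩ : X))

omit [Fact p.Prime] in
theorem lp_core {G : Type} [Group G] [Finite G] (hpp : p.Prime) {u : G} {Q : Type} [Group Q]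
    (ψ : G →* Q) (hψ : Function.Surjective ψ) (hker : IsPGroup p ψ.ker)
    (hn : Subgroup.normalClosure ((Subgroup.zpowers (ψ u) : Subgroup Q) : Set Q) = ⊤) :
    ∃ K : Subgroup G, u ∈ K ∧ (∀ q, ∃ x ∈ K, ψ x = q) ∧ (∀ g, ¬ p ∣ orderOf g → g ∈ K) ∧
      Subgroup.normalClosure (((Subgroup.zpowers u).subgroupOf K : Subgroup K) : Set K) = ⊤ := by
  obtain ⟨K, hK, hmin⟩ := Set.Finite.exists_minimal
    (s := {K : Subgroup G | u ∈ K ∧ (∀ q, ∃ x ∈ K, ψ x = q) ∧ (∀ g, ¬ p ∣ orderOf g → g ∈ K)})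
    (Set.toFinite _) ⟨⊤, Subgroup.mem_top _, fun q => by
      obtain ⟨x, hx⟩ := hψ q
      exact ⟨x, Subgroup.mem_top _, hx⟩, fun _ _ => Subgroup.mem_top _⟩
  obtain ⟨huK, hsK, hpK⟩ := hK
  refine ⟨K, huK, hsK, hpK, ncl_top huK ?_⟩
  intro K1 hK1 hu1 hn1
  refine hmin ⟨hu1, ?_, ?_⟩ hK1
  · -- the image of `K1` is everything
    have hnor : (K1.map ψ).Normal := by
      refine ⟨?_⟩
      rintro _ ⟨y, hy, rfl⟩ q
      obtain ⟨x, hx, rfl⟩ := hsK q
      refine ⟨x * y * x⁻¹, hn1 x hx y hy, ?_⟩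
      rw [map_mul, map_mul, map_inv]
    have h1 : Subgroup.normalClosure ((Subgroup.zpowers (ψ u) : Subgroup Q) : Set Q) ≤
        K1.map ψ := by
      apply Subgroup.normalClosure_le_normal
      have h2 : Subgroup.zpowers (ψ u) ≤ K1.map ψ := by
        rw [Subgroup.zpowers_le]
        exact ⟨u, hu1, rfl⟩
      exact h2
    rw [hn] at h1
    intro q
    obtain ⟨x, hx, hxq⟩ := h1 (Subgroup.mem_top q)
    exact ⟨x, hx, hxq⟩
  · intro g hg
    have hgK : g ∈ K := hpK g hg
    have hnor : (K1.map ψ).Normal := by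
      refine ⟨?_⟩
      rintro _ ⟨y, hy, rfl⟩ q
      obtain ⟨x, hx, rfl⟩ := hsK q
      refine ⟨x * y * x⁻¹, hn1 x hx y hy, ?_⟩
      rw [map_mul, map_mul, map_inv]
    have h1 : Subgroup.normalClosure ((Subgroup.zpowers (ψ u) : Subgroup Q) : Set Q) ≤
        K1.map ψ := by
      apply Subgroup.normalClosure_le_normal
      have h2 : Subgroup.zpowers (ψ u) ≤ K1.map ψ := by
        rw [Subgroup.zpowers_le]
        exact ⟨u, hu1, rfl⟩
      exact h2
    rw [hn] at h1
    obtain ⟨k1, hk1, hk1g⟩ := h1 (Subgroup.mem_top (ψ g))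
    have hN : k1⁻¹ * g ∈ ψ.ker := by
      rw [MonoidHom.mem_ker, map_mul, map_inv]
      have h2 : ψ k1 = ψ g := hk1g
      rw [h2, inv_mul_cancel]
    obtain ⟨r, hr⟩ := hker ⟨k1⁻¹ * g, hN⟩
    have hr' : (k1⁻¹ * g) ^ p ^ r = 1 := by simpa using congrArg Subtype.val hr
    have hK1n : (K1.subgroupOf K).Normal := by
      refine ⟨fun x hx y => ?_⟩
      exact hn1 y y.2 x hx
    have hk1K : k1 ∈ K := hK1 hk1
    have hgp : g ^ p ^ r ∈ K1 := by
      have h2 : (QuotientGroup.mk' (K1.subgroupOf K)) (⟨g, hgK⟩ : K) =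
          (QuotientGroup.mk' (K1.subgroupOf K)) ((⟨k1, hk1K⟩ : K)⁻¹ * ⟨g, hgK⟩) := by
        rw [map_mul, map_inv]
        have h3 : (QuotientGroup.mk' (K1.subgroupOf K)) (⟨k1, hk1K⟩ : K) = 1 :=
          (QuotientGroup.eq_one_iff _).2 (Subgroup.mem_subgroupOf.2 hk1)
        rw [h3, inv_one, one_mul]
      have h4 : (QuotientGroup.mk' (K1.subgroupOf K)) ((⟨g, hgK⟩ : K) ^ p ^ r) = 1 := by
        rw [map_pow, h2, ← map_pow]
        have h5 : ((⟨k1, hk1K⟩ : K)⁻¹ * ⟨g, hgK⟩) ^ p ^ r = 1 := Subtype.ext (by simpa using hr')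
        rw [h5, map_one]
      have h6 : ((⟨g, hgK⟩ : K) ^ p ^ r) ∈ K1.subgroupOf K := (QuotientGroup.eq_one_iff _).1 h4
      exact h6
    have hcop : (orderOf g).Coprime (p ^ r) := by
      apply Nat.Coprime.pow_right
      exact ((Nat.Prime.coprime_iff_not_dvd hpp).2 hg).symm
    obtain ⟨m, hm⟩ := exists_pow_eq_self_of_coprime hcop.symm
    rw [← hm]
    exact K1.pow_mem hgp m

theorem lp (hHX : H ≤ X) {u : A} (hu : IsPGroup p (Subgroup.zpowers u)) (huH : u ∈ H)
    {Q : Type} [Group Q] (ψ : H →* Q) (hψ : Function.Surjective ψ) (hker : IsPGroup p ψ.ker)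
    (hr : RealAct k (Subgroup.zpowers (ψ ⟨u, huH⟩)))
    (hn : Subgroup.normalClosure ((Subgroup.zpowers (ψ ⟨u, huH⟩) : Subgroup Q) : Set Q) = ⊤)
    {g : A} (hg : g ∈ H) (hgp : ¬ p ∣ orderOf g) : g ∈ JN k (Subgroup.zpowers u) X := by
  have hpp : p.Prime := Fact.out
  obtain ⟨K, huK, hsK, hpK, hnK⟩ := lp_core (u := (⟨u, huH⟩ : H)) hpp ψ hψ hker hn
  have hz : (Subgroup.zpowers (⟨u, huH⟩ : H)).map H.subtype = Subgroup.zpowers u := by
    rw [MonoidHom.map_zpowers]
    rfl
  have hle : Subgroup.zpowers (⟨u, huH⟩ : H) ≤ K := by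
    rw [Subgroup.zpowers_le]
    exact huK
  have hPH : IsPGroup p (Subgroup.zpowers (⟨u, huH⟩ : H)) := by
    intro x
    have hx : ((x : H) : A) ∈ Subgroup.zpowers u := by
      rw [← hz]
      exact ⟨_, x.2, rfl⟩
    obtain ⟨r, hr⟩ := hu ⟨_, hx⟩
    refine ⟨r, Subtype.ext (Subtype.ext ?_)⟩
    simpa using congrArg Subtype.val hr
  have hPK : IsPGroup p ((Subgroup.zpowers (⟨u, huH⟩ : H)).subgroupOf K) :=
    hPH.comap_of_injective K.subtype K.subtype_injective
  have hsurj : Function.Surjective (ψ.comp K.subtype) := by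
    intro q
    obtain ⟨x, hx, hxq⟩ := hsK q
    exact ⟨⟨x, hx⟩, hxq⟩
  have hNp : IsPGroup p (ψ.comp K.subtype).ker := by
    intro x
    have hx : ((x : K) : H) ∈ ψ.ker := x.2
    obtain ⟨r, hr⟩ := hker ⟨_, hx⟩
    refine ⟨r, Subtype.ext (Subtype.ext ?_)⟩
    simpa using congrArg Subtype.val hr
  have hsol : Group.IsSolvable (ψ.comp K.subtype).ker := by
    have := hNp.isNilpotent
    infer_instance
  have hRA : RealAct k ((Subgroup.zpowers (⟨u, huH⟩ : H)).subgroupOf K) := by
    refine ra_solvable_kernel (p := p) (ψ.comp K.subtype).ker hsol hPK hnK ?_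
    rw [← ra_iso (QuotientGroup.quotientKerEquivOfSurjective (ψ.comp K.subtype) hsurj)]
    have h1 : (((Subgroup.zpowers (⟨u, huH⟩ : H)).subgroupOf K).map
        (QuotientGroup.mk' (ψ.comp K.subtype).ker)).map
          (QuotientGroup.quotientKerEquivOfSurjective (ψ.comp K.subtype) hsurj).toMonoidHom =
        Subgroup.zpowers (ψ ⟨u, huH⟩) := by
      ext q
      constructor
      · rintro ⟨_, ⟨x, hx, rfl⟩, rfl⟩
        have hx' : (x : H) ∈ Subgroup.zpowers (⟨u, huH⟩ : H) := hx
        obtain ⟨n, hn'⟩ := Subgroup.mem_zpowers_iff.1 hx'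
        refine Subgroup.mem_zpowers_iff.2 ⟨n, ?_⟩
        rw [← map_zpow, hn']
        rfl
      · intro hq
        obtain ⟨n, rfl⟩ := Subgroup.mem_zpowers_iff.1 hq
        refine ⟨_, ⟨(⟨⟨u, huH⟩, huK⟩ : K) ^ n, ?_, rfl⟩, ?_⟩
        · exact Subgroup.mem_zpowers_iff.2 ⟨n, rfl⟩
        · show ψ (((⟨⟨u, huH⟩, huK⟩ : K) ^ n : K) : H) = _
          rw [← map_zpow]
          rfl
    rw [h1]
    exact hr
  have hRN : RN k (Subgroup.zpowers (⟨u, huH⟩ : H)) K := ⟨hle, hRA, hnK⟩
  have hRN' := (rn_map H.subtype H.subtype_injective).2 hRN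
  rw [hz] at hRN'
  have hKX : K.map H.subtype ≤ X := (Subgroup.map_subtype_le _).trans hHX
  refine le_jn hRN' hKX ⟨⟨g, hg⟩, hpK _ ?_, rfl⟩
  have h1 : orderOf (⟨g, hg⟩ : H) = orderOf g := Subgroup.orderOf_mk g hg
  rw [h1]
  exact hgp

theorem rn_sl2 (hp5 : 5 ≤ p) {F : Type} [Field F] [Finite F] [CharP F p]
    (π : Matrix.SpecialLinearGroup (Fin 2) F →* A) (s : Matrix.SpecialLinearGroup (Fin 2) F)
    (hs : π s ^ p = 1) (hs1 : π s ≠ 1) : RN k (Subgroup.zpowers (π s)) π.range := by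
  have hpp : p.Prime := Fact.out
  have hF : 4 ≤ Nat.card F := by
    have h1 : ((Nat.card F : ℕ) : F) = 0 := by
      have := Fintype.ofFinite F
      rw [Nat.card_eq_fintype_card]
      exact Nat.cast_card_eq_zero F
    have h2 : p ∣ Nat.card F := (CharP.cast_eq_zero_iff F p _).1 h1
    have h3 : p ≤ Nat.card F := Nat.le_of_dvd Nat.card_pos h2
    omega
  have hqs := sl_qs (F := F) hF (m := 2) le_rfl
  have : Finite (Matrix.SpecialLinearGroup (Fin 2) F) := Subtype.finite
  have hP : IsPGroup p ((Subgroup.zpowers (π s)).subgroupOf π.range) := by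
    intro x
    have hx : (x : A) ∈ Subgroup.zpowers (π s) := x.2
    obtain ⟨n, hn⟩ := Subgroup.mem_zpowers_iff.1 hx
    refine ⟨1, Subtype.ext (Subtype.ext ?_)⟩
    have h2 : ((x : π.range) : A) ^ p = 1 := by
      rw [← hn, ← zpow_natCast, zpow_comm, zpow_natCast, hs, one_zpow]
    simpa using h2
  have hsr : π s ∈ π.range := ⟨s, rfl⟩
  have hgen : Subgroup.normalClosure
      (((Subgroup.zpowers (π s)).subgroupOf π.range : Subgroup π.range) : Set π.range) = ⊤ := by
    have hsM : π.rangeRestrict s ∈ Subgroup.normalClosure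
        (((Subgroup.zpowers (π s)).subgroupOf π.range : Subgroup π.range) : Set π.range) :=
      Subgroup.subset_normalClosure (Subgroup.mem_subgroupOf.2 (Subgroup.mem_zpowers (π s)))
    rcases hqs.2 ((Subgroup.normalClosure
      (((Subgroup.zpowers (π s)).subgroupOf π.range : Subgroup π.range) : Set π.range)).comap
        π.rangeRestrict) inferInstance with h | h
    · exfalso
      have h1 : s ∈ Subgroup.center (Matrix.SpecialLinearGroup (Fin 2) F) := h hsM
      obtain ⟨r, hr, hrs⟩ := Matrix.SpecialLinearGroup.mem_center_iff.1 h1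
      rw [Fintype.card_fin] at hr
      have h2 : s ^ 2 = 1 := by
        apply Subtype.ext
        rw [Matrix.SpecialLinearGroup.coe_pow, ← hrs, ← map_pow, hr, map_one]
        rfl
      have h3 : π s ^ 2 = 1 := by rw [← map_pow, h2, map_one]
      apply hs1
      have h4 : orderOf (π s) ∣ 2 := orderOf_dvd_of_pow_eq_one h3
      have h5 : orderOf (π s) ∣ p := orderOf_dvd_of_pow_eq_one hs
      have h6 : Nat.Coprime 2 p := by
        rw [Nat.coprime_primes Nat.prime_two hpp]
        omega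
      exact orderOf_eq_one_iff.1 (Nat.eq_one_of_dvd_coprimes h6 h4 h5)
    · rw [eq_top_iff]
      intro y _
      obtain ⟨g, rfl⟩ := π.rangeRestrict_surjective y
      have h1 : g ∈ (Subgroup.normalClosure
        (((Subgroup.zpowers (π s)).subgroupOf π.range : Subgroup π.range) : Set π.range)).comap
          π.rangeRestrict := by rw [h]; exact Subgroup.mem_top g
      exact h1
  refine ⟨?_, ?_, hgen⟩
  · rw [Subgroup.zpowers_le]
    exact hsr
  · let π' : (∀ _ : Unit, Matrix.SpecialLinearGroup (Fin 2) F) →* π.range :=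
      π.rangeRestrict.comp
        (Pi.evalMonoidHom (fun _ : Unit => Matrix.SpecialLinearGroup (Fin 2) F) ())
    have hπ' : Function.Surjective π' := by
      intro y
      obtain ⟨g, rfl⟩ := π.rangeRestrict_surjective y
      exact ⟨fun _ => g, rfl⟩
    exact realAct_product (p := p) (fun _ : Unit => Matrix.SpecialLinearGroup (Fin 2) F)
      (fun _ => hqs) (fun _ s' hs' => win_sl_def hp5 le_rfl s' hs') π' hπ' hP hgen

end

end Pool.Agent.Helper54.CL
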