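import Pool.Agent.Helper54.CL.Ncl
import Pool.Agent.Helper54.CL.JN

/-!
# CL-11: good points

`u ∈ GG`, `u^p = 1`, `u x = x`, `Pair x y`, and the group `GG` of `perp2 x y` has a cover with inertia group generated by
`u1 = psi u`.

PROOF.
* `good_mem`: `lp` of JN.lean with `X = h.GG p`, `H` = the subgroup of all `g ∈ GG` with `g x = x` and `psi g ∈ (restr).GG p`,
  `Q = (restr).GG p`, `ψ = psi`.  Surjective: `psi (ext g1) = g1` (`psi_ext`, `ext_GG`).  The kernel is contained in `UU x`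
  (`psi_ker`), where every element has `p`-th power `1` (`UU_pow`).  `RN` for `u1` gives the two hypotheses
  (`(zpowers u1).subgroupOf Q = zpowers ⟨u1, _⟩`).
* `good_UU`: we check the hypothesis of `uu_mem` for `M = JN`.  (`perp2 ≠ 0` because `u1 ≠ 1`.)  The set of all `a ⊥ x, y` such that
  some `E x a t ∈ M` is closed under addition (`E_E`), so by `sum_isotropic` for `restr` (there is a hyperbolic pair in
  `perp2`: `exists_fixed` for `u1`, `exists_partner`) we may assume `a = z` isotropic, `z ≠ 0`, with partner `w` in `perp2`.  `exists_torus` for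
  `restr` (its hypothesis `hb` by `finrank_ge_three` for `u1`) gives `g1` with `g1 z = l z`, `l ≠ 1`, of order prime to `p`; `G = ext g1`.  Let
  `e ∈ UU x`, `e = E x ((l-1)⁻¹ z) 0`.  `G` and `e G⁻¹ e⁻¹` are in `JN` by `good_mem` (`psi (e G⁻¹ e⁻¹) = g1⁻¹`, orders equal to
  that of `g1`), and `G e G⁻¹ e⁻¹ = E x z t'`.
-/

set_option autoImplicit false
open scoped Pointwise
open Pool.Agent.Helper54.PW Pool.Agent.Helper54.RT

namespace Pool.Agent.Helper54.CL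

namespace HF
section
variable {p : ℕ} [Fact p.Prime] {k : Type} [Field k] [IsAlgClosed k] [CharP k p]
  {F V : Type} [Field F] [Finite F] [CharP F p] [AddCommGroup V] [Module F V] [Finite V]
  (h : HF F V)

private theorem zp_sub {A : Type} [Group A] (Q : Subgroup A) {a : A} (ha : a ∈ Q) :
    (Subgroup.zpowers a).subgroupOf Q = Subgroup.zpowers (⟨a, ha⟩ : Q) := by
  ext q
  rw [Subgroup.mem_subgroupOf, Subgroup.mem_zpowers_iff, Subgroup.mem_zpowers_iff]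
  constructor
  · rintro ⟨n, hn⟩
    exact ⟨n, Subtype.ext (by rw [Subgroup.coe_zpow]; exact hn)⟩
  · rintro ⟨n, hn⟩
    exact ⟨n, by rw [← hn, Subgroup.coe_zpow]⟩

private theorem pgroup_zp {A : Type} [Group A] {u : A} {p : ℕ} (hu : u ^ p = 1) :
    IsPGroup p (Subgroup.zpowers u) := by
  rintro ⟨a, ha⟩
  obtain ⟨n, rfl⟩ := Subgroup.mem_zpowers_iff.1 ha
  refine ⟨1, Subtype.ext ?_⟩
  rw [Subgroup.coe_pow, pow_one, Subgroup.coe_one]
  change (u ^ n) ^ p = 1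
  rw [← zpow_natCast, ← zpow_mul, mul_comm, zpow_mul, zpow_natCast, hu, one_zpow]

theorem good_mem (hp5 : 5 ≤ p) {x y : V} (hp : h.Pair x y) {u : V ≃ₗ[F] V} (hu : u ∈ h.GG p)
    (hup : u ^ p = 1) (hux : u ∈ h.stabX x)
    (hr : RN k (Subgroup.zpowers (h.psi hp ⟨u, hux⟩)) ((h.restr hp).GG p))
    {g : V ≃ₗ[F] V} (hg : g ∈ h.GG p) (hgx : g ∈ h.stabX x)
    (hg1 : h.psi hp ⟨g, hgx⟩ ∈ (h.restr hp).GG p) (hgp : ¬ p ∣ orderOf g) :
    g ∈ JN k (Subgroup.zpowers u) (h.GG p) := by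
  set Q := (h.restr hp).GG p with hQ
  set H : Subgroup (V ≃ₗ[F] V) := (Q.comap (h.psi hp)).map (h.stabX x).subtype ⊓ h.GG p with hH
  have hHs : H ≤ h.stabX x := by
    rintro a ⟨⟨b, -, rfl⟩, -⟩
    exact b.2
  have hHQ : ∀ a : H, h.psi hp ⟨a.1, hHs a.2⟩ ∈ Q := by
    rintro ⟨a, ha⟩
    obtain ⟨⟨b, hb, hba⟩, -⟩ := id ha
    have e : (⟨a, hHs ha⟩ : h.stabX x) = b := Subtype.ext hba.symm
    rw [e]
    exact hb
  have hmem : ∀ (a : V ≃ₗ[F] V) (has : a ∈ h.stabX x), a ∈ h.GG p → h.psi hp ⟨a, has⟩ ∈ Q →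
      a ∈ H := fun a has haG haQ => ⟨⟨⟨a, has⟩, haQ, rfl⟩, haG⟩
  let ψ : H →* Q := ((h.psi hp).comp (Subgroup.inclusion hHs)).codRestrict Q hHQ
  have hψ : ∀ a : H, ((ψ a : Q) : h.perp2 x y ≃ₗ[F] h.perp2 x y) = h.psi hp ⟨a.1, hHs a.2⟩ :=
    fun _ => rfl
  have huQ : h.psi hp ⟨u, hux⟩ ∈ Q := hr.1 (Subgroup.mem_zpowers _)
  have huH : u ∈ H := hmem u hux hu huQ
  have hψu : ψ ⟨u, huH⟩ = ⟨h.psi hp ⟨u, hux⟩, huQ⟩ := rfl
  refine lp (p := p) (H := H) (X := h.GG p) inf_le_right (pgroup_zp hup) huH ψ ?_ ?_ ?_ ?_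
    (hmem g hgx hg hg1) hgp
  · rintro ⟨q, hq⟩
    have h1 := h.ext_stabX hp ((h.restr hp).GG_le p hq)
    have h2 := h.psi_ext hp ((h.restr hp).GG_le p hq)
    refine ⟨⟨h.ext hp q, hmem _ h1 (h.ext_GG hp hq) (by rw [h2]; exact hq)⟩, Subtype.ext ?_⟩
    rw [hψ]
    exact h2
  · rintro ⟨⟨a, ha⟩, hak⟩
    refine ⟨1, Subtype.ext (Subtype.ext ?_)⟩
    have h1 : h.psi hp ⟨a, hHs ha⟩ = 1 := congrArg Subtype.val (MonoidHom.mem_ker.1 hak)
    rw [h.psi_ker] at h1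
    rw [pow_one]
    exact h.UU_pow (by omega) hp h1
  · rw [hψu, ← zp_sub]
    exact hr.2.1
  · rw [hψu, ← zp_sub]
    exact hr.2.2

theorem good_UU (hp5 : 5 ≤ p) {x y : V} (hp : h.Pair x y) {u : V ≃ₗ[F] V} (hu : u ∈ h.GG p)
    (hup : u ^ p = 1) (hux : u ∈ h.stabX x)
    (hr : RN k (Subgroup.zpowers (h.psi hp ⟨u, hux⟩)) ((h.restr hp).GG p))
    (hne : h.psi hp ⟨u, hux⟩ ≠ 1) : h.UU x ≤ JN k (Subgroup.zpowers u) (h.GG p) := by
  have hp3 : 3 ≤ p := by omega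
  have h2 : (2 : F) ≠ 0 := HF.two_ne hp3
  have hfd : FiniteDimensional F V := inferInstance
  set u1 := h.psi hp ⟨u, hux⟩ with hu1
  have hu1I : u1 ∈ (h.restr hp).Iso := h.psi_iso hp _
  have hu1p : u1 ^ (p ^ 1) = 1 := by
    rw [pow_one, hu1, ← map_pow]
    have : (⟨u, hux⟩ : h.stabX x) ^ p = 1 := Subtype.ext hup
    rw [this, map_one]
  obtain ⟨x1, -, hx1, hx1x1, -, -⟩ := (h.restr hp).exists_fixed hu1I hu1p hne
  obtain ⟨y1, hp1⟩ := (h.restr hp).exists_partner h2 hx1 hx1x1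
  have hb : (h.restr hp).IsO → 3 ≤ Module.finrank F (h.perp2 x y) := fun hO =>
    (h.restr hp).finrank_ge_three hp3 hO hu1I hu1p hne
  -- good vectors
  have hadd : ∀ a b : V, h.B x a = 0 → h.B x b = 0 →
      (∃ g ∈ JN k (Subgroup.zpowers u) (h.GG p), ∃ t, h.Adm a t ∧ ∀ v, g v = h.E x a t v) →
      (∃ g ∈ JN k (Subgroup.zpowers u) (h.GG p), ∃ t, h.Adm b t ∧ ∀ v, g v = h.E x b t v) →
      (∃ g ∈ JN k (Subgroup.zpowers u) (h.GG p), ∃ t, h.Adm (a + b) t ∧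
        ∀ v, g v = h.E x (a + b) t v) := by
    rintro a b ha hb ⟨g, hg, t, ht, hgv⟩ ⟨g', hg', s, hs, hgv'⟩
    refine ⟨g * g', Subgroup.mul_mem _ hg hg', _, h.adm_add ht hs, fun v => ?_⟩
    rw [← h.E_E hp.xx ha hb, ← hgv', ← hgv]
    rfl
  have hiso : ∀ z : h.perp2 x y, (h.restr hp).B z z = 0 →
      ∃ g ∈ JN k (Subgroup.zpowers u) (h.GG p), ∃ t, h.Adm (z : V) t ∧
        ∀ v, g v = h.E x (z : V) t v := by
    intro z hz
    have hzz : h.B (z : V) (z : V) = 0 := hz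
    by_cases hz0 : z = 0
    · subst hz0
      refine ⟨1, Subgroup.one_mem _, 0, ?_, fun v => ?_⟩
      · unfold Adm
        rw [hzz, map_zero]
        simp
      · unfold E
        rw [Submodule.coe_zero, h.zero_left]
        simp
    obtain ⟨w, hzw⟩ := (h.restr hp).exists_partner h2 hz0 hz
    obtain ⟨l, hl0, hσl, hl1, -, g1, hg1, hg1z, -, -, hg1p⟩ :=
      (h.restr hp).exists_torus hp5 hb hzw
    have hg1I := (h.restr hp).GG_le p hg1
    have hl1' : l - 1 ≠ 0 := sub_ne_zero.2 hl1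
    set G := h.ext hp g1 with hG
    have hGG : G ∈ h.GG p := h.ext_GG hp hg1
    have hGI : G ∈ h.Iso := h.GG_le p hGG
    have hGs : G ∈ h.stabX x := h.ext_stabX hp hg1I
    have hGx : G x = x := hGs.2
    have hpsiG : h.psi hp ⟨G, hGs⟩ = g1 := h.psi_ext hp hg1I
    have hGo : orderOf G = orderOf g1 := orderOf_injective (h.ext hp) (h.ext_injective hp) g1
    have hG1 : G ∈ JN k (Subgroup.zpowers u) (h.GG p) :=
      h.good_mem hp5 hp hu hup hux hr hGG hGs (by rw [hpsiG]; exact hg1) (by rw [hGo]; exact hg1p)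
    obtain ⟨a0, ha0⟩ : ∃ a0 : V, a0 = (l - 1)⁻¹ • (z : V) := ⟨_, rfl⟩
    have hxz : h.B x (z : V) = 0 := z.2.1
    have hxa0 : h.B x a0 = 0 := by rw [ha0, h.smul_right, hxz, mul_zero]
    have ha0a0 : h.B a0 a0 = 0 := by rw [ha0, h.smul_right, h.smul_left, hzz, mul_zero, mul_zero]
    have hadm : h.Adm a0 0 := by
      unfold Adm
      rw [ha0a0, map_zero]
      simp
    obtain ⟨e, he, hev⟩ := h.exists_E hp.xx hxa0 hadm
    have heGG : e ∈ h.GG p := h.UU_le_GG hp3 hp he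
    have hes : e ∈ h.stabX x := ⟨he.1, he.2.1⟩
    have hpsie : h.psi hp ⟨e, hes⟩ = 1 := (h.psi_ker hp _).2 he
    have hcs : e * G⁻¹ * e⁻¹ ∈ h.stabX x :=
      Subgroup.mul_mem _ (Subgroup.mul_mem _ hes (Subgroup.inv_mem _ hGs)) (Subgroup.inv_mem _ hes)
    have hcG : e * G⁻¹ * e⁻¹ ∈ h.GG p :=
      Subgroup.mul_mem _ (Subgroup.mul_mem _ heGG (Subgroup.inv_mem _ hGG))
        (Subgroup.inv_mem _ heGG)
    have hpsic : h.psi hp ⟨e * G⁻¹ * e⁻¹, hcs⟩ = g1⁻¹ := by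
      have e1 : (⟨e * G⁻¹ * e⁻¹, hcs⟩ : h.stabX x) =
          ⟨e, hes⟩ * (⟨G, hGs⟩ : h.stabX x)⁻¹ * (⟨e, hes⟩ : h.stabX x)⁻¹ := rfl
      rw [e1, map_mul, map_mul, map_inv, map_inv, hpsie, hpsiG]
      simp
    have hco : orderOf (e * G⁻¹ * e⁻¹) = orderOf g1 := by
      have h3 := orderOf_injective (MulAut.conj e).toMonoidHom (MulAut.conj e).injective G⁻¹
      rw [orderOf_inv, hGo] at h3
      exact h3
    have hc1 : e * G⁻¹ * e⁻¹ ∈ JN k (Subgroup.zpowers u) (h.GG p) :=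
      h.good_mem hp5 hp hu hup hux hr hcG hcs
        (by rw [hpsic]; exact Subgroup.inv_mem _ hg1) (by rw [hco]; exact hg1p)
    refine ⟨G * (e * G⁻¹ * e⁻¹), Subgroup.mul_mem _ hG1 hc1, 0, ?_, fun v => ?_⟩
    · unfold Adm
      rw [hzz, map_zero]
      simp
    · have hGz : G (z : V) = l • (z : V) := by
        rw [hG, h.ext_perp, hg1z]
        rfl
      have hGa0 : G a0 = l • a0 := by rw [ha0, map_smul, hGz, smul_comm]
      have hxna0 : h.B x (-a0) = 0 := by rw [h.neg_right, hxa0, neg_zero]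
      -- the inverse of `e`
      have hinv : ∀ v, e⁻¹ v = h.E x (-a0) 0 v := by
        intro v
        have h3 : e (h.E x (-a0) 0 v) = v := by
          rw [hev, h.E_E hp.xx hxa0 hxna0, h.neg_right, ha0a0]
          unfold E
          rw [add_neg_cancel, h.zero_left]
          simp
        have h4 : e⁻¹ (e (h.E x (-a0) 0 v)) = h.E x (-a0) 0 v := e.symm_apply_apply _
        rw [h3] at h4
        exact h4
      have hGi : ∀ v, G (G⁻¹ v) = v := fun v => G.apply_symm_apply v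
      have hBG : ∀ a v, h.B a (G⁻¹ v) = h.B (G a) v := fun a v => by
        have h3 := hGI a (G⁻¹ v)
        rw [hGi] at h3
        exact h3.symm
      have hconj : ∀ v, G (e (G⁻¹ v)) = h.E x (l • a0) 0 v := by
        intro v
        rw [hev]
        unfold E
        rw [map_add, map_sub, map_add, map_smul, map_smul, map_smul, hGi, hBG, hBG, hGx, hGa0]
      have h5 : (G * (e * G⁻¹ * e⁻¹)) v = G (e (G⁻¹ (e⁻¹ v))) := rfl
      have hxla0 : h.B x (l • a0) = 0 := by rw [h.smul_right, hxa0, mul_zero]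
      rw [h5, hconj, hinv, h.E_E hp.xx hxla0 hxna0, h.neg_right, h.smul_left, ha0a0]
      have h6 : l • a0 + -a0 = (z : V) := by
        have h7 : l • a0 + -a0 = (l - 1) • a0 := by rw [sub_smul, one_smul, sub_eq_add_neg]
        rw [h7, ha0, smul_smul, mul_inv_cancel₀ hl1', one_smul]
      rw [h6]
      simp
  refine h.uu_mem hp3 hp (Or.inr ?_) fun a hxa hya => ?_
  · by_contra hcon
    push Not at hcon
    refine hne (LinearEquiv.ext fun v => ?_)
    have hv : v = 0 := by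
      by_contra hv0
      exact hcon v (fun h' => hv0 (Subtype.ext h')) v.2.1 v.2.2
    rw [hv, map_zero]
    rfl
  · obtain ⟨a1, b1, c1, habc, ha1, hb1, hc1⟩ := (h.restr hp).sum_isotropic hp3 hp1
      (⟨a, hxa, hya⟩ : h.perp2 x y)
    have e1 : a = (a1 : V) + (b1 : V) + (c1 : V) := congrArg Subtype.val habc
    rw [e1]
    exact hadd _ _ (a1 + b1).2.1 c1.2.1 (hadd _ _ a1.2.1 b1.2.1 (hiso a1 ha1) (hiso b1 hb1))
      (hiso c1 hc1)

end
end HF

end Pool.Agent.Helper54.CL
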