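import Pool.Agent.Helper54.CL.PiThree
import Pool.Agent.Helper54.PR.SLQuasi

/-!
# CL-16: `SL_2(F)` acting on a totally isotropic plane and its dual

Two independent homomorphisms, for `v1, v2, w1, w2` with `B v_i v_j = B w_i w_j = 0`, `B v_i w_j = δ_ij` (`Quad`).

PROOF.
* `exists_delta` (any form): `π g v1 = a v1 + c v2`, `π g v2 = b v1 + d v2`, `π g w1 = σ d w1 - σ b w2`, `π g w2 = - σ c w1 + σ a w2`, for `g = !![a, b; c, d]`,
  identity on the complement: check multiplicativity and the values of the form on the basis.  `range ≤ GG`: `sl_gen`; the image of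
  `!![1, b; 0, 1]` is `E v1 (- σ b w2) 0`, that of `!![1, 0; c, 1]` is `E v2 (- σ c w1) 0`; `UU_le_GG` (check `mem_UU`).
* `exists_pi4` (symmetric form): `π g v1 = a v1 - c w2`, `π g w2 = - b v1 + d w2`, `π g v2 = a v2 + c w1`, `π g w1 = b v2 + d w1`; the images of the elementary
  matrices are `E v1 (b v2) 0 ∈ UU v1` and `E w1 (c w2) 0 ∈ UU w1` (or with the opposite sign; check).
* `exists_dual`: `v1, v2` linearly independent, totally isotropic: a partner `w1` of `v1` which is orthogonal to `v2`, and `w2` in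
  `perp2 v1 w1`: take `z` with `B v1 z = 1`, `B v2 z = 0` (exists: otherwise `B v2 z = 0` implies `B v1 z = 0`, and `v1` is a multiple of
  `v2` by `nondeg`), `w1 = z - (ε/2) B(z,z) v1`; then `exists_partner_perp` for `v1, w1` and `v2`.
-/

set_option autoImplicit false

namespace Pool.Agent.Helper54.CL

namespace HF
section
variable {F V : Type} [Field F] [AddCommGroup V] [Module F V] (h : HF F V)

/-- bases of two totally isotropic planes in duality -/
structure Quad (v1 v2 w1 w2 : V) : Prop where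
  p1 : h.Pair v1 w1
  p2 : h.Pair v2 w2
  vv : h.B v1 v2 = 0
  ww : h.B w1 w2 = 0
  vw : h.B v1 w2 = 0
  wv : h.B w1 v2 = 0

theorem exists_dual (h2 : (2 : F) ≠ 0) {v1 v2 : V} (h11 : h.B v1 v1 = 0) (h22 : h.B v2 v2 = 0)
    (h12 : h.B v1 v2 = 0) (hv1 : v1 ≠ 0) (hind : ∀ c : F, v2 ≠ c • v1) :
    ∃ w1 w2, h.Quad v1 v2 w1 w2 := by
  have hv2 : v2 ≠ 0 := by
    have := hind 0
    rwa [zero_smul] at this
  obtain ⟨z, hz2, hz1⟩ : ∃ z, h.B v2 z = 0 ∧ h.B v1 z ≠ 0 := by
    by_contra hcon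
    push Not at hcon
    obtain ⟨z0, hz0⟩ : ∃ z, h.B v2 z ≠ 0 := by
      by_contra hcon2
      push Not at hcon2
      exact hv2 (h.nondeg v2 hcon2)
    set k := h.B v1 z0 * (h.B v2 z0)⁻¹ with hk
    have h1 : ∀ z, h.B (v1 - h.σ k • v2) z = 0 := by
      intro z
      have h3 := hcon (z - (h.B v2 z * (h.B v2 z0)⁻¹) • z0) (by
        rw [h.sub_right, h.smul_right, mul_assoc, inv_mul_cancel₀ hz0, mul_one, sub_self])
      rw [h.sub_right, h.smul_right] at h3
      rw [h.sub_left, h.smul_left, h.invol, hk]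
      linear_combination h3
    have h4 : v1 = h.σ k • v2 := sub_eq_zero.1 (h.nondeg _ h1)
    obtain ⟨l, hl⟩ : ∃ l : F, v1 = l • v2 := ⟨_, h4⟩
    have h5 : l ≠ 0 := by
      intro h0
      rw [h0, zero_smul] at hl
      exact hv1 hl
    apply hind l⁻¹
    rw [hl, smul_smul, inv_mul_cancel₀ h5, one_smul]
  have e1 : h.B v1 ((h.B v1 z)⁻¹ • z) = 1 := by rw [h.smul_right, inv_mul_cancel₀ hz1]
  have hp := h.iso_corr h2 h11 e1
  set w1 := (h.B v1 z)⁻¹ • z -
    (h.ε / 2 * h.B ((h.B v1 z)⁻¹ • z) ((h.B v1 z)⁻¹ • z)) • v1 with hw1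
  have e2 : h.B v2 w1 = 0 := by
    rw [hw1, h.sub_right, h.smul_right, h.smul_right, hz2, h.B_symm_zero h12]; ring
  obtain ⟨w2, hp2, h3, h4⟩ := h.exists_partner_perp h2 hp hv2 h22 h12 (h.B_symm_zero e2)
  exact ⟨w1, w2, hp, hp2, h12, h4, h3, h.B_symm_zero e2⟩

/-- the linear maps of `exists_delta` -/
def dL (v1 v2 w1 w2 : V) (M : Matrix (Fin 2) (Fin 2) F) : V →ₗ[F] V where
  toFun := fun v => v + ((M 0 0 - 1) * (h.ε * h.B w1 v) + M 0 1 * (h.ε * h.B w2 v)) • v1 +
    (M 1 0 * (h.ε * h.B w1 v) + (M 1 1 - 1) * (h.ε * h.B w2 v)) • v2 +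
    ((h.σ (M 1 1) - 1) * h.B v1 v - h.σ (M 1 0) * h.B v2 v) • w1 +
    (-h.σ (M 0 1) * h.B v1 v + (h.σ (M 0 0) - 1) * h.B v2 v) • w2
  map_add' := by
    intro v w
    simp only [h.add_right]
    module
  map_smul' := by
    intro c v
    simp only [h.smul_right, RingHom.id_apply]
    module

theorem dL_apply (v1 v2 w1 w2 : V) (M : Matrix (Fin 2) (Fin 2) F) (v : V) :
    h.dL v1 v2 w1 w2 M v =
    v + ((M 0 0 - 1) * (h.ε * h.B w1 v) + M 0 1 * (h.ε * h.B w2 v)) • v1 +
    (M 1 0 * (h.ε * h.B w1 v) + (M 1 1 - 1) * (h.ε * h.B w2 v)) • v2 +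
    ((h.σ (M 1 1) - 1) * h.B v1 v - h.σ (M 1 0) * h.B v2 v) • w1 +
    (-h.σ (M 0 1) * h.B v1 v + (h.σ (M 0 0) - 1) * h.B v2 v) • w2 := rfl

theorem dL_one (v1 v2 w1 w2 : V) : h.dL v1 v2 w1 w2 1 = 1 := by
  ext v
  rw [dL_apply]
  simp

theorem dL_mul {v1 v2 w1 w2 : V} (hq : h.Quad v1 v2 w1 w2) (M N : Matrix (Fin 2) (Fin 2) F) :
    h.dL v1 v2 w1 w2 (M * N) = h.dL v1 v2 w1 w2 M * h.dL v1 v2 w1 w2 N := by
  have e2 := h.eps
  have q1 := hq.p1.xx
  have q2 := hq.p1.yy
  have q3 := hq.p1.xy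
  have q4 := hq.p1.yx
  have q5 := hq.p2.xx
  have q6 := hq.p2.yy
  have q7 := hq.p2.xy
  have q8 := hq.p2.yx
  have q9 := hq.vv
  have q10 := h.B_symm_zero hq.vv
  have q11 := hq.ww
  have q12 := h.B_symm_zero hq.ww
  have q13 := hq.vw
  have q14 := h.B_symm_zero hq.vw
  have q15 := hq.wv
  have q16 := h.B_symm_zero hq.wv
  ext v
  show _ = h.dL v1 v2 w1 w2 M (h.dL v1 v2 w1 w2 N v)
  have f1 : h.B v1 (h.dL v1 v2 w1 w2 N v) =
      h.σ (N 1 1) * h.B v1 v - h.σ (N 1 0) * h.B v2 v := by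
    simp only [dL_apply, h.add_right, h.smul_right, q1, q3, q9, q13]; ring
  have f2 : h.B v2 (h.dL v1 v2 w1 w2 N v) =
      -h.σ (N 0 1) * h.B v1 v + h.σ (N 0 0) * h.B v2 v := by
    simp only [dL_apply, h.add_right, h.smul_right, q5, q7, q10, q16]; ring
  have f3 : h.ε * h.B w1 (h.dL v1 v2 w1 w2 N v) =
      N 0 0 * (h.ε * h.B w1 v) + N 0 1 * (h.ε * h.B w2 v) := by
    simp only [dL_apply, h.add_right, h.smul_right, q2, q4, q11, q15]
    linear_combination ((N 0 0 - 1) * (h.ε * h.B w1 v) + N 0 1 * (h.ε * h.B w2 v)) * e2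
  have f4 : h.ε * h.B w2 (h.dL v1 v2 w1 w2 N v) =
      N 1 0 * (h.ε * h.B w1 v) + N 1 1 * (h.ε * h.B w2 v) := by
    simp only [dL_apply, h.add_right, h.smul_right, q6, q8, q12, q14]
    linear_combination (N 1 0 * (h.ε * h.B w1 v) + (N 1 1 - 1) * (h.ε * h.B w2 v)) * e2
  rw [dL_apply h v1 v2 w1 w2 M, f1, f2, f3, f4, dL_apply, dL_apply]
  simp only [Matrix.mul_apply, Fin.sum_univ_two, map_add, map_mul]
  module

end

section
variable {p : ℕ} [Fact p.Prime] {F V : Type} [Field F] [CharP F p] [AddCommGroup V] [Module F V]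
  (h : HF F V)

theorem exists_delta (hp3 : 3 ≤ p) {v1 v2 w1 w2 : V} (hq : h.Quad v1 v2 w1 w2) :
    ∃ π : Matrix.SpecialLinearGroup (Fin 2) F →* (V ≃ₗ[F] V), π.range ≤ h.GG p ∧
      (∀ (g : Matrix.SpecialLinearGroup (Fin 2) F) (a b c d : F),
        (g : Matrix (Fin 2) (Fin 2) F) = !![a, b; c, d] →
        π g v1 = a • v1 + c • v2 ∧ π g v2 = b • v1 + d • v2 ∧
        π g w1 = h.σ d • w1 - h.σ b • w2 ∧ π g w2 = - (h.σ c • w1) + h.σ a • w2) ∧
      (∀ (g : Matrix.SpecialLinearGroup (Fin 2) F) (v : V), h.B v1 v = 0 → h.B v2 v = 0 →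
        h.B w1 v = 0 → h.B w2 v = 0 → π g v = v) := by
  have e2 := h.eps
  have q1 := hq.p1.xx
  have q2 := hq.p1.yy
  have q3 := hq.p1.xy
  have q4 := hq.p1.yx
  have q5 := hq.p2.xx
  have q6 := hq.p2.yy
  have q7 := hq.p2.xy
  have q8 := hq.p2.yx
  have q9 := hq.vv
  have q10 := h.B_symm_zero hq.vv
  have q11 := hq.ww
  have q12 := h.B_symm_zero hq.ww
  have q13 := hq.vw
  have q14 := h.B_symm_zero hq.vw
  have q15 := hq.wv
  have q16 := h.B_symm_zero hq.wv
  let ρ : Matrix.SpecialLinearGroup (Fin 2) F →* Module.End F V :=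
    { toFun := fun g => h.dL v1 v2 w1 w2 (g : Matrix (Fin 2) (Fin 2) F)
      map_one' := by
        rw [Matrix.SpecialLinearGroup.coe_one]
        exact h.dL_one v1 v2 w1 w2
      map_mul' := by
        intro g g'
        rw [Matrix.SpecialLinearGroup.coe_mul]
        exact h.dL_mul hq _ _ }
  let π : Matrix.SpecialLinearGroup (Fin 2) F →* (V ≃ₗ[F] V) :=
    (LinearMap.GeneralLinearGroup.generalLinearEquiv F V).toMonoidHom.comp ρ.toHomUnits
  have hπ : ∀ (g : Matrix.SpecialLinearGroup (Fin 2) F) (v : V),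
      π g v = h.dL v1 v2 w1 w2 (g : Matrix (Fin 2) (Fin 2) F) v := fun g v => rfl
  refine ⟨π, ?_, ?_, ?_⟩
  · have key : (h.GG p).comap π = ⊤ := by
      apply Pool.Agent.Helper54.PR.sl_gen
      intro i j hij t
      rw [Subgroup.mem_comap]
      have hc : (Matrix.SpecialLinearGroup.transvection hij t : Matrix (Fin 2) (Fin 2) F) =
          1 + Matrix.single i j t := Matrix.SpecialLinearGroup.transvection_coe hij t
      fin_cases i <;> fin_cases j
      · exact absurd rfl hij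
      · obtain ⟨g', hg', hE⟩ := h.exists_E (x := v1) (a := -h.σ t • w2) (t := 0) q1
          (by rw [h.smul_right, q13, mul_zero])
          (by unfold Adm; rw [h.smul_left, h.smul_right, q6]; simp)
        have : π (Matrix.SpecialLinearGroup.transvection hij t) = g' := by
          ext v
          rw [hπ, dL_apply, hE, hc, E, h.smul_left, map_neg, h.invol]
          simp
          module
        rw [this]
        exact h.UU_le_GG hp3 hq.p1 hg'
      · obtain ⟨g', hg', hE⟩ := h.exists_E (x := v2) (a := -h.σ t • w1) (t := 0) q5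
          (by rw [h.smul_right, q16, mul_zero])
          (by unfold Adm; rw [h.smul_left, h.smul_right, q2]; simp)
        have : π (Matrix.SpecialLinearGroup.transvection hij t) = g' := by
          ext v
          rw [hπ, dL_apply, hE, hc, E, h.smul_left, map_neg, h.invol]
          simp
          module
        rw [this]
        exact h.UU_le_GG hp3 hq.p2 hg'
      · exact absurd rfl hij
    rintro _ ⟨g, rfl⟩
    have : g ∈ (h.GG p).comap π := by rw [key]; exact Subgroup.mem_top g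
    exact this
  · intro g a b c d hg
    refine ⟨?_, ?_, ?_, ?_⟩
    · rw [hπ, dL_apply, hg]
      simp only [q1, q4, q10, q14, Matrix.cons_val', Matrix.cons_val_zero, Matrix.cons_val_one,
        Matrix.of_apply, Matrix.cons_val_fin_one, e2]
      module
    · rw [hπ, dL_apply, hg]
      simp only [q9, q5, q15, q8, Matrix.cons_val', Matrix.cons_val_zero, Matrix.cons_val_one,
        Matrix.of_apply, Matrix.cons_val_fin_one, e2]
      module
    · rw [hπ, dL_apply, hg]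
      simp only [q2, q3, q16, q12, Matrix.cons_val', Matrix.cons_val_zero, Matrix.cons_val_one,
        Matrix.of_apply, Matrix.cons_val_fin_one, e2]
      module
    · rw [hπ, dL_apply, hg]
      simp only [q11, q13, q6, q7, Matrix.cons_val', Matrix.cons_val_zero, Matrix.cons_val_one,
        Matrix.of_apply, Matrix.cons_val_fin_one, e2]
      module
  · intro g v g1 g2 g3 g4
    rw [hπ, dL_apply, g1, g2, g3, g4]
    simp

theorem exists_pi4 (hp3 : 3 ≤ p) (hO : h.IsO) {v1 v2 w1 w2 : V} (hq : h.Quad v1 v2 w1 w2) :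
    ∃ π : Matrix.SpecialLinearGroup (Fin 2) F →* (V ≃ₗ[F] V), π.range ≤ h.GG p ∧
      (∀ (g : Matrix.SpecialLinearGroup (Fin 2) F) (a b c d : F),
        (g : Matrix (Fin 2) (Fin 2) F) = !![a, b; c, d] →
        π g v1 = a • v1 - c • w2 ∧ π g w2 = - (b • v1) + d • w2 ∧
        π g v2 = a • v2 + c • w1 ∧ π g w1 = b • v2 + d • w1) ∧
      (∀ (g : Matrix.SpecialLinearGroup (Fin 2) F) (v : V), h.B v1 v = 0 → h.B v2 v = 0 →
        h.B w1 v = 0 → h.B w2 v = 0 → π g v = v) := by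
  have hwv : h.B w2 v2 = 1 := by rw [hq.p2.yx, hO.2]
  have hq' : h.Quad v1 (-w2) w1 (-v2) := by
    refine ⟨hq.p1, ⟨?_, ?_, ?_⟩, ?_, ?_, ?_, ?_⟩
    · rw [h.neg_left, h.neg_right, hq.p2.yy]; simp
    · rw [h.neg_left, h.neg_right, hq.p2.xx]; simp
    · rw [h.neg_left, h.neg_right, hwv]; simp
    · rw [h.neg_right, hq.vw, neg_zero]
    · rw [h.neg_right, hq.wv, neg_zero]
    · rw [h.neg_right, hq.vv, neg_zero]
    · rw [h.neg_right, hq.ww, neg_zero]
  obtain ⟨π, h1, h2, h3⟩ := h.exists_delta hp3 hq'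
  refine ⟨π, h1, ?_, ?_⟩
  · intro g a b c d hg
    obtain ⟨k1, k2, k3, k4⟩ := h2 g a b c d hg
    simp only [hO.1] at k3 k4
    refine ⟨?_, ?_, ?_, ?_⟩
    · rw [k1]; module
    · rw [map_neg] at k2
      rw [← neg_neg (π g w2), k2]; module
    · rw [map_neg] at k4
      rw [← neg_neg (π g v2), k4]; module
    · rw [k3]; module
  · intro g v g1 g2 g3 g4
    refine h3 g v g1 ?_ g3 ?_
    · rw [h.neg_left, g4, neg_zero]
    · rw [h.neg_left, g2, neg_zero]

end
end HF

end Pool.Agent.Helper54.CL
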