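import Pool.Agent.Helper54.CL.Good
import Pool.Agent.Helper54.CL.PiFour

/-!
# CL-17: long root elements of orthogonal groups

Symmetric form, `finrank ≥ 5`, `u = E x a 0` with `x, a` linearly independent, spanning a totally isotropic plane.

PROOF.  Let `Quad x a w1 w2` (`exists_dual`), `π` from `exists_pi4` (`v1 = x`, `v2 = a`), `R = π.range`; `π !![1,1;0,1]` maps `w1` to `a + w1`, `w2` to
`- x + w2`, and fixes `x, a`: it is `u`.  `RN k (zpowers u) R` by `rn_sl2`.  `M = MN k (zpowers u) GG`.  All elements of `UU x` commute with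
`u ∈ UU x` (`UU_comm`), so `UU x ≤ M`.  `E x a 0 = E a (-x) 0`, so `u ∈ UU a` and `UU a ≤ M`.  `g = π !![0,1;-1,0] ∈ R ≤ M` maps `a` to
`- w1`, so `UU w1 ≤ M` (`UU_le_conj`), and `B x w1 = 1`: `GG ≤ M` by `GG_le_two`.
`rn_crit`, `ncl_top`: let `K ≤ GG` contain `u`, normalized by `GG`.  `R ≤ K` (`rn_le_normal`).  `τ = π (diag 2 2⁻¹) ∈ K`: `x ↦ 2 x`, `a ↦ 2 a`,
`w1 ↦ w1/2`, `w2 ↦ w2/2`.  Claim `UU x ≤ K`: for `g = E x b t ∈ UU x`, `τ g τ⁻¹ g⁻¹ = E x (2 τ b - b) t'` is in `K`; for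
`b ⊥ x, a, w1, w2`: `E x b t' ∈ K`; for `b = a`: `E x (3 a) 0 ∈ K`, so `E x (c a) 0 ∈ K` for all `c`; for `b = w2` we get nothing.
(`t` is determined by `b`: `2 t = - B b b`; and `E x (b + c x) = E x b`.)  Let `e ⊥ x, a, w1, w2`, `B e e ≠ 0` (`finrank ≥ 5`: the complement is
nondegenerate and not zero, a symmetric form has a nonisotropic vector).  `g = E w2 e t ∈ GG`, `g (E x (c e) t') g⁻¹ = E x (g (c e)) t'`, and
`g e = e - B(e,e) w2`; so `E x (c e - c B(e,e) w2) t' ∈ K`, and the quotient by `E x (c e) t'` is `E x (- c B(e,e) w2) 0 ∈ K`.  By `E_E` all of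
`UU x ≤ K`.  Finally `GG` contains `g` with `B x (g x) ≠ 0` (`exists_weyl`), `UU (g x) ≤ K`, `GG_le_two`.
-/

set_option autoImplicit false
open scoped Pointwise
open Pool.Agent.Helper54.PW Pool.Agent.Helper54.RT

namespace Pool.Agent.Helper54.CL

namespace HF

section
variable {F V : Type} [Field F] [AddCommGroup V] [Module F V] (h : HF F V)

private theorem lr_symm (hO : h.IsO) (x y : V) : h.B y x = h.B x y := by
  rw [h.herm x y, hO.1, hO.2, one_mul]

/-- some `E x b t` is in `K` -/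
private def lrT (K : Subgroup (V ≃ₗ[F] V)) (x b : V) : Prop :=
  ∃ g ∈ K, ∃ t, h.Adm b t ∧ ∀ v, g v = h.E x b t v

private theorem lr_add {K : Subgroup (V ≃ₗ[F] V)} {x b b' : V} (hx : h.B x x = 0)
    (hb : h.B x b = 0) (hb' : h.B x b' = 0) (h1 : lrT h K x b) (h2 : lrT h K x b') :
    lrT h K x (b + b') := by
  obtain ⟨g, hg, t, ht, hgv⟩ := h1
  obtain ⟨g', hg', t', ht', hgv'⟩ := h2
  refine ⟨g * g', K.mul_mem hg hg', _, h.adm_add ht ht', ?_⟩
  intro v
  show g (g' v) = _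
  rw [hgv, hgv', h.E_E hx hb hb']

private theorem lr_inv {x b : V} (hx : h.B x x = 0) (hb : h.B x b = 0) {g : V ≃ₗ[F] V} {t : F}
    (ht : h.Adm b t) (hgv : ∀ v, g v = h.E x b t v) :
    h.Adm (-b) (-t - h.ε * h.B b b) ∧
      ∀ v, g⁻¹ v = h.E x (-b) (-t - h.ε * h.B b b) v := by
  have hnb : h.B x (-b) = 0 := by rw [h.neg_right, hb, neg_zero]
  have e1 : h.B b b = h.ε * h.σ (h.B b b) := h.herm b b
  have e2 := h.eps
  constructor
  · unfold Adm at *
    simp only [h.neg_left, h.neg_right, map_sub, map_neg, map_mul, h.sig_eps]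
    linear_combination -ht - h.B b b * e2 + e1
  · intro v
    apply g.injective
    have e3 : g (g⁻¹ v) = v := g.apply_symm_apply v
    rw [e3, hgv, h.E_E hx hb hnb]
    have e4 : b + -b = 0 := by abel
    have e5 : t + (-t - h.ε * h.B b b) - h.ε * h.B b (-b) = 0 := by rw [h.neg_right]; ring
    rw [e4, e5, h.E_zero]

private theorem lr_neg {K : Subgroup (V ≃ₗ[F] V)} {x b : V} (hx : h.B x x = 0)
    (hb : h.B x b = 0) (h1 : lrT h K x b) : lrT h K x (-b) := by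
  obtain ⟨g, hg, t, ht, hgv⟩ := h1
  obtain ⟨h2, h3⟩ := lr_inv h hx hb ht hgv
  exact ⟨g⁻¹, K.inv_mem hg, _, h2, h3⟩

private theorem lr_conj (hO : h.IsO) {x b : V} {g0 : V ≃ₗ[F] V} (hg0 : g0 ∈ h.Iso) {l : F}
    (hl : g0 x = l • x) {g : V ≃ₗ[F] V} {t : F} (ht : h.Adm b t)
    (hgv : ∀ v, g v = h.E x b t v) :
    h.Adm (l • g0 b) (l ^ 2 * t) ∧
      ∀ v, (g0 * g * g0⁻¹) v = h.E x (l • g0 b) (l ^ 2 * t) v := by
  constructor
  · unfold Adm at *
    rw [h.smul_left, h.smul_right, hg0 b b]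
    rw [hO.1, hO.2] at *
    rw [hO.1]
    linear_combination l ^ 2 * ht
  · intro v
    obtain ⟨w, rfl⟩ : ∃ w, v = g0 w := ⟨g0⁻¹ v, (g0.apply_symm_apply v).symm⟩
    have e1 : g0⁻¹ (g0 w) = w := g0.symm_apply_apply w
    have e2 : h.B x w = l * h.B x (g0 w) := by
      rw [← hg0 x w, hl, h.smul_left, hO.1]
    have e3 : h.B (l • g0 b) (g0 w) = l * h.B b w := by
      rw [h.smul_left, hO.1, hg0 b w]
    show g0 (g (g0⁻¹ (g0 w))) = _
    rw [e1, hgv]
    unfold E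
    rw [map_add, map_sub, map_add, map_smul, map_smul, map_smul, hl, e3, e2, hO.2]
    module

end

section
variable {p : ℕ} [Fact p.Prime] {k : Type} [Field k] [IsAlgClosed k] [CharP k p]
  {F V : Type} [Field F] [Finite F] [CharP F p] [AddCommGroup V] [Module F V] [Finite V]
  (h : HF F V)

private theorem lr_case (hp5 : 5 ≤ p) (hO : h.IsO) (h5 : 5 ≤ Module.finrank F V) {x a w1 w2 : V}
    (hq : h.Quad x a w1 w2) (π : Matrix.SpecialLinearGroup (Fin 2) F →* (V ≃ₗ[F] V))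
    (hπ : ∀ (g : Matrix.SpecialLinearGroup (Fin 2) F) (a' b' c' d' : F),
        (g : Matrix (Fin 2) (Fin 2) F) = !![a', b'; c', d'] →
        π g x = a' • x - c' • w2 ∧ π g w2 = - (b' • x) + d' • w2 ∧
        π g a = a' • a + c' • w1 ∧ π g w1 = b' • a + d' • w1)
    (hπ' : ∀ (g : Matrix.SpecialLinearGroup (Fin 2) F) (v : V), h.B x v = 0 → h.B a v = 0 →
        h.B w1 v = 0 → h.B w2 v = 0 → π g v = v)
    (hπG : π.range ≤ h.GG p)
    {K : Subgroup (V ≃ₗ[F] V)} (hRK : π.range ≤ K)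
    (hK : ∀ g ∈ h.GG p, ∀ w ∈ K, g * w * g⁻¹ ∈ K) : h.GG p ≤ K := by
  have hp3 : 3 ≤ p := by omega
  have h2 : (2 : F) ≠ 0 := two_ne (p := p) hp3
  have h3 : (3 : F) ≠ 0 := by
    intro h3
    have h4 : ((3 : ℕ) : F) = 0 := by exact_mod_cast h3
    rw [CharP.cast_eq_zero_iff F p] at h4
    have := Nat.le_of_dvd (by norm_num) h4
    omega
  have hsy := lr_symm h hO
  have hx : h.B x x = 0 := hq.p1.xx
  have hxa : h.B x a = 0 := hq.vv
  have hxw1 : h.B x w1 = 1 := hq.p1.xy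
  have hxw2 : h.B x w2 = 0 := hq.vw
  have haw2 : h.B a w2 = 1 := hq.p2.xy
  have haw1 : h.B a w1 = 0 := by rw [hsy]; exact hq.wv
  have hw1w2 : h.B w1 w2 = 0 := hq.ww
  have hw1w1 : h.B w1 w1 = 0 := hq.p1.yy
  have hw2w2 : h.B w2 w2 = 0 := hq.p2.yy
  have haa : h.B a a = 0 := hq.p2.xx
  -- the torus
  obtain ⟨s, hs⟩ : ∃ s : Matrix.SpecialLinearGroup (Fin 2) F,
      (s : Matrix (Fin 2) (Fin 2) F) = !![2, 0; 0, 2⁻¹] :=
    ⟨⟨!![2, 0; 0, 2⁻¹], by rw [Matrix.det_fin_two_of]; field_simp; ring⟩, rfl⟩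
  obtain ⟨τ, hτ⟩ : ∃ τ, τ = π s := ⟨_, rfl⟩
  have hτK : τ ∈ K := hRK ⟨s, hτ.symm⟩
  have hτG : τ ∈ h.GG p := hπG ⟨s, hτ.symm⟩
  have hτI : τ ∈ h.Iso := h.GG_le p hτG
  obtain ⟨t1, t2, t3, t4⟩ := hπ s 2 0 0 2⁻¹ hs
  rw [← hτ] at t1 t2 t3 t4
  have hτx : τ x = (2 : F) • x := by rw [t1]; module
  have hτa : τ a = (2 : F) • a := by rw [t3]; module
  have hτv : ∀ v, h.B x v = 0 → h.B a v = 0 → h.B w1 v = 0 → h.B w2 v = 0 → τ v = v := by
    intro v v1 v2 v3 v4
    rw [hτ]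
    exact hπ' s v v1 v2 v3 v4
  -- (i)
  have key : ∀ b, h.B x b = 0 → lrT h K x ((2 : F) • τ b + -b) := by
    intro b hb
    obtain ⟨t, ht⟩ := h.adm_exists h2 b
    obtain ⟨g, hg, hgv⟩ := h.exists_E hx hb ht
    have hgG : g ∈ h.GG p := h.UU_le_GG hp3 hq.p1 hg
    obtain ⟨c1, c2⟩ := lr_conj h hO hτI hτx ht hgv
    obtain ⟨c3, c4⟩ := lr_inv h hx hb ht hgv
    have hb1 : h.B x ((2 : F) • τ b) = 0 := by
      have e1 : h.B (τ x) (τ b) = 0 := by rw [hτI x b]; exact hb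
      rw [hτx, h.smul_left, hO.1] at e1
      rw [h.smul_right]
      exact e1
    have hb2 : h.B x (-b) = 0 := by rw [h.neg_right, hb, neg_zero]
    refine ⟨τ * (g * τ⁻¹ * g⁻¹), K.mul_mem hτK (hK g hgG _ (K.inv_mem hτK)), _,
      h.adm_add c1 c3, ?_⟩
    intro v
    have e1 : τ * (g * τ⁻¹ * g⁻¹) = (τ * g * τ⁻¹) * g⁻¹ := by group
    rw [e1]
    show (τ * g * τ⁻¹) (g⁻¹ v) = _
    rw [c2, c4, h.E_E hx hb1 hb2]
  have k1 : ∀ b, h.B x b = 0 → h.B a b = 0 → h.B w1 b = 0 → h.B w2 b = 0 → lrT h K x b := by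
    intro b b1 b2 b3 b4
    have e := key b b1
    rw [hτv b b1 b2 b3 b4] at e
    have e1 : (2 : F) • b + -b = b := by module
    rwa [e1] at e
  have k2 : ∀ c : F, lrT h K x (c • a) := by
    intro c
    have e := key ((c / 3) • a) (by rw [h.smul_right, hxa, mul_zero])
    rw [map_smul, hτa] at e
    have e1 : (2 : F) • (c / 3) • (2 : F) • a + -((c / 3) • a) = c • a := by
      have e2 : (2 : F) • (c / 3) • (2 : F) • a + -((c / 3) • a) = (c / 3 * 3) • a := by module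
      rw [e2, div_mul_cancel₀ _ h3]
    rwa [e1] at e
  -- the vector e
  obtain ⟨e, he1, he2, he3, he4, hee⟩ : ∃ e, h.B x e = 0 ∧ h.B a e = 0 ∧ h.B w1 e = 0 ∧
      h.B w2 e = 0 ∧ h.B e e ≠ 0 := by
    have hfr := h.finrank_perp2 hq.p1
    have hpp : (h.restr hq.p1).Pair (⟨a, hxa, hq.wv⟩ : h.perp2 x w1)
        (⟨w2, hxw2, hw1w2⟩ : h.perp2 x w1) := ⟨haa, hw2w2, haw2⟩
    obtain ⟨e, e1, e2, e3⟩ := (h.restr hq.p1).exists_nonsing h2 ((h.restr_isO hq.p1).2 hO)
      (by omega) hpp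
    exact ⟨e, e.2.1, e1, e.2.2, e2, e3⟩
  have k3 : ∀ c : F, lrT h K x (c • w2) := by
    intro c
    have hp' : h.Pair w2 a := ⟨hw2w2, haa, by rw [hsy]; exact haw2⟩
    obtain ⟨t0, ht0⟩ := h.adm_exists h2 e
    obtain ⟨g0, hg0, hg0v⟩ := h.exists_E hw2w2 he4 ht0
    have hg0G : g0 ∈ h.GG p := h.UU_le_GG hp3 hp' hg0
    have hg0I : g0 ∈ h.Iso := hg0.1
    have hw2x : h.B w2 x = 0 := by rw [hsy]; exact hxw2
    have hex : h.B e x = 0 := by rw [hsy]; exact he1
    have f1 : g0 x = (1 : F) • x := by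
      rw [hg0v]
      unfold E
      rw [hw2x, hex]
      module
    have f2 : g0 e = e - h.B e e • w2 := by
      rw [hg0v]
      unfold E
      rw [he4, hO.2]
      module
    -- c' e
    have f3 : ∀ c' : F, lrT h K x (c' • e) := by
      intro c'
      apply k1
      · rw [h.smul_right, he1, mul_zero]
      · rw [h.smul_right, he2, mul_zero]
      · rw [h.smul_right, he3, mul_zero]
      · rw [h.smul_right, he4, mul_zero]
    have f4 : ∀ c' : F, lrT h K x ((1 : F) • g0 (c' • e)) := by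
      intro c'
      obtain ⟨g, hg, t, ht, hgv⟩ := f3 c'
      obtain ⟨c1, c2⟩ := lr_conj h hO hg0I f1 ht hgv
      exact ⟨g0 * g * g0⁻¹, hK g0 hg0G g hg, _, c1, c2⟩
    have f5 := f4 (-(c / h.B e e))
    have f6 := f3 (c / h.B e e)
    rw [map_smul, f2, one_smul] at f5
    have f7 := lr_add h hx (by
      rw [h.smul_right, h.sub_right, h.smul_right, he1, hxw2]; ring) (by
      rw [h.smul_right, he1, mul_zero]) f5 f6
    have f8 : -(c / h.B e e) • (e - h.B e e • w2) + (c / h.B e e) • e = c • w2 := by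
      have f9 : -(c / h.B e e) • (e - h.B e e • w2) + (c / h.B e e) • e =
          (c / h.B e e * h.B e e) • w2 := by module
      rw [f9, div_mul_cancel₀ _ hee]
    rwa [f8] at f7
  have hUx : h.UU x ≤ K := by
    refine h.uu_mem hp3 hq.p1 (Or.inl hO) ?_
    intro b hb1 hb2
    have hb' : b = (b - h.B w2 b • a - h.B a b • w2) + (h.B w2 b • a + h.B a b • w2) := by
      module
    have hw2a : h.B w2 a = 1 := by rw [hsy]; exact haw2
    have m1 : lrT h K x (b - h.B w2 b • a - h.B a b • w2) := by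
      apply k1
      · rw [h.sub_right, h.sub_right, h.smul_right, h.smul_right, hb1, hxa, hxw2]; ring
      · rw [h.sub_right, h.sub_right, h.smul_right, h.smul_right, haa, haw2]; ring
      · rw [h.sub_right, h.sub_right, h.smul_right, h.smul_right, hb2, hq.wv, hw1w2]; ring
      · rw [h.sub_right, h.sub_right, h.smul_right, h.smul_right, hw2a, hw2w2]; ring
    have m2 := lr_add h hx (by rw [h.smul_right, hxa, mul_zero])
      (by rw [h.smul_right, hxw2, mul_zero]) (k2 (h.B w2 b)) (k3 (h.B a b))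
    have m3 := lr_add h hx
      (by rw [h.sub_right, h.sub_right, h.smul_right, h.smul_right, hb1, hxa, hxw2]; ring)
      (by rw [h.add_right, h.smul_right, h.smul_right, hxa, hxw2]; ring) m1 m2
    rw [← hb'] at m3
    exact m3
  -- the end
  obtain ⟨g, hg, ⟨c, hc, hgx⟩, -⟩ := h.exists_weyl hp5 (fun _ => by omega) hq.p1
  have hgI : g ∈ h.Iso := h.GG_le p hg
  refine h.GG_le_two hp3 hx (y := g x) (by rw [hgI x x]; exact hx)
    (by rw [hgx, h.smul_right, hxw1, mul_one]; exact hc) hUx ?_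
  intro w hw
  have n1 := h.UU_conj (h.Iso.inv_mem hgI) (g x) hw
  have n2 : g⁻¹ (g x) = x := g.symm_apply_apply x
  rw [n2] at n1
  have n3 := hK g hg _ (hUx n1)
  have n4 : g * (g⁻¹ * w * g⁻¹⁻¹) * g⁻¹ = w := by group
  rwa [n4] at n3

theorem case_long (hp5 : 5 ≤ p) (hO : h.IsO) (h5 : 5 ≤ Module.finrank F V) {x a : V}
    (hx : x ≠ 0) (hxx : h.B x x = 0) (hxa : h.B x a = 0) (haa : h.B a a = 0)
    (hind : ∀ c : F, a ≠ c • x) {u : V ≃ₗ[F] V} (hu : ∀ v, u v = h.E x a 0 v) :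
    RN k (Subgroup.zpowers u) (h.GG p) := by
  have hp3 : 3 ≤ p := by omega
  have h2 : (2 : F) ≠ 0 := two_ne (p := p) hp3
  have hsy := lr_symm h hO
  obtain ⟨w1, w2, hq⟩ := h.exists_dual h2 hxx haa hxa hx hind
  obtain ⟨π, hπG, hπ, hπ'⟩ := h.exists_pi4 (p := p) hp3 hO hq
  have hadm : h.Adm a 0 := by
    unfold Adm
    rw [map_zero, haa]
    ring
  have hadm' : h.Adm (-x) 0 := by
    unfold Adm
    rw [map_zero, h.neg_left, h.neg_right, hxx]
    ring
  have hax : h.B a x = 0 := by rw [hsy]; exact hxa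
  have huU : u ∈ h.UU x := by
    obtain ⟨g, hg, hgv⟩ := h.exists_E hxx hxa hadm
    have e : u = g := LinearEquiv.ext fun v => by rw [hu, hgv]
    rwa [e]
  have huU' : u ∈ h.UU a := by
    obtain ⟨g, hg, hgv⟩ := h.exists_E haa (by rw [h.neg_right, hax, neg_zero]) hadm'
    have e : u = g := LinearEquiv.ext fun v => by
      rw [hu, hgv]
      unfold E
      rw [h.neg_left, hO.2]
      module
    rwa [e]
  have hup : u ^ p = 1 := h.UU_pow hp3 hq.p1 huU
  have huG : u ∈ h.GG p := h.UU_le_GG hp3 hq.p1 huU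
  -- u = π s
  obtain ⟨s, hs⟩ : ∃ s : Matrix.SpecialLinearGroup (Fin 2) F,
      (s : Matrix (Fin 2) (Fin 2) F) = !![1, 1; 0, 1] :=
    ⟨⟨!![1, 1; 0, 1], by rw [Matrix.det_fin_two_of]; ring⟩, rfl⟩
  obtain ⟨s', hs'⟩ : ∃ s : Matrix.SpecialLinearGroup (Fin 2) F,
      (s : Matrix (Fin 2) (Fin 2) F) = !![0, 1; -1, 0] :=
    ⟨⟨!![0, 1; -1, 0], by rw [Matrix.det_fin_two_of]; ring⟩, rfl⟩
  have hus : π s = u := by
    obtain ⟨t1, t2, t3, t4⟩ := hπ s 1 1 0 1 hs
    refine LinearEquiv.ext fun v => ?_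
    have hxw1 : h.B x w1 = 1 := hq.p1.xy
    have hw1x : h.B w1 x = 1 := by rw [hsy]; exact hq.p1.xy
    have hxw2 : h.B x w2 = 0 := hq.vw
    have hw2x : h.B w2 x = 0 := by rw [hsy]; exact hq.vw
    have haw2 : h.B a w2 = 1 := hq.p2.xy
    have hw2a : h.B w2 a = 1 := by rw [hsy]; exact hq.p2.xy
    have hw1a : h.B w1 a = 0 := hq.wv
    have haw1 : h.B a w1 = 0 := by rw [hsy]; exact hq.wv
    have hw1w2 : h.B w1 w2 = 0 := hq.ww
    have hw2w1 : h.B w2 w1 = 0 := by rw [hsy]; exact hq.ww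
    have hw1w1 : h.B w1 w1 = 0 := hq.p1.yy
    have hw2w2 : h.B w2 w2 = 0 := hq.p2.yy
    have hv : v = (v - h.B w1 v • x - h.B x v • w1 - h.B w2 v • a - h.B a v • w2) +
        (h.B w1 v • x + h.B x v • w1 + h.B w2 v • a + h.B a v • w2) := by module
    have h6 := hπ' s (v - h.B w1 v • x - h.B x v • w1 - h.B w2 v • a - h.B a v • w2)
      (by simp only [h.sub_right, h.smul_right, hxx, hxw1, hxa, hxw2]; ring)
      (by simp only [h.sub_right, h.smul_right, hax, haw1, haa, haw2]; ring)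
      (by simp only [h.sub_right, h.smul_right, hw1x, hw1w1, hw1a, hw1w2]; ring)
      (by simp only [h.sub_right, h.smul_right, hw2x, hw2w1, hw2a, hw2w2]; ring)
    rw [hu]
    unfold E
    rw [hO.2]
    have h7 : π s v = (v - h.B w1 v • x - h.B x v • w1 - h.B w2 v • a - h.B a v • w2) +
        (h.B w1 v • π s x + h.B x v • π s w1 + h.B w2 v • π s a + h.B a v • π s w2) := by
      conv_lhs => rw [hv]
      rw [map_add, h6, map_add, map_add, map_add, map_smul, map_smul, map_smul, map_smul]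
    rw [h7, t1, t2, t3, t4]
    module
  have hu1 : u ≠ 1 := by
    intro e
    have e1 : u w1 = w1 := by rw [e]; rfl
    rw [hu] at e1
    unfold E at e1
    have haw1 : h.B a w1 = 0 := by rw [hsy]; exact hq.wv
    rw [hq.p1.xy, haw1] at e1
    have e2 : a = (0 : F) • x := by
      have e3 : w1 + (1 : F) • a - (h.ε * 0) • x + ((0 : F) * 1) • x = w1 + a := by module
      rw [e3] at e1
      have e4 : a = 0 := by
        have e5 : w1 + a = w1 + 0 := by rw [e1, add_zero]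
        exact add_left_cancel e5
      rw [e4, zero_smul]
    exact hind 0 e2
  have hR : RN k (Subgroup.zpowers u) π.range := by
    rw [← hus]
    exact rn_sl2 hp5 π s (by rw [hus]; exact hup) (by rw [hus]; exact hu1)
  have hPp : IsPGroup p (Subgroup.zpowers u) := by
    intro g
    obtain ⟨g, n, rfl⟩ := g
    refine ⟨1, ?_⟩
    ext1
    show (u ^ n) ^ (p ^ 1) = 1
    rw [pow_one, ← zpow_natCast, ← zpow_mul, mul_comm, zpow_mul, zpow_natCast, hup, one_zpow]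
  have hPX : Subgroup.zpowers u ≤ h.GG p := by
    rw [Subgroup.zpowers_le]
    exact huG
  refine rn_crit hPp hPX ?_ ?_
  · -- GG ≤ MN
    have hxM : h.UU x ≤ MN k (Subgroup.zpowers u) (h.GG p) := by
      intro g hg
      exact mem_mn_of_commute (h.UU_le_GG hp3 hq.p1 hg) (h.UU_comm hO hq.p1 hg huU)
    have haM : h.UU a ≤ MN k (Subgroup.zpowers u) (h.GG p) := by
      intro g hg
      exact mem_mn_of_commute (h.UU_le_GG hp3 hq.p2 hg) (h.UU_comm hO hq.p2 hg huU')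
    have hgM : π s' ∈ MN k (Subgroup.zpowers u) (h.GG p) :=
      jn_le_mn (le_jn hR hπG ⟨s', rfl⟩)
    have hgI : π s' ∈ h.Iso := h.GG_le p (hπG ⟨s', rfl⟩)
    obtain ⟨-, -, t3, -⟩ := hπ s' 0 1 (-1) 0 hs'
    have hga : π s' a = -w1 := by rw [t3]; module
    have hM := h.UU_le_conj hgM hgI haM
    rw [hga] at hM
    refine h.GG_le_two hp3 hxx (y := -w1) ?_ ?_ hxM hM
    · rw [h.neg_left, h.neg_right, hq.p1.yy]; ring
    · rw [h.neg_right, hq.p1.xy]
      exact neg_ne_zero.2 one_ne_zero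
  · refine ncl_top huG ?_
    intro K hKG huK hK
    have hRK : π.range ≤ K := by
      refine rn_le_normal hR (by rw [Subgroup.zpowers_le]; exact huK) ?_
      intro g hg w hw
      exact hK g (hπG hg) w hw
    exact lr_case h hp5 hO h5 hq π hπ hπ' hπG hRK hK

end
end HF

end Pool.Agent.Helper54.CL
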