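import Pool.Agent.Helper54.CL.NilA

/-!
# CL-22: unipotent isometries with `N^3 = 0` of a symmetric form in dimension 6

PROOF.  See NilA.lean for the notation.  The form is symmetric.
(1) `N² ≠ 0`.  Suppose `N² = 0`.  `b(v, w) = B v (N w)` is an alternating form on `V` (`B v (N v) = B (N* v) v = - B (u⁻¹ N v) v = - B (N v) v`) with
radical `ker N`, so it induces a nondegenerate alternating form on `V / ker N`, of dimension `r = rank N ≤ 3` (`im N ≤ ker N`).
So `r` is even and `r = 2` (`N ≠ 0` since `u ≠ 1`; for `r = 3` or `1` there is no such form; direct argument: choose `w1, w2` with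
`b(w1, w2) ≠ 0`; if the complement of `w1, w2` for `b` is larger than `ker N`, then `r ≥ 4`).  Let `x = N w1`, isotropic and
fixed.  For `v ⊥ x`, `b(v, w1) = 0`, `v = α w1 + β w2 + z`, `z ∈ ker N`, so `β b(w2, w1) = 0`, `β = 0`, `N v = α x`: `u ∈ UU x`, contradiction
to `hI`.
(2) `c(v, w) = B v (N² w)` is symmetric (`(N*)² = u^(-2) N² = N²`) and not zero, so there is `w` with `c(w, w) ≠ 0`.  `x = N² w`; `w, N w, x`
are linearly independent and span a nondegenerate `u`-invariant subspace `V3` (Gram matrix: `B w x ≠ 0`, `B (N w) (N w) = - B w x`,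
`B (N w) x = 0 = B x x`).  Let `V' = V3^⊥`, `u`-invariant of dimension 3, `V = V3 ⊕ V'`.  `N` is not zero on `V'`: otherwise
`N v ∈ ⟨x⟩` for `v ⊥ x` (`v ∈ ⟨N w, x⟩ + V'`) and `u ∈ UU x`.  `N²` is not zero on `V'`: otherwise, as in (1), `b` is an alternating form on `V'`,
its rank is the rank of `N` on `V'`, which is `1` (`N² = 0`, dimension 3), but it is even.  So there is `w' ∈ V'` with `c(w', w') ≠ 0`,
`x' = N² w' ∈ V'`.
(3) `Adq x`: the last condition with `v = w'` (`w' ⊥ x`, `N² w' = x'` is not a multiple of `x`), `Adq x'`: `v = w`.  They are independent.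
-/

set_option autoImplicit false

namespace Pool.Agent.Helper54.CL

namespace HF
section
variable {p : ℕ} [Fact p.Prime] {F V : Type} [Field F] [CharP F p] [AddCommGroup V] [Module F V]
  [FiniteDimensional F V] (h : HF F V)

omit [FiniteDimensional F V] in
/-- the relations between the form and `N = u - 1` -/
theorem nn_adj {u : V ≃ₗ[F] V} (hu : u ∈ h.Iso) (v w : V) :
    h.B (nn u v) w + h.B v (nn u w) + h.B (nn u v) (nn u w) = 0 := by
  have h1 := hu v w
  simp only [nn_apply, h.sub_left, h.sub_right]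
  linear_combination h1

/-- two vectors with `b (w1, w2) = B w1 (N w2) ≠ 0` -/
theorem nil_sq_zero (h2 : (2 : F) ≠ 0) (hO : h.IsO) (h6 : Module.finrank F V = 6) {u : V ≃ₗ[F] V}
    (hu : u ∈ h.Iso) (hu1 : u ≠ 1) (hN : ∀ v, nn u (nn u v) = 0) :
    ∃ x, x ≠ 0 ∧ h.B x x = 0 ∧ u x = x ∧ u ∈ h.UU x := by
  have sym : ∀ x y, h.B x y = h.B y x := by
    intro x y
    rw [h.herm y x, hO.1, hO.2, one_mul]
  have hsc : ∀ (c : F) (x y : V), h.B (c • x) y = c * h.B x y := by
    intro c x y
    rw [h.smul_left, hO.1]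
  have uN : ∀ v, u v = v + nn u v := fun v => by rw [nn_apply]; abel
  have n11 : ∀ v w, h.B (nn u v) (nn u w) = 0 := by
    intro v w
    have h1 := h.nn_adj hu v (nn u w)
    rw [hN, h.zero_right, h.zero_right] at h1
    linear_combination h1
  have alt : ∀ v w, h.B v (nn u w) = - h.B w (nn u v) := by
    intro v w
    have h1 := h.nn_adj hu v w
    rw [n11, sym (nn u v) w] at h1
    linear_combination h1
  have alt0 : ∀ v, h.B v (nn u v) = 0 := by
    intro v
    have h1 := alt v v
    have h4 : (2 : F) * h.B v (nn u v) = 0 := by linear_combination h1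
    exact (mul_eq_zero.1 h4).resolve_left h2
  obtain ⟨w2, hw2⟩ : ∃ w2, nn u w2 ≠ 0 := by
    by_contra hcon
    push Not at hcon
    apply hu1
    ext v
    show u v = v
    rw [uN, hcon, add_zero]
  obtain ⟨w1, hw1⟩ : ∃ w1, h.B w1 (nn u w2) ≠ 0 := by
    by_contra hcon
    push Not at hcon
    exact hw2 (h.nondeg _ (fun y => by rw [sym, hcon]))
  set b := h.B w1 (nn u w2) with hb
  have b21 : h.B w2 (nn u w1) = -b := alt w2 w1
  refine ⟨nn u w1, ?_, n11 _ _, ?_, ?_⟩
  · intro h0
    rw [h0, h.zero_right] at b21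
    exact hw1 (by linear_combination b21)
  · rw [uN, hN, add_zero]
  refine ⟨hu, by rw [uN, hN, add_zero], ?_⟩
  intro v hv
  -- make v orthogonal to w1, w2 for b
  have hv1 : h.B v (nn u w1) = 0 := by rw [sym, hv]
  have hv1' : h.B w1 (nn u v) = 0 := by rw [alt, hv1, neg_zero]
  set t : F := h.B w2 (nn u v) / b with ht
  have htb : t * b = h.B w2 (nn u v) := by rw [ht]; field_simp
  -- v' = v + t w1
  set v' : V := v + t • w1 with hv'
  have c1 : h.B w1 (nn u v') = 0 := by
    rw [hv', map_add, map_smul, h.add_right, h.smul_right, alt0, hv1']; ring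
  have c2 : h.B w2 (nn u v') = 0 := by
    rw [hv', map_add, map_smul, h.add_right, h.smul_right, b21]
    linear_combination -htb
  have key : nn u v' = 0 := by
    by_contra hne
    obtain ⟨w3, hw3⟩ : ∃ w3, h.B w3 (nn u v') ≠ 0 := by
      by_contra hcon
      push Not at hcon
      exact hne (h.nondeg _ (fun y => by rw [sym, hcon]))
    -- independent vectors
    have hlin : LinearIndependent F ![w1, w2, v', w3, nn u w1, nn u w2, nn u v', nn u w3] := by
      rw [Fintype.linearIndependent_iff]
      intro g hg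
      rw [Fin.sum_univ_eight] at hg
      simp only [Matrix.cons_val] at hg
      have hinj : ∀ a0 a1 a2 a3 : F, a0 • nn u w1 + a1 • nn u w2 + a2 • nn u v' + a3 • nn u w3 = 0 →
          a0 = 0 ∧ a1 = 0 ∧ a2 = 0 ∧ a3 = 0 := by
        intro a0 a1 a2 a3 ha
        have e3 : h.B v' (a0 • nn u w1 + a1 • nn u w2 + a2 • nn u v' + a3 • nn u w3) = 0 := by
          rw [ha, h.zero_right]
        simp only [h.add_right, h.smul_right, alt v' w1, alt v' w2, alt v' w3, c1, c2, alt0] at e3
        have a3z : a3 = 0 := by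
          have : a3 * h.B w3 (nn u v') = 0 := by linear_combination -e3
          exact (mul_eq_zero.1 this).resolve_right hw3
        have e1 : h.B w1 (a0 • nn u w1 + a1 • nn u w2 + a2 • nn u v' + a3 • nn u w3) = 0 := by
          rw [ha, h.zero_right]
        simp only [h.add_right, h.smul_right, c1, alt0, ← hb, a3z] at e1
        have a1z : a1 = 0 := by
          have : a1 * b = 0 := by linear_combination e1
          exact (mul_eq_zero.1 this).resolve_right hw1
        have e2 : h.B w2 (a0 • nn u w1 + a1 • nn u w2 + a2 • nn u v' + a3 • nn u w3) = 0 := by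
          rw [ha, h.zero_right]
        simp only [h.add_right, h.smul_right, c2, alt0, b21, a3z] at e2
        have a0z : a0 = 0 := by
          have : a0 * b = 0 := by linear_combination -e2
          exact (mul_eq_zero.1 this).resolve_right hw1
        have e4 : h.B w3 (a0 • nn u w1 + a1 • nn u w2 + a2 • nn u v' + a3 • nn u w3) = 0 := by
          rw [ha, h.zero_right]
        simp only [h.add_right, h.smul_right, a0z, a1z, a3z] at e4
        have a2z : a2 = 0 := by
          have : a2 * h.B w3 (nn u v') = 0 := by linear_combination e4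
          exact (mul_eq_zero.1 this).resolve_right hw3
        exact ⟨a0z, a1z, a2z, a3z⟩
      have hg2 := congrArg (nn u) hg
      simp only [map_add, map_smul, hN, smul_zero, add_zero, map_zero] at hg2
      obtain ⟨z0, z1, z2, z3⟩ := hinj _ _ _ _ hg2
      rw [z0, z1, z2, z3] at hg
      simp only [zero_smul, zero_add] at hg
      obtain ⟨z4, z5, z6, z7⟩ := hinj _ _ _ _ hg
      intro i
      fin_cases i <;> assumption
    have := hlin.fintype_card_le_finrank
    rw [h6, Fintype.card_fin] at this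
    omega
  refine ⟨-t, ?_⟩
  rw [hv', map_add, map_smul] at key
  rw [uN]
  have : nn u v = -(t • nn u w1) := eq_neg_of_add_eq_zero_left key
  rw [this, neg_smul]

theorem nil_O6 (hp5 : 5 ≤ p) (hO : h.IsO) (h6 : Module.finrank F V = 6) {u : V ≃ₗ[F] V}
    (hu : u ∈ h.Iso) (hup : u ^ p = 1) (hu1 : u ≠ 1)
    (hI : ∀ x, x ≠ 0 → h.B x x = 0 → u x = x → u ∉ h.UU x) (h3 : (nn u) ^ 3 = 0) :
    ∃ x x', h.Adq u x ∧ h.Adq u x' ∧ ∀ c : F, x' ≠ c • x := by
  have _ := hup
  have h2 : (2 : F) ≠ 0 := two_ne (p := p) (by omega)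
  have sym : ∀ x y, h.B x y = h.B y x := by
    intro x y
    rw [h.herm y x, hO.1, hO.2, one_mul]
  have uN : ∀ v, u v = v + nn u v := fun v => by rw [nn_apply]; abel
  have N3 : ∀ v, nn u (nn u (nn u v)) = 0 := by
    intro v
    have h1 := LinearMap.congr_fun h3 v
    simpa [pow_succ] using h1
  have adj := h.nn_adj hu
  have n21 : ∀ v w, h.B (nn u (nn u v)) (nn u w) = 0 := by
    intro v w
    have h1 := adj (nn u (nn u v)) w
    rw [N3, h.zero_left, h.zero_left] at h1
    linear_combination h1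
  have n12 : ∀ v w, h.B (nn u v) (nn u (nn u w)) = 0 := by
    intro v w
    rw [sym, n21]
  have n11 : ∀ v w, h.B (nn u v) (nn u w) = - h.B v (nn u (nn u w)) := by
    intro v w
    have h1 := adj v (nn u w)
    rw [n12] at h1
    linear_combination h1
  have n20 : ∀ v w, h.B (nn u (nn u v)) w = h.B v (nn u (nn u w)) := by
    intro v w
    have h1 := adj (nn u v) w
    rw [n21, n11] at h1
    linear_combination h1
  have csym : ∀ v w, h.B v (nn u (nn u w)) = h.B w (nn u (nn u v)) := by
    intro v w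
    rw [← n20, sym]
  -- a vector with `c (w, w) ≠ 0`
  have polar : ∀ a b, h.B a (nn u (nn u b)) ≠ 0 → h.B a (nn u (nn u a)) ≠ 0 ∨
      h.B b (nn u (nn u b)) ≠ 0 ∨ h.B (a + b) (nn u (nn u (a + b))) ≠ 0 := by
    intro a b hab
    by_contra hcon
    push Not at hcon
    obtain ⟨q1, q2, q3⟩ := hcon
    rw [map_add, map_add, h.add_left, h.add_right, h.add_right, q1, q2, csym b a] at q3
    have h4 : (2 : F) * h.B a (nn u (nn u b)) = 0 := by linear_combination q3
    exact hab ((mul_eq_zero.1 h4).resolve_left h2)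
  obtain ⟨w, hw⟩ : ∃ w, h.B w (nn u (nn u w)) ≠ 0 := by
    obtain ⟨y, hy⟩ : ∃ y, nn u (nn u y) ≠ 0 := by
      by_contra hcon
      push Not at hcon
      obtain ⟨x, hx1, hx2, hx3, hx4⟩ := h.nil_sq_zero h2 hO h6 hu hu1 hcon
      exact hI x hx1 hx2 hx3 hx4
    obtain ⟨z, hz⟩ : ∃ z, h.B z (nn u (nn u y)) ≠ 0 := by
      by_contra hcon
      push Not at hcon
      exact hy (h.nondeg _ (fun t => by rw [sym, hcon]))
    rcases polar z y hz with q | q | q
    · exact ⟨_, q⟩
    · exact ⟨_, q⟩
    · exact ⟨_, q⟩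
  set x : V := nn u (nn u w) with hx
  set y : V := nn u w with hy
  set γ : F := h.B w x with hγ
  have Nx : nn u x = 0 := N3 w
  have Ny : nn u y = x := rfl
  have bxx : h.B x x = 0 := by rw [hx, n21]
  have byx : h.B y x = 0 := n12 w w
  have bxy : h.B x y = 0 := by rw [sym, byx]
  have byy : h.B y y = -γ := by rw [hy, n11]
  have bxw : h.B x w = γ := by rw [sym]
  have ux : u x = x := by rw [uN, Nx, add_zero]
  have x0 : x ≠ 0 := by
    intro h0
    rw [hγ, h0, h.zero_right] at hw
    exact hw rfl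
  -- the complement
  have decomp : ∀ v, ∃ (α β δ : F) (v' : V), v = α • w + β • y + δ • x + v' ∧
      α * γ = h.B x v ∧ h.B w v' = 0 ∧ h.B y v' = 0 ∧ h.B x v' = 0 := by
    intro v
    set α : F := h.B x v / γ with hα
    set β : F := (α * h.B y w - h.B y v) / γ with hβ
    set δ : F := (h.B w v - α * h.B w w - β * h.B w y) / γ with hδ
    have e1 : α * γ = h.B x v := by rw [hα]; field_simp
    have e2 : β * γ = α * h.B y w - h.B y v := by rw [hβ]; field_simp
    have e3 : δ * γ = h.B w v - α * h.B w w - β * h.B w y := by rw [hδ]; field_simp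
    refine ⟨α, β, δ, v - α • w - β • y - δ • x, by abel, e1, ?_, ?_, ?_⟩
    · simp only [h.sub_right, h.smul_right, ← hγ]
      linear_combination -e3
    · simp only [h.sub_right, h.smul_right, byy, byx]
      linear_combination e2
    · simp only [h.sub_right, h.smul_right, bxw, bxy, bxx]
      linear_combination -e1
  -- invariance of the complement
  have inv : ∀ v, h.B w v = 0 → h.B y v = 0 → h.B x v = 0 →
      h.B w (nn u v) = 0 ∧ h.B y (nn u v) = 0 ∧ h.B x (nn u v) = 0 := by
    intro v hwv hyv hxv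
    have q1 := adj x v
    rw [Nx, h.zero_left, h.zero_left] at q1
    have q2 := adj y v
    rw [Ny, hxv] at q2
    have q1' : h.B x (nn u v) = 0 := by linear_combination q1
    have q2' : h.B y (nn u v) = 0 := by linear_combination q2 - q1'
    have q3 := adj w v
    rw [← hy, hyv] at q3
    exact ⟨by linear_combination q3 - q2', q2', q1'⟩
  -- `N` is not zero on the complement
  obtain ⟨v2, hv2w, hv2y, hv2x, hv2⟩ : ∃ v2, h.B w v2 = 0 ∧ h.B y v2 = 0 ∧ h.B x v2 = 0 ∧
      nn u v2 ≠ 0 := by
    by_contra hcon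
    push Not at hcon
    refine hI x x0 bxx ux ⟨hu, ux, ?_⟩
    intro v hv
    obtain ⟨α, β, δ, v', hv', e1, e2, e3, e4⟩ := decomp v
    rw [hv] at e1
    have hα : α = 0 := (mul_eq_zero.1 e1).resolve_right hw
    refine ⟨β, ?_⟩
    have hz := hcon v' e2 e3 e4
    rw [uN]
    congr 1
    rw [hv', hα]
    simp only [map_add, map_smul, Nx, Ny, hz, smul_zero, zero_smul, add_zero, zero_add]
  -- `N ^ 2` is not zero on the complement
  obtain ⟨v3, hv3w, hv3y, hv3x, hv3⟩ : ∃ v3, h.B w v3 = 0 ∧ h.B y v3 = 0 ∧ h.B x v3 = 0 ∧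
      nn u (nn u v3) ≠ 0 := by
    by_contra hcon
    push Not at hcon
    obtain ⟨i1, i2, i3⟩ := inv v2 hv2w hv2y hv2x
    obtain ⟨z, hz⟩ : ∃ z, h.B z (nn u v2) ≠ 0 := by
      by_contra hc
      push Not at hc
      exact hv2 (h.nondeg _ (fun t => by rw [sym, hc]))
    obtain ⟨α, β, δ, v1, hv1, e1, e2, e3, e4⟩ := decomp z
    have hz1 : h.B v1 (nn u v2) ≠ 0 := by
      intro h0
      apply hz
      rw [hv1, h.add_left, h.add_left, h.add_left, h.smul_left, h.smul_left, h.smul_left, i1, i2,
        i3, h0]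
      ring
    have N1 : nn u (nn u v1) = 0 := hcon v1 e2 e3 e4
    have N2 : nn u (nn u v2) = 0 := hcon v2 hv2w hv2y hv2x
    have a12 : h.B (nn u v1) (nn u v2) = 0 := by rw [n11, N2, h.zero_right, neg_zero]
    have a22 : h.B (nn u v2) (nn u v2) = 0 := by rw [n11, N2, h.zero_right, neg_zero]
    have a11 : h.B (nn u v1) (nn u v1) = 0 := by rw [n11, N1, h.zero_right, neg_zero]
    have b22 : h.B v2 (nn u v2) = 0 := by
      have q := adj v2 v2
      rw [a22, sym (nn u v2) v2] at q
      have h4 : (2 : F) * h.B v2 (nn u v2) = 0 := by linear_combination q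
      exact (mul_eq_zero.1 h4).resolve_left h2
    have b11 : h.B v1 (nn u v1) = 0 := by
      have q := adj v1 v1
      rw [a11, sym (nn u v1) v1] at q
      have h4 : (2 : F) * h.B v1 (nn u v1) = 0 := by linear_combination q
      exact (mul_eq_zero.1 h4).resolve_left h2
    have b21 : h.B v2 (nn u v1) = - h.B v1 (nn u v2) := by
      have q := adj v1 v2
      rw [a12, sym (nn u v1) v2] at q
      linear_combination q
    have hlin : LinearIndependent F ![w, y, x, v1, v2, nn u v1, nn u v2] := by
      rw [Fintype.linearIndependent_iff]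
      intro g hg
      rw [Fin.sum_univ_seven] at hg
      simp only [Matrix.cons_val] at hg
      have hinj : ∀ a0 a1 : F, a0 • nn u v1 + a1 • nn u v2 = 0 → a0 = 0 ∧ a1 = 0 := by
        intro a0 a1 ha
        have e1 : h.B v1 (a0 • nn u v1 + a1 • nn u v2) = 0 := by rw [ha, h.zero_right]
        have e2 : h.B v2 (a0 • nn u v1 + a1 • nn u v2) = 0 := by rw [ha, h.zero_right]
        simp only [h.add_right, h.smul_right, b11] at e1
        simp only [h.add_right, h.smul_right, b22, b21] at e2
        have a1z : a1 = 0 := by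
          have : a1 * h.B v1 (nn u v2) = 0 := by linear_combination e1
          exact (mul_eq_zero.1 this).resolve_right hz1
        have a0z : a0 = 0 := by
          have : a0 * h.B v1 (nn u v2) = 0 := by linear_combination -e2
          exact (mul_eq_zero.1 this).resolve_right hz1
        exact ⟨a0z, a1z⟩
      obtain ⟨j1, j2, j3⟩ := inv v1 e2 e3 e4
      have p1 : h.B x (g 0 • w + g 1 • y + g 2 • x + g 3 • v1 + g 4 • v2 + g 5 • nn u v1 +
          g 6 • nn u v2) = 0 := by rw [hg, h.zero_right]
      simp only [h.add_right, h.smul_right, bxw, bxy, bxx, e4, hv2x, j3, i3] at p1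
      have g0 : g 0 = 0 := by
        have : g 0 * γ = 0 := by linear_combination p1
        exact (mul_eq_zero.1 this).resolve_right hw
      have p2 : h.B y (g 0 • w + g 1 • y + g 2 • x + g 3 • v1 + g 4 • v2 + g 5 • nn u v1 +
          g 6 • nn u v2) = 0 := by rw [hg, h.zero_right]
      simp only [h.add_right, h.smul_right, g0, byy, byx, e3, hv2y, j2, i2] at p2
      have g1 : g 1 = 0 := by
        have : g 1 * γ = 0 := by linear_combination -p2
        exact (mul_eq_zero.1 this).resolve_right hw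
      have p3 : h.B w (g 0 • w + g 1 • y + g 2 • x + g 3 • v1 + g 4 • v2 + g 5 • nn u v1 +
          g 6 • nn u v2) = 0 := by rw [hg, h.zero_right]
      simp only [h.add_right, h.smul_right, g0, g1, e2, hv2w, j1, i1] at p3
      have g2 : g 2 = 0 := by
        have : g 2 * γ = 0 := by rw [hγ]; linear_combination p3
        exact (mul_eq_zero.1 this).resolve_right hw
      rw [g0, g1, g2] at hg
      simp only [zero_smul, zero_add] at hg
      have hg2 := congrArg (nn u) hg
      simp only [map_add, map_smul, N1, N2, smul_zero, add_zero, map_zero] at hg2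
      obtain ⟨g3, g4⟩ := hinj _ _ hg2
      rw [g3, g4] at hg
      simp only [zero_smul, zero_add] at hg
      obtain ⟨g5, g6⟩ := hinj _ _ hg
      intro i
      fin_cases i <;> assumption
    have := hlin.fintype_card_le_finrank
    rw [h6, Fintype.card_fin] at this
    omega
  -- the second vector
  obtain ⟨w', hw'w, hw'y, hw'x, hw'⟩ : ∃ w', h.B w w' = 0 ∧ h.B y w' = 0 ∧ h.B x w' = 0 ∧
      h.B w' (nn u (nn u w')) ≠ 0 := by
    obtain ⟨i1, i2, i3⟩ := inv v3 hv3w hv3y hv3x
    obtain ⟨k1, k2, k3⟩ := inv _ i1 i2 i3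
    obtain ⟨z, hz⟩ : ∃ z, h.B z (nn u (nn u v3)) ≠ 0 := by
      by_contra hc
      push Not at hc
      exact hv3 (h.nondeg _ (fun t => by rw [sym, hc]))
    obtain ⟨α, β, δ, v1, hv1, e1, e2, e3, e4⟩ := decomp z
    have hz1 : h.B v1 (nn u (nn u v3)) ≠ 0 := by
      intro h0
      apply hz
      rw [hv1, h.add_left, h.add_left, h.add_left, h.smul_left, h.smul_left, h.smul_left, k1, k2,
        k3, h0]
      ring
    rcases polar v1 v3 hz1 with q | q | q
    · exact ⟨v1, e2, e3, e4, q⟩
    · exact ⟨v3, hv3w, hv3y, hv3x, q⟩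
    · refine ⟨v1 + v3, ?_, ?_, ?_, q⟩
      · rw [h.add_right, e2, hv3w, add_zero]
      · rw [h.add_right, e3, hv3y, add_zero]
      · rw [h.add_right, e4, hv3x, add_zero]
  obtain ⟨i1, i2, i3⟩ := inv w' hw'w hw'y hw'x
  obtain ⟨k1, k2, k3⟩ := inv _ i1 i2 i3
  set x' : V := nn u (nn u w') with hx'
  have Nx' : nn u x' = 0 := N3 w'
  have ux' : u x' = x' := by rw [uN, Nx', add_zero]
  have x'0 : x' ≠ 0 := by
    intro h0
    rw [h0, h.zero_right] at hw'
    exact hw' rfl
  have bx'x' : h.B x' x' = 0 := by rw [hx', n21]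
  have ind : ∀ c : F, x' ≠ c • x := by
    intro c hc
    rw [hc, h.smul_right, ← hγ] at k1
    have : c = 0 := (mul_eq_zero.1 k1).resolve_right hw
    exact x'0 (by rw [hc, this, zero_smul])
  have sq : ∀ v, u (u v - v) - (u v - v) = nn u (nn u v) := fun v => rfl
  refine ⟨x, x', ⟨ux, bxx, x0, hI x x0 bxx ux, fun _ _ => ⟨w', hw'x, ?_⟩⟩,
    ⟨ux', bx'x', x'0, hI x' x'0 bx'x' ux', fun _ _ => ⟨w, by rw [sym]; exact k1, ?_⟩⟩, ind⟩
  · intro c
    rw [sq]
    exact ind c
  · intro c hc
    rw [sq, ← hx] at hc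
    apply hw
    rw [hγ, hc, h.smul_right, k1, mul_zero]

end
end HF

end Pool.Agent.Helper54.CL
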