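import Pool.Agent.Helper54.CL.Good
import Pool.Agent.Helper54.CL.PiFour

/-!
# CL-20: the stabilizer of a totally isotropic plane

PROOF.  `Quad v1 v2 w1 w2` by `exists_dual`, `π` from `exists_delta`.  Let `W = span {v1, v2}`, `g0 = !![1, 1; 0, 1]`: `u` and `π g0` act in the same way
on `W`.  `U` = the subgroup of all `g ∈ GG` with `g v1 = v1`, `g v2 = v2` and `g v - v ∈ W` for all `v ⊥ v1, v2`.  `U` is a `p`-group: for `g ∈ U`, `g - 1`
maps `V` to `W^⊥` (`B v_i (g v - v) = 0`), `W^⊥` to `W` and `W` to `0`, so `(g - 1)^3 = 0` and `g^(p^2) = 1` (characteristic `p`).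
`π.range` and `u` normalize `U` (they map `W` to `W`).  Let `H = U ⊔ π.range ⊔ zpowers u`, `Q = H ⧸ U.subgroupOf H`.
Apply `lrq_core`/`lr_quasi` of PR/Quasi.lean with `X = SL_2(F)` (`sl_qs`, `win_sl_def`; `|F| ≥ p ≥ 5`), `f : X → Q` induced by `π`, `x` = class of `u`,
`g = g0`: `u (π w) u⁻¹` and `π (g0 w g0⁻¹)` differ by an element of `U` (both act on `W` by the same matrix, and both act
trivially on `W^⊥ / W`, because `π w` does; for `u (π w) u⁻¹`: for `v ⊥ W`, `u⁻¹ v ⊥ W`, `π w (u⁻¹ v) - u⁻¹ v ∈ W`).  `hne`: the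
action on `W` of `g0 w g0⁻¹` and `w` differ for `w = !![1,0;1,1]`.  So `RealAct k (zpowers (class of u))`, and the normal closure of
`zpowers (class of u)` in `Q` is everything (this is one of the outputs of `lrq_core`).
`lp` with `X = GG`, `ψ : H → Q` gives: every element of `H` of order prime to `p` is in `JN`; take `g = π !![0, -1; 1, 0]`, `g^4 = 1`, `g v1 = v2`.
-/

set_option autoImplicit false
open scoped Pointwise
open Pool.Agent.Helper54.PW Pool.Agent.Helper54.RT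

namespace Pool.Agent.Helper54.CL

namespace HF

section aux
variable {F V : Type} [Field F] [AddCommGroup V] [Module F V] (h : HF F V)

private theorem wl_back [Finite V] (W : Submodule F V) (g : V ≃ₗ[F] V)
    (hg : ∀ v ∈ W, g v ∈ W) (v : V) (hv : g v ∈ W) : v ∈ W := by
  have hinj : Function.Injective (fun w : W => (⟨g w, hg w w.2⟩ : W)) := by
    intro a b hab
    have h1 := congrArg (fun w : W => (w : V)) hab
    exact Subtype.ext (g.injective h1)
  have hsurj := Finite.injective_iff_surjective.1 hinj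
  obtain ⟨w, hw⟩ := hsurj ⟨g v, hv⟩
  have h1 : g w = g v := congrArg (fun w : W => (w : V)) hw
  rw [← g.injective h1]
  exact w.2

/-- the stabilizer of `W` in `GG` -/
private def wS (p : ℕ) (W : Submodule F V) : Subgroup (V ≃ₗ[F] V) where
  carrier := {g | g ∈ h.GG p ∧ ∀ v, g v ∈ W ↔ v ∈ W}
  mul_mem' := by
    rintro a b ⟨ha, ha'⟩ ⟨hb, hb'⟩
    exact ⟨(h.GG p).mul_mem ha hb, fun v => (ha' (b v)).trans (hb' v)⟩
  one_mem' := ⟨(h.GG p).one_mem, fun v => Iff.rfl⟩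
  inv_mem' := by
    rintro a ⟨ha, ha'⟩
    refine ⟨(h.GG p).inv_mem ha, fun v => ?_⟩
    rw [← ha' (a⁻¹ v)]
    have : a (a⁻¹ v) = v := a.apply_symm_apply v
    rw [this]

/-- the elements of the stabilizer which act trivially on `W^⊥/W` -/
private def wT (p : ℕ) (W : Submodule F V) : Subgroup (V ≃ₗ[F] V) where
  carrier := {g | g ∈ h.wS p W ∧ ∀ v, (∀ w ∈ W, h.B w v = 0) → g v - v ∈ W}
  mul_mem' := by
    rintro a b ⟨ha, ha'⟩ ⟨hb, hb'⟩
    refine ⟨(h.wS p W).mul_mem ha hb, fun v hv => ?_⟩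
    have h1 : (a * b) v - v = a (b v - v) + (a v - v) := by
      rw [map_sub]
      show a (b v) - v = _
      abel
    rw [h1]
    exact W.add_mem ((ha.2 _).2 (hb' v hv)) (ha' v hv)
  one_mem' := ⟨(h.wS p W).one_mem, fun v _ => by
    show v - v ∈ W
    rw [sub_self]
    exact W.zero_mem⟩
  inv_mem' := by
    rintro a ⟨ha, ha'⟩
    refine ⟨(h.wS p W).inv_mem ha, fun v hv => ?_⟩
    rw [← ha.2]
    have h1 : a (a⁻¹ v - v) = -(a v - v) := by
      rw [map_sub]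
      have : a (a⁻¹ v) = v := a.apply_symm_apply v
      rw [this, neg_sub]
    rw [h1]
    exact W.neg_mem (ha' v hv)

/-- the elements which act trivially on `W` and `W^⊥/W` -/
private def wU (p : ℕ) (W : Submodule F V) : Subgroup (V ≃ₗ[F] V) where
  carrier := {g | g ∈ h.wT p W ∧ ∀ w ∈ W, g w = w}
  mul_mem' := by
    rintro a b ⟨ha, ha'⟩ ⟨hb, hb'⟩
    refine ⟨(h.wT p W).mul_mem ha hb, fun w hw => ?_⟩
    show a (b w) = w
    rw [hb' w hw, ha' w hw]
  one_mem' := ⟨(h.wT p W).one_mem, fun w _ => rfl⟩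
  inv_mem' := by
    rintro a ⟨ha, ha'⟩
    refine ⟨(h.wT p W).inv_mem ha, fun w hw => ?_⟩
    have h1 := ha' w hw
    have : a⁻¹ (a w) = w := a.symm_apply_apply w
    rwa [h1] at this

private theorem wS_iso {p : ℕ} {W : Submodule F V} {g : V ≃ₗ[F] V} (hg : g ∈ h.wS p W) (x y : V) :
    h.B (g x) (g y) = h.B x y := h.GG_le p hg.1 x y

private theorem wS_perp {p : ℕ} {W : Submodule F V} {g : V ≃ₗ[F] V} (hg : g ∈ h.wS p W) {v : V}
    (hv : ∀ w ∈ W, h.B w v = 0) : ∀ w ∈ W, h.B w (g v) = 0 := by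
  intro w hw
  have h1 : g (g⁻¹ w) = w := g.apply_symm_apply w
  have h2 : g⁻¹ w ∈ W := by rwa [← hg.2, h1]
  rw [← h1, h.wS_iso hg]
  exact hv _ h2

private theorem wT_conj {p : ℕ} {W : Submodule F V} {s g : V ≃ₗ[F] V} (hs : s ∈ h.wS p W)
    (hg : g ∈ h.wT p W) : s * g * s⁻¹ ∈ h.wT p W := by
  refine ⟨(h.wS p W).mul_mem ((h.wS p W).mul_mem hs hg.1) ((h.wS p W).inv_mem hs), fun v hv => ?_⟩
  have h1 : (s * g * s⁻¹) v - v = s (g (s⁻¹ v) - s⁻¹ v) := by
    rw [map_sub]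
    have : s (s⁻¹ v) = v := s.apply_symm_apply v
    rw [this]
    rfl
  rw [h1, hs.2]
  exact hg.2 _ (h.wS_perp ((h.wS p W).inv_mem hs) hv)

private theorem wU_conj {p : ℕ} {W : Submodule F V} {s g : V ≃ₗ[F] V} (hs : s ∈ h.wS p W)
    (hg : g ∈ h.wU p W) : s * g * s⁻¹ ∈ h.wU p W := by
  refine ⟨h.wT_conj hs hg.1, fun w hw => ?_⟩
  have h1 : s (s⁻¹ w) = w := s.apply_symm_apply w
  have h2 : s⁻¹ w ∈ W := by rwa [← hs.2, h1]
  show s (g (s⁻¹ w)) = w
  rw [hg.2 _ h2, h1]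

private theorem wU_pow {p : ℕ} [Fact p.Prime] [CharP F p] (hp3 : 3 ≤ p) {W : Submodule F V}
    {g : V ≃ₗ[F] V} (hg : g ∈ h.wU p W) : g ^ p = 1 := by
  have hkey : ∀ (v y w : V), g v = v + y → g y = y + w → g w = w → ∀ n : ℕ,
      (g ^ n) v = v + ((n : ℕ) : F) • y + ((n.choose 2 : ℕ) : F) • w := by
    intro v y w hv hy hw n
    induction n with
    | zero => simp
    | succ n ih =>
      have h1 : (g ^ (n + 1)) v = g ((g ^ n) v) := by
        rw [pow_succ']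
        rfl
      rw [h1, ih, map_add, map_add, map_smul, map_smul, hv, hy, hw, Nat.choose_succ_succ' n 1,
        Nat.choose_one_right]
      push_cast
      simp only [smul_add, add_smul, one_smul]
      abel
  apply LinearEquiv.ext
  intro v
  have hperp : ∀ w ∈ W, h.B w (g v - v) = 0 := by
    intro w hw
    have h1 := h.wS_iso hg.1.1 w v
    rw [hg.2 w hw] at h1
    rw [h.sub_right, h1, sub_self]
  have h2 := hg.1.2 (g v - v) hperp
  have h3 := hg.2 _ h2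
  have h4 := hkey v (g v - v) (g (g v - v) - (g v - v)) (by abel) (by abel) h3 p
  rw [h4]
  have h5 : ((p : ℕ) : F) = 0 := CharP.cast_eq_zero F p
  have h6 : ((p.choose 2 : ℕ) : F) = 0 := by
    rw [CharP.cast_eq_zero_iff F p]
    exact (Fact.out : p.Prime).dvd_choose_self (by norm_num) (by omega)
  rw [h5, h6, zero_smul, zero_smul, add_zero, add_zero]
  rfl

end aux

section
variable {p : ℕ} [Fact p.Prime] {k : Type} [Field k] [IsAlgClosed k] [CharP k p]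
  {F V : Type} [Field F] [Finite F] [CharP F p] [AddCommGroup V] [Module F V] [Finite V]
  (h : HF F V)

theorem w_lemma (hp5 : 5 ≤ p) {u : V ≃ₗ[F] V} (hu : u ∈ h.GG p) (hup : u ^ p = 1) {v1 v2 : V}
    (h11 : h.B v1 v1 = 0) (h22 : h.B v2 v2 = 0) (h12 : h.B v1 v2 = 0) (hv1 : v1 ≠ 0)
    (hind : ∀ c : F, v2 ≠ c • v1) (hu1 : u v1 = v1) (hu2 : u v2 = v2 + v1) :
    ∃ g ∈ JN k (Subgroup.zpowers u) (h.GG p), g v1 = v2 := by
  classical
  have hp3 : 3 ≤ p := by omega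
  have h2F : (2 : F) ≠ 0 := two_ne hp3
  obtain ⟨w1, w2, hq⟩ := h.exists_dual h2F h11 h22 h12 hv1 hind
  obtain ⟨π, hπr, hπ, hπ'⟩ := h.exists_delta hp3 hq
  obtain ⟨W, hW⟩ : ∃ W : Submodule F V, W = Submodule.span F {v1, v2} := ⟨_, rfl⟩
  have hWm : ∀ z : V, z ∈ W ↔ ∃ a b : F, a • v1 + b • v2 = z := by
    intro z
    rw [hW, Submodule.mem_span_pair]
  have hv1W : v1 ∈ W := (hWm _).2 ⟨1, 0, by simp⟩
  have hv2W : v2 ∈ W := (hWm _).2 ⟨0, 1, by simp⟩
  have hWiso : ∀ g : V ≃ₗ[F] V, g v1 ∈ W → g v2 ∈ W → ∀ v ∈ W, g v ∈ W := by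
    intro g h1 h2 v hv
    obtain ⟨a, b, rfl⟩ := (hWm _).1 hv
    rw [map_add, map_smul, map_smul]
    exact W.add_mem (W.smul_mem _ h1) (W.smul_mem _ h2)
  have hWperp : ∀ v : V, h.B v1 v = 0 → h.B v2 v = 0 → ∀ w ∈ W, h.B w v = 0 := by
    intro v h1 h2 w hw
    obtain ⟨a, b, rfl⟩ := (hWm _).1 hw
    rw [h.add_left, h.smul_left, h.smul_left, h1, h2, mul_zero, mul_zero, add_zero]
  have hmem : ∀ g : V ≃ₗ[F] V, g ∈ h.GG p → g v1 ∈ W → g v2 ∈ W → g ∈ h.wS p W := by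
    intro g hg h1 h2
    refine ⟨hg, fun v => ⟨fun hv => wl_back W g (hWiso g h1 h2) v hv, hWiso g h1 h2 v⟩⟩
  have huS : u ∈ h.wS p W := hmem u hu (by rw [hu1]; exact hv1W)
    (by rw [hu2]; exact W.add_mem hv2W hv1W)
  have hπv : ∀ w : Matrix.SpecialLinearGroup (Fin 2) F,
      π w v1 = (w : Matrix (Fin 2) (Fin 2) F) 0 0 • v1 + (w : Matrix (Fin 2) (Fin 2) F) 1 0 • v2 ∧
      π w v2 = (w : Matrix (Fin 2) (Fin 2) F) 0 1 • v1 +
        (w : Matrix (Fin 2) (Fin 2) F) 1 1 • v2 := by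
    intro w
    have h1 := hπ w _ _ _ _ (Matrix.eta_fin_two (w : Matrix (Fin 2) (Fin 2) F))
    exact ⟨h1.1, h1.2.1⟩
  have hπT : ∀ w, π w ∈ h.wT p W := by
    intro w
    have hm1 : π w v1 ∈ W := (hWm _).2 ⟨_, _, (hπv w).1.symm⟩
    have hm2 : π w v2 ∈ W := (hWm _).2 ⟨_, _, (hπv w).2.symm⟩
    refine ⟨hmem _ (hπr ⟨w, rfl⟩) hm1 hm2, fun v hv => ?_⟩
    have hb1 := hv v1 hv1W
    have hb2 := hv v2 hv2W
    have hw1v1 : h.B w1 v1 = h.ε := hq.p1.yx
    have hw2v2 : h.B w2 v2 = h.ε := hq.p2.yx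
    have hw2v1 : h.B w2 v1 = 0 := h.B_symm_zero hq.vw
    have hw1v2 : h.B w1 v2 = 0 := hq.wv
    have h21 : h.B v2 v1 = 0 := h.B_symm_zero h12
    have hfix := hπ' w (v - (h.ε * h.B w1 v) • v1 - (h.ε * h.B w2 v) • v2)
      (by rw [h.sub_right, h.sub_right, h.smul_right, h.smul_right, hb1, h11, h12]; ring)
      (by rw [h.sub_right, h.sub_right, h.smul_right, h.smul_right, hb2, h21, h22]; ring)
      (by
        rw [h.sub_right, h.sub_right, h.smul_right, h.smul_right, hw1v1, hw1v2]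
        linear_combination (-h.B w1 v) * h.eps)
      (by
        rw [h.sub_right, h.sub_right, h.smul_right, h.smul_right, hw2v1, hw2v2]
        linear_combination (-h.B w2 v) * h.eps)
    have h1 : π w v - v = (h.ε * h.B w1 v) • (π w v1 - v1) +
        (h.ε * h.B w2 v) • (π w v2 - v2) := by
      rw [map_sub, map_sub, map_smul, map_smul] at hfix
      rw [smul_sub, smul_sub]
      have h2 : π w v = v - (h.ε * h.B w1 v) • v1 - (h.ε * h.B w2 v) • v2 +
          (h.ε * h.B w1 v) • π w v1 + (h.ε * h.B w2 v) • π w v2 := by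
        rw [← hfix]
        abel
      rw [h2]
      abel
    rw [h1]
    exact W.add_mem (W.smul_mem _ (W.sub_mem hm1 hv1W)) (W.smul_mem _ (W.sub_mem hm2 hv2W))
  -- the element `g0`
  obtain ⟨g0, hg0⟩ : ∃ g0 : Matrix.SpecialLinearGroup (Fin 2) F,
      (g0 : Matrix (Fin 2) (Fin 2) F) = !![1, 1; 0, 1] := ⟨⟨!![1, 1; 0, 1], by simp⟩, rfl⟩
  obtain ⟨w0, hw0⟩ : ∃ w0 : Matrix.SpecialLinearGroup (Fin 2) F,
      (w0 : Matrix (Fin 2) (Fin 2) F) = !![0, -1; 1, 0] := ⟨⟨!![0, -1; 1, 0], by simp⟩, rfl⟩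
  obtain ⟨n0, hn0⟩ : ∃ n0 : Matrix.SpecialLinearGroup (Fin 2) F,
      (n0 : Matrix (Fin 2) (Fin 2) F) = !![1, 0; 1, 1] := ⟨⟨!![1, 0; 1, 1], by simp⟩, rfl⟩
  have hug0 : ∀ x ∈ W, u x = π g0 x := by
    intro x hx
    obtain ⟨a, b, rfl⟩ := (hWm _).1 hx
    rw [map_add, map_add, map_smul, map_smul, map_smul, map_smul, (hπv g0).1, (hπv g0).2, hu1,
      hu2, hg0]
    simp
    abel
  have huinv : ∀ x ∈ W, u⁻¹ x = π g0⁻¹ x := by
    intro x hx
    have h1 : π g0⁻¹ x ∈ W := by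
      rw [(hπT g0⁻¹).1.2]
      exact hx
    have h2 : π g0 (π g0⁻¹ x) = x := by
      have : (π g0 * π g0⁻¹) x = x := by rw [← map_mul, mul_inv_cancel, map_one]; rfl
      exact this
    have h3 := hug0 _ h1
    rw [h2] at h3
    have h4 : u⁻¹ (u (π g0⁻¹ x)) = π g0⁻¹ x := u.symm_apply_apply _
    rw [h3] at h4
    exact h4
  have hconj : ∀ w, (u * π w * u⁻¹)⁻¹ * π (g0 * w * g0⁻¹) ∈ h.wU p W := by
    intro w
    have hA := h.wT_conj huS (hπT w)
    refine ⟨(h.wT p W).mul_mem ((h.wT p W).inv_mem hA) (hπT _), fun x hx => ?_⟩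
    have h1 : π (g0 * w * g0⁻¹) x = (u * π w * u⁻¹) x := by
      have h2 : π g0⁻¹ x ∈ W := by
        rw [(hπT g0⁻¹).1.2]
        exact hx
      have h3 : π w (π g0⁻¹ x) ∈ W := by
        rw [(hπT w).1.2]
        exact h2
      rw [map_mul, map_mul]
      show π g0 (π w (π g0⁻¹ x)) = u (π w (u⁻¹ x))
      rw [huinv x hx, hug0 _ h3]
    show (u * π w * u⁻¹)⁻¹ (π (g0 * w * g0⁻¹) x) = x
    rw [h1]
    exact (u * π w * u⁻¹).symm_apply_apply x
  -- the groups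
  have hUT : h.wU p W ≤ h.wS p W := fun g hg => hg.1.1
  have hπS : π.range ≤ h.wS p W := by
    rintro _ ⟨w, rfl⟩
    exact (hπT w).1
  obtain ⟨H, hH⟩ : ∃ H : Subgroup (V ≃ₗ[F] V), H = (h.wU p W ⊔ π.range) ⊔ Subgroup.zpowers u :=
    ⟨_, rfl⟩
  have hUH : h.wU p W ≤ H := by rw [hH]; exact le_sup_of_le_left le_sup_left
  have hπH : π.range ≤ H := by rw [hH]; exact le_sup_of_le_left le_sup_right
  have huH : u ∈ H := by rw [hH]; exact Subgroup.mem_sup_right (Subgroup.mem_zpowers u)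
  have hHS : H ≤ h.wS p W := by
    rw [hH]
    exact sup_le (sup_le hUT hπS) (by rw [Subgroup.zpowers_le]; exact huS)
  have hHG : H ≤ h.GG p := fun g hg => (hHS hg).1
  let N : Subgroup H := (h.wU p W).subgroupOf H
  have hN : N.Normal := ⟨fun n hn g => h.wU_conj (hHS g.2) hn⟩
  let ψ : H →* H ⧸ N := QuotientGroup.mk' N
  let πH : Matrix.SpecialLinearGroup (Fin 2) F →* H := π.codRestrict H (fun w => hπH ⟨w, rfl⟩)
  let f : Matrix.SpecialLinearGroup (Fin 2) F →* H ⧸ N := ψ.comp πH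
  let x : H ⧸ N := ψ ⟨u, huH⟩
  have hxp : x ^ p = 1 := by
    show (ψ ⟨u, huH⟩) ^ p = 1
    rw [← map_pow]
    have : (⟨u, huH⟩ : H) ^ p = 1 := Subtype.ext hup
    rw [this, map_one]
  have hxg : ∀ w, x * f w * x⁻¹ = f (g0 * w * g0⁻¹) := by
    intro w
    show ψ ⟨u, huH⟩ * ψ (πH w) * (ψ ⟨u, huH⟩)⁻¹ = ψ (πH (g0 * w * g0⁻¹))
    rw [← map_inv, ← map_mul, ← map_mul]
    exact QuotientGroup.eq.2 (hconj w)
  have hne : ∃ w, x * f w * x⁻¹ ≠ f w := by
    refine ⟨n0, fun heq => ?_⟩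
    rw [hxg] at heq
    have h0 : (πH (g0 * n0 * g0⁻¹))⁻¹ * πH n0 ∈ N := QuotientGroup.eq.1 heq
    have h1 : (π (g0 * n0 * g0⁻¹))⁻¹ * π n0 ∈ h.wU p W := h0
    have h2 := h1.2 v1 hv1W
    have h3 : π n0 v1 = π (g0 * n0 * g0⁻¹) v1 := by
      have h4 : (π (g0 * n0 * g0⁻¹)) ((π (g0 * n0 * g0⁻¹))⁻¹ (π n0 v1)) = π n0 v1 :=
        (π (g0 * n0 * g0⁻¹)).apply_symm_apply _
      have h5 : (π (g0 * n0 * g0⁻¹))⁻¹ (π n0 v1) = v1 := h2
      rw [h5] at h4
      exact h4.symm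
    have h6 : ((g0 * n0 * g0⁻¹ : Matrix.SpecialLinearGroup (Fin 2) F) :
        Matrix (Fin 2) (Fin 2) F) = !![2, -1; 1, 0] := by
      rw [Matrix.SpecialLinearGroup.coe_mul, Matrix.SpecialLinearGroup.coe_mul,
        Matrix.SpecialLinearGroup.coe_inv, hg0, hn0, Matrix.adjugate_fin_two_of]
      ext i j
      fin_cases i <;> fin_cases j <;> simp [Matrix.mul_apply, Fin.sum_univ_two] <;> ring
    rw [(hπv _).1, (hπv _).1, h6, hn0] at h3
    simp only [Matrix.of_apply, Matrix.cons_val', Matrix.cons_val_zero, Matrix.cons_val_one,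
      Matrix.cons_val_fin_one, one_smul] at h3
    have h7 : v1 = (2 : F) • v1 := add_right_cancel h3
    rw [two_smul] at h7
    exact hv1 (by simpa using h7)
  have hp1 : ∀ w, x ^ p * f w * (x ^ p)⁻¹ = f w := by
    intro w
    rw [hxp]
    group
  have htop : f.range ⊔ Subgroup.zpowers x = ⊤ := by
    have hK : H ≤ ((f.range ⊔ Subgroup.zpowers x).comap ψ).map H.subtype := by
      conv_lhs => rw [hH]
      refine sup_le (sup_le ?_ ?_) ?_
      · intro n hn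
        refine ⟨⟨n, hUH hn⟩, ?_, rfl⟩
        have h1 : ψ ⟨n, hUH hn⟩ = 1 := (QuotientGroup.eq_one_iff _).2 hn
        show ψ ⟨n, hUH hn⟩ ∈ f.range ⊔ Subgroup.zpowers x
        rw [h1]
        exact Subgroup.one_mem _
      · rintro _ ⟨w, rfl⟩
        exact ⟨πH w, Subgroup.mem_sup_left ⟨w, rfl⟩, rfl⟩
      · rw [Subgroup.zpowers_le]
        exact ⟨⟨u, huH⟩, Subgroup.mem_sup_right (Subgroup.mem_zpowers x), rfl⟩
    rw [eq_top_iff]
    intro q _
    obtain ⟨a, rfl⟩ := QuotientGroup.mk'_surjective N q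
    obtain ⟨b, hb, hab⟩ := hK a.2
    have h1 : b = a := Subtype.ext hab
    rw [← h1]
    exact hb
  have hF4 : 4 ≤ Nat.card F := by
    have h1 : ((Nat.card F : ℕ) : F) = 0 := by
      have := Fintype.ofFinite F
      rw [Nat.card_eq_fintype_card]
      exact Nat.cast_card_eq_zero F
    have h2 : p ∣ Nat.card F := (CharP.cast_eq_zero_iff F p _).1 h1
    have h3 : p ≤ Nat.card F := Nat.le_of_dvd Nat.card_pos h2
    omega
  have hfin : Finite (Matrix.SpecialLinearGroup (Fin 2) F) := Subtype.finite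
  have hxP : IsPGroup p (Subgroup.zpowers x) := by
    rintro ⟨y, n, rfl⟩
    refine ⟨1, Subtype.ext ?_⟩
    show (x ^ n) ^ (p ^ 1) = 1
    rw [pow_one, ← zpow_natCast, ← zpow_mul, mul_comm, zpow_mul, zpow_natCast, hxp, one_zpow]
  have huP : IsPGroup p (Subgroup.zpowers u) := by
    rintro ⟨y, n, rfl⟩
    refine ⟨1, Subtype.ext ?_⟩
    show (u ^ n) ^ (p ^ 1) = 1
    rw [pow_one, ← zpow_natCast, ← zpow_mul, mul_comm, zpow_mul, zpow_natCast, hup, one_zpow]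
  have hqs := Pool.Agent.Helper54.PR.sl_qs hF4 (m := 2) (le_refl _)
  have hr : RealAct k (Subgroup.zpowers x) :=
    Pool.Agent.Helper54.PR.lr_quasi hqs
      (fun s hs => Pool.Agent.Helper54.PR.win_sl_def hp5 (le_refl _) s hs) f x g0 hxP hxg hne hp1
      htop
  obtain ⟨-, -, -, hncl, -⟩ := Pool.Agent.Helper54.PR.lrq_core (p := p) hqs f x g0 hxg hne hp1 htop
  have hker : IsPGroup p ψ.ker := by
    rintro ⟨y, hy⟩
    refine ⟨1, Subtype.ext (Subtype.ext ?_)⟩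
    have h1 : y ∈ N := (QuotientGroup.eq_one_iff y).1 (MonoidHom.mem_ker.1 hy)
    show (y : V ≃ₗ[F] V) ^ (p ^ 1) = 1
    rw [pow_one]
    exact h.wU_pow hp3 h1
  have hw4 : w0 ^ 4 = 1 := by
    have h1 : (w0 * w0 : Matrix.SpecialLinearGroup (Fin 2) F) * (w0 * w0) = 1 := by
      apply Subtype.ext
      rw [Matrix.SpecialLinearGroup.coe_mul, Matrix.SpecialLinearGroup.coe_mul, hw0,
        Matrix.SpecialLinearGroup.coe_one]
      ext i j
      fin_cases i <;> fin_cases j <;> simp [Matrix.mul_apply, Fin.sum_univ_two]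
    rw [← h1]
    simp only [pow_succ, pow_zero, one_mul, mul_assoc]
  refine ⟨π w0, lp hHG huP huH ψ (QuotientGroup.mk'_surjective N) hker hr hncl (hπH ⟨w0, rfl⟩) ?_,
    ?_⟩
  · intro hdvd
    have h1 : orderOf (π w0) ∣ 4 := by
      rw [orderOf_dvd_iff_pow_eq_one, ← map_pow, hw4, map_one]
    have h2 := Nat.le_of_dvd (by norm_num) (hdvd.trans h1)
    omega
  · rw [(hπv w0).1, hw0]
    simp

end
end HF

end Pool.Agent.Helper54.CL
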