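import Pool.Agent.Helper54.CL.CaseA
import Pool.Agent.Helper54.CL.CaseB
import Pool.Agent.Helper54.CL.CaseC
import Pool.Agent.Helper54.CL.LongRoot
import Pool.Agent.Helper54.CL.WLemma
import Pool.Agent.Helper54.CL.NilB

/-!
# CL-23: all nonexceptional elements of order `p` of the groups `GG`

PROOF.  Strong induction on `finrank F V`.  `u` is an isometry (`GG_le`).
Case 1: there is an isotropic fixed vector `x ≠ 0` with `u ∈ UU x`.  `Pair x y`, `u = E x a t` with `a ⊥ x, y` (`UU_form'`).
* `B a a ≠ 0`: `case_O3` or `case_U3`.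
* `B a a = 0`, `a ≠ 0`: not symmetric: `case_S2`.  Symmetric: `t = 0` (`2 t = - B a a`), `a` is not a multiple of `x` (it is orthogonal to
  `y`); `finrank ≥ 5`: with a partner `b ∈ perp2 x y` of `a` (`exists_partner_perp`) `x, y, a, b` are linearly independent, so
  `finrank ≥ 4` (`finrank_perp2` twice), and if it is `4` then `u` is exceptional: `u (u v - v) = u v - v`, since `u v - v ∈ span {x, a}` is fixed
  by `u`.  `case_long`.
* `a = 0`: symmetric: `t = 0` and `u = 1`; otherwise `case_transv`.
Case 2: otherwise.  If `(nn u)^3 ≠ 0`: `nil_ge4`, `w_lemma`, `good_w`.  If `(nn u)^3 = 0`: `nil_le3` or `nil_O6`, `two_good`.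
-/

set_option autoImplicit false
open scoped Pointwise
open Pool.Agent.Helper54.PW Pool.Agent.Helper54.RT

namespace Pool.Agent.Helper54.CL

namespace HF
section
variable {p : ℕ} [Fact p.Prime] {k : Type} [Field k] [IsAlgClosed k] [CharP k p]
  {F : Type} [Field F] [Finite F] [CharP F p]

theorem tt_aux (hp5 : 5 ≤ p) (n : ℕ) :
    ∀ (V : Type) [AddCommGroup V] [Module F V] [Finite V] (h : HF F V),
      Module.finrank F V = n → h.TT p k := by
  induction n using Nat.strong_induction_on with
  | _ n ihn =>
  intro V _ _ _ h hn u hu hup hu1 hexc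
  have ih : ∀ (V' : Type) [AddCommGroup V'] [Module F V'] [Finite V'] (h' : HF F V'),
      Module.finrank F V' < Module.finrank F V → h'.TT p k := by
    intro V' _ _ _ h' hlt
    exact ihn _ (hn ▸ hlt) V' h' rfl
  have hp3 : 3 ≤ p := by omega
  have h2 : (2 : F) ≠ 0 := two_ne (p := p) hp3
  have : FiniteDimensional F V := Module.Finite.of_finite
  have huI : u ∈ h.Iso := h.GG_le p hu
  by_cases hI : ∀ x, x ≠ 0 → h.B x x = 0 → u x = x → u ∉ h.UU x
  · -- Case 2
    by_cases h3 : (nn u) ^ 3 = 0
    · have key : ∃ x x', h.Adq u x ∧ h.Adq u x' ∧ ∀ c : F, x' ≠ c • x := by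
        by_cases hO6 : h.IsO ∧ Module.finrank F V = 6
        · exact h.nil_O6 hp5 hO6.1 hO6.2 huI hup hu1 hI h3
        · exact h.nil_le3 hp5 huI hup hu1 hI h3 hO6
      obtain ⟨x, x', hA, hA', hind⟩ := key
      exact h.two_good hp5 ih hu hup hA hA' hind
    · obtain ⟨v1, v2, hA, hu2, h22, h12, hind⟩ := h.nil_ge4 hp5 huI hup hI h3
      exact h.good_w hp5 ih hu hup hA h22 hind
        (h.w_lemma hp5 hu hup hA.2.1 h22 h12 hA.2.2.1 hind hA.1 hu2)
  · -- Case 1
    push Not at hI
    obtain ⟨x, hx0, hxx, hux, hU⟩ := hI
    obtain ⟨y, hp⟩ := h.exists_partner h2 hx0 hxx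
    obtain ⟨a, t, hxa, hya, hadm, hform⟩ := h.UU_form' hp hU
    by_cases haa : h.B a a = 0
    · by_cases ha0 : a = 0
      · subst ha0
        by_cases hO : h.IsO
        · exfalso
          have ht : t = 0 := by
            have h1 : h.ε * t + h.σ t = - h.B 0 0 := hadm
            rw [haa, hO.1, hO.2, one_mul, neg_zero, ← two_mul] at h1
            exact (mul_eq_zero.mp h1).resolve_left h2
          apply hu1
          ext v
          rw [hform v, HF.E, ht, h.zero_left]
          simp
        · exact h.case_transv hp5 hO hp hu1 hadm hform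
      · by_cases hO : h.IsO
        · have ht : t = 0 := by
            have h1 : h.ε * t + h.σ t = - h.B a a := hadm
            rw [haa, hO.1, hO.2, one_mul, neg_zero, ← two_mul] at h1
            exact (mul_eq_zero.mp h1).resolve_left h2
          subst ht
          have hind : ∀ c : F, a ≠ c • x := by
            intro c hc
            have h1 : h.B y a = c * h.B y x := by rw [hc, h.smul_right]
            rw [hya, hp.yx] at h1
            have hc0 : c = 0 := (mul_eq_zero.mp h1.symm).resolve_right h.eps_ne
            exact ha0 (by rw [hc, hc0, zero_smul])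
          obtain ⟨w, hpw, hxw, hyw⟩ := h.exists_partner_perp h2 hp ha0 haa hxa hya
          have hf1 := h.finrank_perp2 hp
          have hpr : (h.restr hp).Pair (⟨a, hxa, hya⟩ : h.perp2 x y) ⟨w, hxw, hyw⟩ :=
            ⟨hpw.xx, hpw.yy, hpw.xy⟩
          have hf2 := (h.restr hp).finrank_perp2 hpr
          have h4 : Module.finrank F V ≠ 4 := by
            intro h4
            apply hexc
            refine ⟨hO, h4, ?_⟩
            have hax : h.B a x = 0 := h.B_symm_zero hxa
            have hua : u a = a := by
              rw [hform a, HF.E, hxa, haa]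
              simp
            intro v
            have h5 : u v - v = h.B x v • a - (h.ε * h.B a v) • x := by
              rw [hform v, HF.E]
              simp only [zero_mul, zero_smul, add_zero]
              abel
            rw [h5, map_sub, map_smul, map_smul, hua, hux]
          exact h.case_long hp5 hO (by omega) hx0 hxx hxa haa hind hform
        · exact h.case_S2 hp5 hO ih hu hup hp hxa hya haa ha0 hadm hform
    · by_cases hO : h.IsO
      · exact h.case_O3 hp5 hO hp hxa hya haa hadm hform
      · exact h.case_U3 hp5 hO hp hxa hya haa hadm hform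

theorem tt_all (hp5 : 5 ≤ p) {V : Type} [AddCommGroup V] [Module F V] [Finite V] (h : HF F V) :
    h.TT p k := tt_aux hp5 _ V h rfl

end
end HF

end Pool.Agent.Helper54.CL
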