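import Pool.Agent.Helper54.CL.Tor

/-!
# CL-09: normal subgroups of `GG`, generation by isotropic vectors, commutators in `UU x`

PROOF.
* `sum_isotropic`: let `a = p1 x y v`, `Adm a t` (`adm_exists`), `v = a + α x + β y`; the vectors `a + y + t x`, `(β - 1) y`,
  `(α - t) x` are isotropic.
* `t0_mem`: by `UU_form'`/`E_E`: let `g = E x (c a) t`, `g' = E x b s`; then `g g' g⁻¹ g'⁻¹ = E x 0 r` with
  `r = ε B(b, c a) - ε B(c a, b)`, up to the sign; if `B a b = 1` this is `± (c - ε σ c)`, and every `r` with `ε r + σ r = 0` is of the form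
  `c - ε σ c`, `c = r / 2`.  So it is enough that `M` contains, for every vector `a ⊥ x, y`, some element `E x a t`.
* `ncl_torus`: for `g = E x a t ∈ UU x` (`a ⊥ x, y`), `τ g τ⁻¹ = E (l x) a t = E x (l a) (l² t)`, and `τ g τ⁻¹ g⁻¹ = E x ((l - 1) a) t'`; so for
  every `a ⊥ x, y` some `E x a t` is in `K`.  If the form is symmetric `t` is determined by `a` (`2 t = - B a a`).
  Otherwise the `E x 0 r` are also in `K`: if `l² ≠ 1`, from `g = E x 0 t`, `τ g τ⁻¹ g⁻¹ = E x 0 ((l² - 1) t)`; if `finrank ≥ 3`,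
  `perp2 x y ≠ 0` and by `t0_mem`.  So `UU x ≤ K`.  There is `g ∈ GG` with `B x (g x) ≠ 0` (`exists_weyl`), and
  `UU (g x) ≤ K` since `K` is normalized by `g` (`UU_conj`, both directions), `GG_le_two`.
-/

set_option autoImplicit false

namespace Pool.Agent.Helper54.CL

namespace HF
section
variable {p : ℕ} [Fact p.Prime] {F V : Type} [Field F] [CharP F p] [AddCommGroup V] [Module F V]
  [FiniteDimensional F V] (h : HF F V)

theorem sum_isotropic (hp3 : 3 ≤ p) {x y : V} (hp : h.Pair x y) (v : V) :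
    ∃ a b c : V, v = a + b + c ∧ h.B a a = 0 ∧ h.B b b = 0 ∧ h.B c c = 0 := by
  obtain ⟨t, ht⟩ := h.adm_exists (two_ne (F := F) hp3) (h.p1 x y v)
  have hxa := h.p1_x hp v
  have hya := h.p1_y hp v
  have hax := h.B_symm_zero hxa
  have hay := h.B_symm_zero hya
  refine ⟨h.p1 x y v + y + t • x, (h.B x v - 1) • y, (h.ε * h.B y v - t) • x, ?_, ?_, ?_, ?_⟩
  · unfold p1
    rw [sub_smul, sub_smul, one_smul]
    abel
  · unfold Adm at ht
    simp only [h.add_left, h.add_right, h.smul_left, h.smul_right, hxa, hya, hax, hay, hp.xx, hp.yy,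
      hp.xy, hp.yx]
    linear_combination ht
  · rw [h.smul_left, h.smul_right, hp.yy, mul_zero, mul_zero]
  · rw [h.smul_left, h.smul_right, hp.xx, mul_zero, mul_zero]

/-- if `M` contains for all `a ⊥ x, y` some `E x a t` then it contains all `E x 0 r`, when `perp2 x y` is not zero -/
theorem t0_mem (hp3 : 3 ≤ p) {x y : V} (hp : h.Pair x y) (hne : ∃ v, v ≠ 0 ∧ h.B x v = 0 ∧ h.B y v = 0)
    {M : Subgroup (V ≃ₗ[F] V)}
    (hM : ∀ a, h.B x a = 0 → h.B y a = 0 → ∃ g ∈ M, ∃ t, h.Adm a t ∧ ∀ v, g v = h.E x a t v)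
    {g : V ≃ₗ[F] V} {r : F} (hr : h.Adm 0 r) (hg : ∀ v, g v = h.E x 0 r v) : g ∈ M := by
  have h2 : (2 : F) ≠ 0 := two_ne hp3
  obtain ⟨v, hv0, hxv, hyv⟩ := hne
  obtain ⟨w, hxw, hyw, hvw⟩ : ∃ w, h.B x w = 0 ∧ h.B y w = 0 ∧ h.B v w ≠ 0 := by
    by_contra hcon
    push Not at hcon
    have h1 := h.perp2_nondeg hp ⟨v, hxv, hyv⟩ (fun w => hcon _ w.2.1 w.2.2)
    exact hv0 (congrArg Subtype.val h1)
  set b : V := (h.B v w)⁻¹ • w with hb
  have hxb : h.B x b = 0 := by rw [hb, h.smul_right, hxw, mul_zero]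
  have hyb : h.B y b = 0 := by rw [hb, h.smul_right, hyw, mul_zero]
  have hvb : h.B v b = 1 := by rw [hb, h.smul_right, inv_mul_cancel₀ hvw]
  have hxcv : h.B x ((r / 2) • v) = 0 := by rw [h.smul_right, hxv, mul_zero]
  have hycv : h.B y ((r / 2) • v) = 0 := by rw [h.smul_right, hyv, mul_zero]
  obtain ⟨g1, hg1, t1, -, hg1v⟩ := hM ((r / 2) • v) hxcv hycv
  obtain ⟨g2, hg2, t2, -, hg2v⟩ := hM b hxb hyb
  have hσ2 : h.σ 2 = 2 := map_ofNat h.σ 2
  have hB1 : h.B ((r / 2) • v) b = h.σ r / 2 := by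
    rw [h.smul_left, hvb, mul_one, map_div₀, hσ2]
  have hB2 : h.B b ((r / 2) • v) = r / 2 * h.ε := by
    rw [h.smul_right, h.herm v b, hvb, map_one, mul_one]
  have hr' : h.ε * h.σ r = - r := by
    unfold Adm at hr
    rw [h.zero_left, neg_zero] at hr
    have e := h.eps
    linear_combination h.ε * hr - r * e
  have hcomm : g1 * g2 = g * (g2 * g1) := by
    ext u
    change g1 (g2 u) = g (g2 (g1 u))
    rw [hg2v, hg1v, h.E_E hp.xx hxcv hxb, hg1v, hg2v, h.E_E hp.xx hxb hxcv, hg,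
      h.E_E hp.xx (h.zero_right x) (by rw [h.add_right, hxb, hxcv, add_zero]), hB1, hB2,
      h.zero_left, zero_add, add_comm b]
    congr 1
    have e := h.eps
    have hh : r / 2 * 2 = r := div_mul_cancel₀ r h2
    linear_combination (-1 / 2 : F) * hr' + (r / 2 : F) * e + hh
  have hg' : g = g1 * g2 * (g2 * g1)⁻¹ := by
    rw [hcomm, mul_inv_cancel_right]
  rw [hg']
  exact M.mul_mem (M.mul_mem hg1 hg2) (M.inv_mem (M.mul_mem hg2 hg1))

/-- the same gives all of `UU x` -/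
theorem uu_mem (hp3 : 3 ≤ p) {x y : V} (hp : h.Pair x y)
    (hne : h.IsO ∨ ∃ v, v ≠ 0 ∧ h.B x v = 0 ∧ h.B y v = 0) {M : Subgroup (V ≃ₗ[F] V)}
    (hM : ∀ a, h.B x a = 0 → h.B y a = 0 → ∃ g ∈ M, ∃ t, h.Adm a t ∧ ∀ v, g v = h.E x a t v) :
    h.UU x ≤ M := by
  have h2 : (2 : F) ≠ 0 := two_ne hp3
  intro g hg
  obtain ⟨a, t, hxa, hya, hat, hgv⟩ := h.UU_form' hp hg
  obtain ⟨g', hg', t', hat', hgv'⟩ := hM a hxa hya
  have h0 : h.Adm 0 (t - t') := by
    unfold Adm at hat hat' ⊢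
    rw [h.zero_left, map_sub]
    linear_combination hat - hat'
  obtain ⟨g0, -, hg0v⟩ := h.exists_E hp.xx (h.zero_right x) h0
  have hgg : g = g0 * g' := by
    ext v
    change g v = g0 (g' v)
    rw [hgv', hg0v, h.E_E hp.xx (h.zero_right x) hxa, h.zero_left, hgv, zero_add]
    congr 1
    ring
  rcases hne with hO | hne
  · have htt : t = t' := by
      unfold Adm at h0
      rw [h.zero_left, hO.1, hO.2] at h0
      have h3 : 2 * (t - t') = 0 := by linear_combination h0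
      rcases mul_eq_zero.1 h3 with h4 | h4
      · exact absurd h4 h2
      · exact sub_eq_zero.1 h4
    have : g = g' := by
      ext v
      rw [hgv, hgv', htt]
    rw [this]
    exact hg'
  · rw [hgg]
    exact M.mul_mem (h.t0_mem hp3 hp hne hM h0 hg0v) hg'

theorem ncl_torus (hp5 : 5 ≤ p) (hb : h.IsO → 3 ≤ Module.finrank F V)
    {K : Subgroup (V ≃ₗ[F] V)} (hK : ∀ g ∈ h.GG p, ∀ w ∈ K, g * w * g⁻¹ ∈ K) {x y : V}
    (hp : h.Pair x y) {l : F} (hl : l ≠ 0) (hσ : h.σ l = l) (hl1 : l ≠ 1)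
    (hl2 : h.IsO ∨ l ^ 2 ≠ 1 ∨ 3 ≤ Module.finrank F V) {τ : V ≃ₗ[F] V} (hx : τ x = l • x)
    (hy : τ y = l⁻¹ • y) (hv : ∀ v, h.B x v = 0 → h.B y v = 0 → τ v = v)
    (hτ : ∀ g ∈ h.UU x, τ * g * τ⁻¹ * g⁻¹ ∈ K) : h.GG p ≤ K := by
  have hp3 : 3 ≤ p := by omega
  have h2 : (2 : F) ≠ 0 := two_ne hp3
  have hl1' : l - 1 ≠ 0 := sub_ne_zero.2 hl1
  -- the conjugate of an Eichler transformation
  have hconj : ∀ (a : V) (t : F) (g : V ≃ₗ[F] V), h.B x a = 0 → h.B y a = 0 →
      (∀ v, g v = h.E x a t v) → ∀ v, (τ * g * τ⁻¹) v = h.E x (l • a) (l ^ 2 * t) v := by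
    intro a t g hxa hya hg v
    obtain ⟨u, rfl⟩ : ∃ u, v = τ u := ⟨τ⁻¹ v, (τ.apply_symm_apply v).symm⟩
    have e0 : (τ * g * τ⁻¹) (τ u) = τ (g u) := by
      change τ (g (τ⁻¹ (τ u))) = τ (g u)
      congr 2
      exact τ.symm_apply_apply u
    have hax := h.B_symm_zero hxa
    have hay := h.B_symm_zero hya
    have hτu : τ u = h.p1 x y u + (l * (h.ε * h.B y u)) • x + (l⁻¹ * h.B x u) • y := by
      have e1 : u = h.p1 x y u + (h.ε * h.B y u) • x + (h.B x u) • y := by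
        unfold p1
        abel
      conv_lhs => rw [e1]
      rw [map_add, map_add, map_smul, map_smul, hx, hy, hv _ (h.p1_x hp u) (h.p1_y hp u),
        smul_smul, smul_smul, mul_comm (h.B x u), mul_comm _ l]
    have hBx : h.B x (τ u) = l⁻¹ * h.B x u := by
      rw [hτu, h.add_right, h.add_right, h.smul_right, h.smul_right, h.p1_x hp, hp.xx, hp.xy]
      ring
    have hBa : h.B a (τ u) = h.B a u := by
      rw [hτu, h.add_right, h.add_right, h.smul_right, h.smul_right, hax, hay, mul_zero, mul_zero,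
        add_zero, add_zero]
      unfold p1
      rw [h.sub_right, h.sub_right, h.smul_right, h.smul_right, hax, hay]
      ring
    rw [e0, hg]
    unfold E
    rw [hBx, h.smul_left, hBa, hσ]
    simp only [map_add, map_sub, map_smul, hx, hv a hxa hya, smul_smul]
    have e2 : l⁻¹ * h.B x u * l = h.B x u := by field_simp
    have e3 : l ^ 2 * t * (l⁻¹ * h.B x u) = t * h.B x u * l := by field_simp
    have e4 : h.ε * (l * h.B a u) = h.ε * h.B a u * l := by ring
    rw [e2, e3, e4]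
  -- the commutators
  have hcom : ∀ (a : V) (t : F), h.B x a = 0 → h.B y a = 0 → h.Adm a t →
      ∃ g ∈ K, ∀ v, g v = h.E x ((l - 1) • a)
        ((l ^ 2 - 1) * t + h.ε * (l - 1) * h.B a a) v := by
    intro a t hxa hya hat
    obtain ⟨g, hg, hgv⟩ := h.exists_E hp.xx hxa hat
    refine ⟨_, hτ g hg, ?_⟩
    intro v
    obtain ⟨u, rfl⟩ : ∃ u, v = g u := ⟨g⁻¹ v, (g.apply_symm_apply v).symm⟩
    have e0 : (τ * g * τ⁻¹ * g⁻¹) (g u) = (τ * g * τ⁻¹) u := by
      change (τ * g * τ⁻¹) (g⁻¹ (g u)) = (τ * g * τ⁻¹) u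
      congr 1
      exact g.symm_apply_apply u
    have hxla : h.B x ((l - 1) • a) = 0 := by rw [h.smul_right, hxa, mul_zero]
    rw [e0, hconj a t g hxa hya hgv, hgv, h.E_E hp.xx hxla hxa, h.smul_left, map_sub, map_one, hσ]
    have e1 : (l - 1) • a + a = l • a := by rw [sub_smul, one_smul, sub_add_cancel]
    rw [e1]
    congr 1
    ring
  have hσB : ∀ a, h.σ (h.B a a) = h.ε * h.B a a := by
    intro a
    have e1 := h.herm a a
    have e2 := h.eps
    linear_combination (-h.ε) * e1 - h.σ (h.B a a) * e2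
  have hM : ∀ a, h.B x a = 0 → h.B y a = 0 →
      ∃ g ∈ K, ∃ t, h.Adm a t ∧ ∀ v, g v = h.E x a t v := by
    intro a hxa hya
    obtain ⟨a', ha'⟩ : ∃ a', a' = (l - 1)⁻¹ • a := ⟨_, rfl⟩
    have hxa' : h.B x a' = 0 := by rw [ha', h.smul_right, hxa, mul_zero]
    have hya' : h.B y a' = 0 := by rw [ha', h.smul_right, hya, mul_zero]
    obtain ⟨t, ht⟩ := h.adm_exists h2 a'
    obtain ⟨g, hg, hgv⟩ := hcom a' t hxa' hya' ht
    have e : (l - 1) • a' = a := by rw [ha', smul_smul, mul_inv_cancel₀ hl1', one_smul]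
    refine ⟨g, hg, (l ^ 2 - 1) * t + h.ε * (l - 1) * h.B a' a', ?_, ?_⟩
    · rw [← e]
      unfold Adm at ht ⊢
      rw [h.smul_left, h.smul_right]
      simp only [map_add, map_sub, map_mul, map_pow, map_one, hσ, h.sig_eps, hσB]
      have e2 := h.eps
      linear_combination (l ^ 2 - 1) * ht + 2 * (l - 1) * h.B a' a' * e2
    · intro v
      rw [hgv, e]
  have hUx : h.UU x ≤ K := by
    by_cases hne : ∃ v, v ≠ 0 ∧ h.B x v = 0 ∧ h.B y v = 0
    · exact h.uu_mem hp3 hp (Or.inr hne) hM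
    · rcases hl2 with hO | hl2 | h3
      · exact h.uu_mem hp3 hp (Or.inl hO) hM
      · intro g hg
        obtain ⟨a, t, hxa, hya, hat, hgv⟩ := h.UU_form' hp hg
        have ha0 : a = 0 := by
          by_contra h0
          exact hne ⟨a, h0, hxa, hya⟩
        subst ha0
        have hl2' : l ^ 2 - 1 ≠ 0 := sub_ne_zero.2 hl2
        have hadm : h.Adm 0 ((l ^ 2 - 1)⁻¹ * t) := by
          unfold Adm at hat ⊢
          rw [h.zero_left] at hat ⊢
          simp only [map_mul, map_inv₀, map_sub, map_pow, map_one, hσ]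
          linear_combination (l ^ 2 - 1)⁻¹ * hat
        obtain ⟨g', hg', hgv'⟩ := hcom 0 _ hxa hya hadm
        have : g = g' := by
          ext v
          rw [hgv, hgv', smul_zero, h.zero_left, mul_zero, add_zero, ← mul_assoc,
            mul_inv_cancel₀ hl2', one_mul]
        rw [this]
        exact hg'
      · exfalso
        have hf := h.finrank_perp2 hp
        have hpos : 0 < Module.finrank F (h.perp2 x y) := by omega
        have hnt := Module.finrank_pos_iff.1 hpos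
        obtain ⟨⟨v, hv1, hv2⟩, hv0⟩ := exists_ne (0 : h.perp2 x y)
        exact hne ⟨v, fun h0 => hv0 (Subtype.ext h0), hv1, hv2⟩
  obtain ⟨g, hg, ⟨c, hc, hgx⟩, -⟩ := h.exists_weyl hp5 hb hp
  have hgI : g ∈ h.Iso := h.GG_le p hg
  have hUy : h.UU y ≤ K := by
    intro w hw
    rw [← h.UU_smul hc, ← hgx] at hw
    have h1 := h.UU_conj (h.Iso.inv_mem hgI) (g x) hw
    have h3 : g⁻¹ (g x) = x := g.symm_apply_apply x
    rw [h3, inv_inv] at h1
    have h4 := hK g hg _ (hUx h1)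
    have h5 : g * (g⁻¹ * w * g) * g⁻¹ = w := by group
    rwa [h5] at h4
  exact h.GG_le_two hp3 hp.xx hp.yy (by rw [hp.xy]; exact one_ne_zero) hUx hUy

end
end HF

end Pool.Agent.Helper54.CL
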