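import Pool.Agent.Helper54.CL.TwoGood

/-!
# CL-21: unipotent isometries: `N^3 ≠ 0`, and `N^3 = 0`, `N = u - 1`, general case

`hI`: `u` is in no `UU x`, `x` an isotropic fixed vector.

PROOF.  `N* = u⁻¹ - 1 = - u⁻¹ N` is the adjoint: `B (N v) w = B v (N* w)`; so `B (N^i v) (N^j w) = ± B v (u^(-i) N^(i+j) w)`, and this is `0` if
`N^(i+j) = 0`.  `N` is nilpotent: `N^p = u^p - 1 = 0`.
* `nil_ge4`: let `m ≥ 4` with `N^m = 0`, `N^(m-1) w ≠ 0`; `v1 = N^(m-1) w`, `v2 = N^(m-2) w`.  They span a totally isotropic plane since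
  `2 (m-2) ≥ m`; `u v1 = v1`, `u v2 = v2 + v1`; `v2` is not a multiple of `v1` (`N v1 = 0`, `N v2 = v1 ≠ 0`).  `u ∉ UU v1` by `hI`.  Last condition of
  `Adq` (symmetric form): find `v ⊥ v1` with `N² v = v2` (`v2` is not a multiple of `v1`): for `m ≥ 5`, `v = N^(m-4) w`
  (`(m-4) + (m-1) ≥ m`); for `m = 4`, `v = w`: `B w (N³ w) = B ((N*)³ w) w = - B (u^(-3) N³ w) w = - B (N³ w) w = - B w (N³ w)`, so it is `0`.
* `nil_le3`: the space `ker N ⊓ im N` is totally isotropic (`fixed_perp`).  It is enough to find two linearly independent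
  vectors in it (`Adq` by `hI`, the last condition is empty).  Suppose that it is contained in a line `⟨x⟩`; it is not zero
  (`exists_fixed`), `x ≠ 0` isotropic and fixed.  We show `u ∈ UU x`: let `v ⊥ x`, we need `N v ∈ ⟨x⟩`.  `N² V ≤ ker N ⊓ im N = ⟨x⟩`
  (`N³ = 0`), so `N² v = c x`.  If `N² = 0` then `N v ∈ ker N ⊓ im N`.  Otherwise `x = N² w`, after scaling, and
  `B w' (N² v) = B (N*² w') v = B (u^(-2) N² w') v = B (N² w') v ∈ ⟨B x v⟩ = 0` for all `w'`, so `N² v = 0`, and `N v ∈ ker N ⊓ im N = ⟨x⟩`.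
-/

set_option autoImplicit false

namespace Pool.Agent.Helper54.CL

/-- `u - 1` -/
def nn {F V : Type} [Field F] [AddCommGroup V] [Module F V] (u : V ≃ₗ[F] V) : V →ₗ[F] V :=
  (u : V →ₗ[F] V) - LinearMap.id

theorem nn_apply {F V : Type} [Field F] [AddCommGroup V] [Module F V] (u : V ≃ₗ[F] V) (v : V) :
    nn u v = u v - v := rfl

section
variable {F V : Type} [Field F] [AddCommGroup V] [Module F V]

private theorem na_comm (u : V ≃ₗ[F] V) (z : V) : nn u (u⁻¹ z) = u⁻¹ (nn u z) := by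
  have h1 : u (u⁻¹ z) = z := u.apply_symm_apply z
  have h2 : u⁻¹ (u z) = z := u.symm_apply_apply z
  rw [nn_apply, nn_apply, map_sub, h1, h2]

private theorem na_adj (h : HF F V) {u : V ≃ₗ[F] V} (hu : u ∈ h.Iso) (v w : V) :
    h.B (nn u v) w = - h.B v (nn u (u⁻¹ w)) := by
  have h1 : u (u⁻¹ w) = w := u.apply_symm_apply w
  have h2 := hu v (u⁻¹ w)
  rw [h1] at h2
  rw [nn_apply, nn_apply, h.sub_left, h.sub_right, h1, h2]
  ring

private theorem na_pow_comm (u : V ≃ₗ[F] V) (j : ℕ) (z : V) :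
    ((nn u) ^ j) (u⁻¹ z) = u⁻¹ (((nn u) ^ j) z) := by
  induction j with
  | zero => rfl
  | succ j ih => rw [pow_succ', Module.End.mul_apply, Module.End.mul_apply, ih, na_comm]

private theorem na_succ (u : V ≃ₗ[F] V) (j : ℕ) (z : V) :
    ((nn u) ^ (j + 1)) z = nn u (((nn u) ^ j) z) := by
  rw [pow_succ', Module.End.mul_apply]

private theorem na_zero (h : HF F V) {u : V ≃ₗ[F] V} (hu : u ∈ h.Iso) (i : ℕ) :
    ∀ j, (nn u) ^ (i + j) = 0 → ∀ v w, h.B (((nn u) ^ i) v) (((nn u) ^ j) w) = 0 := by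
  induction i with
  | zero =>
    intro j hj v w
    rw [zero_add] at hj
    rw [hj, LinearMap.zero_apply, h.zero_right]
  | succ i ih =>
    intro j hj v w
    rw [na_succ, na_adj h hu, ← na_pow_comm, ← na_succ, ih (j + 1) (by
      rw [← hj]
      congr 1
      omega), neg_zero]

private theorem na_zero' (h : HF F V) {u : V ≃ₗ[F] V} (hu : u ∈ h.Iso) {m i j : ℕ}
    (hm : (nn u) ^ m = 0) (hij : m ≤ i + j) (v w : V) :
    h.B (((nn u) ^ i) v) (((nn u) ^ j) w) = 0 := by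
  apply na_zero h hu
  obtain ⟨d, hd⟩ := Nat.exists_eq_add_of_le hij
  rw [hd, pow_add, hm, zero_mul]

private theorem na_coe_pow (u : V ≃ₗ[F] V) (n : ℕ) (v : V) :
    ((u : Module.End F V) ^ n) v = (u ^ n) v := by
  induction n with
  | zero => rfl
  | succ n ih =>
    rw [pow_succ', Module.End.mul_apply, ih, pow_succ']
    rfl

private theorem na_nilp {p : ℕ} [Fact p.Prime] [CharP F p] {u : V ≃ₗ[F] V} (hup : u ^ p = 1) :
    (nn u) ^ p = 0 := by
  rcases subsingleton_or_nontrivial V with hV | hV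
  · ext v
    exact Subsingleton.elim _ _
  · haveI : CharP (Module.End F V) p :=
      charP_of_injective_algebraMap (algebraMap F (Module.End F V)).injective p
    have h1 : nn u = (u : Module.End F V) - 1 := rfl
    have h2 : ((u : Module.End F V) - 1) ^ p = (u : Module.End F V) ^ p - 1 ^ p :=
      sub_pow_char_of_commute p (Commute.one_right (u : Module.End F V))
    rw [h1, h2, one_pow]
    ext v
    rw [LinearMap.sub_apply, na_coe_pow, hup]
    show v - v = 0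
    exact sub_self v

end

namespace HF
section
variable {p : ℕ} [Fact p.Prime] {F V : Type} [Field F] [CharP F p] [AddCommGroup V] [Module F V]
  [FiniteDimensional F V] (h : HF F V)

theorem nil_ge4 (hp5 : 5 ≤ p) {u : V ≃ₗ[F] V} (hu : u ∈ h.Iso) (hup : u ^ p = 1)
    (hI : ∀ x, x ≠ 0 → h.B x x = 0 → u x = x → u ∉ h.UU x) (h4 : (nn u) ^ 3 ≠ 0) :
    ∃ v1 v2, h.Adq u v1 ∧ u v2 = v2 + v1 ∧ h.B v2 v2 = 0 ∧ h.B v1 v2 = 0 ∧
      ∀ c : F, v2 ≠ c • v1 := by
  classical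
  have h2 : (2 : F) ≠ 0 := two_ne (p := p) (by omega)
  have hex : ∃ m, (nn u) ^ m = 0 := ⟨p, na_nilp hup⟩
  obtain ⟨m, hm, hmin⟩ : ∃ m, (nn u) ^ m = 0 ∧ ∀ k, k < m → (nn u) ^ k ≠ 0 :=
    ⟨Nat.find hex, Nat.find_spec hex, fun k hk => Nat.find_min hex hk⟩
  have hm4 : 4 ≤ m := by
    by_contra hlt
    apply h4
    obtain ⟨d, hd⟩ := Nat.exists_eq_add_of_le (show m ≤ 3 by omega)
    rw [hd, pow_add, hm, zero_mul]
  obtain ⟨n, rfl⟩ : ∃ n, m = n + 4 := ⟨m - 4, by omega⟩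
  have hne := hmin (n + 3) (by omega)
  obtain ⟨w, hw⟩ : ∃ w, ((nn u) ^ (n + 3)) w ≠ 0 := by
    by_contra hcon
    push Not at hcon
    exact hne (LinearMap.ext hcon)
  obtain ⟨v1, hv1⟩ : ∃ v1, v1 = ((nn u) ^ (n + 3)) w := ⟨_, rfl⟩
  obtain ⟨v2, hv2⟩ : ∃ v2, v2 = ((nn u) ^ (n + 2)) w := ⟨_, rfl⟩
  have e21 : nn u v2 = v1 := by rw [hv2, hv1, ← na_succ]
  have e10 : nn u v1 = 0 := by
    rw [hv1, ← na_succ, hm, LinearMap.zero_apply]
  have hv10 : v1 ≠ 0 := by rw [hv1]; exact hw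
  have hind : ∀ c : F, v2 ≠ c • v1 := by
    intro c hc
    apply hv10
    rw [← e21, hc, map_smul, e10, smul_zero]
  have hu1 : u v1 = v1 := by
    have := e10
    rw [nn_apply, sub_eq_zero] at this
    exact this
  have hu2 : u v2 = v2 + v1 := by
    have := e21
    rw [nn_apply, sub_eq_iff_eq_add] at this
    rw [this, add_comm]
  have b11 : h.B v1 v1 = 0 := by
    rw [hv1]
    exact na_zero' h hu hm (by omega) w w
  have b12 : h.B v1 v2 = 0 := by
    rw [hv1, hv2]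
    exact na_zero' h hu hm (by omega) w w
  have b22 : h.B v2 v2 = 0 := by
    rw [hv2]
    exact na_zero' h hu hm (by omega) w w
  refine ⟨v1, v2, ⟨hu1, b11, hv10, hI v1 hv10 b11 hu1, ?_⟩, hu2, b22, b12, hind⟩
  intro hO _
  rcases Nat.eq_zero_or_pos n with hn | hn
  · -- n = 0: v = w
    subst hn
    have hsy : ∀ x y : V, h.B y x = h.B x y := by
      intro x y
      rw [h.herm x y, hO.1, hO.2, one_mul]
    have eN : v1 = nn u (nn u (nn u w)) := by
      rw [hv1]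
      show ((nn u) ^ (0 + 1 + 1 + 1)) w = _
      rw [na_succ, na_succ, na_succ, pow_zero]
      rfl
    refine ⟨w, ?_, ?_⟩
    · have f1 : h.B v1 w = - h.B w (nn u (nn u (nn u (u⁻¹ (u⁻¹ (u⁻¹ w)))))) := by
        have g1 : nn u (u⁻¹ (nn u (u⁻¹ (nn u (u⁻¹ w))))) =
            nn u (nn u (nn u (u⁻¹ (u⁻¹ (u⁻¹ w))))) := by
          simp only [na_comm]
        rw [eN, na_adj h hu, na_adj h hu, na_adj h hu, g1, neg_neg]
      have f2 : u⁻¹ v1 = v1 := by
        have := u.symm_apply_apply v1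
        rw [hu1] at this
        exact this
      have f3 : nn u (nn u (nn u (u⁻¹ (u⁻¹ (u⁻¹ w))))) = v1 := by
        simp only [na_comm]
        rw [← eN, f2, f2, f2]
      rw [f3, hsy v1 w] at f1
      have f4 : 2 * h.B v1 w = 0 := by linear_combination f1
      exact (mul_eq_zero.1 f4).resolve_left h2
    · intro c hc
      apply hind c
      rw [hv2, ← hc]
      show ((nn u) ^ (0 + 1 + 1)) w = _
      rw [na_succ, na_succ, pow_zero]
      rfl
  · obtain ⟨d, rfl⟩ : ∃ d, n = d + 1 := ⟨n - 1, by omega⟩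
    refine ⟨((nn u) ^ (d + 1)) w, ?_, ?_⟩
    · rw [hv1]
      exact na_zero' h hu hm (by omega) w w
    · intro c hc
      apply hind c
      rw [hv2, ← hc]
      show ((nn u) ^ (d + 1 + 1 + 1)) w = _
      rw [na_succ, na_succ]
      rfl

theorem nil_le3 (hp5 : 5 ≤ p) {u : V ≃ₗ[F] V} (hu : u ∈ h.Iso) (hup : u ^ p = 1) (hu1 : u ≠ 1)
    (hI : ∀ x, x ≠ 0 → h.B x x = 0 → u x = x → u ∉ h.UU x) (h3 : (nn u) ^ 3 = 0)
    (hO : ¬ (h.IsO ∧ Module.finrank F V = 6)) :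
    ∃ x x', h.Adq u x ∧ h.Adq u x' ∧ ∀ c : F, x' ≠ c • x := by
  obtain ⟨x, w0, hx0, hxx, hux, hxw⟩ := h.exists_fixed (p := p) hu (n := 1)
    (by rw [pow_one]; exact hup) hu1
  have hN3 : ∀ z, nn u (nn u (nn u z)) = 0 := by
    intro z
    have e1 : ((nn u) ^ 3) z = 0 := by rw [h3, LinearMap.zero_apply]
    have e2 : ((nn u) ^ (0 + 1 + 1 + 1)) z = 0 := e1
    rw [na_succ, na_succ, na_succ, pow_zero] at e2
    exact e2
  have hfix : ∀ z, nn u z = 0 → u z = z := by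
    intro z hz
    rw [nn_apply, sub_eq_zero] at hz
    exact hz
  by_cases hex : ∃ x' w', u x' = x' ∧ x' = nn u w' ∧ ∀ c : F, x' ≠ c • x
  · obtain ⟨x', w', h1, h2, h4⟩ := hex
    have hx'0 : x' ≠ 0 := by
      have := h4 0
      rwa [zero_smul] at this
    have hx'x' : h.B x' x' = 0 := by
      have := h.fixed_perp hu h1 w'
      rw [← nn_apply, ← h2] at this
      exact this
    exact ⟨x, x', ⟨hux, hxx, hx0, hI x hx0 hxx hux, fun a b => absurd ⟨a, b⟩ hO⟩,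
      ⟨h1, hx'x', hx'0, hI x' hx'0 hx'x' h1, fun a b => absurd ⟨a, b⟩ hO⟩, h4⟩
  · exfalso
    push Not at hex
    refine hI x hx0 hxx hux ⟨hu, hux, ?_⟩
    intro v hv
    have hN2 : nn u (nn u v) = 0 := by
      apply h.nondeg
      intro y
      rw [na_adj h hu, na_adj h hu, neg_neg]
      have e1 : nn u (u⁻¹ (nn u (u⁻¹ y))) = nn u (nn u (u⁻¹ (u⁻¹ y))) := by
        rw [na_comm u (u⁻¹ y)]
      rw [e1]
      obtain ⟨c, hc⟩ := hex (nn u (nn u (u⁻¹ (u⁻¹ y)))) (nn u (u⁻¹ (u⁻¹ y)))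
        (hfix _ (hN3 _)) rfl
      rw [hc, h.smul_right, h.B_symm_zero hv, mul_zero]
    obtain ⟨c, hc⟩ := hex (nn u v) v (hfix _ hN2) rfl
    refine ⟨c, ?_⟩
    rw [← hc, nn_apply]
    abel

end
end HF

end Pool.Agent.Helper54.CL
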