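import Pool.Agent.Helper54.CL.PiTwo

/-!
# CL-07: `PSL_2` of the fixed field in `GG`, acting on a nondegenerate 3-space

Let `Pair x y`, `e ⊥ x, y`, `γ = B e e ≠ 0` (so `σ γ = ε γ`), `t = - ε / (2 γ)`; `σ t = ε t`, `t⁻¹ = - 2 ε γ`.

PROOF.  The representation of `SL_2` on quadratic forms, in the basis `x = t X²`, `e = X Y`, `y = Y²`:
`π g x = a² x + 2 a c t e + c² t y`, `π g e = (a b t⁻¹) x + (a d + b c) e + c d y`, `π g y = b² t⁻¹ x + 2 b d e + d² y`, `π g v = v` for
`v ⊥ x, e, y`; coordinates of `v`: `B x v` (for `y`), `ε B y v` (for `x`), `γ⁻¹ B e v` (for `e`).  Multiplicative: polynomial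
identities.  Isometry: check the values on the basis (use `σ` = identity on the entries of `g`, `σ t = ε t`, `γ t = - ε / 2`, and
`a d - b c = 1`).  Range in `GG`: the images of the elementary matrices are `E x (2 b e) (b² t⁻¹)` in `UU x` and
`E y (2 ε c t e) (ε c² t)` in `UU y` (check `mem_UU` directly); `sl_gen` for `m = 2`.
-/

set_option autoImplicit false

namespace Pool.Agent.Helper54.CL

namespace HF
section
variable {F V : Type} [Field F] [AddCommGroup V] [Module F V] (h : HF F V)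

/-- the quadratic-form representation, as a linear map of the whole space -/
private def T3 (x y e : V) (t a b c d : F) : V →ₗ[F] V where
  toFun v := v +
    ((a ^ 2 - 1) * (h.ε * h.B y v) + a * b * t⁻¹ * ((h.B e e)⁻¹ * h.B e v) +
      b ^ 2 * t⁻¹ * h.B x v) • x +
    (2 * a * c * t * (h.ε * h.B y v) + (a * d + b * c - 1) * ((h.B e e)⁻¹ * h.B e v) +
      2 * b * d * h.B x v) • e +
    (c ^ 2 * t * (h.ε * h.B y v) + c * d * ((h.B e e)⁻¹ * h.B e v) +
      (d ^ 2 - 1) * h.B x v) • y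
  map_add' v w := by
    simp only [h.add_right]
    module
  map_smul' r v := by
    simp only [h.smul_right, RingHom.id_apply]
    module

private lemma T3_apply (x y e : V) (t a b c d : F) (v : V) : h.T3 x y e t a b c d v = v +
    ((a ^ 2 - 1) * (h.ε * h.B y v) + a * b * t⁻¹ * ((h.B e e)⁻¹ * h.B e v) +
      b ^ 2 * t⁻¹ * h.B x v) • x +
    (2 * a * c * t * (h.ε * h.B y v) + (a * d + b * c - 1) * ((h.B e e)⁻¹ * h.B e v) +
      2 * b * d * h.B x v) • e +
    (c ^ 2 * t * (h.ε * h.B y v) + c * d * ((h.B e e)⁻¹ * h.B e v) +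
      (d ^ 2 - 1) * h.B x v) • y := rfl

private lemma T3_one (x y e : V) (t : F) : h.T3 x y e t 1 0 0 1 = 1 := by
  ext v
  rw [T3_apply]
  simp

private lemma T3_mul {x y e : V} (hp : h.Pair x y) (hxe : h.B x e = 0) (hye : h.B y e = 0)
    (hee : h.B e e ≠ 0) {t : F} (ht : t ≠ 0) (a b c d a' b' c' d' : F) :
    h.T3 x y e t a b c d * h.T3 x y e t a' b' c' d' =
      h.T3 x y e t (a * a' + b * c') (a * b' + b * d') (c * a' + d * c') (c * b' + d * d') := by
  have hex : h.B e x = 0 := h.B_symm_zero hxe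
  have hey : h.B e y = 0 := h.B_symm_zero hye
  ext v
  show h.T3 x y e t a b c d (h.T3 x y e t a' b' c' d' v) = _
  have h1 : h.B x (h.T3 x y e t a' b' c' d' v) = h.B x v +
      (c' ^ 2 * t * (h.ε * h.B y v) + c' * d' * ((h.B e e)⁻¹ * h.B e v) +
      (d' ^ 2 - 1) * h.B x v) := by
    rw [T3_apply]
    simp only [h.add_right, h.smul_right, hp.xx, hxe, hp.xy]
    ring
  have h2 : h.ε * h.B y (h.T3 x y e t a' b' c' d' v) = h.ε * h.B y v +
      ((a' ^ 2 - 1) * (h.ε * h.B y v) + a' * b' * t⁻¹ * ((h.B e e)⁻¹ * h.B e v) +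
      b' ^ 2 * t⁻¹ * h.B x v) := by
    rw [T3_apply]
    simp only [h.add_right, h.smul_right, hp.yy, hye, hp.yx]
    linear_combination ((a' ^ 2 - 1) * (h.ε * h.B y v) + a' * b' * t⁻¹ * ((h.B e e)⁻¹ * h.B e v) +
      b' ^ 2 * t⁻¹ * h.B x v) * h.eps
  have h3 : (h.B e e)⁻¹ * h.B e (h.T3 x y e t a' b' c' d' v) = (h.B e e)⁻¹ * h.B e v +
      (2 * a' * c' * t * (h.ε * h.B y v) + (a' * d' + b' * c' - 1) * ((h.B e e)⁻¹ * h.B e v) +
      2 * b' * d' * h.B x v) := by
    rw [T3_apply]
    simp only [h.add_right, h.smul_right, hex, hey]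
    field_simp
    ring
  have h4 : t⁻¹ * t = 1 := inv_mul_cancel₀ ht
  rw [h.T3_apply x y e t a b c d, h1, h2, h3, h.T3_apply x y e t a' b' c' d' v,
    h.T3_apply x y e t (a * a' + b * c')]
  generalize h.ε * h.B y v = A
  generalize (h.B e e)⁻¹ * h.B e v = D
  generalize h.B x v = Y
  generalize t⁻¹ = s at *
  match_scalars
  · ring
  · linear_combination (2 * a * b * a' * c' * A + b ^ 2 * c' ^ 2 * A) * h4
  · linear_combination (2 * a * c * a' * b' * D + 2 * a * c * b' ^ 2 * Y) * h4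
  · linear_combination (c ^ 2 * a' * b' * D + c ^ 2 * b' ^ 2 * Y) * h4

end

private def uu2 {K : Type} [Field K] (b : K) : Matrix.SpecialLinearGroup (Fin 2) K :=
  ⟨!![1, b; 0, 1], by simp [Matrix.det_fin_two]⟩

private def ll2 {K : Type} [Field K] (c : K) : Matrix.SpecialLinearGroup (Fin 2) K :=
  ⟨!![1, 0; c, 1], by simp [Matrix.det_fin_two]⟩

private lemma sl2_gen {K : Type} [Field K] (M : Subgroup (Matrix.SpecialLinearGroup (Fin 2) K))
    (hU : ∀ b : K, uu2 b ∈ M) (hL : ∀ c : K, ll2 c ∈ M) : M = ⊤ := by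
  rw [eq_top_iff]
  have key : ∀ g : Matrix.SpecialLinearGroup (Fin 2) K,
      (g : Matrix (Fin 2) (Fin 2) K) 1 0 ≠ 0 → g ∈ M := by
    intro g hc
    have hdet := g.det_coe
    rw [Matrix.det_fin_two] at hdet
    have e1 : g = uu2 (((g : Matrix (Fin 2) (Fin 2) K) 0 0 - 1) /
          (g : Matrix (Fin 2) (Fin 2) K) 1 0) * ll2 ((g : Matrix (Fin 2) (Fin 2) K) 1 0) *
        uu2 (((g : Matrix (Fin 2) (Fin 2) K) 1 1 - 1) /
          (g : Matrix (Fin 2) (Fin 2) K) 1 0) := by
      ext i j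
      fin_cases i <;> fin_cases j
      · simp [uu2, ll2, Matrix.mul_apply, Fin.sum_univ_two]
        field_simp
        ring
      · simp [uu2, ll2, Matrix.mul_apply, Fin.sum_univ_two]
        field_simp
        linear_combination -hdet
      · simp [uu2, ll2, Matrix.mul_apply, Fin.sum_univ_two]
      · simp [uu2, ll2, Matrix.mul_apply, Fin.sum_univ_two]
        field_simp
        ring
    rw [e1]
    exact M.mul_mem (M.mul_mem (hU _) (hL _)) (hU _)
  intro g _
  by_cases hc : (g : Matrix (Fin 2) (Fin 2) K) 1 0 = 0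
  · have hdet := g.det_coe
    rw [Matrix.det_fin_two, hc, mul_zero, sub_zero] at hdet
    have h1 : g * ll2 1 ∈ M := by
      apply key
      simp [ll2, Matrix.mul_apply, Fin.sum_univ_two, hc]
      intro h0
      rw [h0, mul_zero] at hdet
      exact zero_ne_one hdet
    have := M.mul_mem h1 (M.inv_mem (hL 1))
    rwa [mul_inv_cancel_right] at this
  · exact key g hc

section
variable {p : ℕ} [Fact p.Prime] {F V : Type} [Field F] [CharP F p] [AddCommGroup V] [Module F V]
  (h : HF F V)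

theorem exists_pi3 (hp3 : 3 ≤ p) {x y e : V} (hp : h.Pair x y) (hxe : h.B x e = 0)
    (hye : h.B y e = 0) (hee : h.B e e ≠ 0) {t : F} (ht : 2 * h.B e e * t = - h.ε) :
    ∃ π : Matrix.SpecialLinearGroup (Fin 2) h.F0 →* (V ≃ₗ[F] V), π.range ≤ h.GG p ∧
      (∀ g : Matrix.SpecialLinearGroup (Fin 2) h.F0, ∀ a b c d : h.F0,
        (g : Matrix (Fin 2) (Fin 2) h.F0) = !![a, b; c, d] →
        π g x = ((a : F) ^ 2) • x + (2 * a * c * t : F) • e + ((c : F) ^ 2 * t) • y ∧
        π g e = ((a : F) * b * t⁻¹) • x + ((a : F) * d + b * c) • e + ((c : F) * d) • y ∧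
        π g y = ((b : F) ^ 2 * t⁻¹) • x + (2 * b * d : F) • e + ((d : F) ^ 2) • y) ∧
      (∀ (g : Matrix.SpecialLinearGroup (Fin 2) h.F0) (v : V), h.B x v = 0 → h.B y v = 0 →
        h.B e v = 0 → π g v = v) := by
  have h2 : (2 : F) ≠ 0 := two_ne hp3
  have ht0 : t ≠ 0 := by
    rintro rfl
    rw [mul_zero] at ht
    exact h.eps_ne (neg_eq_zero.1 ht.symm)
  have hex : h.B e x = 0 := h.B_symm_zero hxe
  have hey : h.B e y = 0 := h.B_symm_zero hye
  have hti : t⁻¹ = - (2 * h.ε * h.B e e) := by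
    rw [inv_eq_iff_eq_inv]
    apply eq_inv_of_mul_eq_one_left
    linear_combination (- h.ε) * ht + h.eps
  have hγ : h.σ (h.B e e) = h.ε * h.B e e := by
    linear_combination (- h.ε) * h.herm e e - h.σ (h.B e e) * h.eps
  have hgi : (h.B e e)⁻¹ = - (2 * h.ε * t) := by
    rw [inv_eq_iff_eq_inv]
    apply eq_inv_of_mul_eq_one_left
    linear_combination (- h.ε) * ht + h.eps
  have hσt : h.σ t = h.ε * t := by
    have h3 : h.σ (2 * h.B e e * t) = h.σ (- h.ε) := by rw [ht]
    rw [map_mul, map_mul, hγ, map_neg, h.sig_eps, map_ofNat] at h3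
    have h4 : (2 * h.B e e) * (h.σ t - h.ε * t) = 0 := by
      linear_combination h.ε * h3 - (2 * h.B e e * h.σ t) * h.eps - h.ε * ht
    rcases mul_eq_zero.1 h4 with h5 | h5
    · exact absurd h5 (mul_ne_zero h2 hee)
    · exact sub_eq_zero.1 h5
  have hF0 : ∀ c : h.F0, h.σ (c : F) = (c : F) := fun c => c.2
  -- the homomorphism to the linear maps
  let f : Matrix.SpecialLinearGroup (Fin 2) h.F0 →* (V →ₗ[F] V) :=
    { toFun := fun g => h.T3 x y e t ((g : Matrix (Fin 2) (Fin 2) h.F0) 0 0 : F)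
        ((g : Matrix (Fin 2) (Fin 2) h.F0) 0 1 : F) ((g : Matrix (Fin 2) (Fin 2) h.F0) 1 0 : F)
        ((g : Matrix (Fin 2) (Fin 2) h.F0) 1 1 : F)
      map_one' := by
        simpa using h.T3_one x y e t
      map_mul' := by
        intro g g'
        rw [h.T3_mul hp hxe hye hee ht0]
        simp [Matrix.mul_apply, Fin.sum_univ_two] }
  let π : Matrix.SpecialLinearGroup (Fin 2) h.F0 →* (V ≃ₗ[F] V) :=
    (LinearMap.GeneralLinearGroup.generalLinearEquiv F V).toMonoidHom.comp f.toHomUnits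
  have hπ : ∀ (g : Matrix.SpecialLinearGroup (Fin 2) h.F0) (v : V), π g v =
      h.T3 x y e t ((g : Matrix (Fin 2) (Fin 2) h.F0) 0 0 : F)
        ((g : Matrix (Fin 2) (Fin 2) h.F0) 0 1 : F) ((g : Matrix (Fin 2) (Fin 2) h.F0) 1 0 : F)
        ((g : Matrix (Fin 2) (Fin 2) h.F0) 1 1 : F) v := fun g v => rfl
  refine ⟨π, ?_, ?_, ?_⟩
  · have hyx : h.Pair y (h.ε • x) := ⟨hp.yy, by rw [h.smul_left, h.smul_right, hp.xx]; ring,
      by rw [h.smul_right, hp.yx, h.eps]⟩
    have hU : ∀ b : h.F0, π (uu2 b) ∈ h.GG p := by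
      intro b
      have hadm : h.Adm ((2 * (b : F)) • e) ((b : F) ^ 2 * t⁻¹) := by
        unfold Adm
        rw [h.smul_left, h.smul_right, map_mul, map_mul, map_pow, map_ofNat, hF0, map_inv₀, hσt,
          mul_inv, hti]
        have h6 : h.ε⁻¹ = h.ε := inv_eq_of_mul_eq_one_left h.eps
        rw [h6]
        linear_combination (- 4 * (b : F) ^ 2 * h.B e e) * h.eps
      obtain ⟨g, hg, hg'⟩ := h.exists_E hp.xx (a := (2 * (b : F)) • e)
        (by rw [h.smul_right, hxe, mul_zero]) hadm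
      have : π (uu2 b) = g := by
        ext v
        rw [hπ, hg', T3_apply, E]
        simp only [uu2, h.smul_left, map_mul, map_ofNat, hF0, Matrix.of_apply, Matrix.cons_val_zero,
          Matrix.cons_val_one, Matrix.cons_val', Matrix.empty_val', Matrix.cons_val_fin_one,
          OneMemClass.coe_one, ZeroMemClass.coe_zero, hti]
        match_scalars
        · ring
        · field_simp
          ring
        · ring
        · ring
      rw [this]
      exact h.UU_le_GG hp3 hp hg
    have hL : ∀ c : h.F0, π (ll2 c) ∈ h.GG p := by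
      intro c
      have hadm : h.Adm ((2 * h.ε * (c : F) * t) • e) (h.ε * (c : F) ^ 2 * t) := by
        unfold Adm
        rw [h.smul_left, h.smul_right]
        simp only [map_mul, map_pow, map_ofNat, hF0, hσt, h.sig_eps]
        linear_combination (- 2 * h.ε ^ 2 * (c : F) ^ 2 * t) * h.eps +
          (2 * h.ε ^ 3 * (c : F) ^ 2 * t) * ht
      obtain ⟨g, hg, hg'⟩ := h.exists_E hp.yy (a := (2 * h.ε * (c : F) * t) • e)
        (by rw [h.smul_right, hye, mul_zero]) hadm
      have : π (ll2 c) = g := by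
        ext v
        rw [hπ, hg', T3_apply, E]
        simp only [ll2, h.smul_left, map_mul, map_ofNat, hF0, hσt, h.sig_eps, Matrix.of_apply,
          Matrix.cons_val_zero,
          Matrix.cons_val_one, Matrix.cons_val', Matrix.empty_val', Matrix.cons_val_fin_one,
          OneMemClass.coe_one, ZeroMemClass.coe_zero, hgi]
        match_scalars
        · ring
        · ring
        · ring
        · linear_combination (2 * h.ε * (c : F) * t * h.B e v) * h.eps
      rw [this]
      exact h.UU_le_GG hp3 hyx hg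
    have h4 : (h.GG p).comap π = ⊤ := sl2_gen _ hU hL
    rintro _ ⟨g, rfl⟩
    have h5 : g ∈ (h.GG p).comap π := by
      rw [h4]
      exact Subgroup.mem_top g
    exact h5
  · intro g a b c d hg
    refine ⟨?_, ?_, ?_⟩
    · rw [hπ, hg, T3_apply, hp.yx, hp.xx, hex]
      simp [h.eps]
      module
    · rw [hπ, hg, T3_apply, hxe, hye]
      simp [hee]
      module
    · rw [hπ, hg, T3_apply, hp.yy, hp.xy, hey]
      simp
      module
  · intro g v hx hy he
    rw [hπ, T3_apply, hx, hy, he]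
    simp

end
end HF

end Pool.Agent.Helper54.CL
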