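import Pool.Agent.Helper54.CL.Gen
import Pool.Agent.Helper54.PR.SLQuasi

/-!
# CL-06: `SL_2` of the fixed field in `GG`, when the form is not symmetric

Let `Pair x y`, `κ ≠ 0`, `ε κ + σ κ = 0`.

PROOF.
* `exists_kappa`: if `ε = -1` take `κ = 1`; if `ε = 1` there is `c` with `σ c ≠ c`, `κ = c - σ c`.  (`ε² = 1`, so `ε = ± 1`.)
* `exists_pi2`: write `v = α x + β y + v1`, `v1 ⊥ x, y`, `α = ε B y v`, `β = B x v`.  `π g v = (a α + b κ β) x + (c κ⁻¹ α + d β) y + v1`.
  Multiplicative and bijective: on the span of `x, y` it is the matrix product conjugated by `diag(1, κ)`.  Isometry: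
  `B (π g x) (π g x) = a c κ⁻¹ + σ(c κ⁻¹) a ε = 0` because `σ(κ⁻¹) = -ε κ⁻¹` and `σ` fixes the entries of `g`; similarly
  `B (π g x) (π g y) = a d + σ(c κ⁻¹) b κ ε = a d - b c = 1`.
* the last statement, and range in `GG`: by `sl_gen` of PR/SLQuasi.lean (or Mathlib) `SL_2` is generated by the elementary matrices; their images are
  `E x 0 (b κ)` and `E y 0 (ε c κ⁻¹)`, which are in `UU x`, `UU y` (`mem_UU` directly), `UU_le_GG`.
-/

set_option autoImplicit false

namespace Pool.Agent.Helper54.CL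

namespace HF

instance finite_F0 {F V : Type} [Field F] [Finite F] [AddCommGroup V] [Module F V] (h : HF F V) :
    Finite h.F0 := Finite.of_injective (fun x : h.F0 => (x : F)) Subtype.val_injective

instance charP_F0 {p : ℕ} {F V : Type} [Field F] [CharP F p] [AddCommGroup V] [Module F V]
    (h : HF F V) : CharP h.F0 p :=
  RingHom.charP h.F0.subtype Subtype.val_injective p

section
variable {p : ℕ} [Fact p.Prime] {F V : Type} [Field F] [CharP F p] [AddCommGroup V] [Module F V]
  (h : HF F V)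

theorem exists_kappa (hp3 : 3 ≤ p) (hO : ¬ h.IsO) : ∃ κ : F, κ ≠ 0 ∧ h.ε * κ + h.σ κ = 0 := by
  rcases mul_self_eq_one_iff.1 h.eps with he | he
  · have hc : ∃ c, h.σ c ≠ c := by
      by_contra hcon
      push Not at hcon
      exact hO ⟨hcon, he⟩
    obtain ⟨c, hc⟩ := hc
    refine ⟨c - h.σ c, sub_ne_zero_of_ne (Ne.symm hc), ?_⟩
    rw [he, map_sub, h.invol]
    ring
  · refine ⟨1, one_ne_zero, ?_⟩
    rw [he, map_one]
    ring

end

section aux
variable {F V : Type} [Field F] [AddCommGroup V] [Module F V] (h : HF F V)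

private def tfun (x y : V) (a b c d : F) (v : V) : V :=
  v + ((a - 1) * (h.ε * h.B y v) + b * h.B x v) • x + (c * (h.ε * h.B y v) + (d - 1) * h.B x v) • y

private theorem B_tfun_x {x y : V} (hp : h.Pair x y) (a b c d : F) (v : V) :
    h.B x (tfun h x y a b c d v) = c * (h.ε * h.B y v) + d * h.B x v := by
  rw [tfun, h.add_right, h.add_right, h.smul_right, h.smul_right, hp.xx, hp.xy]
  ring

private theorem B_tfun_y {x y : V} (hp : h.Pair x y) (a b c d : F) (v : V) :
    h.ε * h.B y (tfun h x y a b c d v) = a * (h.ε * h.B y v) + b * h.B x v := by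
  rw [tfun, h.add_right, h.add_right, h.smul_right, h.smul_right, hp.yy, hp.yx]
  linear_combination ((a - 1) * (h.ε * h.B y v) + b * h.B x v) * h.eps

private theorem tfun_tfun {x y : V} (hp : h.Pair x y) (a b c d a' b' c' d' : F) (v : V) :
    tfun h x y a b c d (tfun h x y a' b' c' d' v) =
      tfun h x y (a * a' + b * c') (a * b' + b * d') (c * a' + d * c') (c * b' + d * d') v := by
  conv_lhs => rw [tfun, B_tfun_x h hp, B_tfun_y h hp]
  unfold tfun
  module

private theorem tfun_one {x y : V} (v : V) : tfun h x y 1 0 0 1 v = v := by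
  unfold tfun
  module

private theorem tfun_iso {x y : V} (hp : h.Pair x y) {a b c d : F} (ha : h.σ a = a)
    (hb : h.σ b = - h.ε * b) (hc : h.σ c = - h.ε * c) (hd : h.σ d = d) (hdet : a * d - b * c = 1)
    (v w : V) : h.B (tfun h x y a b c d v) (tfun h x y a b c d w) = h.B v w := by
  have e1 : h.B v x = h.ε * h.σ (h.B x v) := h.herm x v
  have e2 : h.B v y = h.ε * h.σ (h.B y v) := h.herm y v
  have hE := h.eps
  unfold tfun
  simp only [h.add_left, h.add_right, h.smul_left, h.smul_right, hp.xx, hp.yy, hp.xy, hp.yx,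
    e1, e2, map_add, map_mul, map_sub, map_one, ha, hb, hc, hd, h.sig_eps]
  linear_combination (h.ε ^ 2 * h.σ (h.B x v) * h.B y w + h.ε * h.B x w * h.σ (h.B y v)) * hdet +
    (-(d - 1) * h.σ (h.B x v) * h.B y w - (a - 1) * c * h.ε ^ 2 * h.σ (h.B y v) * h.B y w -
      b * c * h.ε * h.B x w * h.σ (h.B y v)) * hE

private def tlin (x y : V) (a b c d : F) : V →ₗ[F] V where
  toFun := tfun h x y a b c d
  map_add' v w := by
    unfold tfun
    rw [h.add_right, h.add_right]
    module
  map_smul' r v := by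
    unfold tfun
    rw [h.smul_right, h.smul_right, RingHom.id_apply]
    module

end aux

section
variable {p : ℕ} [Fact p.Prime] {F V : Type} [Field F] [CharP F p] [AddCommGroup V] [Module F V]
  (h : HF F V)

theorem exists_pi2 (hp3 : 3 ≤ p) {x y : V} (hp : h.Pair x y) {κ : F} (hκ : κ ≠ 0)
    (hκ' : h.ε * κ + h.σ κ = 0) :
    ∃ π : Matrix.SpecialLinearGroup (Fin 2) h.F0 →* (V ≃ₗ[F] V), π.range ≤ h.GG p ∧
      (∀ (g : Matrix.SpecialLinearGroup (Fin 2) h.F0) (v : V),
        π g v = v + ((((g : Matrix (Fin 2) (Fin 2) h.F0) 0 0 : F) - 1) * (h.ε * h.B y v) +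
            ((g : Matrix (Fin 2) (Fin 2) h.F0) 0 1 : F) * κ * h.B x v) • x +
          (((g : Matrix (Fin 2) (Fin 2) h.F0) 1 0 : F) * κ⁻¹ * (h.ε * h.B y v) +
            (((g : Matrix (Fin 2) (Fin 2) h.F0) 1 1 : F) - 1) * h.B x v) • y) ∧
      ∀ M : Subgroup (V ≃ₗ[F] V),
        (∀ (g : V ≃ₗ[F] V) (t : F), h.Adm 0 t → (∀ v, g v = h.E x 0 t v) → g ∈ M) →
        (∀ (g : V ≃ₗ[F] V) (t : F), h.Adm 0 t → (∀ v, g v = h.E y 0 t v) → g ∈ M) →
        π.range ≤ M := by
  let L : Matrix.SpecialLinearGroup (Fin 2) h.F0 →* (V →ₗ[F] V) :=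
    { toFun := fun g => tlin h x y ((g : Matrix (Fin 2) (Fin 2) h.F0) 0 0 : F)
        (((g : Matrix (Fin 2) (Fin 2) h.F0) 0 1 : F) * κ)
        (((g : Matrix (Fin 2) (Fin 2) h.F0) 1 0 : F) * κ⁻¹)
        ((g : Matrix (Fin 2) (Fin 2) h.F0) 1 1 : F)
      map_one' := by
        ext v
        show tfun h x y _ _ _ _ v = v
        simp only [Matrix.SpecialLinearGroup.coe_one, Matrix.one_apply_eq]
        rw [Matrix.one_apply_ne (by decide), Matrix.one_apply_ne (by decide)]
        simp only [ZeroMemClass.coe_zero, OneMemClass.coe_one, zero_mul]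
        exact tfun_one h v
      map_mul' := by
        intro g g'
        ext v
        show tfun h x y _ _ _ _ v = tfun h x y _ _ _ _ (tfun h x y _ _ _ _ v)
        rw [tfun_tfun h hp]
        simp only [Matrix.SpecialLinearGroup.coe_mul, Matrix.mul_apply, Fin.sum_univ_two,
          Subfield.coe_add, Subfield.coe_mul]
        congr 1
        · field_simp
        · ring
        · ring
        · field_simp }
  let π : Matrix.SpecialLinearGroup (Fin 2) h.F0 →* (V ≃ₗ[F] V) :=
    (LinearMap.GeneralLinearGroup.generalLinearEquiv F V).toMonoidHom.comp L.toHomUnits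
  have hπ : ∀ (g : Matrix.SpecialLinearGroup (Fin 2) h.F0) (v : V),
      π g v = tfun h x y ((g : Matrix (Fin 2) (Fin 2) h.F0) 0 0 : F)
        (((g : Matrix (Fin 2) (Fin 2) h.F0) 0 1 : F) * κ)
        (((g : Matrix (Fin 2) (Fin 2) h.F0) 1 0 : F) * κ⁻¹)
        ((g : Matrix (Fin 2) (Fin 2) h.F0) 1 1 : F) v := fun g v => rfl
  have hσκ : h.σ κ = - h.ε * κ := by linear_combination hκ'
  have hσκi : h.σ κ⁻¹ = - h.ε * κ⁻¹ := by
    rw [map_inv₀, hσκ, mul_inv, inv_eq_of_mul_eq_one_left (a := -h.ε) (b := -h.ε)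
      (by rw [neg_mul_neg, h.eps])]
  have key : ∀ M : Subgroup (V ≃ₗ[F] V),
        (∀ (g : V ≃ₗ[F] V) (t : F), h.Adm 0 t → (∀ v, g v = h.E x 0 t v) → g ∈ M) →
        (∀ (g : V ≃ₗ[F] V) (t : F), h.Adm 0 t → (∀ v, g v = h.E y 0 t v) → g ∈ M) →
        π.range ≤ M := by
    intro M hx hy
    rw [MonoidHom.range_eq_map, Subgroup.map_le_iff_le_comap, top_le_iff]
    apply Pool.Agent.Helper54.PR.sl_gen
    intro i j hij t
    rw [Subgroup.mem_comap]
    have hts : h.σ (t : F) = t := t.2
    fin_cases i <;> fin_cases j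
    · exact absurd rfl hij
    · refine hx _ ((t : F) * κ) ?_ ?_
      · unfold Adm
        rw [map_mul, hts, h.zero_left, neg_zero]
        linear_combination (t : F) * hκ'
      · intro v
        rw [hπ]
        simp only [Matrix.SpecialLinearGroup.transvection_coe, Matrix.add_apply]
        simp [tfun, E, h.zero_left]
    · refine hy _ (h.ε * (t : F) * κ⁻¹) ?_ ?_
      · unfold Adm
        rw [map_mul, map_mul, hts, hσκi, h.sig_eps, h.zero_left, neg_zero]
        linear_combination 0 * h.eps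
      · intro v
        rw [hπ]
        simp only [Matrix.SpecialLinearGroup.transvection_coe, Matrix.add_apply]
        simp [tfun, E, h.zero_left]
        congr 1
        ring
    · exact absurd rfl hij
  refine ⟨π, ?_, ?_, key⟩
  · apply key
    · intro g t ht hg
      obtain ⟨g', hg', hg''⟩ := h.exists_E hp.xx (h.zero_right x) ht
      have : g = g' := LinearEquiv.ext fun v => (hg v).trans (hg'' v).symm
      rw [this]
      exact h.UU_le_GG hp3 hp hg'
    · intro g t ht hg
      obtain ⟨g', hg', hg''⟩ := h.exists_E hp.yy (h.zero_right y) ht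
      have : g = g' := LinearEquiv.ext fun v => (hg v).trans (hg'' v).symm
      rw [this]
      have hp' : h.Pair y (h.ε • x) := ⟨hp.yy, by rw [h.smul_left, h.smul_right, hp.xx]; ring, by
        rw [h.smul_right, hp.yx, h.eps]⟩
      exact h.UU_le_GG hp3 hp' hg'
  · intro g v
    exact hπ g v

end
end HF

end Pool.Agent.Helper54.CL
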