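import Pool.Agent.Helper54.CL.Ncl
import Pool.Agent.Helper54.PR.QuasiBase

/-!
# CL-24: the groups `GG` are quasisimple

There is a hyperbolic pair, and if the form is symmetric then `finrank` is `3` or at least `5`.

PROOF.
* `gg_scalar`: if `g ∈ Iso` maps every isotropic vector to a multiple of itself, then `g` is a scalar: let `Pair x y`, `g x = λ x`, `g y = μ y`,
  `σ λ μ = 1`.  If there is `a ⊥ x, y`: `g a ⊥ x, y`; choose `t` with `Adm a t`, `z = y + a + t x` isotropic, `g z = ν z`, so `ν = μ`, `g a = ν a`;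
  and `ν = λ` if `t ≠ 0`.  If the form is symmetric there is `a` with `B a a ≠ 0` (`exists_nonsing`), so `t ≠ 0`.  Otherwise `y + κ x` is isotropic
  (`exists_kappa`), so `λ = μ`.  Then all vectors are multiplied by `λ`.
* `perfect`: `K` = commutator subgroup of `GG` as a subgroup of `V ≃ₗ V` (`⁅GG, GG⁆`); `ncl_torus` with `exists_torus` (`GG` contains `UU x`), so
  `GG ≤ K`.
* `quasi`: let `N ≤ GG`, normalized by `GG`, be not contained in the scalars (equivalently not in the center: a scalar is central).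
  By `gg_scalar` there are `n ∈ N` and an isotropic `x ≠ 0` with `n x` not a multiple of `x`.
  (1) Case `B x (n x) ≠ 0`: `UU (n x) = n (UU x) n⁻¹ ≤ N ⊔ UU x`, so `GG ≤ N ⊔ UU x` (`GG_le_two`).  So `GG / N` is a quotient of `UU x`, which is a
  finite `p`-group (`UU_pow`), so it is nilpotent, and perfect, so trivial: `N = GG`.
  (2) Case `B x (n x) = 0`: `Pair x y`, `n x = c x + z`, `z ∈ perp2 x y` isotropic, `z ≠ 0`; so `finrank ≥ 4`, thus `≥ 5` in the symmetric case, and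
  `exists_weyl` applies to `restr` (`finrank_perp2`) and a partner `w` of `z`: `G = ext g1`, `G x = x`, `G z = c' w`.  `n1 = G n G⁻¹ ∈ N` (`G⁻¹ x = x`),
  `n1 x = c x + c' w`.  `n' = n1 n⁻¹ ∈ N` maps `x' = n x` to `n1 x`, `B x' (n' x') = c' B z w ≠ 0`: case (1).
* `qs_GG`: `QS` for the group `↥(h.GG p)`: the center of `GG` consists of scalars: a central `g` commutes with `UU x`, so it maps
  `x` to a multiple (`UU (g x) = UU x` and the vectors `v` with `e v - v` ... ; or: choose `e ∈ UU x`, `e ≠ 1`, of the form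
  `E x a t` with `B a a ≠ 0`, or `E x 0 t`: `⟨x⟩` is the image of `(e - 1)²`, respectively of `e - 1`).
-/

set_option autoImplicit false
open scoped Pointwise
open Pool.Agent.Helper54.PR

namespace Pool.Agent.Helper54.CL

namespace HF
section
variable {p : ℕ} [Fact p.Prime] {F V : Type} [Field F] [Finite F] [CharP F p] [AddCommGroup V]
  [Module F V] [Finite V] (h : HF F V)

omit [Fact p.Prime] [Finite F] [CharP F p] [Finite V] in
theorem ok_pair (h2 : (2 : F) ≠ 0) (hok : h.Ok) : ∃ x y, h.Pair x y := by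
  obtain ⟨⟨x, hx0, hx⟩, -⟩ := hok
  obtain ⟨y, hy⟩ := h.exists_partner h2 hx0 hx
  exact ⟨x, y, hy⟩

theorem gg_scalar (hp5 : 5 ≤ p) (hok : h.Ok) {g : V ≃ₗ[F] V} (hg : g ∈ h.Iso)
    (hs : ∀ x, x ≠ 0 → h.B x x = 0 → ∃ c : F, g x = c • x) : ∃ c : F, ∀ v, g v = c • v := by
  have h2 : (2 : F) ≠ 0 := two_ne (p := p) (by omega)
  obtain ⟨x, y, hp⟩ := h.ok_pair h2 hok
  have hyx : h.B y x = h.ε := hp.yx
  have hε := h.eps
  have hy0 : y ≠ 0 := by
    rintro rfl
    have h1 := hp.xy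
    rw [h.zero_right] at h1
    exact zero_ne_one h1
  obtain ⟨l, hl⟩ := hs x hp.x_ne hp.xx
  obtain ⟨m, hm⟩ := hs y hy0 hp.yy
  have hlm : h.σ l * m = 1 := by
    have h1 := hg x y
    rw [hl, hm, h.smul_left, h.smul_right, hp.xy, mul_one] at h1
    exact h1
  have hml : h.σ m * l = 1 := by
    have h1 := congrArg h.σ hlm
    rw [map_mul, h.invol, map_one, mul_comm] at h1
    exact h1
  have hsl0 : h.σ l ≠ 0 := left_ne_zero_of_mul_eq_one hlm
  have hsm0 : h.σ m ≠ 0 := left_ne_zero_of_mul_eq_one hml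
  have key : ∀ a t, h.B x a = 0 → h.B y a = 0 → h.Adm a t →
      g a = m • a + (t * (m - l)) • x ∧ m * t = l * t := by
    intro a t hxa hya ht
    have hax : h.B a x = 0 := h.B_symm_zero hxa
    have hay : h.B a y = 0 := h.B_symm_zero hya
    have hz0 : y + a + t • x ≠ 0 := by
      intro h0
      have h1 := congrArg (h.B x) h0
      rw [h.add_right, h.add_right, h.smul_right, hp.xy, hxa, hp.xx, h.zero_right] at h1
      simp at h1
    have hz : h.B (y + a + t • x) (y + a + t • x) = 0 := by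
      have ht' : h.ε * t + h.σ t = - h.B a a := ht
      simp only [h.add_right, h.add_left, h.smul_left, h.smul_right, hp.xy, hxa, hp.xx, hp.yy,
        hyx, hax, hay, hya]
      linear_combination ht'
    obtain ⟨n, hn⟩ := hs _ hz0 hz
    rw [map_add, map_add, map_smul, hl, hm] at hn
    have hxga : h.B x (g a) = 0 := by
      have h1 := hg x a
      rw [hl, h.smul_left, hxa] at h1
      rcases mul_eq_zero.1 h1 with h3 | h3
      · exact absurd h3 hsl0
      · exact h3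
    have hyga : h.B y (g a) = 0 := by
      have h1 := hg y a
      rw [hm, h.smul_left, hya] at h1
      rcases mul_eq_zero.1 h1 with h3 | h3
      · exact absurd h3 hsm0
      · exact h3
    have h3 := congrArg (h.B x) hn
    have h4 := congrArg (h.B y) hn
    simp only [h.add_right, h.smul_right, hp.xy, hp.xx, hxga, hxa, hyga, hya, hp.yy, hyx] at h3 h4
    have hnm : n = m := by linear_combination -h3
    refine ⟨?_, ?_⟩
    · rw [hnm] at hn
      have h5 : g a = m • (y + a + t • x) - m • y - t • l • x := by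
        rw [← hn]; abel
      rw [h5]
      module
    · rw [hnm] at h4
      linear_combination (-h.ε) * h4 + (l * t - m * t) * hε
  have hml' : m = l := by
    by_cases hO : h.IsO
    · have : FiniteDimensional F V := inferInstance
      have h3 : 3 ≤ Module.finrank F V := by
        rcases hok.2 hO with h5 | h5 <;> omega
      obtain ⟨e, hxe, hye, hee⟩ := h.exists_nonsing h2 hO h3 hp
      obtain ⟨t, ht⟩ := h.adm_exists h2 e
      have h4 := (key e t hxe hye ht).2
      have ht0 : t ≠ 0 := by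
        rintro rfl
        have ht' : h.ε * 0 + h.σ 0 = - h.B e e := ht
        rw [map_zero] at ht'
        apply hee
        linear_combination ht'
      exact mul_right_cancel₀ ht0 h4
    · obtain ⟨κ, hκ0, hκ⟩ := h.exists_kappa (p := p) (by omega) hO
      have ht : h.Adm 0 κ := by
        show h.ε * κ + h.σ κ = - h.B 0 0
        rw [hκ, h.zero_right, neg_zero]
      have h4 := (key 0 κ (h.zero_right _) (h.zero_right _) ht).2
      exact mul_right_cancel₀ hκ0 h4
  refine ⟨l, fun v => ?_⟩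
  obtain ⟨t, ht⟩ := h.adm_exists h2 (h.p1 x y v)
  have h5 := (key _ t (h.p1_x hp v) (h.p1_y hp v) ht).1
  rw [hml', sub_self, mul_zero, zero_smul, add_zero] at h5
  have h6 : v = h.p1 x y v + (h.ε * h.B y v) • x + h.B x v • y := by
    rw [HF.p1]; abel
  have h7 : g v = g (h.p1 x y v) + (h.ε * h.B y v) • g x + h.B x v • g y := by
    conv_lhs => rw [h6]
    rw [map_add, map_add, map_smul, map_smul]
  rw [h7, h5, hl, hm, hml']
  conv_rhs => rw [h6]
  module

theorem gg_center (hp5 : 5 ≤ p) (hok : h.Ok) {g : V ≃ₗ[F] V} (hg : g ∈ h.Iso)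
    (hc : ∀ e ∈ h.GG p, g * e = e * g) : ∃ c : F, ∀ v, g v = c • v := by
  have h2 : (2 : F) ≠ 0 := two_ne (p := p) (by omega)
  refine h.gg_scalar hp5 hok hg ?_
  intro x hx0 hx
  obtain ⟨y, hp⟩ := h.exists_partner h2 hx0 hx
  have hUG : h.UU x ≤ h.GG p := h.UU_le_GG (by omega) hp
  have comm : ∀ (a : V) (t : F), h.B x a = 0 → h.Adm a t → ∀ v,
      g (h.E x a t v) = h.E x a t (g v) := by
    intro a t ha ht v
    obtain ⟨e, he, hev⟩ := h.exists_E hx ha ht
    rw [← hev, ← hev]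
    have h3 := hc e (hUG he)
    exact congrArg (fun f : V ≃ₗ[F] V => f v) h3
  by_cases hO : h.IsO
  · have : FiniteDimensional F V := inferInstance
    have h3 : 3 ≤ Module.finrank F V := by
      rcases hok.2 hO with h5 | h5 <;> omega
    obtain ⟨a, hxa, hya, haa⟩ := h.exists_nonsing h2 hO h3 hp
    obtain ⟨t, ht⟩ := h.adm_exists h2 a
    have hay : h.B a y = 0 := h.B_symm_zero hya
    have e1 := comm a t hxa ht y
    have e2 := comm a t hxa ht a
    simp only [HF.E, hp.xy, hay, hxa, map_add, map_sub, map_smul] at e1 e2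
    have f2 := congrArg (h.B x) e2
    simp only [h.add_right, h.sub_right, h.smul_right, hxa, hp.xx] at f2
    have hxgx : h.B x (g x) = 0 := by
      have h4 : (h.ε * h.B a a) * h.B x (g x) = 0 := by linear_combination -f2
      rcases mul_eq_zero.1 h4 with h5 | h5
      · exact absurd h5 (mul_ne_zero h.eps_ne haa)
      · exact h5
    have f1 := congrArg (h.B x) e1
    simp only [h.add_right, h.sub_right, h.smul_right, hxa, hp.xx] at f1
    have hxga : h.B x (g a) = 0 := by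
      linear_combination f1 - t * hxgx
    rw [hxga] at e2
    refine ⟨(h.ε * h.B a a)⁻¹ * (h.ε * h.B a (g a)), ?_⟩
    have h6 : (h.ε * h.B a a) • g x = (h.ε * h.B a (g a)) • x := by
      rw [← sub_eq_zero]
      rw [← sub_eq_zero] at e2
      have h7 := congrArg (fun w => -w) e2
      simp only [neg_zero] at h7
      rw [← h7]
      module
    rw [mul_smul, ← h6, inv_smul_smul₀ (mul_ne_zero h.eps_ne haa)]
  · obtain ⟨κ, hκ0, hκ⟩ := h.exists_kappa (p := p) (by omega) hO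
    have ht : h.Adm 0 κ := by
      show h.ε * κ + h.σ κ = - h.B 0 0
      rw [hκ, h.zero_right, neg_zero]
    have e1 := comm 0 κ (h.zero_right _) ht y
    simp only [HF.E, hp.xy, h.zero_left, map_add, map_smul, smul_zero,
      mul_zero, zero_smul, add_zero, sub_zero, mul_one, add_right_inj] at e1
    refine ⟨h.B x (g y), ?_⟩
    rw [mul_smul] at e1
    exact smul_right_injective V hκ0 e1

omit [Finite F] in
theorem cl24_case1 (hp5 : 5 ≤ p) (hperf : commutator (h.GG p) = ⊤) (N : Subgroup (h.GG p))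
    (hN : N.Normal) {n : h.GG p} (hn : n ∈ N) {x : V} (hx : h.B x x = 0)
    (hne : h.B x ((n : V ≃ₗ[F] V) x) ≠ 0) : N = ⊤ := by
  have h2 : (2 : F) ≠ 0 := two_ne (p := p) (by omega)
  have hx0 : x ≠ 0 := by
    rintro rfl
    exact hne (h.zero_left _)
  obtain ⟨y, hp⟩ := h.exists_partner h2 hx0 hx
  have hUG : h.UU x ≤ h.GG p := h.UU_le_GG (by omega) hp
  have hnI : (n : V ≃ₗ[F] V) ∈ h.Iso := h.GG_le p n.2
  have hUM : h.UU x ≤ (N ⊔ (h.UU x).subgroupOf (h.GG p)).map (h.GG p).subtype := by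
    intro g hg
    exact ⟨⟨g, hUG hg⟩, Subgroup.mem_sup_right (Subgroup.mem_subgroupOf.2 hg), rfl⟩
  have hnM : (n : V ≃ₗ[F] V) ∈ (N ⊔ (h.UU x).subgroupOf (h.GG p)).map (h.GG p).subtype :=
    ⟨n, Subgroup.mem_sup_left hn, rfl⟩
  have hUM' := h.UU_le_conj hnM hnI hUM
  have : FiniteDimensional F V := inferInstance
  have hnx : h.B ((n : V ≃ₗ[F] V) x) ((n : V ≃ₗ[F] V) x) = 0 := by rw [hnI, hx]
  have hGM := h.GG_le_two (p := p) (by omega) hx hnx hne hUM hUM'
  have hM : ∀ g : h.GG p, g ∈ N ⊔ (h.UU x).subgroupOf (h.GG p) := by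
    intro g
    obtain ⟨g', hg', hgg⟩ := hGM g.2
    have h3 : g' = g := Subtype.ext hgg
    rwa [← h3]
  have hpow : ∀ q : h.GG p ⧸ N, q ^ p = 1 := by
    intro q
    obtain ⟨g, rfl⟩ := QuotientGroup.mk'_surjective N q
    obtain ⟨a, ha, b, hb, rfl⟩ := Subgroup.mem_sup_of_normal_left.1 (hM g)
    have h3 : QuotientGroup.mk' N a = 1 := (QuotientGroup.eq_one_iff a).2 ha
    rw [map_mul, h3, one_mul, ← map_pow]
    have h4 : b ^ p = 1 := by
      apply Subtype.ext
      have h5 := h.UU_pow (p := p) (by omega) hp (Subgroup.mem_subgroupOf.1 hb)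
      rw [Subgroup.coe_pow, h5, Subgroup.coe_one]
    rw [h4, map_one]
  have hP : IsPGroup p (h.GG p ⧸ N) := fun q => ⟨1, by rw [pow_one]; exact hpow q⟩
  have : Group.IsPerfect (h.GG p) := ⟨hperf⟩
  have : Group.IsNilpotent (h.GG p ⧸ N) := hP.isNilpotent
  by_contra hN1
  have : Nontrivial (h.GG p ⧸ N) := by
    by_contra hc
    rw [not_nontrivial_iff_subsingleton] at hc
    apply hN1
    rw [eq_top_iff]
    intro g _
    exact (QuotientGroup.eq_one_iff g).1 (Subsingleton.elim _ _)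
  exact Group.IsPerfect.not_isNilpotent (h.GG p ⧸ N) inferInstance

theorem cl24_perfect (hp5 : 5 ≤ p) (hok : h.Ok) : commutator (h.GG p) = ⊤ := by
  have h2 : (2 : F) ≠ 0 := two_ne (p := p) (by omega)
  obtain ⟨x, y, hp⟩ := h.ok_pair h2 hok
  have hb : h.IsO → 3 ≤ Module.finrank F V := by
    intro hO
    rcases hok.2 hO with h5 | h5 <;> omega
  obtain ⟨l, hl0, hσ, hl1, hl2, τ, hτG, hτx, hτy, hτv, -⟩ := h.exists_torus hp5 hb hp
  have hKG : ⁅h.GG p, h.GG p⁆ ≤ h.GG p := Subgroup.commutator_le_self _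
  have hK : ∀ g ∈ h.GG p, ∀ w ∈ ⁅h.GG p, h.GG p⁆, g * w * g⁻¹ ∈ ⁅h.GG p, h.GG p⁆ := by
    intro g hg w hw
    have h3 : g * w * g⁻¹ = (g * w * g⁻¹ * w⁻¹) * w := by group
    have h4 := Subgroup.commutator_mem_commutator hg (hKG hw)
    rw [commutatorElement_def] at h4
    rw [h3]
    exact Subgroup.mul_mem _ h4 hw
  have hUG : h.UU x ≤ h.GG p := h.UU_le_GG (by omega) hp
  have hmain := h.ncl_torus hp5 hb hK hp hl0 hσ hl1 (by
      by_cases hO : h.IsO
      · exact Or.inl hO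
      · exact Or.inr (Or.inl (hl2 hO))) hτx hτy hτv (fun g hg => by
      have h3 := Subgroup.commutator_mem_commutator hτG (hUG hg)
      rw [commutatorElement_def] at h3
      exact h3)
  rw [eq_top_iff]
  intro g _
  have h4 : (g : V ≃ₗ[F] V) ∈ (_root_.commutator (h.GG p)).map (h.GG p).subtype := by
    rw [Subgroup.map_subtype_commutator]
    exact hmain g.2
  obtain ⟨g', hg', hgg⟩ := h4
  have h5 : g' = g := Subtype.ext hgg
  rwa [← h5]

theorem cl24_case2 (hp5 : 5 ≤ p) (hok : h.Ok) (N : Subgroup (h.GG p))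
    (hN : N.Normal) {n : h.GG p} (hn : n ∈ N) {x : V} (hx0 : x ≠ 0) (hx : h.B x x = 0)
    (hne : ∀ c : F, (n : V ≃ₗ[F] V) x ≠ c • x) : N = ⊤ := by
  have hperf := h.cl24_perfect hp5 hok
  by_cases hB : h.B x ((n : V ≃ₗ[F] V) x) = 0
  swap
  · exact h.cl24_case1 hp5 hperf N hN hn hx hB
  have h2 : (2 : F) ≠ 0 := two_ne (p := p) (by omega)
  obtain ⟨y, hp⟩ := h.exists_partner h2 hx0 hx
  have hyx : h.B y x = h.ε := hp.yx
  have hε := h.eps
  have hnI : (n : V ≃ₗ[F] V) ∈ h.Iso := h.GG_le p n.2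
  have hnx : h.B ((n : V ≃ₗ[F] V) x) ((n : V ≃ₗ[F] V) x) = 0 := by rw [hnI, hx]
  obtain ⟨c, hc⟩ : ∃ c, c = h.ε * h.B y ((n : V ≃ₗ[F] V) x) := ⟨_, rfl⟩
  obtain ⟨z, hz⟩ : ∃ z, z = (n : V ≃ₗ[F] V) x - c • x := ⟨_, rfl⟩
  have hnz : (n : V ≃ₗ[F] V) x = c • x + z := by rw [hz]; abel
  have hxz : h.B x z = 0 := by
    rw [hz, h.sub_right, h.smul_right, hB, hx]; ring
  have hyz : h.B y z = 0 := by
    rw [hz, h.sub_right, h.smul_right, hyx, hc]
    linear_combination (-h.B y ((n : V ≃ₗ[F] V) x)) * hε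
  have hzx : h.B z x = 0 := h.B_symm_zero hxz
  have hz0 : z ≠ 0 := by
    intro h0
    apply hne c
    rw [hnz, h0, add_zero]
  have hzz : h.B z z = 0 := by
    have h3 : h.B ((n : V ≃ₗ[F] V) x) x = 0 := h.B_symm_zero hB
    conv_lhs => rw [hz]
    simp only [h.sub_right, h.sub_left, h.smul_right, h.smul_left, hnx, hB, h3, hx]
    ring
  obtain ⟨w, hzw, hxw, hyw⟩ := h.exists_partner_perp h2 hp hz0 hzz hxz hyz
  have : FiniteDimensional F V := inferInstance
  have hp' : (h.restr hp).Pair (⟨z, hxz, hyz⟩ : h.perp2 x y) (⟨w, hxw, hyw⟩ : h.perp2 x y) :=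
    ⟨hzw.xx, hzw.yy, hzw.xy⟩
  have hr := h.finrank_perp2 hp
  have hr' := (h.restr hp).finrank_perp2 hp'
  have hb : (h.restr hp).IsO → 3 ≤ Module.finrank F (h.perp2 x y) := by
    intro hO
    rcases hok.2 ((h.restr_isO hp).1 hO) with h5 | h5 <;> omega
  obtain ⟨g1, hg1, ⟨c', hc', hgz⟩, -⟩ := (h.restr hp).exists_weyl hp5 hb hp'
  have hGG := h.ext_GG hp hg1
  obtain ⟨G, hG⟩ : ∃ G, G = h.ext hp g1 := ⟨_, rfl⟩
  rw [← hG] at hGG
  have hGx : G x = x := by rw [hG]; exact h.ext_x hp g1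
  have hGz : G z = c' • w := by
    have h3 := h.ext_perp hp g1 (⟨z, hxz, hyz⟩ : h.perp2 x y)
    rw [hgz] at h3
    rw [hG]
    exact h3
  have hGx' : G⁻¹ x = x := by
    have h3 : G⁻¹ (G x) = x := G.symm_apply_apply x
    rwa [hGx] at h3
  -- the conjugate
  have hn1 : (⟨G, hGG⟩ : h.GG p) * n * (⟨G, hGG⟩ : h.GG p)⁻¹ ∈ N := hN.conj_mem n hn _
  have hn2 := N.mul_mem hn1 (N.inv_mem hn)
  refine h.cl24_case1 hp5 hperf N hN hn2 (x := (n : V ≃ₗ[F] V) x) hnx ?_
  have h3 : (((⟨G, hGG⟩ : h.GG p) * n * (⟨G, hGG⟩ : h.GG p)⁻¹ * n⁻¹ : h.GG p) : V ≃ₗ[F] V)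
      ((n : V ≃ₗ[F] V) x) = c • x + c' • w := by
    show G ((n : V ≃ₗ[F] V) (G⁻¹ ((n : V ≃ₗ[F] V)⁻¹ ((n : V ≃ₗ[F] V) x)))) = _
    have h4 : (n : V ≃ₗ[F] V)⁻¹ ((n : V ≃ₗ[F] V) x) = x :=
      (n : V ≃ₗ[F] V).symm_apply_apply x
    rw [h4, hGx', hnz, map_add, map_smul, hGx, hGz]
  rw [h3, hnz]
  simp only [h.add_right, h.add_left, h.smul_right, h.smul_left, hx, hxw, hzx, hzw.xy]
  intro h0
  apply hc'
  linear_combination h0

theorem qs_GG (hp5 : 5 ≤ p) (hok : h.Ok) : QS (h.GG p) := by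
  refine ⟨h.cl24_perfect hp5 hok, fun N hN => ?_⟩
  by_cases hsc : N ≤ Subgroup.center (h.GG p)
  · exact Or.inl hsc
  right
  obtain ⟨n, hn, hnc⟩ := SetLike.not_le_iff_exists.1 hsc
  by_cases hall : ∀ x, x ≠ 0 → h.B x x = 0 → ∃ c : F, (n : V ≃ₗ[F] V) x = c • x
  · exfalso
    obtain ⟨c, hc⟩ := h.gg_scalar hp5 hok (h.GG_le p n.2) hall
    apply hnc
    rw [Subgroup.mem_center_iff]
    intro g
    apply Subtype.ext
    apply LinearEquiv.ext
    intro v
    show (g : V ≃ₗ[F] V) ((n : V ≃ₗ[F] V) v) = (n : V ≃ₗ[F] V) ((g : V ≃ₗ[F] V) v)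
    rw [hc, hc, map_smul]
  · push Not at hall
    obtain ⟨x, hx0, hx, hx1⟩ := hall
    exact h.cl24_case2 hp5 hok N hN hn hx0 hx hx1

end
end HF

end Pool.Agent.Helper54.CL
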