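import Pool.Agent.Helper54.CL.Dual
import Pool.Agent.Helper54.CL.Quasi

/-!
# CL-28: the group `GG` is generated by the unipotent radicals of two opposite parabolic subgroups

PROOF.
* `RW_pow`: for `g ∈ RW W`, `N = g - 1` maps `V` to `W^⊥` (`B w (g v - v) = 0` for `w ∈ W`, since `g w = w`), `W^⊥` to `W` and `W` to `0`: `N³ = 0`, so
  `g^(l^2) = 1` in characteristic `l`.  `RW_conj` clear.
* `rad_gen`: let `x ∈ W`, `x ≠ 0`, `y ∈ W'` with `B x y = 1` (`nd`, scale).  We show `UU x ≤ M`; by symmetry `UU y ≤ M`, and `GG_le_two`.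
  `V = W ⊕ W' ⊕ V2`, `V2 = (W + W')^⊥`.  `E x a t ∈ RW W` for `a ∈ W + V2`; by `UU_form` and `E_E` it is enough to show `E x w' 0 ∈ M` for
  `w' ∈ W'`, `w' ⊥ x`, `w' ≠ 0`.
  Not symmetric: `κ` from `exists_kappa`, `r ∈ F` with `ε r + σ r = 0`, `w ∈ W` with `B w w' = 1`; `E x w 0 ∈ RW W` maps `w'` to `w' - ε x`, so
  `E (w' - ε x) 0 r ∈ M`, and it is `E w' 0 r ∘ E x 0 r ∘ E x (- r ε w') 0` (expand; `σ r = - ε r`; `x, w'` isotropic, orthogonal); so
  `E x (- r ε w') 0 ∈ M`; replace `w'` by a multiple.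
  Symmetric: (a) there is `e ∈ V2` with `B e e ≠ 0`: `E x e t ∈ RW W` maps `w'` to `w'` and `e` to `e - B(e,e) x`, so
  `E w' (e - B(e,e) x) s ∈ M`, `= E w' e s ∘ E w' (- B(e,e) x) 0`, and `E w' (b x) 0 = E x (- b w') 0`.
  (b) `V2 = 0`: `finrank V = 2 dim W`, `≠ 4`, so `dim W ≥ 3` (`dim W = 1` has no `w'`).  Choose `a ∈ W`, `a ⊥ w'`, not a multiple of `x`, and `a' ∈ W'` with
  `B a a' = 1`, `B x a' = 0`.  `E x a 0` maps `a'` to `a' - x` and fixes `w'`, so `E (a' - x) w' 0 ∈ M`, `= E a' w' 0 ∘ E (- x) w' 0`.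
-/

set_option autoImplicit false

namespace Pool.Agent.Helper54.CL

namespace HF
section
variable {F V : Type} [Field F] [AddCommGroup V] [Module F V] (h : HF F V)

/-- the isometries which act trivially on `W`, `W^⊥/W` (and `V/W^⊥`) -/
def RW (W : Submodule F V) (hW : ∀ v ∈ W, ∀ w ∈ W, h.B v w = 0) : Subgroup (V ≃ₗ[F] V) where
  carrier := {g | g ∈ h.Iso ∧ (∀ w ∈ W, g w = w) ∧
    ∀ v, (∀ w ∈ W, h.B w v = 0) → g v - v ∈ W}
  mul_mem' := by
    rintro a b ⟨ha, ha1, ha2⟩ ⟨hb, hb1, hb2⟩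
    refine ⟨h.Iso.mul_mem ha hb, ?_, ?_⟩
    · intro w hw
      show a (b w) = w
      rw [hb1 w hw, ha1 w hw]
    · intro v hv
      have h1 := hb2 v hv
      have h2 := ha2 v hv
      have h3 : a (b v) - v = (b v - v) + (a v - v) := by
        have h4 : a (b v - v) = b v - v := ha1 _ h1
        rw [map_sub] at h4
        rw [← h4]; abel
      show a (b v) - v ∈ W
      rw [h3]
      exact W.add_mem h1 h2
  one_mem' := ⟨h.Iso.one_mem, fun _ _ => rfl, fun v _ => by
    show v - v ∈ W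
    rw [sub_self]; exact W.zero_mem⟩
  inv_mem' := by
    rintro a ⟨ha, ha1, ha2⟩
    have h0 : ∀ z, a⁻¹ (a z) = z := fun z => a.symm_apply_apply z
    have h1 : ∀ w ∈ W, a⁻¹ w = w := by
      intro w hw
      have := h0 w
      rwa [ha1 w hw] at this
    refine ⟨h.Iso.inv_mem ha, h1, ?_⟩
    intro v hv
    have h2 := ha2 v hv
    have h3 := h1 _ h2
    rw [map_sub, h0] at h3
    have h4 : a⁻¹ v - v = -(a v - v) := by
      rw [← h3]; abel
    rw [h4]
    exact W.neg_mem h2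

end

section
variable {l : ℕ} [Fact l.Prime] {F V : Type} [Field F] [Finite F] [CharP F l] [AddCommGroup V]
  [Module F V] [Finite V] (h : HF F V)

omit [Finite F] [Finite V] in
theorem RW_pow {W : Submodule F V} {hW : ∀ v ∈ W, ∀ w ∈ W, h.B v w = 0} {g : V ≃ₗ[F] V}
    (hg : g ∈ h.RW W hW) : g ^ (l ^ 2) = 1 := by
  obtain ⟨hI, h1, h2⟩ := hg
  have hN1 : ∀ v, ∀ w ∈ W, h.B w (g v - v) = 0 := by
    intro v w hw
    have := hI w v
    rw [h1 w hw] at this
    rw [h.sub_right, this, sub_self]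
  have hN2 : ∀ v, g (g v - v) - (g v - v) ∈ W := fun v => h2 _ (hN1 v)
  have hN3 : ∀ v, g (g (g v - v) - (g v - v)) = g (g v - v) - (g v - v) :=
    fun v => h1 _ (hN2 v)
  have key : ∀ (n : ℕ) (v : V), (g ^ n) v = v + (n : F) • (g v - v) +
      ((n.choose 2 : ℕ) : F) • (g (g v - v) - (g v - v)) := by
    intro n v
    induction n with
    | zero => simp
    | succ n ih =>
      rw [pow_succ']
      show g ((g ^ n) v) = _
      have e2 : (n + 1).choose 2 = n + n.choose 2 := by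
        rw [Nat.choose_succ_succ' n 1, Nat.choose_one_right]
      rw [ih, e2, map_add, map_add, map_smul, map_smul, hN3]
      have e3 : g v = v + (g v - v) := by abel
      have e4 : g (g v - v) = (g v - v) + (g (g v - v) - (g v - v)) := by abel
      push_cast
      generalize hA : g (g v - v) - (g v - v) = A at *
      rw [e4]
      generalize hN : g v - v = N at *
      rw [e3]
      module
  have hl : l.Prime := Fact.out
  have e1 : ((l ^ 2 : ℕ) : F) = 0 := by
    rw [CharP.cast_eq_zero_iff F l]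
    exact dvd_pow_self l (by norm_num)
  have e2 : (((l ^ 2).choose 2 : ℕ) : F) = 0 := by
    rw [CharP.cast_eq_zero_iff F l]
    refine hl.dvd_choose_pow (by norm_num) ?_
    have := hl.two_le
    nlinarith
  ext v
  rw [key, e1, e2]
  simp

omit [Finite F] [Finite V] [Fact l.Prime] [CharP F l] in
theorem RW_conj {W : Submodule F V} {hW : ∀ v ∈ W, ∀ w ∈ W, h.B v w = 0} {g e : V ≃ₗ[F] V}
    (hg : g ∈ h.Iso) (hgW : ∀ v, g v ∈ W ↔ v ∈ W) (he : e ∈ h.RW W hW) :
    g * e * g⁻¹ ∈ h.RW W hW := by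
  obtain ⟨hI, h1, h2⟩ := he
  have k2 : ∀ z, g (g⁻¹ z) = z := fun z => g.apply_symm_apply z
  refine ⟨h.Iso.mul_mem (h.Iso.mul_mem hg hI) (h.Iso.inv_mem hg), ?_, ?_⟩
  · intro w hw
    have h3 : g⁻¹ w ∈ W := by
      rw [← hgW, k2]
      exact hw
    show g (e (g⁻¹ w)) = w
    rw [h1 _ h3, k2]
  · intro v hv
    have h3 : e (g⁻¹ v) - g⁻¹ v ∈ W := by
      refine h2 _ ?_
      intro w hw
      have := hg w (g⁻¹ v)
      rw [k2] at this
      rw [← this]
      exact hv _ ((hgW w).2 hw)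
    have h4 : g (e (g⁻¹ v)) - v = g (e (g⁻¹ v) - g⁻¹ v) := by
      rw [map_sub, k2]
    show g (e (g⁻¹ v)) - v ∈ W
    rw [h4]
    exact (hgW _).2 h3

omit [Finite F] [Finite V] [Fact l.Prime] [CharP F l] in
private theorem Dual.radSymm {W W' : Submodule F V} (hd : h.Dual W W') : h.Dual W' W :=
  ⟨hd.ti', hd.ti, fun w hw h0 => hd.nd' w hw fun u hu => h.B_symm_zero (h0 u hu),
    fun w hw h0 => hd.nd w hw fun u hu => h.B_symm_zero (h0 u hu)⟩

omit [Finite F] [Finite V] [Fact l.Prime] [CharP F l] in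
/-- conjugation of an Eichler transformation -/
private theorem E_conj {k : V ≃ₗ[F] V} (hk : k ∈ h.Iso) (a b : V) (t : F) (v : V) :
    k (h.E a b t (k⁻¹ v)) = h.E (k a) (k b) t v := by
  have k2 : ∀ z, k (k⁻¹ z) = z := fun z => k.apply_symm_apply z
  have e1 : h.B a (k⁻¹ v) = h.B (k a) v := by
    rw [← hk a (k⁻¹ v), k2]
  have e2 : h.B b (k⁻¹ v) = h.B (k b) v := by
    rw [← hk b (k⁻¹ v), k2]
  simp only [E, map_add, map_sub, map_smul, k2, e1, e2]

/-- `M` contains the Eichler transformation -/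
private def EM (M : Subgroup (V ≃ₗ[F] V)) (a b : V) (t : F) : Prop := ∃ g ∈ M, ∀ v, g v = h.E a b t v

omit [Finite F] [Finite V] [Fact l.Prime] [CharP F l] in
private theorem em_conj {M : Subgroup (V ≃ₗ[F] V)} {k : V ≃ₗ[F] V} (hk : k ∈ h.Iso) (hkM : k ∈ M)
    {a b : V} {t : F} (he : h.EM M a b t) : h.EM M (k a) (k b) t := by
  obtain ⟨g, hg, hg'⟩ := he
  refine ⟨k * g * k⁻¹, M.mul_mem (M.mul_mem hkM hg) (M.inv_mem hkM), fun v => ?_⟩
  show k (g (k⁻¹ v)) = _
  rw [hg', h.E_conj hk]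

omit [Finite F] [Finite V] [Fact l.Prime] [CharP F l] in
/-- Eichler transformations in the unipotent radical -/
private theorem em_RW {W : Submodule F V} {hW : ∀ v ∈ W, ∀ w ∈ W, h.B v w = 0} {x a : V} {t : F}
    (hx : x ∈ W) (ha : ∀ w ∈ W, h.B w a = 0) (ht : h.Adm a t) :
    ∃ g ∈ h.RW W hW, ∀ v, g v = h.E x a t v := by
  obtain ⟨g, hg, hg'⟩ := h.exists_E (hW x hx x hx) (ha x hx) ht
  refine ⟨g, ⟨hg.1, ?_, ?_⟩, hg'⟩
  · intro w hw
    have e1 : h.B x w = 0 := hW x hx w hw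
    have e2 : h.B a w = 0 := h.B_symm_zero (ha w hw)
    rw [hg']
    simp only [E, e1, e2]
    simp
  · intro v hv
    have e1 : h.B x v = 0 := hv x hx
    have e2 : g v - v = (-(h.ε * h.B a v)) • x := by
      rw [hg']
      simp only [E, e1]
      module
    rw [e2]
    exact W.smul_mem _ hx

/-- surjectivity of the pairing -/
private theorem dual_surj {W W' : Submodule F V} (hd : h.Dual W W') (v : V) :
    ∃ w ∈ W, ∀ u ∈ W', h.B w u = h.B v u := by
  classical
  -- the functionals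
  let φ : V → W' →ₗ[F] F := fun z =>
    { toFun := fun u => h.B z u
      map_add' := fun a b => h.add_right z a b
      map_smul' := fun c a => h.smul_right c z a }
  have φa : ∀ z (u : W'), φ z u = h.B z u := fun _ _ => rfl
  let ψ : V → W →ₗ[F] F := fun z =>
    { toFun := fun u => h.B z u
      map_add' := fun a b => h.add_right z a b
      map_smul' := fun c a => h.smul_right c z a }
  have ψa : ∀ z (u : W), ψ z u = h.B z u := fun _ _ => rfl
  have cdual : ∀ (U : Submodule F V), Nat.card (U →ₗ[F] F) = Nat.card U := by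
    intro U
    have : FiniteDimensional F U := inferInstance
    have e : (Module.Dual F U) ≃ₗ[F] U :=
      LinearEquiv.ofFinrankEq _ _ (Subspace.dual_finrank_eq)
    exact Nat.card_congr e.toEquiv
  have finU : ∀ (U : Submodule F V), Finite (U →ₗ[F] F) := by
    intro U
    exact Finite.of_injective (fun f : U →ₗ[F] F => (f : U → F)) DFunLike.coe_injective
  have := finU W
  have := finU W'
  have i1 : Function.Injective (fun w : W => φ (w : V)) := by
    intro w1 w2 h12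
    have h0 : (w1 : V) - w2 = 0 := by
      refine hd.nd _ (W.sub_mem w1.2 w2.2) ?_
      intro u hu
      have := LinearMap.congr_fun h12 ⟨u, hu⟩
      simp only [φa] at this
      rw [h.sub_left, this, sub_self]
    exact Subtype.ext (sub_eq_zero.1 h0)
  have i2 : Function.Injective (fun w : W' => ψ (w : V)) := by
    intro w1 w2 h12
    have h0 : (w1 : V) - w2 = 0 := by
      refine hd.nd' _ (W'.sub_mem w1.2 w2.2) ?_
      intro u hu
      have := LinearMap.congr_fun h12 ⟨u, hu⟩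
      simp only [ψa] at this
      refine h.B_symm_zero ?_
      rw [h.sub_left, this, sub_self]
    exact Subtype.ext (sub_eq_zero.1 h0)
  have c1 : Nat.card W ≤ Nat.card W' := by
    rw [← cdual W']
    exact Nat.card_le_card_of_injective _ i1
  have c2 : Nat.card W' ≤ Nat.card W := by
    rw [← cdual W]
    exact Nat.card_le_card_of_injective _ i2
  have bij : Function.Bijective (fun w : W => φ (w : V)) := by
    rw [Nat.bijective_iff_injective_and_card]
    exact ⟨i1, by rw [cdual W']; omega⟩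
  obtain ⟨w, hw⟩ := bij.2 (φ v)
  refine ⟨w, w.2, fun u hu => ?_⟩
  exact LinearMap.congr_fun hw ⟨u, hu⟩

private theorem dual_decomp {W W' : Submodule F V} (hd : h.Dual W W') (v : V) :
    ∃ w ∈ W, ∃ w' ∈ W', ∃ u, v = w + w' + u ∧ (∀ z ∈ W, h.B z u = 0) ∧
      ∀ z ∈ W', h.B z u = 0 := by
  obtain ⟨w, hw, h1⟩ := h.dual_surj hd v
  obtain ⟨w', hw', h2⟩ := h.dual_surj hd.radSymm v
  refine ⟨w, hw, w', hw', v - w - w', by abel, ?_, ?_⟩
  · intro z hz
    refine h.B_symm_zero ?_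
    rw [h.sub_left, h.sub_left, h2 z hz, hd.ti w hw z hz]
    ring
  · intro z hz
    refine h.B_symm_zero ?_
    rw [h.sub_left, h.sub_left, h1 z hz, hd.ti' w' hw' z hz]
    ring

omit [Finite F] [Finite V] in
/-- the case of a form which is not symmetric -/
private theorem em_caseN (hl3 : 3 ≤ l) (hO : ¬ h.IsO) {W W' : Submodule F V} (hd : h.Dual W W')
    {M : Subgroup (V ≃ₗ[F] V)} (hM : h.RW W hd.ti ≤ M) (hM' : h.RW W' hd.ti' ≤ M) {x w0 : V}
    (hx : x ∈ W) (hw0 : w0 ∈ W') (hxw : h.B x w0 = 0) (h0 : w0 ≠ 0) : h.EM M x w0 0 := by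
  obtain ⟨r, hr0, hr⟩ := h.exists_kappa hl3 hO
  have hσr : h.σ r = -(h.ε * r) := by linear_combination hr
  have hee := h.eps
  have hse := h.sig_eps
  have hre : r * h.ε ≠ 0 := mul_ne_zero hr0 h.eps_ne
  -- the vector `w'` with `-rε w' = w0`
  set w' : V := (-(r * h.ε)⁻¹) • w0 with hw'
  have hw'm : w' ∈ W' := W'.smul_mem _ hw0
  have hxw' : h.B x w' = 0 := by rw [hw', h.smul_right, hxw, mul_zero]
  have hw'x : h.B w' x = 0 := h.B_symm_zero hxw'
  have hw'0 : w' ≠ 0 := smul_ne_zero (neg_ne_zero.2 (inv_ne_zero hre)) h0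
  have hw'w' : h.B w' w' = 0 := hd.ti' _ hw'm _ hw'm
  have hxx : h.B x x = 0 := hd.ti x hx x hx
  -- a partner of `w'` in `W`
  obtain ⟨w1, hw1, hw1'⟩ : ∃ w ∈ W, h.B w w' ≠ 0 := by
    by_contra hcon
    push Not at hcon
    exact hw'0 (hd.nd' w' hw'm hcon)
  obtain ⟨w, hw, hww'⟩ : ∃ w ∈ W, h.B w w' = 1 := by
    refine ⟨(h.σ (h.B w1 w')⁻¹) • w1, W.smul_mem _ hw1, ?_⟩
    rw [h.smul_left, h.invol, inv_mul_cancel₀ hw1']
  -- the transformation `E x w 0`
  obtain ⟨k, hk, hk'⟩ := h.em_RW (hW := hd.ti) (t := 0) hx (a := w)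
    (fun z hz => hd.ti z hz w hw) (by
      unfold Adm
      rw [hd.ti w hw w hw, map_zero]; ring)
  have hkw' : k w' = w' - h.ε • x := by
    rw [hk']
    simp only [E, hxw', hww']
    module
  -- the transformation `E w' 0 r`
  obtain ⟨g1, hg1, hg1'⟩ := h.em_RW (hW := hd.ti') (t := r) hw'm (a := 0)
    (fun z _ => h.zero_right z) (by
      unfold Adm
      rw [h.zero_left, hr, neg_zero])
  obtain ⟨g2, hg2, hg2'⟩ := h.em_RW (hW := hd.ti) (t := r) hx (a := 0)
    (fun z _ => h.zero_right z) (by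
      unfold Adm
      rw [h.zero_left, hr, neg_zero])
  have e1 : h.EM M w' 0 r := ⟨g1, hM' hg1, hg1'⟩
  obtain ⟨g3, hg3, hg3'⟩ := h.em_conj hk.1 (hM hk) e1
  rw [hkw', map_zero] at hg3'
  have hw0' : w0 = (-(r * h.ε)) • w' := by
    rw [hw', smul_smul]
    have : -(r * h.ε) * -(r * h.ε)⁻¹ = 1 := by
      rw [neg_mul_neg, mul_inv_cancel₀ hre]
    rw [this, one_smul]
  refine ⟨g2⁻¹ * g1⁻¹ * g3, M.mul_mem (M.mul_mem (M.inv_mem (hM hg2)) (M.inv_mem (hM' hg1))) hg3,
    fun v => ?_⟩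
  have k1 : ∀ z, g1⁻¹ (g1 z) = z := fun z => g1.symm_apply_apply z
  have k2 : ∀ z, g2⁻¹ (g2 z) = z := fun z => g2.symm_apply_apply z
  have hgoal : g3 v = g1 (g2 (h.E x w0 0 v)) := by
    rw [hg3', hg2', hg1', hw0']
    simp only [E, h.zero_left, h.add_right, h.sub_right, h.smul_right, h.sub_left, h.smul_left,
      hxw', hw'x, hxx, hw'w', h.zero_right, map_neg, map_mul, hse, hσr]
    match_scalars <;> first
      | ring1
      | linear_combination (r * h.B x v + h.ε * r * h.B w' v) * hee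
  show g2⁻¹ (g1⁻¹ (g3 v)) = _
  rw [hgoal, k1, k2]

omit [Finite F] [Finite V] [Fact l.Prime] [CharP F l] in
/-- symmetric form, there is a nonsingular vector orthogonal to `W` and `W'` -/
private theorem em_caseA (h2 : (2 : F) ≠ 0) (hO : h.IsO) {W W' : Submodule F V} (hd : h.Dual W W')
    {M : Subgroup (V ≃ₗ[F] V)} (hM : h.RW W hd.ti ≤ M) (hM' : h.RW W' hd.ti' ≤ M) {x w0 e : V}
    (hx : x ∈ W) (hw0 : w0 ∈ W') (hxw : h.B x w0 = 0) (he : ∀ z ∈ W, h.B z e = 0)
    (he' : ∀ z ∈ W', h.B z e = 0) (hee0 : h.B e e ≠ 0) : h.EM M x w0 0 := by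
  obtain ⟨hσ, hε⟩ := hO
  set β := h.B e e with hβ
  set w' : V := β⁻¹ • w0 with hw'
  have hw'm : w' ∈ W' := W'.smul_mem _ hw0
  have hxw' : h.B x w' = 0 := by rw [hw', h.smul_right, hxw, mul_zero]
  have hw'x : h.B w' x = 0 := h.B_symm_zero hxw'
  have hw'w' : h.B w' w' = 0 := hd.ti' _ hw'm _ hw'm
  have hxx : h.B x x = 0 := hd.ti x hx x hx
  have hxe : h.B x e = 0 := he x hx
  have hex : h.B e x = 0 := h.B_symm_zero hxe
  have hw'e : h.B w' e = 0 := he' _ hw'm
  have hew' : h.B e w' = 0 := h.B_symm_zero hw'e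
  obtain ⟨t, ht⟩ := h.adm_exists h2 e
  obtain ⟨k, hk, hk'⟩ := h.em_RW (hW := hd.ti) (t := t) hx (a := e) he ht
  have hkw' : k w' = w' := by
    rw [hk']
    simp only [E, hxw', hew']
    module
  have hke : k e = e - β • x := by
    rw [hk']
    simp only [E, hxe, hε, ← hβ]
    module
  obtain ⟨g1, hg1, hg1'⟩ := h.em_RW (hW := hd.ti') (t := t) hw'm (a := e) he' ht
  have e1 : h.EM M w' e t := ⟨g1, hM' hg1, hg1'⟩
  obtain ⟨g3, hg3, hg3'⟩ := h.em_conj hk.1 (hM hk) e1
  rw [hkw', hke] at hg3'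
  have hw0' : w0 = β • w' := by
    rw [hw', smul_smul, mul_inv_cancel₀ hee0, one_smul]
  refine ⟨g1⁻¹ * g3, M.mul_mem (M.inv_mem (hM' hg1)) hg3, fun v => ?_⟩
  have k1 : ∀ z, g1⁻¹ (g1 z) = z := fun z => g1.symm_apply_apply z
  have hgoal : g3 v = g1 (h.E x w0 0 v) := by
    rw [hg3', hg1', hw0']
    simp only [E, h.add_right, h.sub_right, h.smul_right, h.sub_left, h.smul_left,
      hxw', hw'x, hxx, hw'w', hε, hσ, hew', hex]
    match_scalars <;> ring
  show g1⁻¹ (g3 v) = _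
  rw [hgoal, k1]

omit [Finite F] [Finite V] [Fact l.Prime] [CharP F l] in
/-- symmetric form, `W` has dimension at least 3 -/
private theorem em_caseB (hO : h.IsO) {W W' : Submodule F V} (hd : h.Dual W W')
    {M : Subgroup (V ≃ₗ[F] V)} (hM : h.RW W hd.ti ≤ M) (hM' : h.RW W' hd.ti' ≤ M) {x w0 a a' : V}
    (hx : x ∈ W) (hw0 : w0 ∈ W') (hxw : h.B x w0 = 0) (ha : a ∈ W) (ha' : a' ∈ W')
    (haw : h.B a w0 = 0) (haa : h.B a a' = 1) (hxa : h.B x a' = 0) : h.EM M x w0 0 := by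
  obtain ⟨hσ, hε⟩ := hO
  set w' : V := -w0 with hw'
  have hw'm : w' ∈ W' := W'.neg_mem hw0
  have hxw' : h.B x w' = 0 := by rw [hw', h.neg_right, hxw, neg_zero]
  have haw' : h.B a w' = 0 := by rw [hw', h.neg_right, haw, neg_zero]
  have hw'x : h.B w' x = 0 := h.B_symm_zero hxw'
  have hw'w' : h.B w' w' = 0 := hd.ti' _ hw'm _ hw'm
  have ha'w' : h.B a' w' = 0 := hd.ti' _ ha' _ hw'm
  have hw'a' : h.B w' a' = 0 := hd.ti' _ hw'm _ ha'
  have ha'a' : h.B a' a' = 0 := hd.ti' _ ha' _ ha'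
  have hxx : h.B x x = 0 := hd.ti x hx x hx
  have ha'x : h.B a' x = 0 := h.B_symm_zero hxa
  have adm0 : h.Adm a 0 := by
    unfold Adm
    rw [hd.ti a ha a ha, map_zero]; ring
  have adm1 : h.Adm w' 0 := by
    unfold Adm
    rw [hw'w', map_zero]; ring
  obtain ⟨k, hk, hk'⟩ := h.em_RW (hW := hd.ti) (t := 0) hx (a := a)
    (fun z hz => hd.ti z hz a ha) adm0
  have hkw' : k w' = w' := by
    rw [hk']
    simp only [E, hxw', haw']
    module
  have hka : k a' = a' - x := by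
    rw [hk']
    simp only [E, hxa, hε, haa]
    module
  obtain ⟨g1, hg1, hg1'⟩ := h.em_RW (hW := hd.ti') (t := 0) ha' (a := w')
    (fun z hz => hd.ti' z hz w' hw'm) adm1
  have e1 : h.EM M a' w' 0 := ⟨g1, hM' hg1, hg1'⟩
  obtain ⟨g3, hg3, hg3'⟩ := h.em_conj hk.1 (hM hk) e1
  rw [hkw', hka] at hg3'
  have hw0' : w0 = -w' := by rw [hw', neg_neg]
  refine ⟨g1⁻¹ * g3, M.mul_mem (M.inv_mem (hM' hg1)) hg3, fun v => ?_⟩
  have k1 : ∀ z, g1⁻¹ (g1 z) = z := fun z => g1.symm_apply_apply z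
  have hgoal : g3 v = g1 (h.E x w0 0 v) := by
    rw [hg3', hg1', hw0']
    simp only [E, h.add_right, h.sub_right, h.smul_right, h.sub_left, h.smul_left, h.neg_left,
      h.neg_right, hxw', hw'x, hxx, hw'w', hε, ha'w', hw'a', ha'a', ha'x, hxa]
    match_scalars <;> ring
  show g1⁻¹ (g3 v) = _
  rw [hgoal, k1]

/-- all the transformations `E x w0 0` -/
private theorem em_all (hl5 : 5 ≤ l) (hok : h.Ok) {W W' : Submodule F V} (hd : h.Dual W W')
    {M : Subgroup (V ≃ₗ[F] V)} (hM : h.RW W hd.ti ≤ M) (hM' : h.RW W' hd.ti' ≤ M) {x y w0 : V}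
    (hx : x ∈ W) (hy : y ∈ W') (hp : h.Pair x y) (hw0 : w0 ∈ W') (hxw : h.B x w0 = 0) :
    h.EM M x w0 0 := by
  have h2 : (2 : F) ≠ 0 := two_ne (p := l) (by omega)
  by_cases h0 : w0 = 0
  · subst h0
    exact ⟨1, M.one_mem, fun v => (h.E_zero x v).symm⟩
  by_cases hO : h.IsO
  swap
  · exact h.em_caseN (by omega) hO hd hM hM' hx hw0 hxw h0
  by_cases he : ∃ e, (∀ z ∈ W, h.B z e = 0) ∧ (∀ z ∈ W', h.B z e = 0) ∧ h.B e e ≠ 0
  · obtain ⟨e, he1, he2, he3⟩ := he
    exact h.em_caseA h2 hO hd hM hM' hx hw0 hxw he1 he2 he3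
  -- now `V = W ⊕ W'`
  push Not at he
  obtain ⟨hσ, hε⟩ := hO
  have hsum : ∀ v, ∃ w ∈ W, ∃ w' ∈ W', v = w + w' := by
    intro v
    obtain ⟨w, hw, w', hw', u, hv, hu, hu'⟩ := h.dual_decomp hd v
    have hu0 : u = 0 := by
      refine h.nondeg u fun z => ?_
      obtain ⟨w1, hw1, w1', hw1', u1, hz, hu1, hu1'⟩ := h.dual_decomp hd z
      have e1 : h.B u u1 = 0 := by
        have q1 : h.B (u + u1) (u + u1) = 0 := he _
          (fun z hz => by rw [h.add_right, hu z hz, hu1 z hz, add_zero])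
          (fun z hz => by rw [h.add_right, hu' z hz, hu1' z hz, add_zero])
        have q2 : h.B u u = 0 := he _ hu hu'
        have q3 : h.B u1 u1 = 0 := he _ hu1 hu1'
        have q4 : h.B u1 u = h.B u u1 := by rw [h.herm u u1, hσ, hε, one_mul]
        rw [h.add_left, h.add_right, h.add_right, q2, q3, q4] at q1
        have q5 : 2 * h.B u u1 = 0 := by linear_combination q1
        exact (mul_eq_zero.1 q5).resolve_left h2
      rw [hz, h.add_right, h.add_right, e1, h.B_symm_zero (hu w1 hw1),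
        h.B_symm_zero (hu' w1' hw1')]
      ring
    exact ⟨w, hw, w', hw', by rw [hv, hu0, add_zero]⟩
  have htop : W ⊔ W' = ⊤ := by
    rw [eq_top_iff]
    intro v _
    obtain ⟨w, hw, w', hw', hv⟩ := hsum v
    rw [hv]
    exact Submodule.add_mem_sup hw hw'
  have hbot : W ⊓ W' = ⊥ := by
    rw [eq_bot_iff]
    rintro v ⟨hv, hv'⟩
    exact (Submodule.mem_bot F).2 (hd.nd v hv fun u hu => hd.ti' v hv' u hu)
  have hfr : Module.finrank F W + Module.finrank F W' = Module.finrank F V := by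
    have := Submodule.finrank_sup_add_finrank_inf_eq W W'
    rw [htop, hbot, finrank_bot, finrank_top] at this
    omega
  let φ : W →ₗ[F] (W' →ₗ[F] F) :=
    { toFun := fun z =>
        { toFun := fun u => h.B z u
          map_add' := fun a b => h.add_right z a b
          map_smul' := fun c a => h.smul_right c z a }
      map_add' := fun a b => by
        ext u
        exact h.add_left (a : V) b u
      map_smul' := fun c a => by
        ext u
        show h.B (c • (a : V)) u = c * h.B a u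
        rw [h.smul_left, hσ] }
  have φa : ∀ z u, φ z u = h.B z u := fun _ _ => rfl
  let ψ : W' →ₗ[F] (W →ₗ[F] F) :=
    { toFun := fun z =>
        { toFun := fun u => h.B z u
          map_add' := fun a b => h.add_right z a b
          map_smul' := fun c a => h.smul_right c z a }
      map_add' := fun a b => by
        ext u
        exact h.add_left (a : V) b u
      map_smul' := fun c a => by
        ext u
        show h.B (c • (a : V)) u = c * h.B a u
        rw [h.smul_left, hσ] }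
  have ψa : ∀ z u, ψ z u = h.B z u := fun _ _ => rfl
  have i1 : Function.Injective φ := by
    intro w1 w2 h12
    have h0 : (w1 : V) - w2 = 0 := by
      refine hd.nd _ (W.sub_mem w1.2 w2.2) ?_
      intro u hu
      have := LinearMap.congr_fun h12 ⟨u, hu⟩
      simp only [φa] at this
      rw [h.sub_left, this, sub_self]
    exact Subtype.ext (sub_eq_zero.1 h0)
  have i2 : Function.Injective ψ := by
    intro w1 w2 h12
    have h0 : (w1 : V) - w2 = 0 := by
      refine hd.nd' _ (W'.sub_mem w1.2 w2.2) ?_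
      intro u hu
      have := LinearMap.congr_fun h12 ⟨u, hu⟩
      simp only [ψa] at this
      refine h.B_symm_zero ?_
      rw [h.sub_left, this, sub_self]
    exact Subtype.ext (sub_eq_zero.1 h0)
  have c1 : Module.finrank F W ≤ Module.finrank F W' := by
    have := LinearMap.finrank_le_finrank_of_injective i1
    rwa [Subspace.dual_finrank_eq] at this
  have c2 : Module.finrank F W' ≤ Module.finrank F W := by
    have := LinearMap.finrank_le_finrank_of_injective i2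
    rwa [Subspace.dual_finrank_eq] at this
  have hW3 : 3 ≤ Module.finrank F W := by
    have := hok.2 ⟨hσ, hε⟩
    omega
  -- the vector `a`
  obtain ⟨a, ha, haw, hax⟩ : ∃ a ∈ W, h.B a w0 = 0 ∧ ∀ c : F, a ≠ c • x := by
    by_contra hcon
    push Not at hcon
    let f : W →ₗ[F] F := ψ ⟨w0, hw0⟩
    have hf := LinearMap.finrank_range_add_finrank_ker f
    have hr : Module.finrank F (LinearMap.range f) ≤ 1 := by
      have := Submodule.finrank_le (LinearMap.range f)
      rwa [Module.finrank_self] at this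
    have hk : Module.finrank F (LinearMap.ker f) ≤ 1 := by
      refine finrank_le_one (⟨⟨x, hx⟩, ?_⟩ : LinearMap.ker f) ?_
      · rw [LinearMap.mem_ker]
        exact h.B_symm_zero hxw
      · intro z
        have hz : h.B w0 (z : W) = 0 := LinearMap.mem_ker.1 z.2
        obtain ⟨c, hc⟩ := hcon (z : W) (z : W).2 (h.B_symm_zero hz)
        exact ⟨c, Subtype.ext (Subtype.ext hc.symm)⟩
    omega
  -- the vector `a'`
  obtain ⟨a1, ha1, hxa1, haa1⟩ : ∃ a' ∈ W', h.B x a' = 0 ∧ h.B a a' ≠ 0 := by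
    by_contra hcon
    push Not at hcon
    refine hax (h.B a y) ?_
    have : a - h.B a y • x = 0 := by
      refine hd.nd _ (W.sub_mem ha (W.smul_mem _ hx)) fun u hu => ?_
      have q1 := hcon (u - h.B x u • y) (W'.sub_mem hu (W'.smul_mem _ hy)) (by
        rw [h.sub_right, h.smul_right, hp.xy]; ring)
      rw [h.sub_right, h.smul_right] at q1
      rw [h.sub_left, h.smul_left, hσ]
      linear_combination q1
    exact sub_eq_zero.1 this
  refine h.em_caseB ⟨hσ, hε⟩ hd hM hM' hx hw0 hxw ha (a' := (h.B a a1)⁻¹ • a1)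
    (W'.smul_mem _ ha1) haw ?_ ?_
  · rw [h.smul_right, inv_mul_cancel₀ haa1]
  · rw [h.smul_right, hxa1, mul_zero]

private theorem uu_le_rad (hl5 : 5 ≤ l) (hok : h.Ok) {W W' : Submodule F V} (hd : h.Dual W W')
    {M : Subgroup (V ≃ₗ[F] V)} (hM : h.RW W hd.ti ≤ M) (hM' : h.RW W' hd.ti' ≤ M) {x y : V}
    (hx : x ∈ W) (hy : y ∈ W') (hp : h.Pair x y) : h.UU x ≤ M := by
  intro g hg
  obtain ⟨a, t, hxa, -, hadm, hga⟩ := h.UU_form' hp hg
  obtain ⟨w, hw, w', hw', u, hv, hu, hu'⟩ := h.dual_decomp hd a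
  have hxw' : h.B x w' = 0 := by
    rw [hv, h.add_right, h.add_right, hd.ti x hx w hw, hu x hx] at hxa
    linear_combination hxa
  obtain ⟨g2, hg2, hg2'⟩ := h.em_all hl5 hok hd hM hM' hx hy hp hw' hxw'
  have hw'w' : h.B w' w' = 0 := hd.ti' _ hw' _ hw'
  have huw' : h.B u w' = 0 := h.B_symm_zero (hu' w' hw')
  have hxwu : h.B x (w + u) = 0 := by
    rw [h.add_right, hd.ti x hx w hw, hu x hx, add_zero]
  have adm1 : h.Adm (w + u) (t + h.ε * h.B w w') := by
    have q0 : h.Adm (-w') 0 := by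
      unfold Adm
      rw [h.neg_left, h.neg_right, hw'w', map_zero]; ring
    have q1 := h.adm_add hadm q0
    have q2 : a + -w' = w + u := by rw [hv]; abel
    have q3 : t + 0 - h.ε * h.B a (-w') = t + h.ε * h.B w w' := by
      rw [hv, h.neg_right, h.add_left, h.add_left, hw'w', huw']; ring
    rwa [q2, q3] at q1
  obtain ⟨g1, hg1, hg1'⟩ := h.em_RW (hW := hd.ti) hx (a := w + u)
    (fun z hz => by rw [h.add_right, hd.ti z hz w hw, hu z hz, add_zero]) adm1
  have hg12 : g = g1 * g2 := by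
    ext v
    show g v = g1 (g2 v)
    rw [hga, hg2', hg1', h.E_E hp.xx hxwu hxw']
    have q1 : w + u + w' = a := by rw [hv]; abel
    have q2 : t + h.ε * h.B w w' + 0 - h.ε * h.B (w + u) w' = t := by
      rw [h.add_left, huw']; ring
    rw [q1, q2]
  rw [hg12]
  exact M.mul_mem (hM hg1) hg2

theorem rad_gen (hl5 : 5 ≤ l) (hok : h.Ok) {W W' : Submodule F V} (hd : h.Dual W W')
    (hW0 : W ≠ ⊥) {M : Subgroup (V ≃ₗ[F] V)} (hM : h.RW W hd.ti ≤ M)
    (hM' : h.RW W' hd.ti' ≤ M) : h.GG l ≤ M := by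
  obtain ⟨x, hx, hx0⟩ := Submodule.exists_mem_ne_zero_of_ne_bot hW0
  obtain ⟨y0, hy0, hxy0⟩ : ∃ y ∈ W', h.B x y ≠ 0 := by
    by_contra hcon
    push Not at hcon
    exact hx0 (hd.nd x hx hcon)
  set y : V := (h.B x y0)⁻¹ • y0 with hyd
  have hy : y ∈ W' := W'.smul_mem _ hy0
  have hxy : h.B x y = 1 := by rw [hyd, h.smul_right, inv_mul_cancel₀ hxy0]
  have hp : h.Pair x y := ⟨hd.ti x hx x hx, hd.ti' y hy y hy, hxy⟩
  have hp' : h.Pair y (h.ε • x) := by
    refine ⟨hp.yy, ?_, ?_⟩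
    · rw [h.smul_left, h.smul_right, hp.xx]; ring
    · rw [h.smul_right, hp.yx, h.eps]
  have u1 : h.UU x ≤ M := h.uu_le_rad hl5 hok hd hM hM' hx hy hp
  have u2 : h.UU y ≤ M := h.uu_le_rad hl5 hok hd.radSymm hM' hM hy (W.smul_mem _ hx) hp'
  refine h.GG_le_two (by omega) hp.xx hp.yy ?_ u1 u2
  rw [hxy]
  exact one_ne_zero

end
end HF

end Pool.Agent.Helper54.CL
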