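import Pool.Agent.Helper54.CL.Eich

/-!
# CL-03: the orthogonal complement of a hyperbolic pair

`perp2 x y`: the complement; `restr`: the form on it; `ext`: extension of maps by the identity on `x`, `y`;
`psi`: an isometry which fixes `x` acts on `x^⊥/⟨x⟩`, which is identified with `perp2 x y`.

PROOF.  `v = p1 x y v + (ε B y v) x + (B x v) y`, `p1 x y v ∈ perp2 x y`, and `p1 x y v = v` for `v ∈ perp2 x y`.
* `restr`: nondegenerate: if `v ∈ perp2` is orthogonal to `perp2` then to `V`.
* `finrank_perp2`: `V ≃ₗ F × F × perp2`.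
* `ext g v = g (p1 v) + (ε B y v) x + (B x v) y`.
* `psi g v = p1 x y (g v)`: multiplicative: `g' v = p1 (g' v) + c x` for `v ∈ perp2` (`B x (g' v) = B (g' x) (g' v) = 0`), so
  `g (g' v) = g (p1 (g' v)) + c x` and `p1 (c x) = 0`.
* `psi_ker`: if `psi g = 1`, then `g v - v ∈ ⟨x⟩` for `v ∈ perp2`, and so for `v ⊥ x`.
* `ext_GG`: `ext` maps isometries of `p`-power order to such isometries; `Subgroup.closure`.
-/

set_option autoImplicit false

namespace Pool.Agent.Helper54.CL

namespace HF
section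
variable {F V : Type} [Field F] [AddCommGroup V] [Module F V] (h : HF F V)

/-- the orthogonal complement of `x` and `y` -/
def perp2 (x y : V) : Submodule F V where
  carrier := {v | h.B x v = 0 ∧ h.B y v = 0}
  add_mem' := by
    rintro a b ⟨ha, ha'⟩ ⟨hb, hb'⟩
    exact ⟨by rw [h.add_right, ha, hb, add_zero], by rw [h.add_right, ha', hb', add_zero]⟩
  zero_mem' := ⟨h.zero_right x, h.zero_right y⟩
  smul_mem' := by
    rintro c a ⟨ha, ha'⟩
    exact ⟨by rw [h.smul_right, ha, mul_zero], by rw [h.smul_right, ha', mul_zero]⟩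

theorem mem_perp2 {x y v : V} : v ∈ h.perp2 x y ↔ h.B x v = 0 ∧ h.B y v = 0 := Iff.rfl

private theorem re_dec {x y : V} (v : V) :
    v = h.p1 x y v + (h.ε * h.B y v) • x + h.B x v • y := by
  unfold p1
  module

/-- the projection to `perp2` -/
private def reP {x y : V} (hp : h.Pair x y) : V →ₗ[F] h.perp2 x y where
  toFun v := ⟨h.p1 x y v, h.p1_x hp v, h.p1_y hp v⟩
  map_add' := by
    intro a b
    apply Subtype.ext
    show h.p1 x y (a + b) = h.p1 x y a + h.p1 x y b
    simp only [p1, h.add_right]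
    module
  map_smul' := by
    intro c a
    apply Subtype.ext
    show h.p1 x y (c • a) = c • h.p1 x y a
    simp only [p1, h.smul_right]
    module

private theorem reP_coe {x y : V} (hp : h.Pair x y) (v : V) :
    ((reP h hp v : h.perp2 x y) : V) = h.p1 x y v := rfl

private theorem reP_dec {x y : V} (hp : h.Pair x y) (v : V) :
    v = (reP h hp v : V) + (h.ε * h.B y v) • x + h.B x v • y := h.re_dec v

private theorem reP_perp {x y : V} (hp : h.Pair x y) (v : h.perp2 x y) :
    reP h hp (v : V) = v := by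
  apply Subtype.ext
  rw [reP_coe]
  unfold p1
  rw [v.2.1, v.2.2]
  module

private theorem reP_x {x y : V} (hp : h.Pair x y) : reP h hp x = 0 := by
  apply Subtype.ext
  rw [reP_coe]
  unfold p1
  rw [hp.xx, hp.yx, h.eps]
  show x - (1 : F) • x - (0 : F) • y = 0
  module

private theorem reP_y {x y : V} (hp : h.Pair x y) : reP h hp y = 0 := by
  apply Subtype.ext
  rw [reP_coe]
  unfold p1
  rw [hp.yy, hp.xy]
  show y - (h.ε * 0) • x - (1 : F) • y = 0
  module

private theorem re_Bv {x y : V} (v : h.perp2 x y) : h.B (v : V) x = 0 ∧ h.B (v : V) y = 0 :=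
  ⟨h.B_symm_zero v.2.1, h.B_symm_zero v.2.2⟩

theorem perp2_nondeg {x y : V} (hp : h.Pair x y) (v : h.perp2 x y)
    (hv : ∀ w : h.perp2 x y, h.B (v : V) (w : V) = 0) : v = 0 := by
  apply Subtype.ext
  apply h.nondeg
  intro w
  obtain ⟨h1, h2⟩ := h.re_Bv v
  rw [h.reP_dec hp w, h.add_right, h.add_right, h.smul_right, h.smul_right, hv, h1, h2]
  ring

/-- the restriction of the form -/
def restr {x y : V} (hp : h.Pair x y) : HF F (h.perp2 x y) where
  σ := h.σ
  ε := h.ε
  B := fun a b => h.B (a : V) (b : V)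
  invol := h.invol
  eps := h.eps
  sig_eps := h.sig_eps
  add_right := fun a b c => h.add_right _ _ _
  smul_right := fun c a b => h.smul_right _ _ _
  herm := fun a b => h.herm _ _
  nondeg := h.perp2_nondeg hp

theorem restr_isO {x y : V} (hp : h.Pair x y) : (h.restr hp).IsO ↔ h.IsO := Iff.rfl

theorem finrank_perp2 [FiniteDimensional F V] {x y : V} (hp : h.Pair x y) :
    Module.finrank F V = Module.finrank F (h.perp2 x y) + 2 := by
  let φ : V →ₗ[F] F × F :=
    { toFun := fun v => (h.B x v, h.B y v)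
      map_add' := fun a b => by simp only [h.add_right, Prod.mk_add_mk]
      map_smul' := fun c a => by simp only [h.smul_right, Prod.smul_mk, smul_eq_mul, RingHom.id_apply] }
  have hker : LinearMap.ker φ = h.perp2 x y := by
    ext v
    rw [LinearMap.mem_ker, mem_perp2]
    show (h.B x v, h.B y v) = 0 ↔ _
    rw [Prod.mk_eq_zero]
  have hsurj : LinearMap.range φ = ⊤ := by
    rw [LinearMap.range_eq_top]
    rintro ⟨a, b⟩
    refine ⟨(h.ε * b) • x + a • y, ?_⟩
    show (h.B x _, h.B y _) = (a, b)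
    have e2 := h.eps
    rw [h.add_right, h.add_right, h.smul_right, h.smul_right, h.smul_right, h.smul_right, hp.xx,
      hp.xy, hp.yx, hp.yy]
    ext
    · show h.ε * b * 0 + a * 1 = a
      ring
    · show h.ε * b * h.ε + a * 0 = b
      linear_combination b * e2
  have h1 := LinearMap.finrank_range_add_finrank_ker φ
  rw [hker, hsurj, finrank_top, Module.finrank_prod, Module.finrank_self] at h1
  omega

/-- extension of a linear map -/
private def reE {x y : V} (hp : h.Pair x y) (g : h.perp2 x y ≃ₗ[F] h.perp2 x y) :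
    V →ₗ[F] V where
  toFun v := (g (reP h hp v) : V) + (h.ε * h.B y v) • x + h.B x v • y
  map_add' := by
    intro a b
    simp only [map_add, h.add_right, Submodule.coe_add]
    module
  map_smul' := by
    intro c a
    simp only [map_smul, h.smul_right, Submodule.coe_smul, RingHom.id_apply]
    module

private theorem reE_apply {x y : V} (hp : h.Pair x y) (g : h.perp2 x y ≃ₗ[F] h.perp2 x y)
    (v : V) :
    reE h hp g v = (g (reP h hp v) : V) + (h.ε * h.B y v) • x + h.B x v • y := rfl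

private theorem reE_mul {x y : V} (hp : h.Pair x y) (g g' : h.perp2 x y ≃ₗ[F] h.perp2 x y)
    (v : V) : reE h hp g (reE h hp g' v) = reE h hp (g * g') v := by
  have e2 := h.eps
  have h1 : reP h hp (reE h hp g' v) = g' (reP h hp v) := by
    rw [reE_apply, map_add, map_add, map_smul, map_smul, reP_x, reP_y, reP_perp]
    simp
  have h2 : h.B y (reE h hp g' v) = h.B y v := by
    rw [reE_apply, h.add_right, h.add_right, h.smul_right, h.smul_right, hp.yx, hp.yy,
      (g' (reP h hp v)).2.2]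
    linear_combination (h.B y v) * e2
  have h3 : h.B x (reE h hp g' v) = h.B x v := by
    rw [reE_apply, h.add_right, h.add_right, h.smul_right, h.smul_right, hp.xx, hp.xy,
      (g' (reP h hp v)).2.1]
    ring
  rw [reE_apply, h1, h2, h3, reE_apply]
  rfl

private theorem reE_one {x y : V} (hp : h.Pair x y) (v : V) : reE h hp 1 v = v := by
  rw [reE_apply]
  exact (h.reP_dec hp v).symm

/-- extension of a linear equivalence -/
private def reEE {x y : V} (hp : h.Pair x y) (g : h.perp2 x y ≃ₗ[F] h.perp2 x y) :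
    V ≃ₗ[F] V :=
  LinearEquiv.ofLinear (reE h hp g) (reE h hp g⁻¹)
    (by
      ext v
      show reE h hp g (reE h hp g⁻¹ v) = v
      rw [reE_mul, mul_inv_cancel, reE_one])
    (by
      ext v
      show reE h hp g⁻¹ (reE h hp g v) = v
      rw [reE_mul, inv_mul_cancel, reE_one])

private theorem reEE_apply {x y : V} (hp : h.Pair x y) (g : h.perp2 x y ≃ₗ[F] h.perp2 x y)
    (v : V) : reEE h hp g v = reE h hp g v := rfl

theorem exists_ext {x y : V} (hp : h.Pair x y) :
    ∃ e : (h.perp2 x y ≃ₗ[F] h.perp2 x y) →* (V ≃ₗ[F] V), Function.Injective e ∧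
      ∀ g, e g x = x ∧ e g y = y ∧ ∀ v : h.perp2 x y, e g (v : V) = (g v : V) := by
  have e2 := h.eps
  have key : ∀ (g : h.perp2 x y ≃ₗ[F] h.perp2 x y) (v : h.perp2 x y),
      reEE h hp g (v : V) = (g v : V) := by
    intro g v
    rw [reEE_apply, reE_apply, reP_perp, v.2.1, v.2.2]
    module
  refine ⟨
    { toFun := fun g => reEE h hp g
      map_one' := by
        ext v
        show reE h hp 1 v = v
        exact h.reE_one hp v
      map_mul' := by
        intro g g'
        ext v
        show reE h hp (g * g') v = reE h hp g (reE h hp g' v)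
        exact (h.reE_mul hp g g' v).symm }, ?_, ?_⟩
  · intro g g' hgg
    ext v
    have h1 := key g v
    have h2 := key g' v
    have h3 : reEE h hp g = reEE h hp g' := hgg
    rw [← h1, ← h2, h3]
  · intro g
    refine ⟨?_, ?_, ?_⟩
    · show reEE h hp g x = x
      rw [reEE_apply, reE_apply, reP_x, map_zero, hp.xx, hp.yx, e2]
      show (0 : V) + (1 : F) • x + (0 : F) • y = x
      module
    · show reEE h hp g y = y
      rw [reEE_apply, reE_apply, reP_y, map_zero, hp.xy, hp.yy]
      show (0 : V) + (h.ε * 0) • x + (1 : F) • y = y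
      module
    · exact key g

/-- extension by the identity on `x` and `y` -/
noncomputable def ext {x y : V} (hp : h.Pair x y) :
    (h.perp2 x y ≃ₗ[F] h.perp2 x y) →* (V ≃ₗ[F] V) := (h.exists_ext hp).choose

theorem ext_injective {x y : V} (hp : h.Pair x y) : Function.Injective (h.ext hp) :=
  (h.exists_ext hp).choose_spec.1

theorem ext_x {x y : V} (hp : h.Pair x y) (g : h.perp2 x y ≃ₗ[F] h.perp2 x y) :
    h.ext hp g x = x := ((h.exists_ext hp).choose_spec.2 g).1

theorem ext_y {x y : V} (hp : h.Pair x y) (g : h.perp2 x y ≃ₗ[F] h.perp2 x y) :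
    h.ext hp g y = y := ((h.exists_ext hp).choose_spec.2 g).2.1

theorem ext_perp {x y : V} (hp : h.Pair x y) (g : h.perp2 x y ≃ₗ[F] h.perp2 x y)
    (v : h.perp2 x y) : h.ext hp g (v : V) = (g v : V) :=
  ((h.exists_ext hp).choose_spec.2 g).2.2 v

theorem ext_iso {x y : V} (hp : h.Pair x y) {g : h.perp2 x y ≃ₗ[F] h.perp2 x y}
    (hg : g ∈ (h.restr hp).Iso) : h.ext hp g ∈ h.Iso := by
  have key : ∀ v : V, h.ext hp g v =
      (g (reP h hp v) : V) + (h.ε * h.B y v) • x + h.B x v • y := by
    intro v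
    conv_lhs => rw [h.reP_dec hp v]
    rw [map_add, map_add, map_smul, map_smul, ext_x, ext_y, ext_perp]
  intro v w
  obtain ⟨a1, a2⟩ := h.re_Bv (g (reP h hp v))
  obtain ⟨a3, a4⟩ := h.re_Bv (reP h hp v)
  have a5 := (g (reP h hp w)).2.1
  have a6 := (g (reP h hp w)).2.2
  have a7 := (reP h hp w).2.1
  have a8 := (reP h hp w).2.2
  have a9 : h.B (g (reP h hp v) : V) (g (reP h hp w) : V) =
      h.B (reP h hp v : V) (reP h hp w : V) := hg _ _
  have e1 : h.B (h.ext hp g v) (h.ext hp g w) =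
      h.B ((reP h hp v : V) + (h.ε * h.B y v) • x + h.B x v • y)
        ((reP h hp w : V) + (h.ε * h.B y w) • x + h.B x w • y) := by
    rw [key, key]
    simp only [h.add_left, h.add_right, h.smul_left, h.smul_right, a1, a2, a3, a4, a5, a6, a7, a8,
      a9]
  rw [e1, ← h.reP_dec hp v, ← h.reP_dec hp w]

theorem ext_GG {p : ℕ} {x y : V} (hp : h.Pair x y) {g : h.perp2 x y ≃ₗ[F] h.perp2 x y}
    (hg : g ∈ (h.restr hp).GG p) : h.ext hp g ∈ h.GG p := by
  have key : (h.restr hp).GG p ≤ (h.GG p).comap (h.ext hp) := by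
    unfold GG
    rw [Subgroup.closure_le]
    rintro g ⟨h1, n, hn⟩
    exact Subgroup.subset_closure ⟨h.ext_iso hp h1, n, by rw [← map_pow, hn, map_one]⟩
  exact key hg

theorem ext_UU {x y : V} (hp : h.Pair x y) {z : h.perp2 x y}
    {g : h.perp2 x y ≃ₗ[F] h.perp2 x y} (hg : g ∈ (h.restr hp).UU z) :
    h.ext hp g ∈ h.UU (z : V) := by
  obtain ⟨h1, h2, h3⟩ := hg
  obtain ⟨z1, z2⟩ := h.re_Bv z
  refine ⟨h.ext_iso hp h1, ?_, ?_⟩
  · rw [ext_perp, h2]
  · intro v hv
    have h4 : h.B (z : V) (reP h hp v : V) = 0 := by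
      have h5 := hv
      rw [h.reP_dec hp v, h.add_right, h.add_right, h.smul_right, h.smul_right, z1, z2] at h5
      linear_combination h5
    obtain ⟨c, hc⟩ := h3 (reP h hp v) h4
    refine ⟨c, ?_⟩
    conv_lhs => rw [h.reP_dec hp v]
    conv_rhs => rw [h.reP_dec hp v]
    rw [map_add, map_add, map_smul, map_smul, ext_x, ext_y, ext_perp, hc, Submodule.coe_add,
      Submodule.coe_smul]
    module

/-- the isometries which fix `x` -/
def stabX (x : V) : Subgroup (V ≃ₗ[F] V) where
  carrier := {g | g ∈ h.Iso ∧ g x = x}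
  mul_mem' := by
    rintro a b ⟨ha, ha'⟩ ⟨hb, hb'⟩
    exact ⟨h.Iso.mul_mem ha hb, by show a (b x) = x; rw [hb', ha']⟩
  one_mem' := ⟨h.Iso.one_mem, rfl⟩
  inv_mem' := by
    rintro a ⟨ha, ha'⟩
    refine ⟨h.Iso.inv_mem ha, ?_⟩
    have h2 : a⁻¹ (a x) = x := a.symm_apply_apply x
    rwa [ha'] at h2

/-- the action on `perp2` -/
private def reS {x y : V} (hp : h.Pair x y) (g : h.stabX x) :
    h.perp2 x y →ₗ[F] h.perp2 x y :=
  (reP h hp) ∘ₗ ((g : V ≃ₗ[F] V) : V →ₗ[F] V) ∘ₗ (h.perp2 x y).subtype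

private theorem reS_apply {x y : V} (hp : h.Pair x y) (g : h.stabX x) (v : h.perp2 x y) :
    reS h hp g v = reP h hp ((g : V ≃ₗ[F] V) (v : V)) := rfl

private theorem reS_coe {x y : V} (hp : h.Pair x y) (g : h.stabX x) (v : h.perp2 x y) :
    ∃ c : F, ((reS h hp g v : h.perp2 x y) : V) = (g : V ≃ₗ[F] V) (v : V) + c • x := by
  refine ⟨-(h.ε * h.B y ((g : V ≃ₗ[F] V) (v : V))), ?_⟩
  have h1 : h.B x ((g : V ≃ₗ[F] V) (v : V)) = 0 := by
    have h2 := g.2.1 x (v : V)
    rw [g.2.2, v.2.1] at h2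
    exact h2
  rw [reS_apply, reP_coe]
  unfold p1
  rw [h1]
  module

private theorem reS_mul {x y : V} (hp : h.Pair x y) (g g' : h.stabX x) (v : h.perp2 x y) :
    reS h hp g (reS h hp g' v) = reS h hp (g * g') v := by
  obtain ⟨c, hc⟩ := h.reS_coe hp g' v
  rw [reS_apply, hc, map_add, map_smul, g.2.2, map_add, map_smul, reP_x, smul_zero, add_zero]
  rfl

private theorem reS_one {x y : V} (hp : h.Pair x y) (v : h.perp2 x y) : reS h hp 1 v = v := by
  rw [reS_apply]
  exact h.reP_perp hp v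

theorem exists_psi {x y : V} (hp : h.Pair x y) :
    ∃ e : h.stabX x →* (h.perp2 x y ≃ₗ[F] h.perp2 x y),
      ∀ (g : h.stabX x) (v : h.perp2 x y), ∃ c : F,
        ((e g v : h.perp2 x y) : V) = (g : V ≃ₗ[F] V) (v : V) + c • x := by
  refine ⟨
    { toFun := fun g => LinearEquiv.ofLinear (reS h hp g) (reS h hp g⁻¹)
        (by
          apply LinearMap.ext
          intro v
          show reS h hp g (reS h hp g⁻¹ v) = v
          rw [reS_mul, mul_inv_cancel, reS_one])
        (by
          apply LinearMap.ext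
          intro v
          show reS h hp g⁻¹ (reS h hp g v) = v
          rw [reS_mul, inv_mul_cancel, reS_one])
      map_one' := by
        apply LinearEquiv.ext
        intro v
        show reS h hp 1 v = v
        exact h.reS_one hp v
      map_mul' := by
        intro g g'
        apply LinearEquiv.ext
        intro v
        show reS h hp (g * g') v = reS h hp g (reS h hp g' v)
        exact (h.reS_mul hp g g' v).symm }, ?_⟩
  intro g v
  exact h.reS_coe hp g v

/-- the action of the stabilizer of `x` on `perp2 x y = x^⊥/⟨x⟩` -/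
noncomputable def psi {x y : V} (hp : h.Pair x y) :
    h.stabX x →* (h.perp2 x y ≃ₗ[F] h.perp2 x y) := (h.exists_psi hp).choose

theorem psi_apply {x y : V} (hp : h.Pair x y) (g : h.stabX x) (v : h.perp2 x y) :
    ∃ c : F, ((h.psi hp g v : h.perp2 x y) : V) = (g : V ≃ₗ[F] V) (v : V) + c • x :=
  (h.exists_psi hp).choose_spec g v

theorem psi_iso {x y : V} (hp : h.Pair x y) (g : h.stabX x) :
    h.psi hp g ∈ (h.restr hp).Iso := by
  intro v w
  show h.B ((h.psi hp g v : h.perp2 x y) : V) ((h.psi hp g w : h.perp2 x y) : V) =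
    h.B (v : V) (w : V)
  obtain ⟨c, hc⟩ := h.psi_apply hp g v
  obtain ⟨d, hd⟩ := h.psi_apply hp g w
  have h1 : h.B x ((g : V ≃ₗ[F] V) (w : V)) = 0 := by
    have h2 := g.2.1 x (w : V)
    rw [g.2.2, w.2.1] at h2
    exact h2
  have h3 : h.B ((g : V ≃ₗ[F] V) (v : V)) x = 0 := by
    have h2 := g.2.1 (v : V) x
    rw [g.2.2, h.B_symm_zero v.2.1] at h2
    exact h2
  have h4 := g.2.1 (v : V) (w : V)
  rw [hc, hd, h.add_left, h.add_right, h.add_right, h.smul_left, h.smul_left, h.smul_right,
    h.smul_right, h1, h3, hp.xx, h4]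
  ring

theorem ext_stabX {x y : V} (hp : h.Pair x y) {g : h.perp2 x y ≃ₗ[F] h.perp2 x y}
    (hg : g ∈ (h.restr hp).Iso) : h.ext hp g ∈ h.stabX x := ⟨h.ext_iso hp hg, h.ext_x hp g⟩

theorem psi_ext {x y : V} (hp : h.Pair x y) {g : h.perp2 x y ≃ₗ[F] h.perp2 x y}
    (hg : g ∈ (h.restr hp).Iso) : h.psi hp ⟨h.ext hp g, h.ext_stabX hp hg⟩ = g := by
  apply LinearEquiv.ext
  intro v
  apply Subtype.ext
  obtain ⟨c, hc⟩ := h.psi_apply hp ⟨h.ext hp g, h.ext_stabX hp hg⟩ v
  have h1 : (h.ext hp g) (v : V) = (g v : V) := h.ext_perp hp g v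
  rw [hc]
  show (h.ext hp g) (v : V) + c • x = _
  have h2 := (h.psi hp ⟨h.ext hp g, h.ext_stabX hp hg⟩ v).2.2
  rw [hc] at h2
  have h3 : h.B y ((h.ext hp g) (v : V) + c • x) = 0 := h2
  rw [h1, h.add_right, h.smul_right, (g v).2.2, hp.yx] at h3
  have h4 : c = 0 := by
    rcases mul_eq_zero.1 (by linear_combination h3 : c * h.ε = 0) with h5 | h5
    · exact h5
    · exact absurd h5 h.eps_ne
  rw [h1, h4]
  module

theorem psi_ker {x y : V} (hp : h.Pair x y) (g : h.stabX x) :
    h.psi hp g = 1 ↔ (g : V ≃ₗ[F] V) ∈ h.UU x := by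
  constructor
  · intro h1
    refine ⟨g.2.1, g.2.2, ?_⟩
    intro v hv
    obtain ⟨c, hc⟩ := h.psi_apply hp g (reP h hp v)
    rw [h1] at hc
    have hc' : (reP h hp v : V) = (g : V ≃ₗ[F] V) (reP h hp v : V) + c • x := hc
    refine ⟨-c, ?_⟩
    have h2 : (g : V ≃ₗ[F] V) (reP h hp v : V) = (reP h hp v : V) - c • x :=
      eq_sub_of_add_eq hc'.symm
    conv_lhs => rw [h.reP_dec hp v]
    conv_rhs => rw [h.reP_dec hp v]
    rw [map_add, map_add, map_smul, map_smul, h2, g.2.2, hv]
    module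
  · rintro ⟨-, -, h3⟩
    apply LinearEquiv.ext
    intro v
    apply Subtype.ext
    obtain ⟨c, hc⟩ := h.psi_apply hp g v
    obtain ⟨d, hd⟩ := h3 (v : V) v.2.1
    have h2 := (h.psi hp g v).2.2
    rw [hc, hd, h.add_right, h.add_right, h.smul_right, h.smul_right, v.2.2, hp.yx] at h2
    have h4 : d + c = 0 := by
      rcases mul_eq_zero.1 (by linear_combination h2 : (d + c) * h.ε = 0) with h5 | h5
      · exact h5
      · exact absurd h5 h.eps_ne
    rw [hc, hd]
    show (v : V) + d • x + c • x = (v : V)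
    rw [add_assoc, ← add_smul, h4, zero_smul, add_zero]

end
end HF

end Pool.Agent.Helper54.CL
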