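import Pool.Agent.Helper54.CL.Good

/-!
# CL-12: a good point and a second isotropic vector

PROOF.  `UU x ≤ M` by `good_UU`.  If `B x x' ≠ 0` use `GG_le_two`.  Otherwise `x' = c x + z`, `z ∈ perp2 x y` isotropic, `z ≠ 0`
(`B x x' = 0`: the coefficient of `y` is `0`).  Let `w` be a partner of `z` in `perp2` (`exists_partner` for `restr`) and `g1` from `exists_weyl`
for `restr` (`hb` by `finrank_ge_three` for `psi u`): `g1 z = c' w`; `G = ext g1 ∈ JN ≤ M` by `good_mem` (the order of `ext g1` is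
that of `g1`, `ext_injective`; `psi (ext g1) = g1`).  `x'' = G x' = c x + c' w`, `UU x'' ≤ M` by `UU_le_conj`, and
`B x'' x' = σ c' B w z ≠ 0`; `GG_le_two`.
-/

set_option autoImplicit false
open scoped Pointwise
open Pool.Agent.Helper54.PW Pool.Agent.Helper54.RT

namespace Pool.Agent.Helper54.CL

namespace HF
section
variable {p : ℕ} [Fact p.Prime] {k : Type} [Field k] [IsAlgClosed k] [CharP k p]
  {F V : Type} [Field F] [Finite F] [CharP F p] [AddCommGroup V] [Module F V] [Finite V]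
  (h : HF F V)

theorem good_top (hp5 : 5 ≤ p) {x y : V} (hp : h.Pair x y) {u : V ≃ₗ[F] V} (hu : u ∈ h.GG p)
    (hup : u ^ p = 1) (hux : u ∈ h.stabX x)
    (hr : RN k (Subgroup.zpowers (h.psi hp ⟨u, hux⟩)) ((h.restr hp).GG p))
    (hne : h.psi hp ⟨u, hux⟩ ≠ 1) {M : Subgroup (V ≃ₗ[F] V)}
    (hM : JN k (Subgroup.zpowers u) (h.GG p) ≤ M) {x' : V} (hx' : h.B x' x' = 0)
    (hind : ∀ c : F, x' ≠ c • x) (hUU : h.UU x' ≤ M) : h.GG p ≤ M := by
  classical
  have hp3 : 3 ≤ p := by omega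
  have h2 : (2 : F) ≠ 0 := two_ne (p := p) hp3
  have hUx : h.UU x ≤ M := (h.good_UU hp5 hp hu hup hux hr hne).trans hM
  by_cases hB : h.B x x' = 0
  swap
  · exact h.GG_le_two hp3 hp.xx hx' hB hUx hUU
  have hB' : h.B x' x = 0 := h.B_symm_zero hB
  -- the component of `x'` in `perp2`
  have hz0 : h.p1 x y x' = x' - (h.ε * h.B y x') • x := by
    unfold p1
    rw [hB, zero_smul, sub_zero]
  set c : F := h.ε * h.B y x' with hc
  set z0 : V := h.p1 x y x' with hz0def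
  have hx'z : x' = c • x + z0 := by rw [hz0]; abel
  have hxz : h.B x z0 = 0 := h.p1_x hp x'
  have hyz : h.B y z0 = 0 := h.p1_y hp x'
  have hzz : h.B z0 z0 = 0 := by
    rw [hz0]
    simp only [h.sub_left, h.sub_right, h.smul_left, h.smul_right, hx', hB, hB', hp.xx]
    ring
  have hzne : z0 ≠ 0 := by
    intro h0
    rw [h0, add_zero] at hx'z
    exact hind c hx'z
  have hzmem : z0 ∈ h.perp2 x y := ⟨hxz, hyz⟩
  have hzne' : (⟨z0, hzmem⟩ : h.perp2 x y) ≠ 0 := fun h0 => hzne (congrArg Subtype.val h0)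
  obtain ⟨w, hw⟩ := (h.restr hp).exists_partner h2 hzne' hzz
  have hupsi : (h.psi hp ⟨u, hux⟩) ^ (p ^ 1) = 1 := by
    rw [pow_one, ← map_pow]
    have : (⟨u, hux⟩ : h.stabX x) ^ p = 1 := Subtype.ext hup
    rw [this, map_one]
  have hb : (h.restr hp).IsO → 3 ≤ Module.finrank F (h.perp2 x y) := fun hO =>
    (h.restr hp).finrank_ge_three (p := p) hp3 hO (h.psi_iso hp ⟨u, hux⟩) hupsi hne
  obtain ⟨g1, hg1, ⟨c', hc', hgz⟩, hord⟩ := (h.restr hp).exists_weyl (p := p) hp5 hb hw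
  have hg1I : g1 ∈ (h.restr hp).Iso := (h.restr hp).GG_le p hg1
  have hGst : h.ext hp g1 ∈ h.stabX x := h.ext_stabX hp hg1I
  have hG : h.ext hp g1 ∈ h.GG p := h.ext_GG hp hg1
  have hGI : h.ext hp g1 ∈ h.Iso := h.GG_le p hG
  have hGJ : h.ext hp g1 ∈ JN k (Subgroup.zpowers u) (h.GG p) := by
    refine h.good_mem hp5 hp hu hup hux hr hG hGst ?_ ?_
    · rw [h.psi_ext hp hg1I]
      exact hg1
    · rw [orderOf_injective (h.ext hp) (h.ext_injective hp) g1]
      exact hord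
  have hGM : h.ext hp g1 ∈ M := hM hGJ
  have hGx' : h.ext hp g1 x' = c • x + c' • (w : V) := by
    rw [hx'z, map_add, map_smul, h.ext_x]
    have h1 := h.ext_perp hp g1 ⟨z0, hzmem⟩
    rw [hgz] at h1
    rw [show (h.ext hp g1) z0 = c' • (w : V) from h1]
  have hUx'' : h.UU (h.ext hp g1 x') ≤ M := h.UU_le_conj hGM hGI hUU
  have hxx'' : h.B (h.ext hp g1 x') (h.ext hp g1 x') = 0 := by
    rw [hGI x' x', hx']
  have hwz : h.B (w : V) z0 = h.ε := hw.yx
  have hwx : h.B (w : V) x = 0 := h.B_symm_zero w.2.1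
  have hBne : h.B (h.ext hp g1 x') x' ≠ 0 := by
    have h1 : h.B (h.ext hp g1 x') x' = h.σ c' * h.ε := by
      rw [hGx']
      conv_lhs => rw [hx'z]
      simp only [h.add_left, h.add_right, h.smul_left, h.smul_right, hp.xx, hxz, hwz, hwx]
      ring
    rw [h1]
    exact mul_ne_zero ((map_ne_zero h.σ).2 hc') h.eps_ne
  exact h.GG_le_two hp3 hxx'' hx' hBne hUx'' hUU

end
end HF

end Pool.Agent.Helper54.CL
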