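import Pool.Agent.Helper54.CL.PiThree

/-!
# CL-08: elements of order prime to `p` in `GG`: torus and Weyl elements

PROOF.  Let `Pair z w`.  If the form is not symmetric use `exists_kappa`, `exists_pi2`, otherwise `exists_nonsing`, `exists_pi3`.
* `exists_torus`: the image of `diag(2, 2⁻¹)`; `l = 2` (not symmetric) or `l = 4` (`pi3`; `p ≥ 5`).  On `z, w` and their
  complement it is diagonal with entries `l, l⁻¹, 1`, so `g^(p-1) = 1` (`l^(p-1) = 1` in `F`,
  `ZMod.pow_card_sub_one_eq_one` and the ring map `ZMod p → F`), and `p ∤ p - 1`.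
* `exists_weyl`: the image of `!![0, 1; -1, 0]`; its fourth power is `1`, and `p ∤ 4`.
* `exists_move`: `exists_weyl` gives `g ∈ GG` with `g x = c y`, and `B (c y) x ≠ 0`.
-/

set_option autoImplicit false

namespace Pool.Agent.Helper54.CL

private theorem tor_diag_det {K : Type} [Field K] {l : K} (hl : l ≠ 0) :
    (!![l, 0; 0, l⁻¹] : Matrix (Fin 2) (Fin 2) K).det = 1 := by
  rw [Matrix.det_fin_two_of, mul_inv_cancel₀ hl, mul_zero, sub_zero]

private def torD {K : Type} [Field K] {l : K} (hl : l ≠ 0) :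
    Matrix.SpecialLinearGroup (Fin 2) K := ⟨!![l, 0; 0, l⁻¹], tor_diag_det hl⟩

private theorem tor_diag_pow {K : Type} [Field K] (l : K) (n : ℕ) :
    (!![l, 0; 0, l⁻¹] : Matrix (Fin 2) (Fin 2) K) ^ n = !![l ^ n, 0; 0, l⁻¹ ^ n] := by
  induction n with
  | zero =>
    rw [pow_zero, pow_zero, pow_zero]
    exact Matrix.one_fin_two
  | succ n ih =>
    rw [pow_succ, ih, Matrix.mul_fin_two, pow_succ, pow_succ]
    simp

private theorem tor_two_pow {p : ℕ} [Fact p.Prime] {K : Type} [Field K] [CharP K p]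
    (h2 : (2 : K) ≠ 0) : (2 : K) ^ (p - 1) = 1 := by
  have h3 : (2 : ZMod p) ≠ 0 := by
    intro h0
    apply h2
    have h4 := congrArg (ZMod.castHom (dvd_refl p) K) h0
    rw [map_ofNat, map_zero] at h4
    exact h4
  have h4 := congrArg (ZMod.castHom (dvd_refl p) K) (ZMod.pow_card_sub_one_eq_one h3)
  rw [map_pow, map_ofNat, map_one] at h4
  exact h4

private theorem tor_order {G H : Type} [Group G] [Group H] (π : G →* H) {g : G} {m p : ℕ}
    (hg : g ^ m = 1) (hpm : ¬ p ∣ m) : ¬ p ∣ orderOf (π g) := by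
  intro hp
  apply hpm
  refine hp.trans (orderOf_dvd_of_pow_eq_one ?_)
  rw [← map_pow, hg, map_one]

private theorem tor_diag_one {p : ℕ} [Fact p.Prime] {K : Type} [Field K] [CharP K p]
    (h2 : (2 : K) ≠ 0) :
    (torD h2) ^ (p - 1) = 1 := by
  apply Subtype.ext
  rw [Matrix.SpecialLinearGroup.coe_pow]
  show (!![2, 0; 0, 2⁻¹] : Matrix (Fin 2) (Fin 2) K) ^ (p - 1) = 1
  rw [tor_diag_pow, inv_pow, tor_two_pow h2, inv_one]
  exact Matrix.one_fin_two.symm

private theorem tor_w_det {K : Type} [Field K] :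
    (!![0, 1; -1, 0] : Matrix (Fin 2) (Fin 2) K).det = 1 := by
  rw [Matrix.det_fin_two_of]
  ring

private def torW (K : Type) [Field K] :
    Matrix.SpecialLinearGroup (Fin 2) K := ⟨!![0, 1; -1, 0], tor_w_det⟩

private theorem tor_w_one {K : Type} [Field K] : (torW K) ^ 4 = 1 := by
  apply Subtype.ext
  rw [Matrix.SpecialLinearGroup.coe_pow]
  show (!![0, 1; -1, 0] : Matrix (Fin 2) (Fin 2) K) ^ 4 = 1
  rw [show (4 : ℕ) = 2 + 2 from rfl, pow_add, pow_two, Matrix.mul_fin_two, Matrix.mul_fin_two]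
  rw [Matrix.one_fin_two]
  simp

private theorem tor_nat_ne {p : ℕ} {F : Type} [Field F] [CharP F p] {m : ℕ} (hm : 0 < m)
    (hmp : m < p) : ((m : ℕ) : F) ≠ 0 := by
  intro h0
  rw [CharP.cast_eq_zero_iff F p] at h0
  exact absurd (Nat.le_of_dvd hm h0) (not_le.mpr hmp)

namespace HF
section
variable {p : ℕ} [Fact p.Prime] {F V : Type} [Field F] [CharP F p] [AddCommGroup V] [Module F V]
  [FiniteDimensional F V] (h : HF F V)

theorem exists_torus (hp5 : 5 ≤ p) (hb : h.IsO → 3 ≤ Module.finrank F V) {z w : V}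
    (hp : h.Pair z w) :
    ∃ l : F, l ≠ 0 ∧ h.σ l = l ∧ l ≠ 1 ∧ (¬ h.IsO → l ^ 2 ≠ 1) ∧
      ∃ g ∈ h.GG p, g z = l • z ∧ g w = l⁻¹ • w ∧
        (∀ v, h.B z v = 0 → h.B w v = 0 → g v = v) ∧ ¬ p ∣ orderOf g := by
  have h2 : (2 : F) ≠ 0 := by exact_mod_cast tor_nat_ne (F := F) (p := p) (m := 2) (by omega) (by omega)
  have h3 : (3 : F) ≠ 0 := by exact_mod_cast tor_nat_ne (F := F) (p := p) (m := 3) (by omega) (by omega)
  have h2' : (2 : h.F0) ≠ 0 := by
    intro h0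
    apply h2
    have := congrArg (fun x : h.F0 => (x : F)) h0
    exact this
  have hpm : ¬ p ∣ p - 1 := by
    intro hd
    have := Nat.le_of_dvd (by omega) hd
    omega
  have c2 : ((2 : h.F0) : F) = 2 := rfl
  have c2' : (((2 : h.F0)⁻¹ : h.F0) : F) = 2⁻¹ := rfl
  have c0 : ((0 : h.F0) : F) = 0 := rfl
  by_cases hO : h.IsO
  · obtain ⟨e, hze, hwe, hee⟩ := h.exists_nonsing h2 hO (hb hO) hp
    have ht : 2 * h.B e e * (-h.ε / (2 * h.B e e)) = -h.ε := by
      field_simp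
    obtain ⟨π, hπ, hπ1, hπ2⟩ := h.exists_pi3 (by omega : 3 ≤ p) hp hze hwe hee ht
    obtain ⟨q1, q2, q3⟩ := hπ1 (torD h2') 2 0 0 2⁻¹ rfl
    rw [c2, c2', c0] at q2
    rw [c2, c0] at q1
    rw [c2', c0] at q3
    refine ⟨4, ?_, ?_, ?_, fun hn => absurd hO hn, π (torD h2'), hπ ⟨torD h2', rfl⟩, ?_, ?_, ?_,
      tor_order π (tor_diag_one h2') hpm⟩
    · have : (4 : F) = 2 ^ 2 := by norm_num
      rw [this]
      exact pow_ne_zero 2 h2
    · exact map_ofNat h.σ 4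
    · intro h4
      apply h3
      linear_combination h4
    · rw [q1]
      have e1 : (2 * 2 * 0 * (-h.ε / (2 * h.B e e)) : F) = 0 := by ring
      have e2 : ((0 : F) ^ 2 * (-h.ε / (2 * h.B e e))) = 0 := by ring
      rw [e1, e2, zero_smul, zero_smul, add_zero, add_zero]
      norm_num
    · rw [q3]
      have e1 : ((0 : F) ^ 2 * (-h.ε / (2 * h.B e e))⁻¹) = 0 := by ring
      have e2 : (2 * 0 * 2⁻¹ : F) = 0 := by ring
      rw [e1, e2, zero_smul, zero_smul, zero_add, zero_add]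
      norm_num
    · intro v hzv hwv
      have e1 : v = (v - (h.B e v / h.B e e) • e) + (h.B e v / h.B e e) • e := by abel
      have e2 : π (torD h2') (v - (h.B e v / h.B e e) • e) =
          v - (h.B e v / h.B e e) • e := by
        apply hπ2
        · rw [h.sub_right, h.smul_right, hzv, hze, mul_zero, sub_zero]
        · rw [h.sub_right, h.smul_right, hwv, hwe, mul_zero, sub_zero]
        · rw [h.sub_right, h.smul_right, div_mul_cancel₀ _ hee, sub_self]
      have e3 : π (torD h2') e = e := by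
        rw [q2]
        have f1 : (2 * 0 * (-h.ε / (2 * h.B e e))⁻¹ : F) = 0 := by ring
        have f2 : ((2 : F) * 2⁻¹ + 0 * 0) = 1 := by
          rw [mul_inv_cancel₀ h2]
          ring
        have f3 : ((0 : F) * 2⁻¹) = 0 := by ring
        rw [f1, f2, f3, zero_smul, zero_smul, one_smul, zero_add, add_zero]
      conv_lhs => rw [e1]
      rw [map_add, map_smul, e2, e3]
      abel
  · obtain ⟨κ, hκ, hκ'⟩ := h.exists_kappa (by omega : 3 ≤ p) hO
    obtain ⟨π, hπ, hπ1, -⟩ := h.exists_pi2 (by omega : 3 ≤ p) hp hκ hκ'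
    have q := hπ1 (torD h2')
    have q' : ∀ v : V, π (torD h2') v =
        v + (((2 : F) - 1) * (h.ε * h.B w v) + 0 * κ * h.B z v) • z +
          (0 * κ⁻¹ * (h.ε * h.B w v) + ((2 : F)⁻¹ - 1) * h.B z v) • w := q
    refine ⟨2, h2, ?_, ?_, ?_, π (torD h2'), hπ ⟨torD h2', rfl⟩, ?_, ?_, ?_,
      tor_order π (tor_diag_one h2') hpm⟩
    · exact map_ofNat h.σ 2
    · intro h4
      exact one_ne_zero (α := F) (by linear_combination h4)
    · intro _ h4
      apply h3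
      linear_combination h4
    · rw [q', hp.yx, hp.xx, h.eps]
      have e1 : (((2 : F) - 1) * 1 + 0 * κ * 0) = 1 := by ring
      have e2 : ((0 : F) * κ⁻¹ * 1 + ((2 : F)⁻¹ - 1) * 0) = 0 := by ring
      rw [e1, e2, zero_smul, add_zero, one_smul, two_smul]
    · rw [q', hp.yy, hp.xy]
      have e1 : (((2 : F) - 1) * (h.ε * 0) + 0 * κ * 1) = 0 := by ring
      have e2 : ((0 : F) * κ⁻¹ * (h.ε * 0) + ((2 : F)⁻¹ - 1) * 1) = 2⁻¹ - 1 := by ring
      rw [e1, e2, zero_smul, add_zero, sub_smul, one_smul]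
      abel
    · intro v hzv hwv
      rw [q', hzv, hwv]
      have e1 : (((2 : F) - 1) * (h.ε * 0) + 0 * κ * 0) = 0 := by ring
      have e2 : ((0 : F) * κ⁻¹ * (h.ε * 0) + ((2 : F)⁻¹ - 1) * 0) = 0 := by ring
      rw [e1, e2, zero_smul, zero_smul, add_zero, add_zero]

theorem exists_weyl (hp5 : 5 ≤ p) (hb : h.IsO → 3 ≤ Module.finrank F V) {z w : V}
    (hp : h.Pair z w) :
    ∃ g ∈ h.GG p, (∃ c : F, c ≠ 0 ∧ g z = c • w) ∧ ¬ p ∣ orderOf g := by
  have h2 : (2 : F) ≠ 0 := by exact_mod_cast tor_nat_ne (F := F) (p := p) (m := 2) (by omega) (by omega)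
  have hpm : ¬ p ∣ 4 := by
    intro hd
    have := Nat.le_of_dvd (by omega) hd
    omega
  have c1 : ((-1 : h.F0) : F) = -1 := rfl
  have c1' : ((1 : h.F0) : F) = 1 := rfl
  have c0 : ((0 : h.F0) : F) = 0 := rfl
  by_cases hO : h.IsO
  · obtain ⟨e, hze, hwe, hee⟩ := h.exists_nonsing h2 hO (hb hO) hp
    have ht : 2 * h.B e e * (-h.ε / (2 * h.B e e)) = -h.ε := by
      field_simp
    obtain ⟨π, hπ, hπ1, hπ2⟩ := h.exists_pi3 (by omega : 3 ≤ p) hp hze hwe hee ht
    obtain ⟨q1, q2, q3⟩ := hπ1 (torW h.F0) 0 1 (-1) 0 rfl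
    rw [c1, c0] at q1
    refine ⟨π (torW h.F0), hπ ⟨torW h.F0, rfl⟩, ⟨-h.ε / (2 * h.B e e), ?_, ?_⟩, tor_order π tor_w_one hpm⟩
    · exact div_ne_zero (neg_ne_zero.mpr h.eps_ne) (mul_ne_zero h2 hee)
    · rw [q1]
      have e1 : ((0 : F) ^ 2) = 0 := by ring
      have e2 : (2 * 0 * (-1) * (-h.ε / (2 * h.B e e)) : F) = 0 := by ring
      have e3 : ((-1 : F) ^ 2 * (-h.ε / (2 * h.B e e))) = (-h.ε / (2 * h.B e e)) := by ring
      rw [e1, e2, e3, zero_smul, zero_smul, zero_add, zero_add]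
  · obtain ⟨κ, hκ, hκ'⟩ := h.exists_kappa (by omega : 3 ≤ p) hO
    obtain ⟨π, hπ, hπ1, -⟩ := h.exists_pi2 (by omega : 3 ≤ p) hp hκ hκ'
    have q := hπ1 (torW h.F0)
    have q' : ∀ v : V, π (torW h.F0) v =
        v + (((0 : F) - 1) * (h.ε * h.B w v) + 1 * κ * h.B z v) • z +
          ((-1) * κ⁻¹ * (h.ε * h.B w v) + ((0 : F) - 1) * h.B z v) • w := q
    refine ⟨π (torW h.F0), hπ ⟨torW h.F0, rfl⟩, ⟨-κ⁻¹, neg_ne_zero.mpr (inv_ne_zero hκ), ?_⟩,
      tor_order π tor_w_one hpm⟩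
    rw [q', hp.yx, hp.xx, h.eps]
    have e1 : (((0 : F) - 1) * 1 + 1 * κ * 0) = -1 := by ring
    have e2 : ((-1) * κ⁻¹ * 1 + ((0 : F) - 1) * 0) = -κ⁻¹ := by ring
    rw [e1, e2, neg_smul, one_smul]
    abel

end
end HF

end Pool.Agent.Helper54.CL
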