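import Pool.Agent.Helper54.CL.Restr

/-!
# CL-04: two isotropic vectors which are not orthogonal; unipotent isometries have isotropic fixed vectors

PROOF.
* `uu_two`: scale `y`: `Pair x y`, `UU_smul`.  (1) every isotropic `z` with `B x z ≠ 0`: by `UU_trans` there is `g ∈ UU x` with `g y = c z`, so
  `UU z = UU (g y) = g (UU y) g⁻¹ ≤ M` (`UU_conj`, both inclusions: for `w ∈ UU (g y)`, `g⁻¹ w g ∈ UU y`).  In the same way if
  `B y z ≠ 0`.  (2) `z ⊥ x, y`, `z ≠ 0`: take `w` from `exists_partner_perp`, `z' = y + w` is isotropic, `B x z' = 1`, so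
  `UU z' ≤ M` by (1), and `B z z' = 1 ≠ 0`; apply (1) to the pair `z', x` (`B z' x ≠ 0`) and `z`: `B z' z ≠ 0`.
* `exists_fixed`: `N = u - 1` is nilpotent: in `Module.End F V`, `(u - 1)^(p^n) = u^(p^n) - 1 = 0` (characteristic `p`,
  `sub_pow_char_pow` for commuting elements).  `N ≠ 0`: choose `x = N w ≠ 0` with `N x = 0` (take the last nonzero power).
  `B x x = B x (u w) - B x w = B (u x) (u w) - B x w = 0`.
* `finrank_ge_three`: let `x` be a fixed isotropic vector, `Pair x y`.  If `finrank ≤ 2` then `perp2 x y = 0`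
  (`finrank_perp2`), `u y = α x + β y`, `β = B x (u y) = 1`, `0 = B (u y) (u y) = 2 α`, so `u y = y`, and `u = 1`.
* `exists_nonsing`: the form on `perp2 x y` is symmetric and nondegenerate (`restr`), and the space is not zero, so there
  are `a, b` with `B a b ≠ 0`; one of `a`, `b`, `a + b` is not isotropic (`2 ≠ 0`).
-/

set_option autoImplicit false

namespace Pool.Agent.Helper54.CL

namespace HF
section
variable {F V : Type} [Field F] [AddCommGroup V] [Module F V] (h : HF F V)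

theorem UU_le_conj {M : Subgroup (V ≃ₗ[F] V)} {g : V ≃ₗ[F] V} (hg : g ∈ M) (hgI : g ∈ h.Iso)
    {x : V} (hx : h.UU x ≤ M) : h.UU (g x) ≤ M := by
  intro w hw
  have n1 := h.UU_conj (h.Iso.inv_mem hgI) (g x) hw
  have n2 : g⁻¹ (g x) = x := g.symm_apply_apply x
  rw [n2] at n1
  have n3 := M.mul_mem (M.mul_mem hg (hx n1)) (M.inv_mem hg)
  have n4 : g * (g⁻¹ * w * g⁻¹⁻¹) * g⁻¹ = w := by group
  rwa [n4] at n3

private theorem tw_one (h2 : (2 : F) ≠ 0) {x y : V} (hx : h.B x x = 0) (hy : h.B y y = 0)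
    (hxy : h.B x y ≠ 0) {M : Subgroup (V ≃ₗ[F] V)} (hxM : h.UU x ≤ M) (hyM : h.UU y ≤ M)
    {z : V} (hz : h.B z z = 0) (hxz : h.B x z ≠ 0) : h.UU z ≤ M := by
  have hp : h.Pair x ((h.B x y)⁻¹ • y) := by
    refine ⟨hx, ?_, ?_⟩
    · rw [h.smul_left, h.smul_right, hy, mul_zero, mul_zero]
    · rw [h.smul_right, inv_mul_cancel₀ hxy]
  have hyM' : h.UU ((h.B x y)⁻¹ • y) ≤ M := by
    rw [h.UU_smul (inv_ne_zero hxy)]
    exact hyM
  obtain ⟨g, hg, c, hc, hgy⟩ := h.UU_trans hp hz hxz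
  have h1 := h.UU_le_conj (hxM hg) hg.1 hyM'
  rw [hgy, h.UU_smul hc] at h1
  exact h1

theorem uu_two (h2 : (2 : F) ≠ 0) {x y : V} (hx : h.B x x = 0) (hy : h.B y y = 0)
    (hxy : h.B x y ≠ 0) {M : Subgroup (V ≃ₗ[F] V)} (hxM : h.UU x ≤ M) (hyM : h.UU y ≤ M)
    {z : V} (hz0 : z ≠ 0) (hz : h.B z z = 0) : h.UU z ≤ M := by
  by_cases hxz : h.B x z = 0
  · by_cases hyz : h.B y z = 0
    · have hp : h.Pair x ((h.B x y)⁻¹ • y) := by
        refine ⟨hx, ?_, ?_⟩
        · rw [h.smul_left, h.smul_right, hy, mul_zero, mul_zero]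
        · rw [h.smul_right, inv_mul_cancel₀ hxy]
      have hyM' : h.UU ((h.B x y)⁻¹ • y) ≤ M := by
        rw [h.UU_smul (inv_ne_zero hxy)]
        exact hyM
      have hyz' : h.B ((h.B x y)⁻¹ • y) z = 0 := by rw [h.smul_left, hyz, mul_zero]
      obtain ⟨w, hw, hxw, hyw⟩ := h.exists_partner_perp h2 hp hz0 hz hxz hyz'
      have e1 : h.B ((h.B x y)⁻¹ • y + w) ((h.B x y)⁻¹ • y + w) = 0 := by
        rw [h.add_left, h.add_right, h.add_right, hp.yy, hyw, h.B_symm_zero hyw, hw.yy]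
        ring
      have e2 : h.B x ((h.B x y)⁻¹ • y + w) = 1 := by
        rw [h.add_right, hp.xy, hxw, add_zero]
      have e3 : h.B z ((h.B x y)⁻¹ • y + w) = 1 := by
        rw [h.add_right, h.B_symm_zero hyz', hw.xy, zero_add]
      have hM' : h.UU ((h.B x y)⁻¹ • y + w) ≤ M :=
        h.tw_one h2 hx hp.yy (by rw [hp.xy]; exact one_ne_zero) hxM hyM' e1
          (by rw [e2]; exact one_ne_zero)
      have e4 : h.B ((h.B x y)⁻¹ • y + w) x ≠ 0 := by
        intro h0
        have := h.B_symm_zero h0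
        rw [e2] at this
        exact one_ne_zero this
      have e5 : h.B ((h.B x y)⁻¹ • y + w) z ≠ 0 := by
        intro h0
        have := h.B_symm_zero h0
        rw [e3] at this
        exact one_ne_zero this
      exact h.tw_one h2 e1 hx e4 hM' hxM hz e5
    · have hyx : h.B y x ≠ 0 := fun h0 => hxy (h.B_symm_zero h0)
      exact h.tw_one h2 hy hx hyx hyM hxM hz hyz
  · exact h.tw_one h2 hx hy hxy hxM hyM hz hxz

/-- fixed vectors are orthogonal to the image of `u - 1` -/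
theorem fixed_perp {u : V ≃ₗ[F] V} (hu : u ∈ h.Iso) {x : V} (hx : u x = x) (w : V) :
    h.B x (u w - w) = 0 := by
  have h1 := hu x w
  rw [hx] at h1
  rw [h.sub_right, h1, sub_self]

theorem exists_nonsing [FiniteDimensional F V] (h2 : (2 : F) ≠ 0) (hO : h.IsO)
    (h3 : 3 ≤ Module.finrank F V) {x y : V} (hp : h.Pair x y) :
    ∃ e, h.B x e = 0 ∧ h.B y e = 0 ∧ h.B e e ≠ 0 := by
  have hf := h.finrank_perp2 hp
  have hpos : 0 < Module.finrank F (h.perp2 x y) := by omega
  have hnt : Nontrivial (h.perp2 x y) := Module.nontrivial_of_finrank_pos hpos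
  obtain ⟨v, hv⟩ := exists_ne (0 : h.perp2 x y)
  obtain ⟨w, hw⟩ : ∃ w : h.perp2 x y, h.B (v : V) (w : V) ≠ 0 := by
    by_contra hcon
    push Not at hcon
    exact hv (h.perp2_nondeg hp v hcon)
  have hsy : h.B (w : V) (v : V) = h.B (v : V) (w : V) := by
    rw [h.herm (v : V) (w : V), hO.1, hO.2, one_mul]
  by_cases h1 : h.B (v : V) (v : V) = 0
  · by_cases h4 : h.B (w : V) (w : V) = 0
    · refine ⟨((v + w : h.perp2 x y) : V), (v + w).2.1, (v + w).2.2, ?_⟩
      rw [Submodule.coe_add, h.add_left, h.add_right, h.add_right, h1, h4, hsy]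
      intro h5
      have h6 : 2 * h.B (v : V) (w : V) = 0 := by linear_combination h5
      rcases mul_eq_zero.1 h6 with h7 | h7
      · exact h2 h7
      · exact hw h7
    · exact ⟨w, w.2.1, w.2.2, h4⟩
  · exact ⟨v, v.2.1, v.2.2, h1⟩

end

section
variable {p : ℕ} [Fact p.Prime] {F V : Type} [Field F] [CharP F p] [AddCommGroup V] [Module F V]
  (h : HF F V)

private theorem tw_coe_pow (u : V ≃ₗ[F] V) (n : ℕ) (v : V) :
    ((u : Module.End F V) ^ n) v = (u ^ n) v := by
  induction n with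
  | zero => rfl
  | succ n ih =>
    rw [pow_succ', Module.End.mul_apply, ih, pow_succ']
    rfl

private theorem tw_nilp [Nontrivial V] {u : V ≃ₗ[F] V} {n : ℕ} (hup : u ^ (p ^ n) = 1) :
    ((u : Module.End F V) - 1) ^ (p ^ n) = 0 := by
  haveI : CharP (Module.End F V) p :=
    charP_of_injective_algebraMap (algebraMap F (Module.End F V)).injective p
  have h2 : ((u : Module.End F V) - 1) ^ (p ^ n) = (u : Module.End F V) ^ (p ^ n) - 1 ^ (p ^ n) :=
    sub_pow_char_pow_of_commute p n (Commute.one_right (u : Module.End F V))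
  rw [h2, one_pow]
  ext v
  rw [LinearMap.sub_apply, tw_coe_pow, hup]
  show v - v = 0
  exact sub_self v

theorem exists_fixed {u : V ≃ₗ[F] V} (hu : u ∈ h.Iso) {n : ℕ} (hn : u ^ (p ^ n) = 1)
    (h1 : u ≠ 1) : ∃ x w : V, x ≠ 0 ∧ h.B x x = 0 ∧ u x = x ∧ x = u w - w := by
  classical
  have hnt : Nontrivial V := by
    by_contra hcon
    rw [not_nontrivial_iff_subsingleton] at hcon
    exact h1 (LinearEquiv.ext fun v => Subsingleton.elim _ _)
  have hap : ∀ v, ((u : Module.End F V) - 1) v = u v - v := fun v => rfl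
  have hex : ∃ m, ((u : Module.End F V) - 1) ^ m = 0 := ⟨p ^ n, tw_nilp hn⟩
  obtain ⟨m, hm, hmin⟩ : ∃ m, ((u : Module.End F V) - 1) ^ m = 0 ∧
      ∀ k, k < m → ((u : Module.End F V) - 1) ^ k ≠ 0 :=
    ⟨Nat.find hex, Nat.find_spec hex, fun k hk => Nat.find_min hex hk⟩
  have hm0 : m ≠ 0 := by
    rintro rfl
    rw [pow_zero] at hm
    exact one_ne_zero hm
  have hm1 : m ≠ 1 := by
    rintro rfl
    rw [pow_one, sub_eq_zero] at hm
    apply h1
    apply LinearEquiv.ext
    intro v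
    have := congrArg (fun A : Module.End F V => A v) hm
    exact this
  obtain ⟨k, rfl⟩ : ∃ k, m = k + 1 + 1 := ⟨m - 2, by omega⟩
  have hne := hmin (k + 1) (by omega)
  obtain ⟨w0, hw0⟩ : ∃ w, (((u : Module.End F V) - 1) ^ (k + 1)) w ≠ 0 := by
    by_contra hcon
    push Not at hcon
    exact hne (LinearMap.ext hcon)
  have e1 : (((u : Module.End F V) - 1) ^ (k + 1)) w0 =
      u ((((u : Module.End F V) - 1) ^ k) w0) - (((u : Module.End F V) - 1) ^ k) w0 := by
    rw [pow_succ', Module.End.mul_apply, hap]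
  have e2 : u ((((u : Module.End F V) - 1) ^ (k + 1)) w0) =
      (((u : Module.End F V) - 1) ^ (k + 1)) w0 := by
    have e3 : (((u : Module.End F V) - 1) ^ (k + 1 + 1)) w0 = 0 := by
      rw [hm, LinearMap.zero_apply]
    rw [pow_succ', Module.End.mul_apply, hap, sub_eq_zero] at e3
    exact e3
  refine ⟨_, _, hw0, ?_, e2, e1⟩
  conv_lhs => rw [e1]
  rw [← e1]
  conv_lhs =>
    rw [e1]
  have e4 := h.fixed_perp hu e2 ((((u : Module.End F V) - 1) ^ k) w0)
  rw [← e1] at e4
  rw [← e1]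
  exact e4

theorem finrank_ge_three [FiniteDimensional F V] (hp3 : 3 ≤ p) (hO : h.IsO) {u : V ≃ₗ[F] V}
    (hu : u ∈ h.Iso) {n : ℕ} (hn : u ^ (p ^ n) = 1) (h1 : u ≠ 1) :
    3 ≤ Module.finrank F V := by
  by_contra hlt
  have h2 : (2 : F) ≠ 0 := two_ne (p := p) hp3
  obtain ⟨x, w, hx0, hxx, hux, -⟩ := h.exists_fixed hu hn h1
  obtain ⟨y, hp⟩ := h.exists_partner h2 hx0 hxx
  have hf := h.finrank_perp2 hp
  have h0 : Module.finrank F (h.perp2 x y) = 0 := by omega
  have hsub : Subsingleton (h.perp2 x y) := Module.finrank_zero_iff.mp h0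
  have hp1 : ∀ v, h.p1 x y v = 0 := by
    intro v
    have := Subsingleton.elim (⟨h.p1 x y v, h.p1_x hp v, h.p1_y hp v⟩ : h.perp2 x y) 0
    exact congrArg Subtype.val this
  have hdec : ∀ v, v = (h.ε * h.B y v) • x + h.B x v • y := by
    intro v
    have h3 := hp1 v
    unfold p1 at h3
    rw [sub_sub, sub_eq_zero] at h3
    exact h3
  have hxu : h.B x (u y) = 1 := by
    have h3 := hu x y
    rw [hux, hp.xy] at h3
    exact h3
  have huy : u y = h.B y (u y) • x + y := by
    have h3 := hdec (u y)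
    rw [hxu, hO.2, one_mul, one_smul] at h3
    exact h3
  have hyx : h.B y x = 1 := by rw [hp.yx, hO.2]
  have h4 : h.B (u y) (u y) = 0 := by rw [hu y y, hp.yy]
  have h5 : h.B y (u y) = 0 := by
    have h6 : h.B (h.B y (u y) • x + y) (h.B y (u y) • x + y) = 0 := by
      rw [← huy]
      exact h4
    rw [h.add_left, h.add_right, h.add_right, h.smul_left, h.smul_left, h.smul_right,
      h.smul_right, hO.1, hxx, hp.xy, hyx, hp.yy] at h6
    have h7 : 2 * h.B y (u y) = 0 := by linear_combination h6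
    exact (mul_eq_zero.1 h7).resolve_left h2
  have huy' : u y = y := by
    rw [h5, zero_smul, zero_add] at huy
    exact huy
  apply h1
  apply LinearEquiv.ext
  intro v
  show u v = v
  conv_lhs => rw [hdec v]
  conv_rhs => rw [hdec v]
  rw [map_add, map_smul, map_smul, hux, huy']

end
end HF

end Pool.Agent.Helper54.CL
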