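import Pool.Agent.Helper54.CL.Top

/-!
# CL-18: the induction statement; two independent good points

PROOF.
* `adq_rn`: `psi u` is an isometry of `perp2 x y` with `p`-th power `1`, so it is in `(restr).GG p` (`Subgroup.subset_closure`); it is not `1` by
  `psi_ker`.  The induction hypothesis for `restr` (`finrank_perp2`), if `psi u` is not exceptional.  If it is then the form is
  symmetric and `finrank F V = 6`; let `v` be as in `Adq`, `v = p1 x y v + α x` (`B x v = 0`), `N = u - 1`; `N² v = N² (p1 v)`, and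
  `N² w ∈ ⟨x⟩` for `w ∈ perp2`, since `psi u w - w = N w + c x` and `psi u` is exceptional: contradiction.
* `two_good`: `exists_partner`, `adq_rn`, `good_UU` for `x` and for `x'`, `good_top` with `M = JN`, `rn_of_le`.
* `good_w`: `UU v2 ≤ JN` by `UU_le_conj` (`g v1 = v2`), `good_top` with `x' = v2`.
-/

set_option autoImplicit false
open scoped Pointwise
open Pool.Agent.Helper54.PW Pool.Agent.Helper54.RT

namespace Pool.Agent.Helper54.CL

namespace HF

/-- the long root elements of orthogonal groups in dimension 4 -/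
def Exc {F V : Type} [Field F] [AddCommGroup V] [Module F V] (h : HF F V) (u : V ≃ₗ[F] V) :
    Prop :=
  h.IsO ∧ Module.finrank F V = 4 ∧ ∀ v, u (u v - v) = u v - v

/-- the theorem for all nonexceptional elements of order `p` of `GG` -/
def TT (p : ℕ) (k : Type) [Field k] {F V : Type} [Field F] [AddCommGroup V] [Module F V]
    (h : HF F V) : Prop :=
  ∀ u ∈ h.GG p, u ^ p = 1 → u ≠ 1 → ¬ h.Exc u → RN k (Subgroup.zpowers u) (h.GG p)

/-- good points -/
def Adq {F V : Type} [Field F] [AddCommGroup V] [Module F V] (h : HF F V) (u : V ≃ₗ[F] V)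
    (x : V) : Prop :=
  u x = x ∧ h.B x x = 0 ∧ x ≠ 0 ∧ u ∉ h.UU x ∧
    (h.IsO → Module.finrank F V = 6 →
      ∃ v, h.B x v = 0 ∧ ∀ c : F, u (u v - v) - (u v - v) ≠ c • x)

section
variable {p : ℕ} [Fact p.Prime] {k : Type} [Field k] [IsAlgClosed k] [CharP k p]
  {F V : Type} [Field F] [Finite F] [CharP F p] [AddCommGroup V] [Module F V] [Finite V]
  (h : HF F V)

private theorem isP_zpowers {u : V ≃ₗ[F] V} (hup : u ^ p = 1) :
    IsPGroup p (Subgroup.zpowers u) := by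
  rintro ⟨g, hg⟩
  obtain ⟨n, rfl⟩ := Subgroup.mem_zpowers_iff.1 hg
  refine ⟨1, ?_⟩
  apply Subtype.ext
  show (u ^ n) ^ (p ^ 1) = 1
  rw [pow_one, ← zpow_natCast, ← zpow_mul, mul_comm, zpow_mul, zpow_natCast, hup, one_zpow]

private theorem mem_stabX_of {u : V ≃ₗ[F] V} (hu : u ∈ h.GG p) {x : V} (hx : u x = x) :
    u ∈ h.stabX x := ⟨h.GG_le p hu, hx⟩

theorem adq_rn (hp5 : 5 ≤ p)
    (ih : ∀ (V' : Type) [AddCommGroup V'] [Module F V'] [Finite V'] (h' : HF F V'),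
      Module.finrank F V' < Module.finrank F V → h'.TT p k)
    {u : V ≃ₗ[F] V} (hu : u ∈ h.GG p) (hup : u ^ p = 1) {x y : V} (hA : h.Adq u x)
    (hp : h.Pair x y) (hux : u ∈ h.stabX x) :
    RN k (Subgroup.zpowers (h.psi hp ⟨u, hux⟩)) ((h.restr hp).GG p) ∧
      h.psi hp ⟨u, hux⟩ ≠ 1 := by
  obtain ⟨hx, hxx, hx0, hnU, hex⟩ := hA
  have hfin := h.finrank_perp2 hp
  have hpow : h.psi hp ⟨u, hux⟩ ^ p = 1 := by
    rw [← map_pow]
    have h1 : (⟨u, hux⟩ : h.stabX x) ^ p = 1 := by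
      apply Subtype.ext
      show u ^ p = 1
      exact hup
    rw [h1, map_one]
  have hne : h.psi hp ⟨u, hux⟩ ≠ 1 := by
    intro h1
    exact hnU ((h.psi_ker hp ⟨u, hux⟩).1 h1)
  have hmem : h.psi hp ⟨u, hux⟩ ∈ (h.restr hp).GG p :=
    Subgroup.subset_closure ⟨h.psi_iso hp ⟨u, hux⟩, 1, by rw [pow_one]; exact hpow⟩
  refine ⟨?_, hne⟩
  refine ih (h.perp2 x y) (h.restr hp) (by omega) _ hmem hpow hne ?_
  rintro ⟨hO, h4, hE⟩
  have hO' : h.IsO := (h.restr_isO hp).1 hO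
  have h6 : Module.finrank F V = 6 := by omega
  obtain ⟨v, hv, hvc⟩ := hex hO' h6
  obtain ⟨a, α, ha, e1⟩ : ∃ (a : V) (α : F), a ∈ h.perp2 x y ∧ v = a + α • x := by
    refine ⟨h.p1 x y v, h.ε * h.B y v, ⟨h.p1_x hp v, h.p1_y hp v⟩, ?_⟩
    unfold p1
    rw [hv, zero_smul]
    abel
  obtain ⟨c1, hc1⟩ := h.psi_apply hp ⟨u, hux⟩ ⟨a, ha⟩
  obtain ⟨c2, hc2⟩ := h.psi_apply hp ⟨u, hux⟩
    (h.psi hp ⟨u, hux⟩ ⟨a, ha⟩ - ⟨a, ha⟩)
  rw [hE ⟨a, ha⟩] at hc2
  rw [Submodule.coe_sub, hc1] at hc2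
  have e2 : u v - v = u a - a := by
    rw [e1, map_add, map_smul, hx]
    abel
  apply hvc (-c2)
  rw [e2]
  simp only at hc2
  rw [map_sub, map_add, map_smul, hx] at hc2
  rw [map_sub]
  have h5 := hc2
  rw [neg_smul]
  rw [← sub_eq_zero] at h5 ⊢
  rw [← neg_eq_zero, ← h5]
  abel

theorem two_good (hp5 : 5 ≤ p)
    (ih : ∀ (V' : Type) [AddCommGroup V'] [Module F V'] [Finite V'] (h' : HF F V'),
      Module.finrank F V' < Module.finrank F V → h'.TT p k)
    {u : V ≃ₗ[F] V} (hu : u ∈ h.GG p) (hup : u ^ p = 1) {x x' : V} (hA : h.Adq u x)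
    (hA' : h.Adq u x') (hind : ∀ c : F, x' ≠ c • x) :
    RN k (Subgroup.zpowers u) (h.GG p) := by
  have h2 : (2 : F) ≠ 0 := two_ne (p := p) (by omega)
  obtain ⟨y, hp⟩ := h.exists_partner h2 hA.2.2.1 hA.2.1
  obtain ⟨y', hp'⟩ := h.exists_partner h2 hA'.2.2.1 hA'.2.1
  have hux := h.mem_stabX_of hu hA.1
  have hux' := h.mem_stabX_of hu hA'.1
  obtain ⟨hr, hne⟩ := h.adq_rn hp5 ih hu hup hA hp hux
  obtain ⟨hr', hne'⟩ := h.adq_rn hp5 ih hu hup hA' hp' hux'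
  have hU' := h.good_UU hp5 hp' hu hup hux' hr' hne'
  have htop := h.good_top hp5 hp hu hup hux hr hne (M := JN k (Subgroup.zpowers u) (h.GG p))
    le_rfl hA'.2.1 hind hU'
  exact rn_of_le (isP_zpowers hup) (by rw [Subgroup.zpowers_le]; exact hu) htop

theorem good_w (hp5 : 5 ≤ p)
    (ih : ∀ (V' : Type) [AddCommGroup V'] [Module F V'] [Finite V'] (h' : HF F V'),
      Module.finrank F V' < Module.finrank F V → h'.TT p k)
    {u : V ≃ₗ[F] V} (hu : u ∈ h.GG p) (hup : u ^ p = 1) {v1 v2 : V} (hA : h.Adq u v1)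
    (h22 : h.B v2 v2 = 0) (hind : ∀ c : F, v2 ≠ c • v1)
    (hg : ∃ g ∈ JN k (Subgroup.zpowers u) (h.GG p), g v1 = v2) :
    RN k (Subgroup.zpowers u) (h.GG p) := by
  have h2 : (2 : F) ≠ 0 := two_ne (p := p) (by omega)
  obtain ⟨y, hp⟩ := h.exists_partner h2 hA.2.2.1 hA.2.1
  have hux := h.mem_stabX_of hu hA.1
  obtain ⟨hr, hne⟩ := h.adq_rn hp5 ih hu hup hA hp hux
  have hU := h.good_UU hp5 hp hu hup hux hr hne
  obtain ⟨g, hgJ, hgv⟩ := hg
  have hP : Subgroup.zpowers u ≤ h.GG p := by rw [Subgroup.zpowers_le]; exact hu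
  have hgI : g ∈ h.Iso := h.GG_le p (jn_le hP hgJ)
  have hU2 := h.UU_le_conj hgJ hgI hU
  rw [hgv] at hU2
  have htop := h.good_top hp5 hp hu hup hux hr hne (M := JN k (Subgroup.zpowers u) (h.GG p))
    le_rfl h22 hind hU2
  exact rn_of_le (isP_zpowers hup) hP htop

end
end HF

end Pool.Agent.Helper54.CL
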