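import Pool.Agent.Helper54.CL.Main
import Pool.Agent.Helper54.CL.Quasi

/-!
# CL-25: the simple classical groups

PROOF.  Let `s ∈ GG / center` have order `p`, `s = class of g`.  `g^p` is central, so it is a scalar `c`, `c ≠ 0` (`gg_center`).  Let `m = |Fˣ|`,
prime to `p` (`|F| - 1`, `p ∣ |F|`); `(g^p)^m = 1`, so `u = g^m` satisfies `u^p = 1`.  There is `j` with `m j ≡ 1` mod `p`, and `u^j` has class
`s^(m j) = s`: replace `u` by `u^j`.  `u ≠ 1` because `s ≠ 1`.  `u` is not exceptional (`Ok`: `finrank ≠ 4` in the symmetric case).  `tt_all`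
gives `RN k (zpowers u) GG`, so `RealAct k (zpowers ⟨u, _⟩)` for the group `↥(h.GG p)`; `ra_map` for the projection to the quotient.
-/

set_option autoImplicit false
open scoped Pointwise
open Pool.Agent.Helper54.PW Pool.Agent.Helper54.RT

namespace Pool.Agent.Helper54.CL

theorem win_classical {p : ℕ} [Fact p.Prime] (hp5 : 5 ≤ p) {k : Type} [Field k] [IsAlgClosed k]
    [CharP k p] {F V : Type} [Field F] [Finite F] [CharP F p] [AddCommGroup V] [Module F V]
    [Finite V] (h : HF F V) (hok : h.Ok)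
    (s : h.GG p ⧸ Subgroup.center (h.GG p)) (hs : orderOf s = p) :
    RealAct k (Subgroup.zpowers s) := by
  classical
  have hp : p.Prime := Fact.out
  obtain ⟨g, rfl⟩ := QuotientGroup.mk_surjective s
  -- the power `g ^ p` is a scalar
  have h1 : g ^ p ∈ Subgroup.center (h.GG p) := by
    have h2 : ((g ^ p : h.GG p) : h.GG p ⧸ Subgroup.center (h.GG p)) = 1 := by
      rw [QuotientGroup.mk_pow]
      exact orderOf_dvd_iff_pow_eq_one.1 (dvd_of_eq hs)
    exact (QuotientGroup.eq_one_iff _).1 h2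
  set z : V ≃ₗ[F] V := ((g ^ p : h.GG p) : V ≃ₗ[F] V) with hz
  obtain ⟨c, hc⟩ := h.gg_center hp5 hok (g := z) (h.GG_le p (g ^ p).2) (by
    intro e he
    have h2 := Subgroup.mem_center_iff.1 h1 ⟨e, he⟩
    exact (congrArg Subtype.val h2).symm)
  have hc0 : c ≠ 0 := by
    rintro rfl
    obtain ⟨⟨x, hx0, -⟩, -⟩ := hok
    apply hx0
    have h2 := hc x
    rw [zero_smul] at h2
    exact z.map_eq_zero_iff.1 h2
  have := Fintype.ofFinite F
  set m : ℕ := Fintype.card F - 1 with hm
  have hcm : c ^ m = 1 := FiniteField.pow_card_sub_one_eq_one c hc0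
  have hzn : ∀ (n : ℕ) (v : V), (z ^ n) v = c ^ n • v := by
    intro n
    induction n with
    | zero => intro v; rw [pow_zero, pow_zero, one_smul]; rfl
    | succ n ih =>
      intro v
      rw [pow_succ, pow_succ]
      change (z ^ n) (z v) = _
      rw [hc, map_smul, ih, smul_smul, mul_comm]
  have hzm : z ^ m = 1 := by
    ext v
    rw [hzn, hcm, one_smul]
    rfl
  have hcop : m.Coprime p := by
    obtain ⟨n, hn⟩ := FiniteField.card F p
    have h2 : p ∣ Fintype.card F := by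
      rw [hn.2]
      exact dvd_pow_self p n.pos.ne'
    have h3 : 1 ≤ Fintype.card F := Fintype.card_pos
    rw [Nat.coprime_comm, hp.coprime_iff_not_dvd]
    intro h4
    have h5 : p ∣ Fintype.card F - m := Nat.dvd_sub h2 h4
    have h6 : Fintype.card F - m = 1 := by omega
    rw [h6] at h5
    exact hp.one_lt.ne' (Nat.dvd_one.1 h5)
  obtain ⟨j, -, hj⟩ := Nat.exists_mul_mod_eq_one_of_coprime hcop hp.one_lt
  -- the element `u`
  set u : h.GG p := g ^ (m * j) with hu
  have hus : (u : h.GG p ⧸ Subgroup.center (h.GG p)) =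
      (g : h.GG p ⧸ Subgroup.center (h.GG p)) := by
    rw [hu, QuotientGroup.mk_pow, ← pow_mod_orderOf, hs, hj, pow_one]
  have hup : (u : V ≃ₗ[F] V) ^ p = 1 := by
    have h3 : u ^ p = ((g ^ p) ^ m) ^ j := by
      rw [hu, ← pow_mul, ← pow_mul, ← pow_mul]
      congr 1
      ring
    have h4 : ((u ^ p : h.GG p) : V ≃ₗ[F] V) = 1 := by
      rw [h3, Subgroup.coe_pow, Subgroup.coe_pow, ← hz, hzm, one_pow]
    rw [← Subgroup.coe_pow]
    exact h4
  have hu1 : (u : V ≃ₗ[F] V) ≠ 1 := by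
    intro h2
    have h3 : u = 1 := Subtype.ext h2
    rw [h3, QuotientGroup.mk_one] at hus
    rw [← hus, orderOf_one] at hs
    exact hp.one_lt.ne hs
  have hex : ¬ h.Exc (u : V ≃ₗ[F] V) := by
    rintro ⟨h2, h3, -⟩
    rcases hok.2 h2 with h4 | h4 <;> omega
  have hRN := h.tt_all (k := k) hp5 (u : V ≃ₗ[F] V) u.2 hup hu1 hex
  have h2 := ra_map (QuotientGroup.mk' (Subgroup.center (h.GG p)))
    (QuotientGroup.mk'_surjective _) hRN.2.1
  have h3 : (Subgroup.zpowers (u : V ≃ₗ[F] V)).subgroupOf (h.GG p) = Subgroup.zpowers u := by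
    ext x
    rw [Subgroup.mem_subgroupOf, Subgroup.mem_zpowers_iff, Subgroup.mem_zpowers_iff]
    constructor
    · rintro ⟨n, hn⟩
      refine ⟨n, Subtype.ext ?_⟩
      rw [Subgroup.coe_zpow]
      exact hn
    · rintro ⟨n, rfl⟩
      exact ⟨n, by rw [Subgroup.coe_zpow]⟩
  rw [h3, MonoidHom.map_zpowers] at h2
  rw [← hus]
  exact h2

end Pool.Agent.Helper54.CL
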