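import Pool.Agent.Helper54.CL.Rad
import Pool.Agent.Helper54.CL.Cw
import Pool.Agent.Helper54.RT.PPrime

/-!
# CL-29: simple classical groups over fields of characteristic `l ≠ p`, dimension at least `p + 2`

PROOF (compare `win_sl_cross` in PR/SLCross.lean).  Let `X = ↥(h.GG l)`, `s = class of g`; `g^p` is central, so it is a scalar `c` (`gg_center`).
`exists_inv_ti`, `exists_inv_dual`: `W ≠ 0`, `W'`, invariant under `g` (and `g⁻¹`: `g W = W` by dimension).  `G = X ⧸ center X`, `P = zpowers s`.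
`RW W ≤ GG l` (`RW_pow`); let `Q1`, `Q2` be the images of `RW W`, `RW W'` in `G`: every element has order a power of `l`
(`RW_pow`), so their orders are prime to `p`; they are `l`-groups, so solvable, and normalized by `s` (`RW_conj`).  `Qi ⊔ P` is
solvable and `P.relIndex (Qi ⊔ P)` divides `|Qi|`, so `Qi ≤ JJ k P ⊔ N(P)` (`jj_sylow_solvable`).  By `rad_gen` the preimage of
`JJ k P ⊔ N(P)` is everything.  The normal closure of `P` is `⊤` by `qs_GG` (its preimage in `X` is normal and not central, `s ≠ 1`).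
`jj_crit`.
-/

set_option autoImplicit false
open scoped Pointwise
open Pool.Agent.Helper54.PW Pool.Agent.Helper54.RT

namespace Pool.Agent.Helper54.CL

/-! ### groups -/

private theorem wx_sup {p : ℕ} {G : Type} [Group G] [Finite G] (Q P : Subgroup G)
    (hQ : Group.IsSolvable Q) (hn : ∀ y ∈ P, ∀ a ∈ Q, y * a * y⁻¹ ∈ Q)
    (hPs : Group.IsSolvable P) (hp : ¬ p ∣ Nat.card Q) :
    Group.IsSolvable ↥(Q ⊔ P) ∧ ¬ p ∣ P.relIndex (Q ⊔ P) := by
  have hPN : P ≤ Subgroup.normalizer (Q : Set G) := by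
    intro y hy
    rw [Subgroup.mem_normalizer_iff]
    intro a
    refine ⟨fun ha => hn y hy a ha, fun ha => ?_⟩
    have h1 := hn y⁻¹ (inv_mem hy) _ ha
    have h2 : y⁻¹ * (y * a * y⁻¹) * y⁻¹⁻¹ = a := by group
    rwa [h2] at h1
  have hQK : Q ≤ Q ⊔ P := le_sup_left
  have hPK : P ≤ Q ⊔ P := le_sup_right
  have hnorm : (Q.subgroupOf (Q ⊔ P)).Normal := by
    rw [Subgroup.normal_subgroupOf_iff_le_normalizer hQK]
    exact sup_le Subgroup.le_normalizer hPN
  have htop : Q.subgroupOf (Q ⊔ P) ⊔ P.subgroupOf (Q ⊔ P) = ⊤ := by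
    rw [← Subgroup.subgroupOf_sup hQK hPK, Subgroup.subgroupOf_self]
  constructor
  · have hs1 : Group.IsSolvable (Q.subgroupOf (Q ⊔ P)) :=
      Group.isSolvable_of_surjective (f := (Subgroup.subgroupOfEquivOfLe hQK).symm.toMonoidHom)
        (Subgroup.subgroupOfEquivOfLe hQK).symm.surjective
    have hs2 : Group.IsSolvable (P.subgroupOf (Q ⊔ P)) :=
      Group.isSolvable_of_surjective (f := (Subgroup.subgroupOfEquivOfLe hPK).symm.toMonoidHom)
        (Subgroup.subgroupOfEquivOfLe hPK).symm.surjective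
    have hmap : (P.subgroupOf (Q ⊔ P)).map (QuotientGroup.mk' (Q.subgroupOf (Q ⊔ P))) = ⊤ := by
      have h1 := congrArg (Subgroup.map (QuotientGroup.mk' (Q.subgroupOf (Q ⊔ P)))) htop
      rw [Subgroup.map_sup, QuotientGroup.map_mk'_self, bot_sup_eq,
        Subgroup.map_top_of_surjective _ (QuotientGroup.mk'_surjective _)] at h1
      exact h1
    have hs3 : Group.IsSolvable (↥(Q ⊔ P) ⧸ Q.subgroupOf (Q ⊔ P)) := by
      refine Group.isSolvable_of_surjective (f := (QuotientGroup.mk' (Q.subgroupOf (Q ⊔ P))).comp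
        (P.subgroupOf (Q ⊔ P)).subtype) ?_
      rw [← MonoidHom.range_eq_top, MonoidHom.range_comp, Subgroup.range_subtype]
      exact hmap
    refine Group.isSolvable_of_ker_le_range (Q.subgroupOf (Q ⊔ P)).subtype
      (QuotientGroup.mk' (Q.subgroupOf (Q ⊔ P))) ?_
    rw [QuotientGroup.ker_mk', Subgroup.range_subtype]
  · intro hd
    apply hp
    have h1 := (P.subgroupOf (Q ⊔ P)).card_mul_index
    have h2 := (Q.subgroupOf (Q ⊔ P)).card_mul_index
    have h3 : (Q.subgroupOf (Q ⊔ P)).index =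
        (Q.subgroupOf (Q ⊔ P)).relIndex (P.subgroupOf (Q ⊔ P)) := by
      rw [← Subgroup.relIndex_top_right, ← htop, Subgroup.relIndex_sup_left]
    have h4 := ((Q.subgroupOf (Q ⊔ P)).subgroupOf (P.subgroupOf (Q ⊔ P))).card_mul_index
    have h5 : Nat.card (Q.subgroupOf (Q ⊔ P)) = Nat.card Q :=
      Nat.card_congr (Subgroup.subgroupOfEquivOfLe hQK).toEquiv
    rw [h3, ← h1, ← h4, h5] at h2
    change Nat.card Q * _ = _ * (Q.subgroupOf (Q ⊔ P)).relIndex (P.subgroupOf (Q ⊔ P)) * _ at h2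
    set r := (Q.subgroupOf (Q ⊔ P)).relIndex (P.subgroupOf (Q ⊔ P)) with hr
    have hr0 : 0 < r := Nat.pos_of_ne_zero Subgroup.FiniteIndex.index_ne_zero
    have h6 : Nat.card Q = Nat.card ((Q.subgroupOf (Q ⊔ P)).subgroupOf (P.subgroupOf (Q ⊔ P))) *
        (P.subgroupOf (Q ⊔ P)).index := by
      apply Nat.eq_of_mul_eq_mul_right hr0
      rw [h2]
      ring
    rw [h6]
    exact dvd_mul_of_dvd_right hd _

private theorem wx_pgroup_solvable {q : ℕ} [Fact q.Prime] {G : Type} [Group G] [Finite G]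
    (hG : IsPGroup q G) : Group.IsSolvable G := by
  have h := hG.isNilpotent
  infer_instance

/-! ### the unipotent radical -/

private theorem wx_inv {F V : Type} [Field F] [AddCommGroup V] [Module F V] [Finite V]
    {W : Submodule F V} (g : V ≃ₗ[F] V) (hg : ∀ v ∈ W, g v ∈ W) (v : V) : g v ∈ W ↔ v ∈ W := by
  refine ⟨fun hv => ?_, hg v⟩
  have h1 : Function.Injective (fun w : W => (⟨g w, hg w w.2⟩ : W)) := by
    intro a b hab
    have h2 : g a = g b := congrArg Subtype.val hab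
    exact Subtype.ext (g.injective h2)
  have h3 : Function.Surjective (fun w : W => (⟨g w, hg w w.2⟩ : W)) :=
    Finite.surjective_of_injective h1
  obtain ⟨w, hw⟩ := h3 ⟨g v, hv⟩
  have h4 : g w = g v := congrArg Subtype.val hw
  rw [← g.injective h4]
  exact w.2

private theorem wx_le {l : ℕ} [Fact l.Prime] {F V : Type} [Field F] [CharP F l]
    [AddCommGroup V] [Module F V] (h : HF F V) {W : Submodule F V}
    (hW : ∀ v ∈ W, ∀ w ∈ W, h.B v w = 0) : h.RW W hW ≤ h.GG l := by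
  intro e he
  exact Subgroup.subset_closure ⟨he.1, 2, h.RW_pow he⟩

private theorem wx_mem {p : ℕ} [Fact p.Prime] {k : Type} [Field k] [IsAlgClosed k]
    [CharP k p] {l : ℕ} [Fact l.Prime] (hlp : l ≠ p) {F V : Type} [Field F]
    [CharP F l] [AddCommGroup V] [Module F V] [Finite V] (h : HF F V) {W : Submodule F V}
    (hW : ∀ v ∈ W, ∀ w ∈ W, h.B v w = 0) (g : h.GG l)
    (hgW : ∀ v ∈ W, (g : V ≃ₗ[F] V) v ∈ W)
    {P : Subgroup (h.GG l ⧸ Subgroup.center (h.GG l))} (hP : IsPGroup p P)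
    (hPg : P = (Subgroup.zpowers g).map (QuotientGroup.mk' (Subgroup.center (h.GG l)))) :
    h.RW W hW ≤ ((JJ k P ⊔ Subgroup.normalizer (P : Set (h.GG l ⧸ Subgroup.center (h.GG l)))).comap
      (QuotientGroup.mk' (Subgroup.center (h.GG l)))).map (h.GG l).subtype := by
  have hpp : p.Prime := Fact.out
  have hlpr : l.Prime := Fact.out
  set π := QuotientGroup.mk' (Subgroup.center (h.GG l)) with hπ
  set U := (h.RW W hW).comap (h.GG l).subtype with hU
  have hbd : ∀ x ∈ Subgroup.zpowers g, ∀ v, (x : V ≃ₗ[F] V) v ∈ W ↔ v ∈ W := by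
    intro x hx
    rw [← mem_powers_iff_mem_zpowers] at hx
    obtain ⟨n, rfl⟩ := hx
    refine wx_inv _ ?_
    change ∀ v ∈ W, ((g ^ n : h.GG l) : V ≃ₗ[F] V) v ∈ W
    induction n with
    | zero =>
      intro v hv
      rw [pow_zero]
      exact hv
    | succ n ih =>
      intro v hv
      rw [pow_succ]
      exact ih _ (hgW v hv)
  have hUl : IsPGroup l (U.map π) := by
    rintro ⟨_, ⟨a, ha, rfl⟩⟩
    refine ⟨2, ?_⟩
    apply Subtype.ext
    change π a ^ l ^ 2 = 1
    rw [← map_pow]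
    have h1 : a ^ l ^ 2 = 1 := by
      apply Subtype.ext
      exact h.RW_pow (hW := hW) (g := (a : V ≃ₗ[F] V)) ha
    rw [h1, map_one]
  have c1 : Group.IsSolvable (U.map π) := wx_pgroup_solvable hUl
  have c2 : ∀ y ∈ P, ∀ a ∈ U.map π, y * a * y⁻¹ ∈ U.map π := by
    intro y hy
    rw [hPg] at hy
    obtain ⟨x, hx, rfl⟩ := hy
    rintro _ ⟨a, ha, rfl⟩
    refine ⟨x * a * x⁻¹, ?_, by rw [map_mul, map_mul, map_inv]⟩
    exact h.RW_conj (hW := hW) (h.GG_le l x.2) (hbd x hx) ha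
  have c3 : Group.IsSolvable P := wx_pgroup_solvable hP
  have c4 : ¬ p ∣ Nat.card (U.map π) := by
    intro hdvd
    obtain ⟨n, hn⟩ := IsPGroup.iff_card.1 hUl
    rw [hn] at hdvd
    have h1 := hpp.dvd_of_dvd_pow hdvd
    exact hlp ((Nat.prime_dvd_prime_iff_eq hpp hlpr).1 h1).symm
  obtain ⟨hsol, hd⟩ := wx_sup (p := p) (U.map π) P c1 c2 c3 c4
  have h1 := jj_sylow_solvable (k := k) hP (le_sup_right : P ≤ U.map π ⊔ P) hsol hd
  intro e he
  have heG : e ∈ h.GG l := wx_le h hW he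
  refine ⟨⟨e, heG⟩, ?_, rfl⟩
  exact h1 ((le_sup_left : U.map π ≤ U.map π ⊔ P) (Subgroup.mem_map_of_mem π
    (show (⟨e, heG⟩ : h.GG l) ∈ U from he)))

/-- the same if every element of order `p` of the simple group leaves invariant a totally isotropic subspace `≠ 0` -/
theorem win_classical_cross_par {p : ℕ} [Fact p.Prime] (hp3 : 3 ≤ p) {k : Type} [Field k]
    [IsAlgClosed k] [CharP k p] {l : ℕ} [Fact l.Prime] (hl5 : 5 ≤ l) (hlp : l ≠ p)
    {F V : Type} [Field F] [Finite F] [CharP F l] [AddCommGroup V] [Module F V]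
    [Finite V] (h : HF F V) (hok : h.Ok)
    (hpar : ∀ g ∈ h.GG l, (∃ c : F, ∀ v, (g ^ p) v = c • v) → (¬ ∃ c : F, ∀ v, g v = c • v) →
      ∃ W : Submodule F V, W ≠ ⊥ ∧ (∀ v ∈ W, ∀ w ∈ W, h.B v w = 0) ∧ ∀ v ∈ W, g v ∈ W)
    (s : h.GG l ⧸ Subgroup.center (h.GG l)) (hs : orderOf s = p) :
    RealAct k (Subgroup.zpowers s) := by
  have hpp : p.Prime := Fact.out
  have hlpr : l.Prime := Fact.out
  obtain ⟨-, hnorm⟩ := h.qs_GG (p := l) hl5 hok
  have hpF : (p : F) ≠ 0 := by
    intro h0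
    have h1 := (CharP.cast_eq_zero_iff F l p).1 h0
    exact hlp ((Nat.prime_dvd_prime_iff_eq hlpr hpp).1 h1)
  have h2F : (2 : F) ≠ 0 := by
    intro h0
    have h1 := (CharP.cast_eq_zero_iff F l 2).1 (by exact_mod_cast h0)
    have h2 := Nat.le_of_dvd (by norm_num) h1
    omega
  have hP : IsPGroup p (Subgroup.zpowers s) :=
    IsPGroup.of_card (n := 1) (by rw [Nat.card_zpowers, hs, pow_one])
  have hs1 : s ≠ 1 := by
    intro h
    rw [h, orderOf_one] at hs
    exact hpp.one_lt.ne hs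
  obtain ⟨g, hg⟩ := QuotientGroup.mk'_surjective (Subgroup.center (h.GG l)) s
  have hgen : Subgroup.normalClosure (Subgroup.zpowers s :
      Set (h.GG l ⧸ Subgroup.center (h.GG l))) = ⊤ := by
    have hsM : s ∈ Subgroup.normalClosure (Subgroup.zpowers s :
      Set (h.GG l ⧸ Subgroup.center (h.GG l))) :=
      Subgroup.subset_normalClosure (Subgroup.mem_zpowers s)
    rcases hnorm ((Subgroup.normalClosure (Subgroup.zpowers s :
      Set (h.GG l ⧸ Subgroup.center (h.GG l)))).comap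
      (QuotientGroup.mk' (Subgroup.center (h.GG l)))) inferInstance with h' | h'
    · exfalso
      apply hs1
      rw [← hg]
      refine (QuotientGroup.eq_one_iff g).2 (h' ?_)
      rw [Subgroup.mem_comap, hg]
      exact hsM
    · rw [eq_top_iff]
      intro y _
      obtain ⟨x, rfl⟩ := QuotientGroup.mk'_surjective (Subgroup.center (h.GG l)) y
      have h1 : x ∈ (Subgroup.normalClosure (Subgroup.zpowers s :
        Set (h.GG l ⧸ Subgroup.center (h.GG l)))).comap
        (QuotientGroup.mk' (Subgroup.center (h.GG l))) := by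
        rw [h']
        exact Subgroup.mem_top x
      exact h1
  -- the `p`-th power of `g` is a scalar
  have hgp : g ^ p ∈ Subgroup.center (h.GG l) := by
    rw [← QuotientGroup.eq_one_iff]
    change QuotientGroup.mk' (Subgroup.center (h.GG l)) (g ^ p) = 1
    rw [map_pow, hg, ← hs, pow_orderOf_eq_one]
  have hgI : (g : V ≃ₗ[F] V) ∈ h.Iso := h.GG_le l g.2
  obtain ⟨c, hc⟩ := h.gg_center (p := l) hl5 hok (g := (g : V ≃ₗ[F] V) ^ p)
    (h.Iso.pow_mem hgI p) (by
      intro e he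
      have h1 := (Subgroup.mem_center_iff.1 hgp) ⟨e, he⟩
      have h2 := congrArg (Subtype.val) h1
      exact h2.symm)
  have hns : ¬ ∃ d : F, ∀ v, (g : V ≃ₗ[F] V) v = d • v := by
    rintro ⟨d, hd⟩
    apply hs1
    rw [← hg]
    refine (QuotientGroup.eq_one_iff g).2 ?_
    rw [Subgroup.mem_center_iff]
    intro e
    apply Subtype.ext
    apply LinearEquiv.ext
    intro v
    show (e : V ≃ₗ[F] V) ((g : V ≃ₗ[F] V) v) = (g : V ≃ₗ[F] V) ((e : V ≃ₗ[F] V) v)
    rw [hd, hd, map_smul]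
  obtain ⟨W, hW0, hWti, hgW⟩ := hpar _ g.2 ⟨c, hc⟩ hns
  obtain ⟨W', hd, hgW'⟩ := h.exists_inv_dual hpp hpF h2F hgI hc hWti hgW
  have hPg : Subgroup.zpowers s = (Subgroup.zpowers g).map
      (QuotientGroup.mk' (Subgroup.center (h.GG l))) := by
    rw [MonoidHom.map_zpowers, hg]
  refine jj_crit hP hgen ?_
  set L := JJ k (Subgroup.zpowers s) ⊔ Subgroup.normalizer (Subgroup.zpowers s :
    Set (h.GG l ⧸ Subgroup.center (h.GG l))) with hL
  have hK : h.GG l ≤ (L.comap (QuotientGroup.mk' (Subgroup.center (h.GG l)))).map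
      (h.GG l).subtype :=
    h.rad_gen hl5 hok hd hW0 (wx_mem (k := k) hlp h hd.ti g hgW hP hPg)
      (wx_mem (k := k) hlp h hd.ti' g hgW' hP hPg)
  rw [eq_top_iff]
  intro y _
  obtain ⟨x, rfl⟩ := QuotientGroup.mk'_surjective (Subgroup.center (h.GG l)) y
  obtain ⟨x', hx', hxx⟩ := hK x.2
  have h1 : x' = x := Subtype.ext hxx
  rw [← h1]
  exact hx'

theorem win_classical_cross {p : ℕ} [Fact p.Prime] (hp3 : 3 ≤ p) {k : Type} [Field k]
    [IsAlgClosed k] [CharP k p] {l : ℕ} [Fact l.Prime] (hl5 : 5 ≤ l) (hlp : l ≠ p)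
    {F V : Type} [Field F] [Finite F] [CharP F l] [AddCommGroup V] [Module F V]
    [Finite V] (h : HF F V) (hok : h.Ok) (hdim : p + 2 ≤ Module.finrank F V)
    (s : h.GG l ⧸ Subgroup.center (h.GG l)) (hs : orderOf s = p) :
    RealAct k (Subgroup.zpowers s) := by
  have h2F : (2 : F) ≠ 0 := by
    intro h0
    have h1 := (CharP.cast_eq_zero_iff F l 2).1 (by exact_mod_cast h0)
    have h2 := Nat.le_of_dvd (by norm_num) h1
    omega
  refine win_classical_cross_par hp3 hl5 hlp h hok ?_ s hs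
  rintro g hg ⟨c, hc⟩ -
  exact h.exists_inv_ti Fact.out hp3 (h.GG_le l hg) hc hdim h2F

end Pool.Agent.Helper54.CL
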